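import Mathlib

/-!
# Elementary bounds for binomial coefficients near the middle
-/

set_option autoImplicit false

open Finset

namespace Pool.Agent.RMC53

lemma cb_lower (n : ℕ) (hn : 1 ≤ n) : 16 ^ n ≤ 4 * n * (Nat.centralBinom n) ^ 2 := by
  induction n, hn using Nat.le_induction with
  | base => simp [Nat.centralBinom]
  | succ n hn ih =>
    have h1 := Nat.succ_mul_centralBinom_succ n
    have hpos : 0 < (n + 1) ^ 2 := by positivity
    refine Nat.le_of_mul_le_mul_left ?_ hpos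
    calc (n + 1) ^ 2 * 16 ^ (n + 1) = 16 * (n + 1) ^ 2 * 16 ^ n := by ring
      _ ≤ 16 * (n + 1) ^ 2 * (4 * n * (Nat.centralBinom n) ^ 2) := Nat.mul_le_mul_left _ ih
      _ ≤ 4 * (n + 1) * (2 * (2 * n + 1) * Nat.centralBinom n) ^ 2 := by
          have h2 : 4 * n * (n + 1) ≤ (2 * n + 1) ^ 2 := by nlinarith
          calc 16 * (n + 1) ^ 2 * (4 * n * (Nat.centralBinom n) ^ 2)
              = (16 * (n + 1) * (Nat.centralBinom n) ^ 2) * (4 * n * (n + 1)) := by ring
            _ ≤ (16 * (n + 1) * (Nat.centralBinom n) ^ 2) * (2 * n + 1) ^ 2 :=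
                Nat.mul_le_mul_left _ h2
            _ = _ := by ring
      _ = 4 * (n + 1) * ((n + 1) * Nat.centralBinom (n + 1)) ^ 2 := by rw [← h1]
      _ = (n + 1) ^ 2 * (4 * (n + 1) * (Nat.centralBinom (n + 1)) ^ 2) := by ring

lemma cb_upper (n : ℕ) : (2 * n + 1) * (Nat.centralBinom n) ^ 2 ≤ 16 ^ n := by
  induction n with
  | zero => simp [Nat.centralBinom]
  | succ n ih =>
    have h1 := Nat.succ_mul_centralBinom_succ n
    have hpos : 0 < (n + 1) ^ 2 := by positivity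
    refine Nat.le_of_mul_le_mul_left ?_ hpos
    calc (n + 1) ^ 2 * ((2 * (n + 1) + 1) * (Nat.centralBinom (n + 1)) ^ 2)
        = (2 * n + 3) * ((n + 1) * Nat.centralBinom (n + 1)) ^ 2 := by ring
      _ = (2 * n + 3) * (2 * (2 * n + 1) * Nat.centralBinom n) ^ 2 := by rw [← h1]
      _ = (4 * (2 * n + 3) * (2 * n + 1)) * ((2 * n + 1) * (Nat.centralBinom n) ^ 2) := by ring
      _ ≤ (4 * (2 * n + 3) * (2 * n + 1)) * 16 ^ n := Nat.mul_le_mul_left _ ih
      _ ≤ (16 * (n + 1) ^ 2) * 16 ^ n := by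
          refine Nat.mul_le_mul_right _ ?_
          nlinarith
      _ = (n + 1) ^ 2 * 16 ^ (n + 1) := by ring

/-- central binomial coefficients, real version -/
lemma cb_lower_real (n : ℕ) (hn : 1 ≤ n) :
    (4 : ℝ) ^ n ≤ 2 * √(n : ℝ) * ((2 * n).choose n : ℝ) := by
  have h1 : ((16 ^ n : ℕ) : ℝ) ≤ ((4 * n * (Nat.centralBinom n) ^ 2 : ℕ) : ℝ) := by
    exact_mod_cast cb_lower n hn
  push_cast at h1
  rw [Nat.centralBinom_eq_two_mul_choose] at h1
  have h2 : (0 : ℝ) ≤ n := Nat.cast_nonneg n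
  have h3 : ((4 : ℝ) ^ n) ^ 2 ≤ (2 * √(n : ℝ) * ((2 * n).choose n : ℝ)) ^ 2 := by
    rw [mul_pow, mul_pow, Real.sq_sqrt h2, ← pow_mul, mul_comm n 2, pow_mul]
    norm_num
    linarith
  exact le_of_sq_le_sq h3 (by positivity)

lemma cb_upper_real (n : ℕ) : ((2 * n).choose n : ℝ) * √(2 * n : ℝ) ≤ 4 ^ n := by
  have h1 : (((2 * n + 1) * (Nat.centralBinom n) ^ 2 : ℕ) : ℝ) ≤ ((16 ^ n : ℕ) : ℝ) := by
    exact_mod_cast cb_upper n
  push_cast at h1
  rw [Nat.centralBinom_eq_two_mul_choose] at h1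
  have h2 : (0 : ℝ) ≤ 2 * n := by positivity
  have h3 : (((2 * n).choose n : ℝ) * √(2 * n : ℝ)) ^ 2 ≤ ((4 : ℝ) ^ n) ^ 2 := by
    rw [mul_pow, Real.sq_sqrt h2, ← pow_mul, mul_comm n 2, pow_mul]
    norm_num
    nlinarith [sq_nonneg ((2 * n).choose n : ℝ)]
  exact le_of_sq_le_sq h3 (by positivity)

lemma choose_step (n s : ℕ) (hs : s + 1 ≤ n) :
    ((2 * n).choose (n - (s + 1)) : ℝ) * (n + s + 1) = ((2 * n).choose (n - s) : ℝ) * (n - s) := by
  have h1 := Nat.choose_succ_right_eq (2 * n) (n - (s + 1))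
  have e1 : n - (s + 1) + 1 = n - s := by omega
  have e2 : 2 * n - (n - (s + 1)) = n + s + 1 := by omega
  rw [e1, e2] at h1
  have h2 : (((2 * n).choose (n - s) * (n - s) : ℕ) : ℝ) =
      (((2 * n).choose (n - (s + 1)) * (n + s + 1) : ℕ) : ℝ) := by rw [h1]
  have e3 : ((n - s : ℕ) : ℝ) = (n : ℝ) - s := by rw [Nat.cast_sub (by omega)]
  push_cast [e3] at h2
  exact h2.symm

/-- upper bound off the middle -/
lemma choose_upper (n s : ℕ) (hs : s ≤ n) :
    ((2 * n).choose (n - s) : ℝ) ≤ ((2 * n).choose n : ℝ) *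
      Real.exp (-((s : ℝ) ^ 2 / (n + s))) := by
  induction s with
  | zero => simp
  | succ s ih =>
    have ih' := ih (by omega)
    have h1 := choose_step n s hs
    have hsn : (s : ℝ) + 1 ≤ n := by exact_mod_cast hs
    have hs0 : (0 : ℝ) ≤ s := Nat.cast_nonneg s
    have hd1 : (0 : ℝ) < n + s + 1 := by linarith
    have hd2 : (0 : ℝ) < n + s := by linarith
    have hc0 : (0 : ℝ) ≤ ((2 * n).choose n : ℝ) := Nat.cast_nonneg _
    have h2 : ((2 * n).choose (n - (s + 1)) : ℝ) =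
        ((2 * n).choose (n - s) : ℝ) * ((n - s) / (n + s + 1)) := by
      rw [mul_div_assoc', eq_div_iff hd1.ne', h1]
    have h3 : ((n : ℝ) - s) / (n + s + 1) ≤ Real.exp (-((2 * s + 1) / (n + s + 1))) := by
      have h4 := Real.add_one_le_exp (-((2 * (s : ℝ) + 1) / (n + s + 1)))
      have h5 : ((n : ℝ) - s) / (n + s + 1) = -((2 * s + 1) / (n + s + 1)) + 1 := by
        field_simp; ring
      rw [h5]; exact h4
    rw [h2]
    push_cast
    calc ((2 * n).choose (n - s) : ℝ) * (((n : ℝ) - s) / (n + s + 1))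
        ≤ (((2 * n).choose n : ℝ) * Real.exp (-((s : ℝ) ^ 2 / (n + s)))) *
          Real.exp (-((2 * s + 1) / (n + s + 1))) :=
          mul_le_mul ih' h3 (div_nonneg (by linarith) hd1.le) (by positivity)
      _ = ((2 * n).choose n : ℝ) *
          Real.exp (-((s : ℝ) ^ 2 / (n + s)) + -((2 * s + 1) / (n + s + 1))) := by
          rw [mul_assoc, ← Real.exp_add]
      _ ≤ ((2 * n).choose n : ℝ) * Real.exp (-(((s : ℝ) + 1) ^ 2 / (n + (s + 1)))) := by
          refine mul_le_mul_of_nonneg_left (Real.exp_le_exp.2 ?_) hc0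
          have h4 : (s : ℝ) ^ 2 / (n + s + 1) ≤ (s : ℝ) ^ 2 / (n + s) :=
            div_le_div_of_nonneg_left (sq_nonneg _) hd2 (by linarith)
          have h5 : ((s : ℝ) + 1) ^ 2 / (n + (s + 1)) =
              (s : ℝ) ^ 2 / (n + s + 1) + (2 * s + 1) / (n + s + 1) := by
            rw [← add_assoc, ← add_div]; congr 1; ring
          rw [h5]; linarith

/-- lower bound off the middle -/
lemma choose_lower (n s : ℕ) (hs : s ≤ n) :
    ((2 * n).choose n : ℝ) * Real.exp (-((s : ℝ) ^ 2 / (n - s + 1))) ≤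
      ((2 * n).choose (n - s) : ℝ) := by
  induction s with
  | zero => simp
  | succ s ih =>
    have ih' := ih (by omega)
    have h1 := choose_step n s hs
    have hsn : (s : ℝ) + 1 ≤ n := by exact_mod_cast hs
    have hs0 : (0 : ℝ) ≤ s := Nat.cast_nonneg s
    have hd1 : (0 : ℝ) < n + s + 1 := by linarith
    have hd2 : (0 : ℝ) < n - s := by linarith
    have hd3 : (0 : ℝ) < n - s + 1 := by linarith
    have hc0 : (0 : ℝ) ≤ ((2 * n).choose n : ℝ) := Nat.cast_nonneg _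
    have h2 : ((2 * n).choose (n - (s + 1)) : ℝ) =
        ((2 * n).choose (n - s) : ℝ) * ((n - s) / (n + s + 1)) := by
      rw [mul_div_assoc', eq_div_iff hd1.ne', h1]
    have h3 : Real.exp (-((2 * s + 1) / (n - s))) ≤ ((n : ℝ) - s) / (n + s + 1) := by
      rw [Real.exp_neg, inv_le_comm₀ (Real.exp_pos _) (div_pos hd2 hd1), inv_div]
      have h4 := Real.add_one_le_exp ((2 * (s : ℝ) + 1) / (n - s))
      have h5 : ((n : ℝ) + s + 1) / (n - s) = (2 * s + 1) / (n - s) + 1 := by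
        field_simp; ring
      rw [h5]; exact h4
    rw [h2]
    push_cast
    calc ((2 * n).choose n : ℝ) * Real.exp (-(((s : ℝ) + 1) ^ 2 / (n - (s + 1) + 1)))
        ≤ ((2 * n).choose n : ℝ) *
          Real.exp (-((s : ℝ) ^ 2 / (n - s + 1)) + -((2 * s + 1) / (n - s))) := by
          refine mul_le_mul_of_nonneg_left (Real.exp_le_exp.2 ?_) hc0
          have h4 : (s : ℝ) ^ 2 / (n - s + 1) ≤ (s : ℝ) ^ 2 / (n - s) :=
            div_le_div_of_nonneg_left (sq_nonneg _) hd2 (by linarith)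
          have h5 : ((s : ℝ) + 1) ^ 2 / (n - (s + 1) + 1) =
              (s : ℝ) ^ 2 / (n - s) + (2 * s + 1) / (n - s) := by
            rw [← add_div]; congr 1 <;> ring
          rw [h5]; linarith
      _ = (((2 * n).choose n : ℝ) * Real.exp (-((s : ℝ) ^ 2 / (n - s + 1)))) *
          Real.exp (-((2 * s + 1) / (n - s))) := by
          rw [mul_assoc, ← Real.exp_add]
      _ ≤ _ := mul_le_mul ih' h3 (Real.exp_pos _).le (Nat.cast_nonneg _)

end Pool.Agent.RMC53
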