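import Pool.Agent.RMC53.Tal

/-!
# Large classes of colourings with almost the same sums
-/

set_option autoImplicit false

open Finset

namespace Pool.Agent.RMC53

variable {α ι : Type*} [Fintype α] [DecidableEq α] [Fintype ι] [DecidableEq ι]

/-- sums of products over colourings -/
lemma sum_prod (φ : α → Bool → ℝ) :
    ∑ f : α → Bool, ∏ x, φ x (f x) = ∏ x, (φ x true + φ x false) := by
  have h := Finset.prod_univ_sum (fun _ : α => (univ : Finset Bool)) φ
  rw [Fintype.piFinset_univ] at h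
  rw [← h]
  refine Finset.prod_congr rfl fun x _ => ?_
  rw [Fintype.sum_bool]

lemma card_bool : (Fintype.card (α → Bool) : ℝ) = 2 ^ Fintype.card α := by
  rw [Fintype.card_fun, Fintype.card_bool]; push_cast; rfl

/-- the sum of a colouring over `V` -/
def W (χ : ι → α → ℝ) (V : Finset α) (f : α → Bool) (a : ι) : ℝ := ∑ x ∈ V, χ a x * sb (f x)

lemma sb_cases (b : Bool) : sb b = 1 ∨ sb b = -1 := by cases b <;> simp [sb]

lemma abs_W_le {χ : ι → α → ℝ} (hχ : ∀ a x, |χ a x| ≤ 1) (V : Finset α) (f : α → Bool) (a : ι) :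
    |W χ V f a| ≤ #V := by
  rw [W]
  refine (Finset.abs_sum_le_sum_abs _ _).trans ?_
  have : ∀ x ∈ V, |χ a x * sb (f x)| ≤ 1 := by
    intro x _
    rw [abs_mul]
    rcases sb_cases (f x) with h | h <;> rw [h]
    · simpa using hχ a x
    · simpa using hχ a x
  refine (Finset.sum_le_sum this).trans ?_
  simp

/-- exponential moments -/
lemma sum_exp_W {χ : ι → α → ℝ} (hχ : ∀ a x, |χ a x| ≤ 1) (V : Finset α) (a : ι) (θ : ℝ) :
    ∑ f : α → Bool, Real.exp (θ * W χ V f a) ≤
      2 ^ Fintype.card α * Real.exp (#V * (θ ^ 2 / 2)) := by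
  have h1 : ∀ f : α → Bool, Real.exp (θ * W χ V f a) =
      ∏ x, (if x ∈ V then Real.exp (θ * (χ a x * sb (f x))) else 1) := by
    intro f
    rw [W, Finset.mul_sum, Real.exp_sum, Finset.prod_ite_mem, univ_inter]
  simp_rw [h1]
  rw [sum_prod (fun x b => if x ∈ V then Real.exp (θ * (χ a x * sb b)) else 1)]
  have h2 : ∀ x : α, (if x ∈ V then Real.exp (θ * (χ a x * sb true)) else 1) +
      (if x ∈ V then Real.exp (θ * (χ a x * sb false)) else 1) ≤
      2 * (if x ∈ V then Real.exp (θ ^ 2 / 2) else 1) := by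
    intro x
    split_ifs
    · have h3 := Real.cosh_le_exp_half_sq (θ * χ a x)
      have h4 : Real.exp (θ * (χ a x * sb true)) + Real.exp (θ * (χ a x * sb false)) =
          2 * Real.cosh (θ * χ a x) := by
        rw [Real.cosh_eq]
        simp [sb]
        ring
      rw [h4]
      refine mul_le_mul_of_nonneg_left (h3.trans (Real.exp_le_exp.2 ?_)) (by norm_num)
      have h5 : (χ a x) ^ 2 ≤ 1 := by
        rw [← sq_abs]
        exact pow_le_one₀ (abs_nonneg _) (hχ a x)
      rw [mul_pow]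
      nlinarith [sq_nonneg θ]
    · norm_num
  refine (Finset.prod_le_prod (fun x _ => by split_ifs <;> positivity)
    (fun x _ => h2 x)).trans (le_of_eq ?_)
  rw [Finset.prod_mul_distrib, Finset.prod_const, card_univ, Finset.prod_ite_mem, univ_inter,
    Finset.prod_const, ← Real.exp_nat_mul]

/-- the rounded sum -/
noncomputable def Rd (χ : ι → α → ℝ) (V : Finset α) (T : ℝ) (f : α → Bool) (a : ι) : ℤ :=
  round (W χ V f a / (2 * T))

lemma Rd_close (χ : ι → α → ℝ) (V : Finset α) {T : ℝ} (hT : 0 < T) (f : α → Bool) (a : ι) :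
    |W χ V f a - 2 * T * Rd χ V T f a| ≤ T := by
  have h := abs_sub_round (W χ V f a / (2 * T))
  have h1 : W χ V f a - 2 * T * Rd χ V T f a = 2 * T * (W χ V f a / (2 * T) - Rd χ V T f a) := by
    field_simp
  rw [h1, abs_mul, abs_of_pos (by linarith)]
  rw [Rd]
  nlinarith

lemma Rd_sq (χ : ι → α → ℝ) (V : Finset α) {T n : ℝ} (hT : 0 < T) (hn : 0 < n)
    (hTn : 2 * n ≤ T ^ 2) (f : α → Bool) (a : ι) :
    ((Rd χ V T f a : ℤ) : ℝ) ^ 2 ≤
      Real.exp (-(T ^ 2 / n)) * (Real.exp (T / n * W χ V f a) + Real.exp (-(T / n) * W χ V f a))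
      := by
  by_cases h0 : Rd χ V T f a = 0
  · rw [h0]
    have h00 : (((0 : ℤ) : ℝ)) ^ 2 = 0 := by norm_num
    rw [h00]
    positivity
  · have hc := Rd_close χ V hT f a
    set r := |Rd χ V T f a| with hr
    have hr1 : (1 : ℝ) ≤ (r : ℤ) := by
      have : 1 ≤ r := Int.one_le_abs h0
      exact_mod_cast this
    have hrr : ((r : ℤ) : ℝ) = |((Rd χ V T f a : ℤ) : ℝ)| := by rw [hr]; push_cast; rfl
    have h1 : r * T ≤ |W χ V f a| := by
      have h2 : |2 * T * (Rd χ V T f a : ℝ)| = 2 * T * r := by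
        rw [abs_mul, abs_of_pos (by linarith : 0 < 2 * T), hrr]
      have h3 := abs_sub_abs_le_abs_sub (2 * T * (Rd χ V T f a : ℝ)) (W χ V f a)
      rw [abs_sub_comm] at h3
      rw [h2] at h3
      nlinarith
    have h4 : Real.exp (T / n * |W χ V f a|) ≤
        Real.exp (T / n * W χ V f a) + Real.exp (-(T / n) * W χ V f a) := by
      rcases abs_cases (W χ V f a) with ⟨h, _⟩ | ⟨h, _⟩
      · rw [h]; linarith [Real.exp_pos (-(T / n) * W χ V f a)]
      · rw [h]
        have : T / n * -W χ V f a = -(T / n) * W χ V f a := by ring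
        rw [this]; linarith [Real.exp_pos (T / n * W χ V f a)]
    have h5 : r * (T ^ 2 / n) ≤ T / n * |W χ V f a| := by
      have : r * (T ^ 2 / n) = T / n * (r * T) := by ring
      rw [this]
      exact mul_le_mul_of_nonneg_left h1 (by positivity)
    have h6 : ((Rd χ V T f a : ℤ) : ℝ) ^ 2 ≤ Real.exp ((r - 1) * (T ^ 2 / n)) := by
      rw [← sq_abs, ← hrr]
      have h7 : (2 : ℝ) ≤ T ^ 2 / n := by rw [le_div_iff₀ hn]; linarith
      have h8 : (r : ℝ) ≤ Real.exp (r - 1) := by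
        have := Real.add_one_le_exp ((r : ℝ) - 1)
        linarith
      calc ((r : ℤ) : ℝ) ^ 2 ≤ (Real.exp (r - 1)) ^ 2 :=
            pow_le_pow_left₀ (by linarith) h8 2
        _ = Real.exp (2 * (r - 1)) := by rw [← Real.exp_nat_mul]; norm_num
        _ ≤ Real.exp ((r - 1) * (T ^ 2 / n)) := Real.exp_le_exp.2 (by nlinarith)
    calc ((Rd χ V T f a : ℤ) : ℝ) ^ 2 ≤ Real.exp ((r - 1) * (T ^ 2 / n)) := h6
      _ = Real.exp (-(T ^ 2 / n)) * Real.exp (r * (T ^ 2 / n)) := by
          rw [← Real.exp_add]; congr 1; ring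
      _ ≤ Real.exp (-(T ^ 2 / n)) *
          (Real.exp (T / n * W χ V f a) + Real.exp (-(T / n) * W χ V f a)) :=
          mul_le_mul_of_nonneg_left ((Real.exp_le_exp.2 h5).trans h4) (Real.exp_pos _).le

lemma sum_Rd_sq {χ : ι → α → ℝ} (hχ : ∀ a x, |χ a x| ≤ 1) (V : Finset α) {T : ℝ} (hT : 0 < T)
    (hV : 0 < #V) (hTn : 2 * (#V : ℝ) ≤ T ^ 2) :
    ∑ f : α → Bool, ∑ a, ((Rd χ V T f a : ℤ) : ℝ) ^ 2 ≤
      2 ^ Fintype.card α * (2 * Fintype.card ι * Real.exp (-(T ^ 2 / (2 * #V)))) := by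
  have hn : (0 : ℝ) < #V := by exact_mod_cast hV
  rw [Finset.sum_comm]
  have h1 : ∀ a : ι, ∑ f : α → Bool, ((Rd χ V T f a : ℤ) : ℝ) ^ 2 ≤
      2 ^ Fintype.card α * (2 * Real.exp (-(T ^ 2 / (2 * #V)))) := by
    intro a
    refine (Finset.sum_le_sum fun f _ => Rd_sq χ V hT hn hTn f a).trans ?_
    rw [← Finset.mul_sum, Finset.sum_add_distrib]
    have h2 := sum_exp_W hχ V a (T / #V)
    have h3 := sum_exp_W hχ V a (-(T / #V))
    have e : (#V : ℝ) * ((T / #V) ^ 2 / 2) = T ^ 2 / (2 * #V) := by field_simp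
    have e' : (#V : ℝ) * ((-(T / #V)) ^ 2 / 2) = T ^ 2 / (2 * #V) := by field_simp
    rw [e] at h2
    rw [e'] at h3
    calc Real.exp (-(T ^ 2 / #V)) * (∑ f : α → Bool, Real.exp (T / #V * W χ V f a) +
          ∑ f : α → Bool, Real.exp (-(T / #V) * W χ V f a))
        ≤ Real.exp (-(T ^ 2 / #V)) * (2 ^ Fintype.card α * Real.exp (T ^ 2 / (2 * #V)) +
          2 ^ Fintype.card α * Real.exp (T ^ 2 / (2 * #V))) :=
          mul_le_mul_of_nonneg_left (add_le_add h2 h3) (Real.exp_pos _).le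
      _ = 2 ^ Fintype.card α * (2 * (Real.exp (-(T ^ 2 / #V)) *
          Real.exp (T ^ 2 / (2 * #V)))) := by ring
      _ = _ := by
          rw [← Real.exp_add]
          congr 3
          field_simp
          ring
  refine (Finset.sum_le_card_nsmul _ _ _ fun a _ => h1 a).trans (le_of_eq ?_)
  rw [nsmul_eq_mul, card_univ]; ring

/-- the theta sum -/
lemma theta_le (L : ℝ) (hL : 3 ≤ Real.exp L) (b : ℕ) :
    ∑ r ∈ Icc (-(b : ℤ)) b, Real.exp (-(L * (r : ℝ) ^ 2)) ≤
      1 + 3 * Real.exp (-L) * (1 - (1 / 3) ^ b) := by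
  induction b with
  | zero => simp
  | succ b ih =>
    have h1 : Icc (-((b + 1 : ℕ) : ℤ)) ((b + 1 : ℕ) : ℤ) =
        insert (-((b + 1 : ℕ) : ℤ)) (insert ((b + 1 : ℕ) : ℤ) (Icc (-(b : ℤ)) b)) := by
      ext r
      simp only [mem_Icc, mem_insert]
      push_cast
      omega
    rw [h1, Finset.sum_insert, Finset.sum_insert]
    · have h2 : Real.exp (-(L * (((b + 1 : ℕ) : ℤ) : ℝ) ^ 2)) ≤
          Real.exp (-L) * (1 / 3) ^ b := by
        have h3 : (1 / 3 : ℝ) ^ b ≥ Real.exp (-L) ^ b := by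
          refine pow_le_pow_left₀ (Real.exp_pos _).le ?_ b
          rw [Real.exp_neg, one_div]
          exact inv_anti₀ (by norm_num) hL
        have hL0 : 0 ≤ L := by
          by_contra hcon
          have := Real.exp_lt_one_iff.2 (not_le.1 hcon)
          linarith
        have h4 : Real.exp (-(L * (((b + 1 : ℕ) : ℤ) : ℝ) ^ 2)) ≤
            Real.exp (-L) * Real.exp (-L) ^ b := by
          rw [← Real.exp_nat_mul, ← Real.exp_add]
          refine Real.exp_le_exp.2 ?_
          push_cast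
          have hb : (0 : ℝ) ≤ b := by positivity
          nlinarith [mul_nonneg hL0 hb, mul_nonneg hL0 (mul_nonneg hb hb)]
        exact h4.trans (mul_le_mul_of_nonneg_left h3 (Real.exp_pos _).le)
      have h5 : Real.exp (-(L * ((-((b + 1 : ℕ) : ℤ) : ℤ) : ℝ) ^ 2)) =
          Real.exp (-(L * (((b + 1 : ℕ) : ℤ) : ℝ) ^ 2)) := by
        congr 2
        push_cast
        ring
      rw [h5]
      have h6 : (1 / 3 : ℝ) ^ (b + 1) = (1 / 3) ^ b * (1 / 3) := pow_succ _ _
      rw [h6]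
      nlinarith
    · simp
    · simp only [mem_insert, mem_Icc, not_or]
      push_cast
      constructor
      · omega
      · omega

lemma theta_le' (L : ℝ) (hL : 3 ≤ Real.exp L) (b : ℕ) :
    ∑ r ∈ Icc (-(b : ℤ)) b, Real.exp (-(L * (r : ℝ) ^ 2)) ≤ 1 + 3 * Real.exp (-L) := by
  refine (theta_le L hL b).trans ?_
  have : (0 : ℝ) ≤ (1 / 3) ^ b := by positivity
  have h2 := Real.exp_pos (-L)
  nlinarith

/-- number of integer vectors of bounded energy -/
lemma card_energy (L Bd : ℝ) (hL : 3 ≤ Real.exp L) (b : ℕ) :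
    (#{r ∈ Fintype.piFinset (fun _ : ι => Icc (-(b : ℤ)) b) | ∑ a, ((r a : ℤ) : ℝ) ^ 2 ≤ Bd} : ℝ)
      ≤ Real.exp (L * Bd + 3 * Real.exp (-L) * Fintype.card ι) := by
  have hL0 : 0 ≤ L := by
    by_contra hcon
    have := Real.exp_lt_one_iff.2 (not_le.1 hcon)
    linarith
  have h1 : (#{r ∈ Fintype.piFinset (fun _ : ι => Icc (-(b : ℤ)) b) |
      ∑ a, ((r a : ℤ) : ℝ) ^ 2 ≤ Bd} : ℝ) ≤
      ∑ r ∈ Fintype.piFinset (fun _ : ι => Icc (-(b : ℤ)) b),
        Real.exp (L * Bd) * ∏ a, Real.exp (-(L * ((r a : ℤ) : ℝ) ^ 2)) := by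
    rw [Finset.card_eq_sum_ones]
    push_cast
    rw [Finset.sum_filter]
    refine Finset.sum_le_sum fun r _ => ?_
    rw [← Real.exp_sum, ← Real.exp_add]
    split_ifs with h
    · rw [Real.one_le_exp_iff, Finset.sum_neg_distrib, ← Finset.mul_sum]
      nlinarith
    · exact (Real.exp_pos _).le
  refine h1.trans ?_
  rw [← Finset.mul_sum, ← Finset.prod_univ_sum (fun _ : ι => Icc (-(b : ℤ)) b)
    (fun _ r => Real.exp (-(L * ((r : ℤ) : ℝ) ^ 2))), Finset.prod_const, card_univ, Real.exp_add]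
  refine mul_le_mul_of_nonneg_left ?_ (Real.exp_pos _).le
  have h2 : ∑ r ∈ Icc (-(b : ℤ)) b, Real.exp (-(L * ((r : ℤ) : ℝ) ^ 2)) ≤
      Real.exp (3 * Real.exp (-L)) := by
    have := Real.add_one_le_exp (3 * Real.exp (-L))
    linarith [theta_le' L hL b]
  calc (∑ r ∈ Icc (-(b : ℤ)) b, Real.exp (-(L * ((r : ℤ) : ℝ) ^ 2))) ^ Fintype.card ι
      ≤ (Real.exp (3 * Real.exp (-L))) ^ Fintype.card ι :=
        pow_le_pow_left₀ (Finset.sum_nonneg fun r _ => (Real.exp_pos _).le) h2 _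
    _ = _ := by rw [← Real.exp_nat_mul, mul_comm]

/-- A large class of colourings with almost the same sums. -/
theorem big_class {χ : ι → α → ℝ} (hχ : ∀ a x, |χ a x| ≤ 1) (V : Finset α) {T L : ℝ}
    (hT : 0 < T) (hV : 0 < #V) (hTn : 2 * (#V : ℝ) ≤ T ^ 2) (hL : 3 ≤ Real.exp L) :
    ∃ S : Finset (α → Bool), (∀ f ∈ S, ∀ g ∈ S, ∀ a, |W χ V f a - W χ V g a| ≤ 2 * T) ∧
      (2 : ℝ) ^ Fintype.card α ≤ 2 * #S * Real.exp (4 * L * Fintype.card ι *
        Real.exp (-(T ^ 2 / (2 * #V))) + 3 * Real.exp (-L) * Fintype.card ι) := by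
  classical
  set E := 2 * (Fintype.card ι : ℝ) * Real.exp (-(T ^ 2 / (2 * #V))) with hE
  have hE0 : 0 ≤ E := by positivity
  set G : Finset (α → Bool) := {f | ∑ a, ((Rd χ V T f a : ℤ) : ℝ) ^ 2 ≤ 2 * E} with hG
  have hsum := sum_Rd_sq hχ V hT hV hTn
  -- Markov
  have hGcard : (2 : ℝ) ^ Fintype.card α ≤ 2 * #G := by
    have h1 : (#(univ.filter fun f : α → Bool =>
        ¬ ∑ a, ((Rd χ V T f a : ℤ) : ℝ) ^ 2 ≤ 2 * E) : ℝ) * (2 * E) ≤
        2 ^ Fintype.card α * E := by
      refine le_trans ?_ hsum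
      rw [← nsmul_eq_mul]
      refine (Finset.card_nsmul_le_sum _ (fun f => ∑ a, ((Rd χ V T f a : ℤ) : ℝ) ^ 2) _ ?_).trans ?_
      · intro f hf
        rw [mem_filter] at hf
        exact (not_le.1 hf.2).le
      · exact Finset.sum_le_sum_of_subset_of_nonneg (filter_subset _ _) fun f _ _ =>
          Finset.sum_nonneg fun a _ => sq_nonneg _
    have h2 := Finset.card_filter_add_card_filter_not (s := (univ : Finset (α → Bool)))
      (p := fun f => ∑ a, ((Rd χ V T f a : ℤ) : ℝ) ^ 2 ≤ 2 * E)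
    rw [card_univ] at h2
    have h3 : (#G : ℝ) + #(univ.filter fun f : α → Bool =>
        ¬ ∑ a, ((Rd χ V T f a : ℤ) : ℝ) ^ 2 ≤ 2 * E) = 2 ^ Fintype.card α := by
      rw [hG, ← card_bool]; exact_mod_cast h2
    rcases hE0.eq_or_lt with h0 | h0
    · -- then there are no constraints
      have hι : Fintype.card ι = 0 := by
        by_contra hcon
        have : 0 < E := by
          rw [hE]
          have : (0 : ℝ) < Fintype.card ι := by exact_mod_cast Nat.pos_of_ne_zero hcon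
          positivity
        linarith
      have hempty : IsEmpty ι := Fintype.card_eq_zero_iff.1 hι
      have h4 : (univ.filter fun f : α → Bool =>
        ¬ ∑ a, ((Rd χ V T f a : ℤ) : ℝ) ^ 2 ≤ 2 * E) = ∅ := by
        rw [filter_eq_empty_iff]
        intro f _ h
        apply h
        rw [Finset.univ_eq_empty, Finset.sum_empty]; linarith
      rw [h4] at h3
      simp only [card_empty, Nat.cast_zero, add_zero] at h3
      have : (0 : ℝ) ≤ #G := by positivity
      linarith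
    · have h5 : (#(univ.filter fun f : α → Bool =>
          ¬ ∑ a, ((Rd χ V T f a : ℤ) : ℝ) ^ 2 ≤ 2 * E) : ℝ) * 2 ≤ 2 ^ Fintype.card α := by
        refine le_of_mul_le_mul_right ?_ h0
        linarith
      linarith
  -- the box
  obtain ⟨b, hb⟩ := exists_nat_ge ((#V : ℝ) / T + 1)
  have hbox : ∀ f : α → Bool, ∀ a, Rd χ V T f a ∈ Icc (-(b : ℤ)) b := by
    intro f a
    have h1 := Rd_close χ V hT f a
    have h2 := abs_W_le hχ V f a
    have h3 : |((Rd χ V T f a : ℤ) : ℝ)| ≤ b := by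
      have h4 : |2 * T * (Rd χ V T f a : ℝ)| ≤ T + #V := by
        have h5 := abs_sub_abs_le_abs_sub (2 * T * (Rd χ V T f a : ℝ)) (W χ V f a)
        rw [abs_sub_comm] at h5
        linarith
      rw [abs_mul, abs_of_pos (by linarith : 0 < 2 * T)] at h4
      have h6 : |((Rd χ V T f a : ℤ) : ℝ)| ≤ (#V : ℝ) / T + 1 := by
        rw [← sub_le_iff_le_add, le_div_iff₀ hT]
        have h7 : (0 : ℝ) ≤ |((Rd χ V T f a : ℤ) : ℝ)| := abs_nonneg _
        nlinarith
      exact h6.trans hb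
    rw [mem_Icc]
    have h8 : |Rd χ V T f a| ≤ (b : ℤ) := by
      have : ((|Rd χ V T f a| : ℤ) : ℝ) ≤ ((b : ℤ) : ℝ) := by push_cast; exact h3
      exact_mod_cast this
    exact abs_le.1 h8
  set Rs := (Fintype.piFinset (fun _ : ι => Icc (-(b : ℤ)) b)).filter
    (fun r => ∑ a, ((r a : ℤ) : ℝ) ^ 2 ≤ 2 * E) with hRs
  have hmaps : ∀ f ∈ G, Rd χ V T f ∈ Rs := by
    intro f hf
    rw [hG, mem_filter] at hf
    rw [hRs, mem_filter, Fintype.mem_piFinset]
    exact ⟨fun a => hbox f a, hf.2⟩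
  have hRcard := card_energy (ι := ι) L (2 * E) hL b
  have hGpos : 0 < #G := by
    have : (0 : ℝ) < 2 ^ Fintype.card α := by positivity
    have h6 : (0 : ℝ) < #G := by linarith
    exact_mod_cast h6
  have hRne : Rs.Nonempty := by
    obtain ⟨f, hf⟩ := Finset.card_pos.1 hGpos
    exact ⟨_, hmaps f hf⟩
  obtain ⟨r, -, hr⟩ := Finset.exists_le_card_fiber_of_nsmul_le_card_of_maps_to
    (M := ℝ) (b := (#G : ℝ) / #Rs) hmaps hRne (by
      rw [nsmul_eq_mul, mul_div_cancel₀]
      have : 0 < #Rs := Finset.card_pos.2 hRne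
      positivity)
  refine ⟨{f ∈ G | Rd χ V T f = r}, ?_, ?_⟩
  · intro f hf g hg a
    rw [mem_filter] at hf hg
    have h1 := Rd_close χ V hT f a
    have h2 := Rd_close χ V hT g a
    rw [hf.2] at h1
    rw [hg.2] at h2
    calc |W χ V f a - W χ V g a|
        = |(W χ V f a - 2 * T * r a) - (W χ V g a - 2 * T * r a)| := by congr 1; ring
      _ ≤ |W χ V f a - 2 * T * r a| + |W χ V g a - 2 * T * r a| := abs_sub _ _
      _ ≤ 2 * T := by linarith
  · have hRpos : (0 : ℝ) < #Rs := by exact_mod_cast Finset.card_pos.2 hRne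
    rw [div_le_iff₀ hRpos] at hr
    have hexp : L * (2 * E) + 3 * Real.exp (-L) * Fintype.card ι =
        4 * L * Fintype.card ι * Real.exp (-(T ^ 2 / (2 * #V))) +
          3 * Real.exp (-L) * Fintype.card ι := by rw [hE]; ring
    rw [hexp] at hRcard
    have hSnn : (0 : ℝ) ≤ (#{f ∈ G | Rd χ V T f = r} : ℝ) := by positivity
    calc (2 : ℝ) ^ Fintype.card α ≤ 2 * #G := hGcard
      _ ≤ 2 * ((#{f ∈ G | Rd χ V T f = r} : ℝ) * #Rs) := by linarith
      _ ≤ 2 * ((#{f ∈ G | Rd χ V T f = r} : ℝ) * Real.exp (4 * L * Fintype.card ι *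
          Real.exp (-(T ^ 2 / (2 * #V))) + 3 * Real.exp (-L) * Fintype.card ι)) :=
          mul_le_mul_of_nonneg_left (mul_le_mul_of_nonneg_left hRcard hSnn) (by norm_num)
      _ = _ := by ring

/-- the number of colourings near a given one -/
theorem ball_le (V : Finset α) (g : α → Bool) (θ t : ℝ) (hθ : 0 ≤ θ) :
    (#{f : α → Bool | (#{x ∈ V | f x ≠ g x} : ℝ) ≤ t} : ℝ) ≤
      2 ^ Fintype.card α * ((1 + Real.exp (-θ)) / 2) ^ #V * Real.exp (θ * t) := by
  have h1 : (#{f : α → Bool | (#{x ∈ V | f x ≠ g x} : ℝ) ≤ t} : ℝ) ≤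
      ∑ f : α → Bool, Real.exp (θ * t) * ∏ x,
        (if x ∈ V then (if f x = g x then 1 else Real.exp (-θ)) else 1) := by
    rw [Finset.card_eq_sum_ones]
    push_cast
    rw [Finset.sum_filter]
    refine Finset.sum_le_sum fun f _ => ?_
    have e : ∏ x, (if x ∈ V then (if f x = g x then 1 else Real.exp (-θ)) else 1) =
        Real.exp (-(θ * #{x ∈ V | f x ≠ g x})) := by
      rw [Finset.prod_ite_mem, univ_inter, Finset.prod_ite, Finset.prod_const_one, one_mul,
        Finset.prod_const, ← Real.exp_nat_mul]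
      congr 1
      ring
    rw [e, ← Real.exp_add]
    split_ifs with h
    · rw [Real.one_le_exp_iff]
      nlinarith
    · exact (Real.exp_pos _).le
  refine h1.trans (le_of_eq ?_)
  rw [← Finset.mul_sum, sum_prod (fun x b => if x ∈ V then
    (if b = g x then 1 else Real.exp (-θ)) else 1)]
  have h2 : ∀ x : α, ((if x ∈ V then (if true = g x then 1 else Real.exp (-θ)) else 1) +
      (if x ∈ V then (if false = g x then 1 else Real.exp (-θ)) else 1)) =
      2 * (if x ∈ V then (1 + Real.exp (-θ)) / 2 else 1) := by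
    intro x
    split_ifs with hx h3 h4 h4
    · rw [← h3] at h4; simp at h4
    · ring
    · ring
    · exfalso
      cases hg : g x
      · exact h4 hg.symm
      · exact h3 hg.symm
    · norm_num
  simp_rw [h2]
  rw [Finset.prod_mul_distrib, Finset.prod_const, card_univ, Finset.prod_ite_mem, univ_inter,
    Finset.prod_const]
  ring

end Pool.Agent.RMC53
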