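import Mathlib

/-!
# Minors of `((1+t)(1+zt))^n` are symmetric and unimodal in `z`
-/

set_option autoImplicit false

open Polynomial

namespace Pool.Agent.RMC53

/-- coefficient at an integer index -/
noncomputable def cz {R : Type*} [Semiring R] (p : R[X]) (x : ℤ) : R :=
  if 0 ≤ x then p.coeff x.toNat else 0

section cz

variable {R : Type*} [CommRing R]

lemma cz_natCast (p : R[X]) (n : ℕ) : cz p (n : ℤ) = p.coeff n := by
  rw [cz, if_pos (Int.natCast_nonneg n), Int.toNat_natCast]

lemma cz_neg (p : R[X]) {x : ℤ} (h : x < 0) : cz p x = 0 := by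
  rw [cz, if_neg (not_le.2 h)]

lemma cz_add (p q : R[X]) (x : ℤ) : cz (p + q) x = cz p x + cz q x := by
  unfold cz; split_ifs <;> simp

lemma cz_sub (p q : R[X]) (x : ℤ) : cz (p - q) x = cz p x - cz q x := by
  unfold cz; split_ifs <;> simp

lemma cz_C_mul (r : R) (p : R[X]) (x : ℤ) : cz (C r * p) x = r * cz p x := by
  unfold cz; split_ifs <;> simp

lemma cz_X_mul (p : R[X]) (x : ℤ) : cz (X * p) x = cz p (x - 1) := by
  rcases lt_trichotomy x 0 with h | h | h
  · rw [cz_neg _ h, cz_neg _ (by omega)]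
  · subst h
    rw [cz_neg p (show (0 : ℤ) - 1 < 0 by norm_num), cz, if_pos le_rfl]
    simp
  · obtain ⟨n, rfl⟩ : ∃ n : ℕ, x = (n + 1 : ℕ) := ⟨(x - 1).toNat, by omega⟩
    have h1 : (((n + 1 : ℕ) : ℤ)) - 1 = (n : ℤ) := by push_cast; ring
    rw [cz_natCast, h1, cz_natCast, coeff_X_mul]

lemma cz_X_sq_mul (p : R[X]) (x : ℤ) : cz (X ^ 2 * p) x = cz p (x - 2) := by
  rw [pow_two, mul_assoc, cz_X_mul, cz_X_mul]
  congr 1; ring

lemma cz_X_mul_derivative (p : R[X]) (x : ℤ) :
    cz (X * derivative p) x = (x : R) * cz p x := by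
  rcases lt_trichotomy x 0 with h | h | h
  · rw [cz_neg _ h, cz_neg _ h, mul_zero]
  · subst h
    rw [cz, if_pos le_rfl]
    simp
  · obtain ⟨n, rfl⟩ : ∃ n : ℕ, x = (n + 1 : ℕ) := ⟨(x - 1).toNat, by omega⟩
    rw [cz_natCast, cz_natCast, coeff_X_mul, coeff_derivative]
    push_cast
    ring

end cz

/-- symmetric about `d / 2` and nonincreasing to the right of it -/
def SU (d : ℤ) (f : ℤ → ℤ) : Prop :=
  (∀ s, f (d - s) = f s) ∧ ∀ s, d ≤ 2 * s + 1 → f (s + 1) ≤ f s

lemma SU.zero (d : ℤ) : SU d (fun _ => 0) := ⟨fun _ => rfl, fun _ _ => le_rfl⟩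

lemma SU.add {d : ℤ} {f g : ℤ → ℤ} (hf : SU d f) (hg : SU d g) : SU d (fun s => f s + g s) :=
  ⟨fun s => by simp only [hf.1 s, hg.1 s], fun s hs => add_le_add (hf.2 s hs) (hg.2 s hs)⟩

lemma SU.congr {d d' : ℤ} {f g : ℤ → ℤ} (hf : SU d f) (hd : d = d') (h : ∀ s, f s = g s) :
    SU d' g := by
  subst hd
  have : f = g := funext h
  rwa [← this]

lemma SU.one_add {d : ℤ} {f : ℤ → ℤ} (hf : SU d f) : SU (d + 1) (fun s => f s + f (s - 1)) := by
  refine ⟨fun s => ?_, fun s hs => ?_⟩
  · have h1 := hf.1 (s - 1)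
    have h2 := hf.1 s
    have e1 : d - (s - 1) = d + 1 - s := by ring
    have e2 : d - s = d + 1 - s - 1 := by ring
    rw [e1] at h1
    rw [e2] at h2
    simp only [h1, h2]
    ring
  · simp only
    have e0 : s + 1 - 1 = s := by ring
    rw [e0]
    have h3 : f (s + 1) ≤ f (s - 1) := by
      by_cases hd : d ≤ 2 * s - 1
      · have h1 := hf.2 s (by omega)
        have h2 := hf.2 (s - 1) (by omega)
        have e1 : s - 1 + 1 = s := by ring
        rw [e1] at h2
        exact h1.trans h2
      · have h1 := hf.1 (s - 1)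
        have e1 : d - (s - 1) = s + 1 := by omega
        rw [e1] at h1
        exact h1.le
    linarith

lemma SU.shift {d : ℤ} {f : ℤ → ℤ} (hf : SU d f) : SU (d + 2) (fun s => f (s - 1)) := by
  refine ⟨fun s => ?_, fun s hs => ?_⟩
  · have h1 := hf.1 (s - 1)
    have e1 : d - (s - 1) = d + 2 - s - 1 := by ring
    rw [e1] at h1
    exact h1
  · have h1 := hf.2 (s - 1) (by omega)
    have e1 : s - 1 + 1 = s + 1 - 1 := by ring
    rw [e1] at h1
    exact h1

lemma SU.three {d : ℤ} {f : ℤ → ℤ} (hf : SU d f) :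
    SU (d + 2) (fun s => f s + f (s - 1) + f (s - 2)) := by
  refine ⟨fun s => ?_, fun s hs => ?_⟩
  · have h0 := hf.1 s
    have h1 := hf.1 (s - 1)
    have h2 := hf.1 (s - 2)
    have e0 : d - s = d + 2 - s - 2 := by ring
    have e1 : d - (s - 1) = d + 2 - s - 1 := by ring
    have e2 : d - (s - 2) = d + 2 - s := by ring
    rw [e0] at h0
    rw [e1] at h1
    rw [e2] at h2
    simp only [h0, h1, h2]
    ring
  · simp only
    have e0 : s + 1 - 1 = s := by ring
    have e1 : s + 1 - 2 = s - 1 := by ring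
    rw [e0, e1]
    have h3 : f (s + 1) ≤ f (s - 2) := by
      have g1 := hf.2 s (by omega)
      have g2 := hf.2 (s - 1) (by omega)
      have e2 : s - 1 + 1 = s := by ring
      rw [e2] at g2
      rcases lt_trichotomy d (2 * s - 2) with h | h | h
      · have g3 := hf.2 (s - 2) (by omega)
        have e3 : s - 2 + 1 = s - 1 := by ring
        rw [e3] at g3
        exact g1.trans (g2.trans g3)
      · have g3 := hf.1 (s - 2)
        have e3 : d - (s - 2) = s := by omega
        rw [e3] at g3
        exact g1.trans g3.le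
      · have g3 := hf.1 (s - 2)
        have e3 : d - (s - 2) = s + 1 := by omega
        rw [e3] at g3
        exact g3.le
    linarith

lemma SU.two_steps {d M : ℤ} {f : ℤ → ℤ} (hf : SU d f) (h : d ≤ 2 * M - 2) :
    f M ≤ f (M - 2) := by
  by_cases hd : d ≤ 2 * M - 3
  · have h1 := hf.2 (M - 1) (by omega)
    have h2 := hf.2 (M - 2) (by omega)
    have e1 : M - 1 + 1 = M := by ring
    have e2 : M - 2 + 1 = M - 1 := by ring
    rw [e1] at h1
    rw [e2] at h2
    exact h1.trans h2
  · have h1 := hf.1 (M - 2)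
    have e1 : d - (M - 2) = M := by omega
    rw [e1] at h1
    exact h1.le

/-- the polynomial `((1+t)(1+zt))^n` in `t` over `ℤ[z]` -/
noncomputable def G (n : ℕ) : ℤ[X][X] := (1 + C (1 + X) * X + C X * X ^ 2) ^ n

/-- its coefficients -/
noncomputable def H (n : ℕ) (x : ℤ) : ℤ[X] := cz (G n) x

lemma H_neg (n : ℕ) {x : ℤ} (h : x < 0) : H n x = 0 := cz_neg _ h

lemma H_zero (x : ℤ) : H 0 x = if x = 0 then 1 else 0 := by
  rw [H, G, pow_zero, cz]
  rcases lt_trichotomy x 0 with h | h | h
  · rw [if_neg (by omega), if_neg (by omega)]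
  · subst h; simp
  · rw [if_pos h.le, if_neg (by omega), coeff_one, if_neg (by omega)]

lemma H_succ (n : ℕ) (x : ℤ) :
    H (n + 1) x = H n x + (1 + X) * H n (x - 1) + X * H n (x - 2) := by
  have h1 : G (n + 1) = G n + C (1 + X) * (X * G n) + C X * (X ^ 2 * G n) := by
    rw [G, pow_succ, ← G]; ring
  rw [H, h1, cz_add, cz_add, cz_C_mul, cz_C_mul, cz_X_mul, cz_X_sq_mul]
  rfl

lemma H_deriv (n : ℕ) (x : ℤ) :
    (x : ℤ[X]) * H (n + 1) x =
      ((n : ℤ[X]) + 1) * ((1 + X) * H n (x - 1) + 2 * X * H n (x - 2)) := by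
  have h0 : derivative (G (n + 1)) =
      C ((n : ℤ[X]) + 1) * ((C (1 + X) * G n) + C (2 * X) * (X * G n)) := by
    rw [G, derivative_pow_succ, ← G]
    have : derivative (1 + C (1 + X) * X + C X * X ^ 2 : ℤ[X][X]) = C (1 + X) + C (2 * X) * X := by
      simp only [derivative_add, derivative_one, derivative_C_mul, derivative_X, derivative_X_pow,
        zero_add, mul_one]
      simp only [C_mul]
      norm_num
      ring
    rw [this]
    ring
  have h1 : X * derivative (G (n + 1)) =
      C ((n : ℤ[X]) + 1) * ((C (1 + X) * (X * G n)) + C (2 * X) * (X ^ 2 * G n)) := by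
    rw [h0]; ring
  have h2 := cz_X_mul_derivative (G (n + 1)) x
  rw [h1, cz_C_mul, cz_add, cz_C_mul, cz_C_mul, cz_X_mul, cz_X_sq_mul] at h2
  exact h2.symm

lemma cz_one (s : ℤ) : cz (1 : ℤ[X]) s = if s = 0 then 1 else 0 := by
  rw [cz]
  rcases lt_trichotomy s 0 with h | h | h
  · rw [if_neg (by omega), if_neg (by omega)]
  · subst h; simp
  · rw [if_pos h.le, if_neg (by omega), coeff_one, if_neg (by omega)]

lemma SU_one : SU 0 (cz (1 : ℤ[X])) := by
  refine ⟨fun s => ?_, fun s hs => ?_⟩
  · rw [cz_one, cz_one]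
    simp
  · rw [cz_one, cz_one, if_neg (by omega)]
    split_ifs <;> norm_num

/-- polynomials with symmetric unimodal coefficients -/
def SUp (d : ℤ) (p : ℤ[X]) : Prop := SU d (cz p)

lemma SUp.zero (d : ℤ) : SUp d 0 := by
  refine (SU.zero d).congr rfl fun s => ?_
  unfold cz; simp

lemma SUp.add {d : ℤ} {p q : ℤ[X]} (hp : SUp d p) (hq : SUp d q) : SUp d (p + q) :=
  (SU.add hp hq).congr rfl fun s => (cz_add p q s).symm

lemma SUp.e {d : ℤ} {p : ℤ[X]} (hp : SUp d p) : SUp (d + 1) ((1 + X) * p) :=
  (SU.one_add hp).congr rfl fun s => by rw [add_mul, one_mul, cz_add, cz_X_mul]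

lemma SUp.z {d : ℤ} {p : ℤ[X]} (hp : SUp d p) : SUp (d + 2) (X * p) :=
  (SU.shift hp).congr rfl fun s => by rw [cz_X_mul]

lemma SUp.t {d : ℤ} {p : ℤ[X]} (hp : SUp d p) : SUp (d + 2) ((1 + X + X ^ 2) * p) :=
  (SU.three hp).congr rfl fun s => by rw [add_mul, add_mul, one_mul, cz_add, cz_add, cz_X_mul,
    cz_X_sq_mul]

lemma SUp.cast {d d' : ℤ} {p : ℤ[X]} (hp : SUp d p) (h : d = d') : SUp d' p := h ▸ hp

/-- The minors have symmetric unimodal coefficients. -/
theorem minor (n : ℕ) : ∀ a b c d : ℤ, a + b = c + d → c ≤ a → c ≤ b →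
    SUp (a + b) (H n a * H n b - H n c * H n d) := by
  induction n with
  | zero =>
    intro a b c d h h1 h2
    by_cases hc : c = a ∨ c = b
    · have : H 0 a * H 0 b - H 0 c * H 0 d = 0 := by
        rcases hc with rfl | rfl
        · have : b = d := by omega
          subst this; ring
        · have : a = d := by omega
          subst this; ring
      rw [this]; exact SUp.zero _
    · have hcd : H 0 c * H 0 d = 0 := by
        rw [H_zero, H_zero]
        by_cases h3 : c = 0
        · rw [if_neg (show d ≠ 0 by omega), mul_zero]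
        · rw [if_neg h3, zero_mul]
      rw [hcd, sub_zero]
      by_cases h3 : a = 0 ∧ b = 0
      · rw [h3.1, h3.2, H_zero, if_pos rfl, mul_one]
        exact SU_one
      · have : H 0 a * H 0 b = 0 := by
          rw [H_zero, H_zero]
          by_cases h4 : a = 0
          · rw [if_neg (show b ≠ 0 by tauto), mul_zero]
          · rw [if_neg h4, zero_mul]
        rw [this]; exact SUp.zero _
  | succ n ih =>
    intro a b c d h h1 h2
    by_cases hc : c = a ∨ c = b
    · have : H (n + 1) a * H (n + 1) b - H (n + 1) c * H (n + 1) d = 0 := by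
        rcases hc with rfl | rfl
        · have : b = d := by omega
          subst this; ring
        · have : a = d := by omega
          subst this; ring
      rw [this]; exact SUp.zero _
    · have hca : c < a := by omega
      have hcb : c < b := by omega
      have key : H (n + 1) a * H (n + 1) b - H (n + 1) c * H (n + 1) d =
          (H n a * H n b - H n c * H n d)
          + (1 + X) * ((H n (a - 1) * H n b - H n c * H n (d - 1))
            + (H n a * H n (b - 1) - H n (c - 1) * H n d))
          + X * (((H n (a - 1) * H n (b - 1) - H n c * H n (d - 2))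
            + (H n (a - 2) * H n b - H n (c - 1) * H n (d - 1)))
            + (H n a * H n (b - 2) - H n (c - 2) * H n d))
          + (1 + X + X ^ 2) * (H n (a - 1) * H n (b - 1) - H n (c - 1) * H n (d - 1))
          + X * ((1 + X) * ((H n (a - 2) * H n (b - 1) - H n (c - 1) * H n (d - 2))
            + (H n (a - 1) * H n (b - 2) - H n (c - 2) * H n (d - 1))))
          + X * (X * (H n (a - 2) * H n (b - 2) - H n (c - 2) * H n (d - 2))) := by
        simp only [H_succ]
        ring
      rw [key]
      have t1 := ih a b c d h h1 h2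
      have t2 := ih (a - 1) b c (d - 1) (by omega) (by omega) (by omega)
      have t3 := ih a (b - 1) (c - 1) d (by omega) (by omega) (by omega)
      have t4 := ih (a - 1) (b - 1) c (d - 2) (by omega) (by omega) (by omega)
      have t5 := ih (a - 2) b (c - 1) (d - 1) (by omega) (by omega) (by omega)
      have t6 := ih a (b - 2) (c - 2) d (by omega) (by omega) (by omega)
      have t7 := ih (a - 1) (b - 1) (c - 1) (d - 1) (by omega) (by omega) (by omega)
      have t8 := ih (a - 2) (b - 1) (c - 1) (d - 2) (by omega) (by omega) (by omega)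
      have t9 := ih (a - 1) (b - 2) (c - 2) (d - 1) (by omega) (by omega) (by omega)
      have t10 := ih (a - 2) (b - 2) (c - 2) (d - 2) (by omega) (by omega) (by omega)
      have u2 : SUp (a + b - 1) (H n (a - 1) * H n b - H n c * H n (d - 1)) := t2.cast (by ring)
      have u3 : SUp (a + b - 1) (H n a * H n (b - 1) - H n (c - 1) * H n d) := t3.cast (by ring)
      have u4 : SUp (a + b - 2) (H n (a - 1) * H n (b - 1) - H n c * H n (d - 2)) :=
        t4.cast (by ring)
      have u5 : SUp (a + b - 2) (H n (a - 2) * H n b - H n (c - 1) * H n (d - 1)) :=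
        t5.cast (by ring)
      have u6 : SUp (a + b - 2) (H n a * H n (b - 2) - H n (c - 2) * H n d) := t6.cast (by ring)
      have u7 : SUp (a + b - 2) (H n (a - 1) * H n (b - 1) - H n (c - 1) * H n (d - 1)) :=
        t7.cast (by ring)
      have u8 : SUp (a + b - 3) (H n (a - 2) * H n (b - 1) - H n (c - 1) * H n (d - 2)) :=
        t8.cast (by ring)
      have u9 : SUp (a + b - 3) (H n (a - 1) * H n (b - 2) - H n (c - 2) * H n (d - 1)) :=
        t9.cast (by ring)
      have u10 : SUp (a + b - 4) (H n (a - 2) * H n (b - 2) - H n (c - 2) * H n (d - 2)) :=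
        t10.cast (by ring)
      refine ((((t1.add ((u2.add u3).e.cast (by ring))).add
        (((u4.add u5).add u6).z.cast (by ring))).add (u7.t.cast (by ring))).add
        ((u8.add u9).e.z.cast (by ring))).add (u10.z.z.cast (by ring))

end Pool.Agent.RMC53
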