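import Pool.Agent.RMC53.Count
import Pool.Agent.RMC68.Link

/-!
# Coset leaders and intersection numbers
-/

set_option autoImplicit false

open Finset

namespace Pool.Agent.RMC53

open Pool.Agent.RMC Pool.Agent.RMC68

variable {m : ℕ}

/-- the support of the affine function `x ↦ a·x + b` -/
def D (p : Vec m × ZMod 2) : Finset (Vec m) := {x | p.1 ⬝ᵥ x + p.2 = 1}

lemma mem_D (p : Vec m × ZMod 2) (x : Vec m) : x ∈ D p ↔ p.1 ⬝ᵥ x + p.2 = 1 := by
  simp [D]

/-- the nonconstant affine functions -/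
def I (m : ℕ) : Finset (Vec m × ZMod 2) := nz m ×ˢ univ

lemma mem_I (p : Vec m × ZMod 2) : p ∈ I m ↔ p.1 ≠ 0 := by
  rw [I, mem_product, mem_nz]; simp

lemma card_I : (#(I m) : ℤ) = 2 * (2 ^ m - 1) := by
  rw [I, card_product, nz, card_erase_of_mem (mem_univ _), card_univ, card_vec, card_univ,
    ZMod.card]
  have : 1 ≤ 2 ^ m := Nat.one_le_two_pow
  push_cast [Nat.cast_sub this]
  ring

lemma sg_D (p : Vec m × ZMod 2) (x : Vec m) :
    sg (p.1 ⬝ᵥ x + p.2) = 1 - 2 * (if x ∈ D p then 1 else 0) := by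
  by_cases h : x ∈ D p
  · rw [if_pos h, (mem_D p x).1 h, sg_one]; norm_num
  · rw [if_neg h]
    have : p.1 ⬝ᵥ x + p.2 = 0 := by
      rcases zmod2_cases (p.1 ⬝ᵥ x + p.2) with h1 | h1
      · exact h1
      · exact absurd ((mem_D p x).2 h1) h
    rw [this, sg_zero]; norm_num

lemma card_D {M : ℕ} (hM : 2 ^ m = 4 * M) (p : Vec m × ZMod 2) (hp : p.1 ≠ 0) :
    #(D p) = 2 * M := by
  have h1 : ∑ x, sg (p.1 ⬝ᵥ x + p.2) = 0 := by
    simp_rw [sg_add]
    rw [← Finset.sum_mul, sum_sg_dot', if_neg hp, zero_mul]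
  simp_rw [sg_D] at h1
  rw [Finset.sum_sub_distrib, ← Finset.mul_sum, Finset.sum_boole] at h1
  simp only [sum_const, card_univ, card_vec, hM, nsmul_eq_mul, mul_one] at h1

  have h2 : (univ.filter fun x => x ∈ D p) = D p := by ext x; simp
  rw [h2] at h1
  push_cast at h1
  omega

lemma card_D_inter {M : ℕ} (hM : 2 ^ m = 4 * M) (p q : Vec m × ZMod 2) (hp : p.1 ≠ 0)
    (hq : q.1 ≠ 0) (hpq : p.1 ≠ q.1) : #(D p ∩ D q) = M := by
  have h0 : p.1 + q.1 ≠ 0 := by
    intro h
    apply hpq
    have := congrArg (fun v => v + q.1) h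
    simp only [add_assoc, vec_add_self, add_zero, zero_add] at this
    exact this
  have h1 : ∑ x, sg (p.1 ⬝ᵥ x + p.2) * sg (q.1 ⬝ᵥ x + q.2) = 0 := by
    have e : ∀ x, sg (p.1 ⬝ᵥ x + p.2) * sg (q.1 ⬝ᵥ x + q.2) =
        sg ((p.1 + q.1) ⬝ᵥ x) * sg (p.2 + q.2) := by
      intro x
      rw [← sg_add, ← sg_add, add_dotProduct]
      congr 1; ring
    simp_rw [e]
    rw [← Finset.sum_mul, sum_sg_dot', if_neg h0, zero_mul]
  have e2 : ∀ x, sg (p.1 ⬝ᵥ x + p.2) * sg (q.1 ⬝ᵥ x + q.2) =
      1 - 2 * (if x ∈ D p then 1 else 0) - 2 * (if x ∈ D q then 1 else 0)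
        + 4 * (if x ∈ D p ∩ D q then 1 else 0) := by
    intro x
    rw [sg_D, sg_D]
    by_cases h1 : x ∈ D p <;> by_cases h2 : x ∈ D q <;> simp [h1, h2]
  simp_rw [e2] at h1
  have e3 : ∀ s : Finset (Vec m), ∑ x, (if x ∈ s then (1 : ℤ) else 0) = #s := by
    intro s; rw [Finset.sum_boole]; congr 2; ext x; simp
  rw [Finset.sum_add_distrib, Finset.sum_sub_distrib, Finset.sum_sub_distrib, ← Finset.mul_sum,
    ← Finset.mul_sum, ← Finset.mul_sum, e3, e3, e3, card_D hM p hp, card_D hM q hq] at h1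
  simp only [sum_const, card_univ, card_vec, hM, nsmul_eq_mul, mul_one] at h1
  push_cast at h1
  omega

/-- the weight of `ind g + aff a b` -/
lemma norm_eq {M : ℕ} (hM : 2 ^ m = 4 * M) (g : Finset (Vec m)) (p : Vec m × ZMod 2)
    (hp : p.1 ≠ 0) :
    (hammingNorm (ind g + aff p.1 p.2) : ℤ) = 2 * M + #g - 2 * #(g ∩ D p) := by
  have h1 := norm_add_aff (ind g) p.1 p.2
  have hM' : (2 : ℤ) ^ m = 4 * M := by exact_mod_cast hM
  rw [walsh_ind_ne g p.1 hp, hM'] at h1
  have h2 : sg p.2 * ∑ x ∈ g, chi p.1 x = #g - 2 * #(g ∩ D p) := by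
    rw [Finset.mul_sum]
    have e : ∀ x ∈ g, sg p.2 * chi p.1 x = 1 - 2 * (if x ∈ D p then 1 else 0) := by
      intro x _
      rw [← sg_D, sg_add, chi, mul_comm]
    rw [Finset.sum_congr rfl e, Finset.sum_sub_distrib, ← Finset.mul_sum, Finset.sum_boole,
      filter_mem_eq_inter]
    simp
  have h3 : sg p.2 * -(2 * ∑ x ∈ g, chi p.1 x) = -2 * (sg p.2 * ∑ x ∈ g, chi p.1 x) := by ring
  rw [h3, h2] at h1
  linarith

lemma norm_eq_zero {M : ℕ} (hM : 2 ^ m = 4 * M) (g : Finset (Vec m)) (b : ZMod 2) :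
    (hammingNorm (ind g + aff 0 b) : ℤ) = if b = 0 then (#g : ℤ) else 4 * M - #g := by
  have h1 := norm_add_aff (ind g) 0 b
  have hM' : (2 : ℤ) ^ m = 4 * M := by exact_mod_cast hM
  rw [walsh_ind_zero, hM'] at h1
  rcases zmod2_cases b with h | h
  · rw [h, sg_zero] at h1
    rw [if_pos h, h]; linarith
  · rw [h, sg_one] at h1
    rw [h, if_neg (by decide)]; linarith

/-- the number of affine functions that are closer -/
def nb (M : ℕ) (g : Finset (Vec m)) : ℕ := #{p ∈ I m | M < #(g ∩ D p)}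

/-- the number of nonconstant affine functions at the same distance as `0` -/
def ne (M : ℕ) (g : Finset (Vec m)) : ℕ := #{p ∈ I m | #(g ∩ D p) = M}

lemma leader_iff' {M i : ℕ} (hM : 2 ^ m = 4 * M) (hi : i < 2 * M) (g : Finset (Vec m))
    (hg : #g = i) :
    leaderWeight ((reedMuller m).mkQ (ind g)) = i ↔ nb M g = 0 := by
  obtain ⟨⟨a, b, hab⟩, hle⟩ := leaderWeight_spec (ind g)
  rw [nb, card_eq_zero, filter_eq_empty_iff]
  constructor
  · intro h p hp hlt
    have h1 := hle p.1 p.2
    rw [h] at h1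
    have h2 := norm_eq hM g p ((mem_I p).1 hp)
    rw [hg] at h2
    omega
  · intro h
    have h0 : leaderWeight ((reedMuller m).mkQ (ind g)) ≤ i := by
      have h1 := hle 0 0
      have h2 := norm_eq_zero hM g 0
      rw [if_pos rfl, hg] at h2
      omega
    have h1 : i ≤ hammingNorm (ind g + aff a b) := by
      by_cases ha : a = 0
      · subst ha
        have h2 := norm_eq_zero hM g b
        rw [hg] at h2
        split_ifs at h2 <;> omega
      · have h2 := norm_eq hM g (a, b) ha
        have h3 := h ((mem_I (a, b)).2 ha)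
        rw [hg] at h2
        simp only at h2 h3
        omega
    omega

lemma aff_injective : Function.Injective (fun p : Vec m × ZMod 2 => aff p.1 p.2) := by
  rintro ⟨a, b⟩ ⟨a', b'⟩ h
  have h1 : ∀ x : Vec m, a ⬝ᵥ x + b = a' ⬝ᵥ x + b' := fun x => congrFun h x
  have hb : b = b' := by simpa using h1 0
  subst hb
  have ha : a = a' := by
    funext j
    simpa using h1 (Pi.single j 1)
  rw [ha]

open Classical in
/-- the number of vectors of weight `i` in the coset of a vector of weight `i` -/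
lemma card_fiber {M i : ℕ} (hM : 2 ^ m = 4 * M) (hi : i < 2 * M) (g : Finset (Vec m))
    (hg : #g = i) :
    #{g' ∈ powersetCard i (univ : Finset (Vec m)) |
      (reedMuller m).mkQ (ind g') = (reedMuller m).mkQ (ind g)} = 1 + ne M g := by
  have h1 : #{g' ∈ powersetCard i (univ : Finset (Vec m)) |
      (reedMuller m).mkQ (ind g') = (reedMuller m).mkQ (ind g)} =
      #{p : Vec m × ZMod 2 | hammingNorm (ind g + aff p.1 p.2) = i} := by
    symm
    refine Finset.card_bij (fun p _ => (indE m).symm (ind g + aff p.1 p.2)) ?_ ?_ ?_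
    · intro p hp
      rw [mem_filter] at hp
      have e : ind ((indE m).symm (ind g + aff p.1 p.2)) = ind g + aff p.1 p.2 :=
        (indE m).apply_symm_apply _
      rw [mem_filter, mem_powersetCard]
      refine ⟨⟨subset_univ _, ?_⟩, ?_⟩
      · rw [← norm_ind, e]; exact hp.2
      · rw [e]; exact (mkQ_eq_iff _ _).2 ⟨p.1, p.2, rfl⟩
    · intro p _ q _ h
      have h2 := (indE m).symm.injective h
      exact aff_injective (add_left_cancel h2)
    · intro g' hg'
      rw [mem_filter, mem_powersetCard] at hg'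
      obtain ⟨a, b, hab⟩ := (mkQ_eq_iff _ _).1 hg'.2
      refine ⟨(a, b), ?_, ?_⟩
      · rw [mem_filter]
        refine ⟨mem_univ _, ?_⟩
        simp only
        rw [← hab, norm_ind]; exact hg'.1.2
      · simp only
        rw [← hab]
        exact (indE m).symm_apply_apply g'
  rw [h1]
  have h2 : (univ.filter fun p : Vec m × ZMod 2 => hammingNorm (ind g + aff p.1 p.2) = i) =
      insert ((0 : Vec m), (0 : ZMod 2)) ((I m).filter fun p => #(g ∩ D p) = M) := by
    ext ⟨a, b⟩
    rw [mem_filter, mem_insert, mem_filter, mem_I]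
    simp only [mem_univ, true_and, Prod.mk.injEq]
    by_cases ha : a = 0
    · subst ha
      have h3 := norm_eq_zero hM g b
      rw [hg] at h3
      constructor
      · intro h4
        left
        refine ⟨rfl, ?_⟩
        by_contra hb
        rw [if_neg hb] at h3
        omega
      · rintro (⟨-, hb⟩ | ⟨h5, -⟩)
        · rw [if_pos hb] at h3; omega
        · exact absurd rfl h5
    · have h3 := norm_eq hM g (a, b) ha
      rw [hg] at h3
      simp only at h3
      constructor
      · intro h4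
        right
        refine ⟨ha, ?_⟩
        omega
      · rintro (⟨h5, -⟩ | ⟨-, h5⟩)
        · exact absurd h5 ha
        · omega
  rw [h2, card_insert_of_notMem, ne, add_comm]
  rw [mem_filter, mem_I]
  simp

/-- the share of a set `g` in the count of cosets -/
noncomputable def Qf (M : ℕ) (g : Finset (Vec m)) : ℝ :=
  if nb M g = 0 then 1 / (1 + ne M g : ℝ) else 0

open Classical in
theorem leaderCount_eq {M i : ℕ} (hM : 2 ^ m = 4 * M) (hi : i < 2 * M) :
    (leaderCount m i : ℝ) = ∑ g ∈ powersetCard i (univ : Finset (Vec m)), Qf M g := by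
  have : Fintype ((Vec m → ZMod 2) ⧸ reedMuller m) := Fintype.ofFinite _
  have h1 : leaderCount m i = #{q : (Vec m → ZMod 2) ⧸ reedMuller m | leaderWeight q = i} := by
    rw [leaderCount, Nat.card_eq_fintype_card, Fintype.card_subtype]
  have h2 : ∑ g ∈ powersetCard i (univ : Finset (Vec m)), Qf M g =
      ∑ g ∈ {g ∈ powersetCard i (univ : Finset (Vec m)) | nb M g = 0}, 1 / (1 + ne M g : ℝ) := by
    rw [Finset.sum_filter]
    rfl
  rw [h2, h1, ← Finset.sum_fiberwise_of_maps_to
    (t := {q : (Vec m → ZMod 2) ⧸ reedMuller m | leaderWeight q = i})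
    (g := fun g => (reedMuller m).mkQ (ind g))]
  · rw [Finset.card_eq_sum_ones]
    push_cast
    refine Finset.sum_congr rfl fun q hq => ?_
    rw [mem_filter] at hq
    have hne : {w | ∃ f : Vec m → ZMod 2, (reedMuller m).mkQ f = q ∧
        hammingNorm f = w}.Nonempty := by
      obtain ⟨f, rfl⟩ := (reedMuller m).mkQ_surjective q
      exact ⟨_, f, rfl, rfl⟩
    obtain ⟨f, hf, hw⟩ := Nat.sInf_mem hne
    obtain ⟨g0, rfl⟩ := ind_surjective f
    rw [norm_ind] at hw
    have hg0 : #g0 = i := by rw [hw]; exact hq.2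
    subst hf
    have hset : ((powersetCard i (univ : Finset (Vec m))).filter (fun g => nb M g = 0)).filter
        (fun g => (reedMuller m).mkQ (ind g) = (reedMuller m).mkQ (ind g0)) =
        (powersetCard i (univ : Finset (Vec m))).filter
        (fun g => (reedMuller m).mkQ (ind g) = (reedMuller m).mkQ (ind g0)) := by
      ext g
      rw [mem_filter, mem_filter, mem_filter]
      constructor
      · rintro ⟨⟨h3, -⟩, h5⟩; exact ⟨h3, h5⟩
      · rintro ⟨h3, h5⟩
        refine ⟨⟨h3, ?_⟩, h5⟩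
        rw [← leader_iff' hM hi g (mem_powersetCard.1 h3).2, h5]
        exact hq.2
    rw [hset]
    have hval : ∀ g ∈ (powersetCard i (univ : Finset (Vec m))).filter
        (fun g => (reedMuller m).mkQ (ind g) = (reedMuller m).mkQ (ind g0)),
        1 / (1 + ne M g : ℝ) = 1 / (1 + ne M g0 : ℝ) := by
      intro g hg
      rw [mem_filter] at hg
      have h3 := card_fiber hM hi g (mem_powersetCard.1 hg.1).2
      have h4 := card_fiber hM hi g0 hg0
      rw [hg.2, h4] at h3
      have h5 : ne M g = ne M g0 := by omega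
      rw [h5]
    rw [Finset.sum_congr rfl hval, Finset.sum_const, card_fiber hM hi g0 hg0, nsmul_eq_mul]
    push_cast
    have : (1 + ne M g0 : ℝ) ≠ 0 := by positivity
    field_simp
  · intro g hg
    rw [mem_filter] at hg ⊢
    exact ⟨mem_univ _, (leader_iff' hM hi g (mem_powersetCard.1 hg.1).2).2 hg.2⟩

end Pool.Agent.RMC53
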