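import Pool.Agent.RMC53.Ratio

/-!
# Counting sets by their intersection numbers with two halves
-/

set_option autoImplicit false

open Polynomial Finset

namespace Pool.Agent.RMC53

variable {U : Type*} [Fintype U] [DecidableEq U]

lemma sum_split {R : Type*} [AddCommMonoid R] (c : Finset U) (i : ℕ) (f : Finset U → R) :
    ∑ g ∈ powersetCard i (univ : Finset U), f g =
      ∑ x ∈ range (i + 1), ∑ p ∈ powersetCard x c ×ˢ powersetCard (i - x) cᶜ,
        f (p.1 ∪ p.2) := by
  rw [← Finset.sum_fiberwise_of_maps_to (s := powersetCard i (univ : Finset U))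
    (t := range (i + 1)) (g := fun g => #(g ∩ c))]
  · refine Finset.sum_congr rfl fun x hx => ?_
    have hx' : x ≤ i := by have := mem_range.1 hx; omega
    refine Finset.sum_nbij' (fun g => (g ∩ c, g ∩ cᶜ)) (fun p => p.1 ∪ p.2) ?_ ?_ ?_ ?_ ?_
    · intro g hg
      rw [mem_filter, mem_powersetCard] at hg
      rw [mem_product, mem_powersetCard, mem_powersetCard]
      refine ⟨⟨inter_subset_right, hg.2⟩, inter_subset_right, ?_⟩
      have h1 := card_sdiff_add_card_inter g c
      rw [sdiff_eq_inter_compl] at h1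
      simp only
      omega
    · intro p hp
      rw [mem_product, mem_powersetCard, mem_powersetCard] at hp
      rw [mem_filter, mem_powersetCard]
      have hd : Disjoint p.1 p.2 := by
        rw [Finset.disjoint_left]
        intro y h1 h2
        exact (mem_compl.1 (hp.2.1 h2)) (hp.1.1 h1)
      refine ⟨⟨subset_univ _, ?_⟩, ?_⟩
      · rw [card_union_of_disjoint hd]; omega
      · have : (p.1 ∪ p.2) ∩ c = p.1 := by
          ext y
          simp only [mem_inter, mem_union]
          constructor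
          · rintro ⟨h1 | h1, h2⟩
            · exact h1
            · exact absurd h2 (mem_compl.1 (hp.2.1 h1))
          · intro h; exact ⟨Or.inl h, hp.1.1 h⟩
        rw [this]; exact hp.1.2
    · intro g _
      ext y
      simp only [mem_union, mem_inter, mem_compl]
      tauto
    · intro p hp
      rw [mem_product, mem_powersetCard, mem_powersetCard] at hp
      have h1 : (p.1 ∪ p.2) ∩ c = p.1 := by
        ext y
        simp only [mem_inter, mem_union]
        constructor
        · rintro ⟨h1 | h1, h2⟩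
          · exact h1
          · exact absurd h2 (mem_compl.1 (hp.2.1 h1))
        · intro h; exact ⟨Or.inl h, hp.1.1 h⟩
      have h2 : (p.1 ∪ p.2) ∩ cᶜ = p.2 := by
        ext y
        simp only [mem_inter, mem_union, mem_compl]
        constructor
        · rintro ⟨h1 | h1, h2⟩
          · exact absurd (hp.1.1 h1) h2
          · exact h1
        · intro h; exact ⟨Or.inr h, mem_compl.1 (hp.2.1 h)⟩
      simp only [h1, h2]
    · intro g _
      have : g ∩ c ∪ g ∩ cᶜ = g := by
        ext y
        simp only [mem_union, mem_inter, mem_compl]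
        tauto
      rw [this]
  · intro g hg
    rw [mem_powersetCard] at hg
    rw [mem_range]
    have := card_le_card (inter_subset_left (s₁ := g) (s₂ := c))
    omega

lemma coeff_prod {R : Type*} [CommRing R] (c : Finset U) (u : U → R) (x : ℕ) :
    (∏ p ∈ c, (1 + C (u p) * X)).coeff x = ∑ g ∈ powersetCard x c, ∏ p ∈ g, u p := by
  rw [Finset.prod_one_add, finset_sum_coeff]
  have h1 : ∀ t ∈ c.powerset, (∏ p ∈ t, (C (u p) * X)).coeff x =
      if #t = x then ∏ p ∈ t, u p else 0 := by
    intro t _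
    rw [Finset.prod_mul_distrib, Finset.prod_const, ← map_prod, coeff_C_mul, coeff_X_pow]
    by_cases h : #t = x
    · rw [if_pos h.symm, if_pos h, mul_one]
    · rw [if_neg (fun h' => h h'.symm), if_neg h, mul_zero]
  rw [Finset.sum_congr rfl h1, ← Finset.sum_filter, ← powersetCard_eq_filter]

lemma H_eq_sum (M : ℕ) (c c' : Finset U) (h1 : #(c ∩ c') = M) (h2 : #(c \ c') = M) (x : ℕ) :
    H M x = ∑ g ∈ powersetCard x c, (X : ℤ[X]) ^ #(g ∩ c') := by
  have hu : ∀ g : Finset U, ∏ p ∈ g, (if p ∈ c' then (X : ℤ[X]) else 1) = X ^ #(g ∩ c') := by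
    intro g
    rw [Finset.prod_ite, Finset.prod_const, Finset.prod_const_one, mul_one, filter_mem_eq_inter]
  have h3 := coeff_prod c (fun p => if p ∈ c' then (X : ℤ[X]) else 1) x
  simp_rw [hu] at h3
  rw [← h3, H, cz_natCast]
  congr 1
  have h4 : ∀ p ∈ c, (1 + C (if p ∈ c' then (X : ℤ[X]) else 1) * X : ℤ[X][X]) =
      if p ∈ c' then 1 + C X * X else 1 + X := by
    intro p _
    split_ifs
    · rfl
    · rw [map_one, one_mul]
  rw [Finset.prod_congr rfl h4, Finset.prod_ite, Finset.prod_const, Finset.prod_const,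
    filter_mem_eq_inter, filter_notMem_eq_sdiff, h1, h2, G, ← mul_pow]
  congr 1
  rw [C_add, C_1]
  ring

/-- sums over sets of `i` points, weighted by both intersection numbers -/
theorem sum_pair (M i : ℕ) (c c' : Finset U) (h1 : #(c ∩ c') = M) (h2 : #(c \ c') = M)
    (h3 : #(cᶜ ∩ c') = M) (h4 : #(cᶜ \ c') = M) (F : ℕ → ℤ) :
    ∑ g ∈ powersetCard i (univ : Finset U), F #(g ∩ c) * w2 M #(g ∩ c') =
      ∑ x ∈ range (i + 1), F x * Psi M i x := by
  have e0 : ∑ g ∈ powersetCard i (univ : Finset U), F #(g ∩ c) * w2 M #(g ∩ c') =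
      L M (∑ g ∈ powersetCard i (univ : Finset U), (F #(g ∩ c) : ℤ[X]) * X ^ #(g ∩ c')) := by
    rw [map_sum]
    refine Finset.sum_congr rfl fun g _ => ?_
    rw [L_int, X_pow_eq_monomial, L_monomial, mul_one]
  rw [e0, sum_split c, map_sum]
  refine Finset.sum_congr rfl fun x hx => ?_
  have hx' : x ≤ i := by have := mem_range.1 hx; omega
  have e1 : ∑ p ∈ powersetCard x c ×ˢ powersetCard (i - x) cᶜ,
      (F #((p.1 ∪ p.2) ∩ c) : ℤ[X]) * X ^ #((p.1 ∪ p.2) ∩ c') =
      (F x : ℤ[X]) * (H M x * H M ((i : ℤ) - x)) := by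
    have e3 : (i : ℤ) - x = ((i - x : ℕ) : ℤ) := by push_cast [Nat.cast_sub hx']; ring
    rw [e3, H_eq_sum M c c' h1 h2 x, H_eq_sum M cᶜ c' h3 h4 (i - x), Finset.sum_mul_sum,
      ← Finset.sum_product', Finset.mul_sum]
    refine Finset.sum_congr rfl fun p hp => ?_
    rw [mem_product, mem_powersetCard, mem_powersetCard] at hp
    have hd : Disjoint p.1 p.2 := by
      rw [Finset.disjoint_left]
      intro y h1 h2
      exact (mem_compl.1 (hp.2.1 h2)) (hp.1.1 h1)
    have h5 : (p.1 ∪ p.2) ∩ c = p.1 := by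
      ext y
      simp only [mem_inter, mem_union]
      constructor
      · rintro ⟨h1 | h1, h2⟩
        · exact h1
        · exact absurd h2 (mem_compl.1 (hp.2.1 h1))
      · intro h; exact ⟨Or.inl h, hp.1.1 h⟩
    rw [h5, hp.1.2, union_inter_distrib_right, card_union_of_disjoint
      (Disjoint.mono inter_subset_left inter_subset_left hd), pow_add]
  rw [e1, L_int, Psi]

/-- sums over sets of `i` points, weighted by one intersection number -/
theorem sum_single (M i : ℕ) (c : Finset U) (h1 : #c = 2 * M) (h2 : #cᶜ = 2 * M) (F : ℕ → ℤ) :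
    ∑ g ∈ powersetCard i (univ : Finset U), F #(g ∩ c) =
      ∑ x ∈ range (i + 1), F x * A M i x := by
  rw [sum_split c]
  refine Finset.sum_congr rfl fun x hx => ?_
  have e1 : ∀ p ∈ powersetCard x c ×ˢ powersetCard (i - x) cᶜ, F #((p.1 ∪ p.2) ∩ c) = F x := by
    intro p hp
    rw [mem_product, mem_powersetCard, mem_powersetCard] at hp
    have h5 : (p.1 ∪ p.2) ∩ c = p.1 := by
      ext y
      simp only [mem_inter, mem_union]
      constructor
      · rintro ⟨h1 | h1, h2⟩
        · exact h1
        · exact absurd h2 (mem_compl.1 (hp.2.1 h1))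
      · intro h; exact ⟨Or.inl h, hp.1.1 h⟩
    rw [h5, hp.1.2]
  rw [Finset.sum_congr rfl e1, Finset.sum_const, card_product, card_powersetCard,
    card_powersetCard, h1, h2, A, nsmul_eq_mul, mul_comm]

/-- twice the weighted number of sets -/
def B (M i : ℕ) : ℤ := ∑ x ∈ range (i + 1), w2 M x * A M i x

lemma B_nonneg (M i : ℕ) : 0 ≤ B M i :=
  Finset.sum_nonneg fun x _ => mul_nonneg (w2_nonneg M x) (by positivity)

/-- Negative correlation of two half sets. -/
theorem neg_corr_sets (M i : ℕ) (hM : 1 ≤ M) (hi : i < 2 * M) (c c' : Finset U)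
    (h1 : #(c ∩ c') = M) (h2 : #(c \ c') = M) (h3 : #(cᶜ ∩ c') = M) (h4 : #(cᶜ \ c') = M) :
    ((Fintype.card U).choose i : ℤ) *
      (∑ g ∈ powersetCard i (univ : Finset U), w2 M #(g ∩ c) * w2 M #(g ∩ c')) ≤ B M i ^ 2 := by
  have hc : #c = 2 * M := by
    have := card_sdiff_add_card_inter c c'
    omega
  have hcc : #cᶜ = 2 * M := by
    have := card_sdiff_add_card_inter cᶜ c'
    omega
  have hc' : #c' = 2 * M := by
    have e : c' = (c ∩ c') ∪ (cᶜ ∩ c') := by
      ext y; simp only [mem_union, mem_inter, mem_compl]; tauto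
    rw [e, card_union_of_disjoint]
    · omega
    · rw [Finset.disjoint_left]
      intro y h5 h6
      exact (mem_compl.1 (mem_inter.1 h6).1) (mem_inter.1 h5).1
  have hcc' : #c'ᶜ = 2 * M := by
    have e : c'ᶜ = (c \ c') ∪ (cᶜ \ c') := by
      ext y; simp only [mem_union, mem_sdiff, mem_compl]; tauto
    rw [e, card_union_of_disjoint]
    · omega
    · rw [Finset.disjoint_left]
      intro y h5 h6
      exact (mem_compl.1 (mem_sdiff.1 h6).1) (mem_sdiff.1 h5).1
  have k0 := sum_pair M i c c' h1 h2 h3 h4 (w2 M)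
  have k1 := sum_pair M i c c' h1 h2 h3 h4 (fun _ => 1)
  have k2 := sum_single M i c' hc' hcc' (w2 M)
  have k3 := sum_single M i c hc hcc (fun _ => 1)
  simp only [one_mul] at k1 k3
  rw [k2] at k1
  rw [Finset.sum_const, card_powersetCard, card_univ, nsmul_eq_mul, mul_one] at k3
  have key := neg_corr M i hM hi
  have key' : (∑ x ∈ range (i + 1), (A M i x : ℤ)) * (∑ x ∈ range (i + 1), w2 M x * Psi M i x) ≤
      (∑ x ∈ range (i + 1), w2 M x * A M i x) * (∑ x ∈ range (i + 1), Psi M i x) := by
    exact_mod_cast key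
  rw [k0, k3]
  rw [← k1] at key'
  rw [B, sq]
  exact key'

end Pool.Agent.RMC53
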