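import Pool.Agent.RMC53.Coset

/-!
# Two-sided bounds for the number of cosets of given weight
-/

set_option autoImplicit false

open Finset

namespace Pool.Agent.RMC53

open Pool.Agent.RMC Pool.Agent.RMC68

variable {m : ℕ}

/-- twice the weighted number of competitors -/
def S2 (M : ℕ) (g : Finset (Vec m)) : ℤ := ∑ p ∈ I m, w2 M #(g ∩ D p)

lemma S2_eq (M : ℕ) (g : Finset (Vec m)) : S2 M g = 2 * nb M g + ne M g := by
  have h : ∀ s : ℕ, w2 M s = 2 * (if M < s then 1 else 0) + (if s = M then 1 else 0) := by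
    intro s
    unfold w2
    split_ifs <;> first | omega | rfl
  rw [S2]
  simp_rw [h]
  rw [Finset.sum_add_distrib, ← Finset.mul_sum, Finset.sum_boole, Finset.sum_boole, nb, ne]

lemma sumsq_eq (M : ℕ) (g : Finset (Vec m)) :
    ∑ p ∈ I m, w2 M #(g ∩ D p) ^ 2 = 4 * nb M g + ne M g := by
  have h : ∀ s : ℕ, w2 M s ^ 2 = 4 * (if M < s then 1 else 0) + (if s = M then 1 else 0) := by
    intro s
    unfold w2
    split_ifs <;> first | omega | rfl
  simp_rw [h]
  rw [Finset.sum_add_distrib, ← Finset.mul_sum, Finset.sum_boole, Finset.sum_boole, nb, ne]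

lemma card_compl_D {M : ℕ} (hM : 2 ^ m = 4 * M) (p : Vec m × ZMod 2) (hp : p.1 ≠ 0) :
    #(D p)ᶜ = 2 * M := by
  rw [card_compl, card_vec, hM, card_D hM p hp]; omega

lemma sum_S2 {M : ℕ} (hM : 2 ^ m = 4 * M) (i : ℕ) :
    ∑ g ∈ powersetCard i (univ : Finset (Vec m)), S2 M g = #(I m) * B M i := by
  unfold S2
  rw [Finset.sum_comm, Finset.sum_congr rfl (fun p hp => sum_single M i (D p)
    (card_D hM p ((mem_I p).1 hp)) (card_compl_D hM p ((mem_I p).1 hp)) (w2 M)),
    Finset.sum_const, nsmul_eq_mul]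
  rfl

/-- the off-diagonal part of `S2 ^ 2` -/
def off (M : ℕ) (g : Finset (Vec m)) : ℤ :=
  ∑ p ∈ I m, ∑ q ∈ I m, if p.1 = q.1 then 0 else w2 M #(g ∩ D p) * w2 M #(g ∩ D q)

lemma compl_pair {M : ℕ} (g : Finset (Vec m)) (hg : #g < 2 * M) (p q : Vec m × ZMod 2)
    (h1 : p.1 = q.1) (h2 : p ≠ q) : w2 M #(g ∩ D p) * w2 M #(g ∩ D q) = 0 := by
  have hd : Disjoint (g ∩ D p) (g ∩ D q) := by
    rw [Finset.disjoint_left]
    intro x hx hx'
    have e1 := (mem_D p x).1 (mem_inter.1 hx).2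
    have e2 := (mem_D q x).1 (mem_inter.1 hx').2
    rw [h1] at e1
    apply h2
    refine Prod.ext h1 ?_
    exact add_left_cancel (e1.trans e2.symm)
  have h3 : #(g ∩ D p) + #(g ∩ D q) ≤ #g := by
    rw [← card_union_of_disjoint hd]
    exact card_le_card (union_subset inter_subset_left inter_subset_left)
  rcases lt_or_ge #(g ∩ D p) M with h | h
  · rw [w2_of_lt M h, zero_mul]
  · rw [w2_of_lt M (show #(g ∩ D q) < M by omega), mul_zero]

lemma S2_sq {M : ℕ} (g : Finset (Vec m)) (hg : #g < 2 * M) :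
    S2 M g ^ 2 = off M g + (4 * nb M g + ne M g) := by
  rw [← sumsq_eq, sq, S2, Finset.sum_mul_sum, off, ← Finset.sum_add_distrib]
  refine Finset.sum_congr rfl fun p hp => ?_
  have h1 : w2 M #(g ∩ D p) ^ 2 = ∑ q ∈ I m, if p = q then w2 M #(g ∩ D p) ^ 2 else 0 := by
    rw [Finset.sum_ite_eq, if_pos hp]
  rw [h1, ← Finset.sum_add_distrib]
  refine Finset.sum_congr rfl fun q _ => ?_
  by_cases h : p = q
  · subst h; rw [if_pos rfl, if_pos rfl]; ring
  · rw [if_neg h, add_zero]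
    split_ifs with h2
    · exact compl_pair g hg p q h2 h
    · rfl

lemma sum_off {M i : ℕ} (hM : 2 ^ m = 4 * M) (hM1 : 1 ≤ M) (hi : i < 2 * M) :
    ((2 ^ m).choose i : ℤ) * ∑ g ∈ powersetCard i (univ : Finset (Vec m)), off M g ≤
      (#(I m) * B M i) ^ 2 := by
  have h0 : ∑ g ∈ powersetCard i (univ : Finset (Vec m)), off M g =
      ∑ p ∈ I m, ∑ q ∈ I m, ∑ g ∈ powersetCard i (univ : Finset (Vec m)),
        if p.1 = q.1 then 0 else w2 M #(g ∩ D p) * w2 M #(g ∩ D q) := by
    unfold off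
    rw [Finset.sum_comm]
    refine Finset.sum_congr rfl fun p _ => ?_
    rw [Finset.sum_comm]
  rw [h0, Finset.mul_sum]
  have h1 : ∀ p ∈ I m, ((2 ^ m).choose i : ℤ) * (∑ q ∈ I m,
      ∑ g ∈ powersetCard i (univ : Finset (Vec m)),
        if p.1 = q.1 then 0 else w2 M #(g ∩ D p) * w2 M #(g ∩ D q)) ≤ #(I m) * B M i ^ 2 := by
    intro p hp
    rw [Finset.mul_sum, ← nsmul_eq_mul]
    refine Finset.sum_le_card_nsmul _ _ _ fun q hq => ?_
    by_cases h : p.1 = q.1
    · simp only [h, if_true]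
      rw [Finset.sum_const_zero, mul_zero]; positivity
    · simp only [h, if_false]
      have hp' := (mem_I p).1 hp
      have hq' := (mem_I q).1 hq
      have c1 := card_D_inter hM p q hp' hq' h
      have c2 := card_D hM p hp'
      have c3 := card_D hM q hq'
      have c4 := card_sdiff_add_card_inter (D p) (D q)
      have c5 := card_sdiff_add_card_inter (D q) (D p)
      have c6 : (D p)ᶜ ∩ D q = D q \ D p := by
        ext x; simp only [mem_inter, mem_compl, mem_sdiff]; tauto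
      have c7 := card_sdiff_add_card_inter (D p)ᶜ (D q)
      have c8 := card_compl_D hM p hp'
      rw [inter_comm (D q) (D p)] at c5
      rw [c6] at c7
      have key := neg_corr_sets M i hM1 hi (D p) (D q) c1 (by omega) (by rw [c6]; omega)
        (by omega)
      rw [card_vec] at key
      exact key
  refine (Finset.sum_le_card_nsmul _ _ _ h1).trans (le_of_eq ?_)
  rw [nsmul_eq_mul]; ring

lemma Qf_cases (M : ℕ) (g : Finset (Vec m)) :
    (1 - Qf M g ≤ (S2 M g : ℝ) / 2) ∧
    ((S2 M g : ℝ) ^ 2 ≤ (1 - Qf M g) * ((S2 M g : ℝ) ^ 2 + ne M g)) ∧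
    ((S2 M g : ℝ) / 2 - ((S2 M g : ℝ) ^ 2 - (4 * nb M g + ne M g)) / 6 ≤ 1 - Qf M g) ∧
    0 ≤ 1 - Qf M g := by
  have h1 : (S2 M g : ℝ) = 2 * nb M g + ne M g := by
    rw [S2_eq]; push_cast; ring
  rw [h1]
  have he : (0 : ℝ) ≤ ne M g := by positivity
  by_cases hb : nb M g = 0
  · rw [Qf, if_pos hb, hb]
    push_cast
    have hpos : (0 : ℝ) < 1 + ne M g := by positivity
    have h2 : (1 : ℝ) - 1 / (1 + ne M g) = ne M g / (1 + ne M g) := by
      field_simp; ring
    rw [h2]
    have hcase : (ne M g : ℝ) = 0 ∨ (1 : ℝ) ≤ ne M g := by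
      rcases Nat.eq_zero_or_pos (ne M g) with h | h
      · left; rw [h]; norm_num
      · right; exact_mod_cast h
    have hcase2 : 0 ≤ (ne M g : ℝ) * (ne M g - 1) * (ne M g - 2) := by
      rcases Nat.lt_or_ge (ne M g) 3 with h | h
      · interval_cases h5 : ne M g <;> norm_num
      · have h5 : (3 : ℝ) ≤ ne M g := by exact_mod_cast h
        exact mul_nonneg (mul_nonneg he (by linarith)) (by linarith)
    refine ⟨?_, ?_, ?_, ?_⟩
    · rw [div_le_div_iff₀ hpos (by norm_num)]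
      rcases hcase with h | h
      · rw [h]; norm_num
      · nlinarith
    · rw [div_mul_eq_mul_div, le_div_iff₀ hpos]
      nlinarith
    · rw [le_div_iff₀ hpos]
      nlinarith
    · positivity
  · rw [Qf, if_neg hb]
    have hb1 : (1 : ℝ) ≤ nb M g := by exact_mod_cast Nat.one_le_iff_ne_zero.2 hb
    have hcase : (nb M g : ℝ) = 1 ∨ (2 : ℝ) ≤ nb M g := by
      rcases Nat.lt_or_ge (nb M g) 2 with h | h
      · left
        have : nb M g = 1 := by omega
        rw [this]; norm_num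
      · right; exact_mod_cast h
    refine ⟨?_, ?_, ?_, ?_⟩
    · linarith
    · nlinarith
    · rcases hcase with h | h
      · rw [h]; nlinarith
      · nlinarith [mul_nonneg he (by linarith : (0 : ℝ) ≤ (nb M g : ℝ) - 1)]
    · norm_num

/-- the main bounds -/
theorem bounds {M i : ℕ} (hM : 2 ^ m = 4 * M) (hM1 : 1 ≤ M) (hi : i < 2 * M) (c l : ℝ)
    (hc : c = ((2 ^ m).choose i : ℝ)) (hl : l = (2 ^ m - 1) * (B M i : ℝ) / c) :
    c * (1 - l) ≤ leaderCount m i ∧ (leaderCount m i : ℝ) ≤ c / (1 + l) ∧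
      (leaderCount m i : ℝ) ≤ c * (1 - l + 2 / 3 * l ^ 2) := by
  have hcpos : 0 < c := by
    rw [hc]; exact_mod_cast Nat.choose_pos (by omega)
  have hI : ((#(I m) : ℕ) : ℝ) = 2 * (2 ^ m - 1) := by exact_mod_cast card_I
  have hBnn : (0 : ℝ) ≤ B M i := by exact_mod_cast B_nonneg M i
  have ht : ((#(I m) : ℕ) : ℝ) * B M i = 2 * (c * l) := by
    rw [hl, mul_div_cancel₀ _ hcpos.ne', hI]; ring
  have hone : (0 : ℝ) ≤ 2 ^ m - 1 := by
    have : (1 : ℝ) ≤ 2 ^ m := one_le_pow₀ (by norm_num)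
    linarith
  have hlnn : 0 ≤ l := by rw [hl]; positivity
  have hcard : ∑ g ∈ powersetCard i (univ : Finset (Vec m)), (1 : ℝ) = c := by
    rw [Finset.sum_const, card_powersetCard, card_univ, card_vec, nsmul_eq_mul, mul_one, hc]
  have hdef : c - leaderCount m i =
      ∑ g ∈ powersetCard i (univ : Finset (Vec m)), (1 - Qf M g) := by
    rw [Finset.sum_sub_distrib, hcard, leaderCount_eq hM hi]
  have hS : ∑ g ∈ powersetCard i (univ : Finset (Vec m)), (S2 M g : ℝ) = 2 * (c * l) := by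
    rw [← ht]; exact_mod_cast sum_S2 hM i
  have hO : c * ∑ g ∈ powersetCard i (univ : Finset (Vec m)), (off M g : ℝ) ≤
      (2 * (c * l)) ^ 2 := by
    rw [← ht, hc]; exact_mod_cast sum_off hM hM1 hi
  have hsq : ∀ g ∈ powersetCard i (univ : Finset (Vec m)),
      (S2 M g : ℝ) ^ 2 = off M g + (4 * nb M g + ne M g) := by
    intro g hg
    have h := S2_sq (M := M) g (by rw [(mem_powersetCard.1 hg).2]; exact hi)
    exact_mod_cast h
  have hO' : ∑ g ∈ powersetCard i (univ : Finset (Vec m)), (off M g : ℝ) ≤ 4 * (c * l ^ 2) := by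
    refine le_of_mul_le_mul_left ?_ hcpos
    refine hO.trans (le_of_eq ?_)
    ring
  refine ⟨?_, ?_, ?_⟩
  · have h1 : ∑ g ∈ powersetCard i (univ : Finset (Vec m)), (1 - Qf M g) ≤
        ∑ g ∈ powersetCard i (univ : Finset (Vec m)), (S2 M g : ℝ) / 2 :=
      Finset.sum_le_sum fun g _ => (Qf_cases M g).1
    rw [← hdef, ← Finset.sum_div, hS] at h1
    linarith
  · have hV : ∑ g ∈ powersetCard i (univ : Finset (Vec m)), ((S2 M g : ℝ) ^ 2 + ne M g) ≤
        4 * (c * l) + 4 * (c * l ^ 2) := by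
      have e : ∀ g ∈ powersetCard i (univ : Finset (Vec m)),
          ((S2 M g : ℝ) ^ 2 + ne M g) = off M g + 2 * S2 M g := by
        intro g hg
        rw [hsq g hg, S2_eq]; push_cast; ring
      rw [Finset.sum_congr rfl e, Finset.sum_add_distrib, ← Finset.mul_sum, hS]
      linarith
    have hCS := Finset.sum_sq_le_sum_mul_sum_of_sq_le_mul
      (powersetCard i (univ : Finset (Vec m))) (r := fun g => (S2 M g : ℝ))
      (f := fun g => 1 - Qf M g) (g := fun g => (S2 M g : ℝ) ^ 2 + ne M g)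
      (fun g _ => (Qf_cases M g).2.2.2) (fun g _ => by positivity)
      (fun g _ => (Qf_cases M g).2.1)
    rw [hS, ← hdef] at hCS
    have hd0 : 0 ≤ c - leaderCount m i := by
      rw [hdef]; exact Finset.sum_nonneg fun g _ => (Qf_cases M g).2.2.2
    have h3 : (2 * (c * l)) ^ 2 ≤ (c - leaderCount m i) * (4 * (c * l) + 4 * (c * l ^ 2)) :=
      hCS.trans (mul_le_mul_of_nonneg_left hV hd0)
    rw [le_div_iff₀ (by linarith)]
    rcases hlnn.eq_or_lt with h4 | h4
    · rw [← h4]; linarith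
    · have h5 : 0 < 4 * (c * l) := by positivity
      have h6 : (4 * (c * l)) * (c * l) ≤ (4 * (c * l)) * ((c - leaderCount m i) * (1 + l)) := by
        calc (4 * (c * l)) * (c * l) = (2 * (c * l)) ^ 2 := by ring
          _ ≤ (c - leaderCount m i) * (4 * (c * l) + 4 * (c * l ^ 2)) := h3
          _ = _ := by ring
      have h7 := le_of_mul_le_mul_left h6 h5
      linarith
  · have h1 : ∑ g ∈ powersetCard i (univ : Finset (Vec m)),
        ((S2 M g : ℝ) / 2 - (off M g : ℝ) / 6) ≤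
        ∑ g ∈ powersetCard i (univ : Finset (Vec m)), (1 - Qf M g) := by
      refine Finset.sum_le_sum fun g hg => ?_
      have h2 := (Qf_cases M g).2.2.1
      rw [hsq g hg] at h2
      linarith
    rw [← hdef, Finset.sum_sub_distrib, ← Finset.sum_div, ← Finset.sum_div, hS] at h1
    linarith

end Pool.Agent.RMC53
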