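import Pool.Agent.RMC53.Lower

/-!
# Cosets of large weight from a function of nearly maximal nonlinearity

For `h` on `F₂^n` and `g` on `F₂^(r+n)` the function on `F₂^(r+(r+n))` that is `g(x,w)` for `y = 0`
and `h(w) + x·y` for `y ≠ 0` has Walsh coefficients at most `|W_g| + 2^r |W_h|`.
-/

set_option autoImplicit false

open Finset

namespace Pool.Agent.RMC53

open Pool.Agent.RMC Pool.Agent.RMC68

variable {r k n m : ℕ}

/-- the first coordinates -/
def lc (r k : ℕ) (z : Vec (r + k)) : Vec r := fun i => z (Fin.castAdd k i)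

/-- the last coordinates -/
def rc (r k : ℕ) (z : Vec (r + k)) : Vec k := fun i => z (Fin.natAdd r i)

lemma lc_append (y : Vec r) (u : Vec k) : lc r k (Fin.append y u) = y := by
  funext i
  simp [lc]

lemma rc_append (y : Vec r) (u : Vec k) : rc r k (Fin.append y u) = u := by
  funext i
  simp [rc]

lemma sum_append (F : Vec (r + k) → ℤ) :
    ∑ z, F z = ∑ y : Vec r, ∑ u : Vec k, F (Fin.append y u) := by
  rw [← Fintype.sum_prod_type' (f := fun (y : Vec r) (u : Vec k) => F (Fin.append y u))]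
  exact (Fintype.sum_equiv (Fin.appendEquiv r k) _ _ fun _ => rfl).symm

lemma dot_split (a : Vec (r + k)) (y : Vec r) (u : Vec k) :
    a ⬝ᵥ Fin.append y u = lc r k a ⬝ᵥ y + rc r k a ⬝ᵥ u := by
  rw [dotProduct, Fin.sum_univ_add]
  simp [dotProduct, lc, rc]

/-- the glued function -/
def glue (h : Vec n → ZMod 2) (g : Vec (r + n) → ZMod 2) (z : Vec (r + (r + n))) : ZMod 2 :=
  if lc r (r + n) z = 0 then g (rc r (r + n) z)
  else h (rc r n (rc r (r + n) z)) + lc r n (rc r (r + n) z) ⬝ᵥ lc r (r + n) z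

lemma glue_append (h : Vec n → ZMod 2) (g : Vec (r + n) → ZMod 2) (y : Vec r)
    (u : Vec (r + n)) : glue h g (Fin.append y u) =
      if y = 0 then g u else h (rc r n u) + lc r n u ⬝ᵥ y := by
  rw [glue, lc_append, rc_append]

lemma glue_injective (h : Vec n → ZMod 2) :
    Function.Injective (glue (r := r) h) := by
  intro g g' hg
  funext u
  have := congrFun hg (Fin.append 0 u)
  rw [glue_append, glue_append, if_pos rfl, if_pos rfl] at this
  exact this

lemma inner_sum (h : Vec n → ZMod 2) (y : Vec r) (A : Vec (r + n)) (c : ZMod 2) :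
    ∑ u : Vec (r + n), sg (h (rc r n u) + lc r n u ⬝ᵥ y + (c + A ⬝ᵥ u)) =
      sg c * (if y + lc r n A = 0 then 2 ^ r else 0) * walsh h (rc r n A) := by
  rw [sum_append]
  have h1 : ∀ (x : Vec r) (w : Vec n),
      sg (h (rc r n (Fin.append x w)) + lc r n (Fin.append x w) ⬝ᵥ y +
        (c + A ⬝ᵥ Fin.append x w)) =
      sg c * (sg ((y + lc r n A) ⬝ᵥ x) * sg (h w + rc r n A ⬝ᵥ w)) := by
    intro x w
    rw [lc_append, rc_append, dot_split, ← sg_add, ← sg_add, add_dotProduct,
      dotProduct_comm x y]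
    congr 1
    ring
  simp_rw [h1]
  simp_rw [← Finset.mul_sum]
  rw [← Finset.sum_mul, sum_sg_dot', walsh]
  ring

/-- the Walsh coefficients of the glued function -/
lemma walsh_glue (h : Vec n → ZMod 2) (g : Vec (r + n) → ZMod 2) (a : Vec (r + (r + n))) :
    |walsh (glue h g) a| ≤ |walsh g (rc r (r + n) a)| +
      2 ^ r * |walsh h (rc r n (rc r (r + n) a))| := by
  classical
  obtain ⟨A, hA⟩ : ∃ A, A = rc r (r + n) a := ⟨_, rfl⟩
  obtain ⟨b, hb⟩ : ∃ b, b = lc r (r + n) a := ⟨_, rfl⟩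
  rw [← hA]
  have h0 : walsh (glue h g) a = ∑ y : Vec r, (if y = 0 then walsh g A else
      sg (b ⬝ᵥ y) * (if y + lc r n A = 0 then 2 ^ r else 0) * walsh h (rc r n A)) := by
    rw [walsh, sum_append]
    refine Finset.sum_congr rfl fun y _ => ?_
    by_cases hy : y = 0
    · rw [if_pos hy, walsh]
      refine Finset.sum_congr rfl fun u _ => ?_
      rw [glue_append, if_pos hy, dot_split, ← hA, hy, dotProduct_zero, zero_add]
    · rw [if_neg hy, ← inner_sum]
      refine Finset.sum_congr rfl fun u _ => ?_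
      rw [glue_append, if_neg hy, dot_split, ← hA, ← hb]
  have hz : ∀ y : Vec r, y + lc r n A = 0 ↔ y = lc r n A := by
    intro y
    constructor
    · intro h1
      have h2 : y + lc r n A + lc r n A = lc r n A := by rw [h1, zero_add]
      rwa [add_assoc, vec_add_self, add_zero] at h2
    · rintro rfl; exact vec_add_self _
  have h1 : walsh (glue h g) a = walsh g A + ∑ y ∈ (univ.erase (0 : Vec r)),
      sg (b ⬝ᵥ y) * (if y = lc r n A then 2 ^ r else 0) * walsh h (rc r n A) := by
    rw [h0, ← Finset.add_sum_erase univ _ (mem_univ (0 : Vec r)), if_pos rfl]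
    congr 1
    refine Finset.sum_congr rfl fun y hy => ?_
    rw [if_neg (Finset.ne_of_mem_erase hy)]
    simp only [hz y]
  have h2 : |∑ y ∈ (univ.erase (0 : Vec r)),
      sg (b ⬝ᵥ y) * (if y = lc r n A then 2 ^ r else 0) * walsh h (rc r n A)| ≤
      2 ^ r * |walsh h (rc r n A)| := by
    by_cases hl : lc r n A = 0
    · rw [Finset.sum_eq_zero]
      · rw [abs_zero]; positivity
      · intro y hy
        rw [if_neg]
        · ring
        · rw [hl]; exact Finset.ne_of_mem_erase hy
    · rw [Finset.sum_eq_single (lc r n A)]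
      · rw [if_pos rfl, abs_mul, abs_mul]
        rcases sg_cases (b ⬝ᵥ lc r n A) with h | h <;> rw [h] <;> simp
      · intro y _ hy
        rw [if_neg hy]; ring
      · intro h
        exact absurd (Finset.mem_erase.2 ⟨hl, mem_univ _⟩) h
  rw [h1]
  exact (abs_add_le _ _).trans (by linarith)

/-- many functions have small Walsh coefficients -/
theorem low_count (K : ℝ) (hK : 10 ≤ K) :
    (2 : ℝ) ^ (2 ^ m) *
      Real.exp (-(180 * 2 ^ m * K ^ 6 * Real.exp (-(K ^ 2 / 2)))) ≤
        Nat.card {f : Vec m → ZMod 2 // ∀ a, |(walsh f a : ℝ)| ≤ K * √((2 : ℝ) ^ m)} := by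
  classical
  have e : Vec m ≃ Fin (2 ^ m) := Fintype.equivFinOfCardEq card_vec
  have hχ : ∀ (a : Vec m) (j : Fin (2 ^ m)), |(chi a (e.symm j) : ℝ)| ≤ 1 := by
    intro a j
    rcases chi_cases a (e.symm j) with h | h <;> rw [h] <;> simp
  have hNle : (Fintype.card (Vec m) : ℝ) * Real.exp (-(K ^ 2 / 8)) ≤ ((2 ^ m : ℕ) : ℝ) := by
    rw [card_vec]
    have h1 : Real.exp (-(K ^ 2 / 8)) ≤ 1 := Real.exp_le_one_iff.2 (by nlinarith)
    have h2 : (0 : ℝ) ≤ ((2 ^ m : ℕ) : ℝ) := Nat.cast_nonneg _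
    nlinarith
  have hrec := recur hχ (2 ^ m) univ (by rw [card_univ, Fintype.card_fin]) (by positivity) K hK
    hNle
  rw [card_vec] at hrec
  push_cast at hrec
  refine hrec.trans ?_
  have hle : #(goodV (fun (a : Vec m) (j : Fin (2 ^ m)) => (chi a (e.symm j) : ℝ)) univ
      (K * √((2 : ℝ) ^ m))) ≤
      Nat.card {f : Vec m → ZMod 2 // ∀ a, |(walsh f a : ℝ)| ≤ K * √((2 : ℝ) ^ m)} := by
    rw [Nat.card_eq_fintype_card, Fintype.card_subtype]
    refine Finset.card_le_card_of_injOn (fv e).symm ?_ ((fv e).symm.injective.injOn)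
    intro v hv
    rw [mem_coe, mem_goodV] at hv
    rw [mem_coe, mem_filter]
    refine ⟨mem_univ _, ?_⟩
    obtain ⟨f, rfl⟩ := (fv e).surjective v
    rw [Equiv.symm_apply_apply]
    intro a
    have h2 := hv a
    rw [W_fv] at h2
    exact h2
  exact_mod_cast hle

/-- a function with small Walsh coefficients is in a coset of large weight -/
lemma le_leaderWeight (f : Vec m → ZMod 2) (i : ℕ) (h : ∀ a, |(walsh f a : ℝ)| ≤ 2 ^ m - 2 * (i : ℝ)) :
    i ≤ leaderWeight ((reedMuller m).mkQ f) := by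
  obtain ⟨a, b, hab⟩ := (leaderWeight_spec f).1
  rw [← hab]
  have h1 := norm_add_aff f a b
  have h2 := h a
  have h3 : (sg b * walsh f a : ℤ) ≤ |walsh f a| := by
    rcases sg_cases b with h | h <;> rw [h]
    · rw [one_mul]; exact le_abs_self _
    · rw [neg_one_mul]; exact neg_le_abs _
  have h4 : ((sg b * walsh f a : ℤ) : ℝ) ≤ |(walsh f a : ℝ)| := by
    have := (Int.cast_le (R := ℝ)).2 h3
    push_cast at this ⊢
    exact this
  have h5 : 2 * ((hammingNorm (f + aff a b) : ℕ) : ℝ) = 2 ^ m - ((sg b * walsh f a : ℤ) : ℝ) := by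
    have := congrArg (Int.cast (R := ℝ)) h1
    push_cast at this ⊢
    exact this
  have h6 : (i : ℝ) ≤ ((hammingNorm (f + aff a b) : ℕ) : ℝ) := by linarith
  exact_mod_cast h6

/-- many cosets have weight close to the weight from the function `h` -/
theorem heavy_glue (h : Vec n → ZMod 2) (T : ℝ) (hT : ∀ a, |(walsh h a : ℝ)| ≤ T) (K : ℝ)
    (hK : 10 ≤ K) (i : ℕ)
    (hi : 2 * (i : ℝ) ≤ 2 ^ (r + (r + n)) - 2 ^ r * T - K * √((2 : ℝ) ^ (r + n))) :
    (2 : ℝ) ^ (2 ^ (r + n)) *
      Real.exp (-(180 * 2 ^ (r + n) * K ^ 6 * Real.exp (-(K ^ 2 / 2)))) ≤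
        heavyCount (r + (r + n)) i * 2 ^ (r + (r + n) + 1) := by
  classical
  refine (low_count (m := r + n) K hK).trans ?_
  have hcount := card_fun_eq (r + (r + n)) (fun q => i ≤ leaderWeight q)
  have hle : Nat.card {f : Vec (r + n) → ZMod 2 //
      ∀ a, |(walsh f a : ℝ)| ≤ K * √((2 : ℝ) ^ (r + n))} ≤
      Nat.card {f : Vec (r + (r + n)) → ZMod 2 //
        i ≤ leaderWeight ((reedMuller (r + (r + n))).mkQ f)} := by
    refine Nat.card_le_card_of_injective
      (fun g => ⟨glue h g.1, le_leaderWeight _ i fun a => ?_⟩) ?_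
    · have h1 := walsh_glue h g.1 a
      have h2 := g.2 (rc r (r + n) a)
      have h3 := hT (rc r n (rc r (r + n) a))
      have h4 : (|walsh (glue h g.1) a| : ℝ) ≤ |(walsh g.1 (rc r (r + n) a) : ℝ)| +
          2 ^ r * |(walsh h (rc r n (rc r (r + n) a)) : ℝ)| := by
        have := (Int.cast_le (R := ℝ)).2 h1
        push_cast at this
        exact this
      have h5 : (2 : ℝ) ^ r * |(walsh h (rc r n (rc r (r + n) a)) : ℝ)| ≤ 2 ^ r * T :=
        mul_le_mul_of_nonneg_left h3 (by positivity)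
      linarith
    · intro g g' hg
      have := congrArg Subtype.val hg
      exact Subtype.ext (glue_injective h this)
  rw [hcount] at hle
  exact_mod_cast hle

end Pool.Agent.RMC53
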