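import Pool.Agent.RMC53.Bin
import Pool.Agent.RMC53.Count

/-!
# Gaussian bounds for the hypergeometric tail
-/

set_option autoImplicit false

open Finset

namespace Pool.Agent.RMC53

section exponents

variable {q K R : ℝ}

lemma cube_ge (a : ℝ) (ha : 1 ≤ a) : a ≤ a ^ 3 := by nlinarith [mul_self_nonneg (a - 1)]

/-- exponent for the lower bound -/
lemma E_lower (hK : 0 ≤ K) (hq : 8 * (K + 1) ^ 3 ≤ q) (s : ℝ) (hs : 0 ≤ s)
    (hs1 : s * (K + 1) ≤ q) :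
    s ^ 2 / (q ^ 2 - s + 1) + (K * q + s) ^ 2 / (q ^ 2 - (K * q + s) + 1) ≤
      (K * q) ^ 2 / (2 * q ^ 2 + K * q) + (K ^ 2 / 2 + 5) := by
  have ha1 : 1 ≤ K + 1 := by linarith
  have ha3 := cube_ge (K + 1) ha1
  have hq8 : 8 ≤ q := by linarith
  have hq0 : 0 < q := by linarith
  obtain ⟨σ, hσ⟩ : ∃ σ : ℝ, s = σ * q := ⟨s / q, by field_simp⟩
  have hσ0 : 0 ≤ σ := by
    by_contra h
    push Not at h
    have : s < 0 := by rw [hσ]; nlinarith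
    linarith
  have hσK : σ * (K + 1) ≤ 1 := by
    have h1 : σ * (K + 1) * q ≤ 1 * q := by
      calc σ * (K + 1) * q = s * (K + 1) := by rw [hσ]; ring
        _ ≤ 1 * q := by linarith
    exact le_of_mul_le_mul_right h1 hq0
  have hσ1 : σ ≤ 1 := by nlinarith
  obtain ⟨κ, hκ⟩ : ∃ κ : ℝ, κ = K + σ := ⟨_, rfl⟩
  have hκ0 : 0 ≤ κ := by rw [hκ]; linarith
  have hκa : κ ≤ K + 1 := by rw [hκ]; linarith
  have hκ3 : κ ^ 3 ≤ (K + 1) ^ 3 := pow_le_pow_left₀ hκ0 hκa 3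
  have hK3 : K ^ 3 ≤ (K + 1) ^ 3 := pow_le_pow_left₀ hK (by linarith) 3
  have e1 : s ^ 2 / (q ^ 2 - s + 1) ≤ 2 := by
    have h1 : σ * q ≤ q := by nlinarith
    rw [hσ, div_le_iff₀ (by nlinarith)]
    have h2 : (σ * q) ^ 2 ≤ q ^ 2 := pow_le_pow_left₀ (by positivity) h1 2
    nlinarith
  have e2 : (K * q + s) ^ 2 / (q ^ 2 - (K * q + s) + 1) ≤ κ ^ 2 + 1 / 4 := by
    have h1 : K * q + s = κ * q := by rw [hκ, hσ]; ring
    have h2 : κ * q ≤ q * q := by nlinarith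
    have h3 : 8 * κ ≤ q := by linarith
    rw [h1, div_le_iff₀ (by nlinarith)]
    have h4 : κ ^ 3 + κ / 4 ≤ q / 4 := by nlinarith
    have h5 : (κ ^ 3 + κ / 4) * q ≤ q / 4 * q := mul_le_mul_of_nonneg_right h4 hq0.le
    nlinarith [sq_nonneg κ]
  have e3 : K ^ 2 / 2 - 1 / 32 ≤ (K * q) ^ 2 / (2 * q ^ 2 + K * q) := by
    rw [le_div_iff₀ (by positivity)]
    have h1 : K ^ 3 / 2 ≤ q / 16 := by nlinarith
    have h2 : K ^ 3 / 2 * q ≤ q / 16 * q := mul_le_mul_of_nonneg_right h1 hq0.le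
    nlinarith [mul_nonneg hK hq0.le]
  have e4 : κ ^ 2 ≤ K ^ 2 + 2 := by
    rw [hκ]
    nlinarith
  linarith

/-- exponent for the upper bound, main range -/
lemma E_upper (hK : 0 ≤ K) (hR : 1 ≤ R) (hq : 8 * (K + R) ^ 3 ≤ q) (s : ℝ) (hs : 0 ≤ s)
    (hs1 : s ≤ R * q) :
    (K * q) ^ 2 / (2 * q ^ 2 - K * q + 1) + K ^ 2 / 2 ≤
      (K * q + s) ^ 2 / (q ^ 2 + (K * q + s)) + 1 := by
  have ha1 : 1 ≤ K + R := by linarith
  have ha3 := cube_ge (K + R) ha1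
  have hq8 : 8 ≤ q := by linarith
  have hq0 : 0 < q := by linarith
  obtain ⟨σ, hσ⟩ : ∃ σ : ℝ, s = σ * q := ⟨s / q, by field_simp⟩
  have hσ0 : 0 ≤ σ := by
    by_contra h
    push Not at h
    have : s < 0 := by rw [hσ]; nlinarith
    linarith
  have hσR : σ ≤ R := by
    rw [hσ] at hs1
    exact le_of_mul_le_mul_right hs1 hq0
  obtain ⟨κ, hκ⟩ : ∃ κ : ℝ, κ = K + σ := ⟨_, rfl⟩
  have hκ0 : 0 ≤ κ := by rw [hκ]; linarith
  have hκa : κ ≤ K + R := by rw [hκ]; linarith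
  have hκ3 : κ ^ 3 ≤ (K + R) ^ 3 := pow_le_pow_left₀ hκ0 hκa 3
  have hK3 : K ^ 3 ≤ (K + R) ^ 3 := pow_le_pow_left₀ hK (by linarith) 3
  have hKq : K ≤ q := by linarith
  have e1 : (K * q) ^ 2 / (2 * q ^ 2 - K * q + 1) ≤ K ^ 2 / 2 + 1 / 8 := by
    rw [div_le_iff₀ (by nlinarith)]
    have h1 : K ^ 3 / 2 + K / 8 ≤ q / 4 := by
      have : K ≤ K + R := by linarith
      nlinarith
    have h2 : (K ^ 3 / 2 + K / 8) * q ≤ q / 4 * q := mul_le_mul_of_nonneg_right h1 hq0.le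
    nlinarith [sq_nonneg K]
  have e2 : κ ^ 2 - 1 / 8 ≤ (K * q + s) ^ 2 / (q ^ 2 + (K * q + s)) := by
    have h1 : K * q + s = κ * q := by rw [hκ, hσ]; ring
    rw [h1, le_div_iff₀ (by positivity)]
    have h2 : κ ^ 3 ≤ q / 8 := by linarith
    have h3 : κ ^ 3 * q ≤ q / 8 * q := mul_le_mul_of_nonneg_right h2 hq0.le
    nlinarith [mul_nonneg hκ0 hq0.le]
  have e4 : K ^ 2 ≤ κ ^ 2 := pow_le_pow_left₀ hK (by rw [hκ]; linarith) 2
  linarith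

/-- exponent for the upper bound, far range -/
lemma E_far (hK : 0 ≤ K) (hR : 1 ≤ R) (hq : 8 * (K + R) ^ 3 ≤ q) (s : ℝ)
    (hs1 : R * q ≤ s) :
    (K * q) ^ 2 / (2 * q ^ 2 - K * q + 1) + R ^ 2 ≤
      (K * q + s) ^ 2 / (q ^ 2 + (K * q + s)) + 1 := by
  have ha1 : 1 ≤ K + R := by linarith
  have ha3 := cube_ge (K + R) ha1
  have hq8 : 8 ≤ q := by linarith
  have hq0 : 0 < q := by linarith
  have hR0 : 0 ≤ R := by linarith
  have hKR0 : 0 ≤ K + R := by linarith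
  have hK3 : K ^ 3 ≤ (K + R) ^ 3 := pow_le_pow_left₀ hK (by linarith) 3
  have hKq : K ≤ q := by linarith
  have e1 : (K * q) ^ 2 / (2 * q ^ 2 - K * q + 1) ≤ K ^ 2 / 2 + 1 / 8 := by
    rw [div_le_iff₀ (by nlinarith)]
    have h1 : K ^ 3 / 2 + K / 8 ≤ q / 4 := by
      have : K ≤ K + R := by linarith
      nlinarith
    have h2 : (K ^ 3 / 2 + K / 8) * q ≤ q / 4 * q := mul_le_mul_of_nonneg_right h1 hq0.le
    nlinarith [sq_nonneg K]
  obtain ⟨u, hu⟩ : ∃ u : ℝ, u = K * q + s := ⟨_, rfl⟩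
  obtain ⟨v, hv⟩ : ∃ v : ℝ, v = (K + R) * q := ⟨_, rfl⟩
  have huv : v ≤ u := by rw [hu, hv]; nlinarith
  have hv0 : 0 ≤ v := by rw [hv]; positivity
  have e2 : v ^ 2 / (q ^ 2 + v) ≤ u ^ 2 / (q ^ 2 + u) := by
    rw [div_le_div_iff₀ (by positivity) (by nlinarith)]
    have h1 : v ^ 2 ≤ u ^ 2 := pow_le_pow_left₀ hv0 huv 2
    have h2 : 0 ≤ u * v * (u - v) :=
      mul_nonneg (mul_nonneg (by linarith) hv0) (by linarith)
    nlinarith [mul_nonneg (sq_nonneg q) (sub_nonneg.2 h1)]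
  have e3 : (K + R) ^ 2 - 1 / 8 ≤ v ^ 2 / (q ^ 2 + v) := by
    rw [hv, le_div_iff₀ (by positivity)]
    have h2 : (K + R) ^ 3 ≤ q / 8 := by linarith
    have h3 : (K + R) ^ 3 * q ≤ q / 8 * q := mul_le_mul_of_nonneg_right h2 hq0.le
    nlinarith [mul_nonneg hKR0 hq0.le]
  rw [← hu]
  nlinarith [mul_nonneg hK hR0]

/-- exponent for the gap -/
lemma E_gap (hK : 0 ≤ K) (hq : 8 * (K + 1) ^ 3 ≤ q) (s : ℝ) (hs : 0 ≤ s)
    (hs1 : s * (K + 1) ≤ 2 * q) :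
    (K * q + s) ^ 2 / (2 * q ^ 2 - (K * q + s) + 1) ≤ K ^ 2 / 2 + 5 := by
  have ha1 : 1 ≤ K + 1 := by linarith
  have ha3 := cube_ge (K + 1) ha1
  have hq8 : 8 ≤ q := by linarith
  have hq0 : 0 < q := by linarith
  obtain ⟨σ, hσ⟩ : ∃ σ : ℝ, s = σ * q := ⟨s / q, by field_simp⟩
  have hσ0 : 0 ≤ σ := by
    by_contra h
    push Not at h
    have : s < 0 := by rw [hσ]; nlinarith
    linarith
  have hσK : σ * (K + 1) ≤ 2 := by
    have h1 : σ * (K + 1) * q ≤ 2 * q := by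
      calc σ * (K + 1) * q = s * (K + 1) := by rw [hσ]; ring
        _ ≤ 2 * q := by linarith
    exact le_of_mul_le_mul_right h1 hq0
  have hσ1 : σ ≤ 2 := by nlinarith
  obtain ⟨κ, hκ⟩ : ∃ κ : ℝ, κ = K + σ := ⟨_, rfl⟩
  have hκ0 : 0 ≤ κ := by rw [hκ]; linarith
  have hκa : κ ≤ 2 * (K + 1) := by rw [hκ]; linarith
  have hκ3 : κ ^ 3 ≤ (2 * (K + 1)) ^ 3 := pow_le_pow_left₀ hκ0 hκa 3
  have hκq : κ ^ 3 ≤ q := by
    have : (2 * (K + 1)) ^ 3 = 8 * (K + 1) ^ 3 := by ring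
    linarith
  have hκq2 : 4 * κ ≤ q := by linarith
  have h1 : K * q + s = κ * q := by rw [hκ, hσ]; ring
  have e4 : κ ^ 2 ≤ K ^ 2 + 8 := by
    rw [hκ]
    nlinarith
  have e5 : (κ * q) ^ 2 / (2 * q ^ 2 - κ * q + 1) ≤ κ ^ 2 / 2 + 1 := by
    rw [div_le_iff₀ (by nlinarith)]
    have h2 : (κ ^ 3 / 2 + κ) * q ≤ (2 * q) * q :=
      mul_le_mul_of_nonneg_right (by linarith) hq0.le
    nlinarith [sq_nonneg κ]
  rw [h1]
  linarith

end exponents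

/-- the products of binomial coefficients -/
lemma A_eq (M t s : ℕ) (h : t + s ≤ M) :
    A M (2 * M - t) (M + s) = (2 * M).choose (M - s) * (2 * M).choose (M - (t + s)) := by
  rw [A]
  have e1 : 2 * M - t - (M + s) = M - (t + s) := by omega
  have e2 : (2 * M).choose (M + s) = (2 * M).choose (M - s) := by
    rw [← Nat.choose_symm (show M + s ≤ 2 * M by omega)]
    congr 1
    omega
  rw [e1, e2]

lemma cb_ratio_lower (M : ℕ) (hM : 1 ≤ M) :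
    ((4 * M).choose (2 * M) : ℝ) ≤ 2 * √(M : ℝ) * ((2 * M).choose M : ℝ) ^ 2 := by
  have h0 : (0 : ℝ) < M := by exact_mod_cast hM
  have hq : 0 < √(M : ℝ) := Real.sqrt_pos.2 h0
  have hq2 : √(M : ℝ) ^ 2 = M := Real.sq_sqrt h0.le
  have h1 := cb_lower_real M hM
  have h2 := cb_upper_real (2 * M)
  have e1 : 2 * (2 * M) = 4 * M := by ring
  rw [e1] at h2
  have e2 : √(2 * ((2 * M : ℕ) : ℝ)) = 2 * √(M : ℝ) := by
    have : 2 * ((2 * M : ℕ) : ℝ) = 2 ^ 2 * M := by push_cast; ring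
    rw [this, Real.sqrt_mul (by norm_num), Real.sqrt_sq (by norm_num)]
  rw [e2] at h2
  have h3 : (4 : ℝ) ^ (2 * M) ≤ (2 * √(M : ℝ) * ((2 * M).choose M : ℝ)) ^ 2 := by
    rw [mul_comm 2 M, pow_mul]
    have := pow_le_pow_left₀ (by positivity) h1 2
    rw [mul_comm M 2] 
    exact this
  have h4 : ((4 * M).choose (2 * M) : ℝ) * (2 * √(M : ℝ)) ≤
      (2 * √(M : ℝ) * ((2 * M).choose M : ℝ) ^ 2) * (2 * √(M : ℝ)) := by
    refine (h2.trans h3).trans (le_of_eq ?_)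
    ring
  exact le_of_mul_le_mul_right h4 (by positivity)

lemma cb_ratio_upper (M : ℕ) (hM : 1 ≤ M) :
    √(M : ℝ) * ((2 * M).choose M : ℝ) ^ 2 ≤ 2 * ((4 * M).choose (2 * M) : ℝ) := by
  have h0 : (0 : ℝ) < M := by exact_mod_cast hM
  have hq : 0 < √(M : ℝ) := Real.sqrt_pos.2 h0
  have hq2 : √(M : ℝ) ^ 2 = M := Real.sq_sqrt h0.le
  have hs2 : √(2 : ℝ) ^ 2 = 2 := Real.sq_sqrt (by norm_num)
  have hs0 : 0 < √(2 : ℝ) := Real.sqrt_pos.2 (by norm_num)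
  have hs1 : √(2 : ℝ) ≤ 2 := by
    rw [show (2 : ℝ) = √4 by rw [show (4 : ℝ) = 2 ^ 2 by norm_num, Real.sqrt_sq (by norm_num)]]
    exact Real.sqrt_le_sqrt (by rw [show (√4 : ℝ) = 2 by
      rw [show (4 : ℝ) = 2 ^ 2 by norm_num, Real.sqrt_sq (by norm_num)]]; norm_num)
  have h1 := cb_upper_real M
  have h2 := cb_lower_real (2 * M) (by omega)
  have e1 : 2 * (2 * M) = 4 * M := by ring
  rw [e1] at h2
  have e2 : √(((2 * M : ℕ) : ℝ)) = √2 * √(M : ℝ) := by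
    push_cast
    rw [Real.sqrt_mul (by norm_num)]
  have e3 : √(2 * (M : ℝ)) = √2 * √(M : ℝ) := Real.sqrt_mul (by norm_num) _
  rw [e2] at h2
  rw [e3] at h1
  have h3 : (((2 * M).choose M : ℝ) * (√2 * √(M : ℝ))) ^ 2 ≤ (4 : ℝ) ^ (2 * M) := by
    rw [mul_comm 2 M, pow_mul]
    have := pow_le_pow_left₀ (by positivity) h1 2
    rw [mul_comm M 2]
    exact this
  have h4 : (√(M : ℝ) * ((2 * M).choose M : ℝ) ^ 2) * (2 * √(M : ℝ)) ≤
      (2 * ((4 * M).choose (2 * M) : ℝ)) * (2 * √(M : ℝ)) := by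
    have h5 : (√(M : ℝ) * ((2 * M).choose M : ℝ) ^ 2) * (2 * √(M : ℝ)) =
        (((2 * M).choose M : ℝ) * (√2 * √(M : ℝ))) ^ 2 := by
      rw [mul_pow, mul_pow, hs2]; ring
    rw [h5]
    refine (h3.trans h2).trans ?_
    have h6 : 0 ≤ √(M : ℝ) * ((4 * M).choose (2 * M) : ℝ) := by positivity
    nlinarith
  exact le_of_mul_le_mul_right h4 (by positivity)

end Pool.Agent.RMC53
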