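import Pool.Agent.RMC53.LamB

/-!
# Bounds for the weighted hypergeometric tail `B` and for the second moment of the lower tail
-/

set_option autoImplicit false

open Finset

namespace Pool.Agent.RMC53

lemma B_cast (M i : ℕ) : (B M i : ℝ) = ∑ x ∈ range (i + 1), (w2 M x : ℝ) * (A M i x : ℝ) := by
  rw [B]; push_cast; rfl

lemma w2_ge_one {M x : ℕ} (h : M ≤ x) : (1 : ℝ) ≤ (w2 M x : ℝ) := by
  rcases eq_or_lt_of_le h with h | h
  · rw [w2, if_neg (by omega), if_pos h.symm]; norm_num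
  · rw [w2, if_pos h]; norm_num

lemma w2_le_two (M x : ℕ) : (w2 M x : ℝ) ≤ 2 := by
  rw [w2]; split_ifs <;> norm_num

lemma w2_cast_nonneg (M x : ℕ) : (0 : ℝ) ≤ (w2 M x : ℝ) := by exact_mod_cast w2_nonneg M x

theorem B_lower (M t : ℕ) (hM : 1 ≤ M) (K : ℝ) (hK : 0 ≤ K) (ht : (t : ℝ) = K * √(M : ℝ))
    (hq : 8 * (K + 1) ^ 3 ≤ √(M : ℝ)) :
    ((4 * M).choose (2 * M - t) : ℝ) * Real.exp (-(K ^ 2 / 2 + 5)) ≤
      2 * (K + 1) * (B M (2 * M - t) : ℝ) := by
  have hM0 : (0 : ℝ) < M := by exact_mod_cast hM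
  have hq2' : √(M : ℝ) ^ 2 = M := Real.sq_sqrt hM0.le
  have hratio := cb_ratio_lower M hM
  obtain ⟨q, hqd⟩ : ∃ q : ℝ, q = √(M : ℝ) := ⟨_, rfl⟩
  rw [← hqd] at hq2' ht hq hratio
  have ha1 : 1 ≤ K + 1 := by linarith
  have ha3 := cube_ge (K + 1) ha1
  have hq8 : 8 ≤ q := by linarith
  have hq0 : 0 < q := by linarith
  have hKq : 8 * (K + 1) ≤ q := by linarith
  have htM : t ≤ M := by
    have : (t : ℝ) ≤ M := by rw [ht, ← hq2']; nlinarith
    exact_mod_cast this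
  obtain ⟨C, hC⟩ : ∃ C : ℝ, C = ((4 * M).choose (2 * M - t) : ℝ) := ⟨_, rfl⟩
  have hC0 : 0 ≤ C := by rw [hC]; exact Nat.cast_nonneg _
  rw [← hC]
  obtain ⟨S, hS⟩ : ∃ S : ℕ, S = ⌊q / (K + 1)⌋₊ := ⟨_, rfl⟩
  have hS1 : (S : ℝ) * (K + 1) ≤ q := by
    have h1 : (S : ℝ) ≤ q / (K + 1) := by rw [hS]; exact Nat.floor_le (by positivity)
    rwa [le_div_iff₀ (by linarith)] at h1
  have hS2 : q ≤ ((S : ℝ) + 1) * (K + 1) := by
    have h1 : q / (K + 1) < (S : ℝ) + 1 := by rw [hS]; exact Nat.lt_floor_add_one _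
    rw [div_lt_iff₀ (by linarith)] at h1
    exact h1.le
  -- every term is large
  have hterm : ∀ s : ℕ, s ≤ S → t + s ≤ M ∧
      C * Real.exp (-(K ^ 2 / 2 + 5)) ≤ 2 * q * (A M (2 * M - t) (M + s) : ℝ) := by
    intro s hs
    have hs0 : (0 : ℝ) ≤ s := Nat.cast_nonneg s
    have hs1 : (s : ℝ) * (K + 1) ≤ q := by
      have : (s : ℝ) ≤ S := by exact_mod_cast hs
      nlinarith
    have hsq : (s : ℝ) ≤ q := by nlinarith
    have hts : t + s ≤ M := by
      have : (t : ℝ) + s ≤ M := by rw [ht, ← hq2']; nlinarith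
      exact_mod_cast this
    refine ⟨hts, ?_⟩
    have h1 := choose_upper (2 * M) t (by omega)
    have e1 : 2 * (2 * M) = 4 * M := by ring
    rw [e1, ← hC] at h1
    have h2 := choose_lower M s (by omega)
    have h3 := choose_lower M (t + s) hts
    have hE := E_lower hK hq (s : ℝ) hs0 hs1
    rw [A_eq M t s hts]
    push_cast at h1 h3 ⊢
    have hMq : (M : ℝ) = q ^ 2 := hq2'.symm
    rw [hMq, ht] at h1 h3
    rw [hMq] at h2
    have hb0 : (0 : ℝ) ≤ ((2 * M).choose M : ℝ) := Nat.cast_nonneg _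
    calc C * Real.exp (-(K ^ 2 / 2 + 5))
        ≤ (((4 * M).choose (2 * M) : ℝ) *
          Real.exp (-((K * q) ^ 2 / (2 * q ^ 2 + K * q)))) * Real.exp (-(K ^ 2 / 2 + 5)) :=
          mul_le_mul_of_nonneg_right h1 (Real.exp_pos _).le
      _ = ((4 * M).choose (2 * M) : ℝ) *
          Real.exp (-((K * q) ^ 2 / (2 * q ^ 2 + K * q)) + -(K ^ 2 / 2 + 5)) := by
          rw [mul_assoc, ← Real.exp_add]
      _ ≤ ((4 * M).choose (2 * M) : ℝ) *
          Real.exp (-((s : ℝ) ^ 2 / (q ^ 2 - s + 1)) +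
            -((K * q + s) ^ 2 / (q ^ 2 - (K * q + s) + 1))) := by
          refine mul_le_mul_of_nonneg_left (Real.exp_le_exp.2 ?_) (Nat.cast_nonneg _)
          linarith
      _ ≤ (2 * q * ((2 * M).choose M : ℝ) ^ 2) *
          Real.exp (-((s : ℝ) ^ 2 / (q ^ 2 - s + 1)) +
            -((K * q + s) ^ 2 / (q ^ 2 - (K * q + s) + 1))) :=
          mul_le_mul_of_nonneg_right hratio (Real.exp_pos _).le
      _ = 2 * q * ((((2 * M).choose M : ℝ) * Real.exp (-((s : ℝ) ^ 2 / (q ^ 2 - s + 1)))) *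
          (((2 * M).choose M : ℝ) *
            Real.exp (-((K * q + s) ^ 2 / (q ^ 2 - (K * q + s) + 1))))) := by
          rw [Real.exp_add]; ring
      _ ≤ 2 * q * (((2 * M).choose (M - s) : ℝ) * ((2 * M).choose (M - (t + s)) : ℝ)) := by
          refine mul_le_mul_of_nonneg_left ?_ (by positivity)
          exact mul_le_mul h2 h3 (by positivity) (Nat.cast_nonneg _)
  have hsum : ((S : ℝ) + 1) * (C * Real.exp (-(K ^ 2 / 2 + 5))) ≤
      2 * q * (B M (2 * M - t) : ℝ) := by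
    rw [B_cast, Finset.mul_sum]
    have hsub : (range (S + 1)).image (fun s => M + s) ⊆ range (2 * M - t + 1) := by
      intro x hx
      rw [mem_image] at hx
      obtain ⟨s, hs, rfl⟩ := hx
      rw [mem_range] at hs ⊢
      have := (hterm s (by omega)).1
      omega
    refine le_trans ?_ (Finset.sum_le_sum_of_subset_of_nonneg hsub fun x _ _ => by
      have := w2_cast_nonneg M x
      positivity)
    rw [Finset.sum_image (fun x _ y _ h => by simpa using h)]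
    have h1 : ((S : ℝ) + 1) * (C * Real.exp (-(K ^ 2 / 2 + 5))) =
        ∑ _s ∈ range (S + 1), C * Real.exp (-(K ^ 2 / 2 + 5)) := by
      rw [Finset.sum_const, card_range, nsmul_eq_mul]; push_cast; rfl
    rw [h1]
    refine Finset.sum_le_sum fun s hs => ?_
    have h2 := (hterm s (by have := mem_range.1 hs; omega)).2
    have h3 := w2_ge_one (show M ≤ M + s by omega)
    have h4 : (0 : ℝ) ≤ (A M (2 * M - t) (M + s) : ℝ) := Nat.cast_nonneg _
    refine h2.trans (mul_le_mul_of_nonneg_left ?_ (by positivity))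
    nlinarith
  have hx : 0 ≤ C * Real.exp (-(K ^ 2 / 2 + 5)) := by positivity
  have h1 : q * (C * Real.exp (-(K ^ 2 / 2 + 5))) ≤ q * (2 * (K + 1) * (B M (2 * M - t) : ℝ)) := by
    calc q * (C * Real.exp (-(K ^ 2 / 2 + 5)))
        ≤ (((S : ℝ) + 1) * (K + 1)) * (C * Real.exp (-(K ^ 2 / 2 + 5))) :=
          mul_le_mul_of_nonneg_right hS2 hx
      _ = (K + 1) * (((S : ℝ) + 1) * (C * Real.exp (-(K ^ 2 / 2 + 5)))) := by ring
      _ ≤ (K + 1) * (2 * q * (B M (2 * M - t) : ℝ)) :=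
          mul_le_mul_of_nonneg_left hsum (by linarith)
      _ = _ := by ring
  exact le_of_mul_le_mul_left h1 hq0

theorem B_upper (M t : ℕ) (hM : 1 ≤ M) (ht1 : 1 ≤ t) (K R : ℝ) (hK : 0 ≤ K) (hR : 1 ≤ R)
    (ht : (t : ℝ) = K * √(M : ℝ)) (hq : 8 * (K + R) ^ 3 ≤ √(M : ℝ)) :
    (B M (2 * M - t) : ℝ) ≤ ((4 * M).choose (2 * M - t) : ℝ) *
      (22 * R * Real.exp (-(K ^ 2 / 2)) + 11 * M * Real.exp (-R ^ 2)) := by
  have hM0 : (0 : ℝ) < M := by exact_mod_cast hM
  have hq2' : √(M : ℝ) ^ 2 = M := Real.sq_sqrt hM0.le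
  have hratio := cb_ratio_upper M hM
  obtain ⟨q, hqd⟩ : ∃ q : ℝ, q = √(M : ℝ) := ⟨_, rfl⟩
  rw [← hqd] at hq2' ht hq hratio
  have ha1 : 1 ≤ K + R := by linarith
  have ha3 := cube_ge (K + R) ha1
  have hq8 : 8 ≤ q := by linarith
  have hq0 : 0 < q := by linarith
  have htM : t ≤ M := by
    have : (t : ℝ) ≤ M := by rw [ht, ← hq2']; nlinarith
    exact_mod_cast this
  obtain ⟨C, hC⟩ : ∃ C : ℝ, C = ((4 * M).choose (2 * M - t) : ℝ) := ⟨_, rfl⟩
  have hC0 : 0 ≤ C := by rw [hC]; exact Nat.cast_nonneg _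
  rw [← hC]
  obtain ⟨F, hF⟩ : ∃ F : ℕ, F = ⌊R * q⌋₊ := ⟨_, rfl⟩
  have hF1 : (F : ℝ) ≤ R * q := by rw [hF]; exact Nat.floor_le (by positivity)
  have hF2 : R * q < (F : ℝ) + 1 := by rw [hF]; exact Nat.lt_floor_add_one _
  obtain ⟨T, hT⟩ : ∃ T : ℝ, T = (K * q) ^ 2 / (2 * q ^ 2 - K * q + 1) := ⟨_, rfl⟩
  -- the denominators
  have hCC : ((4 * M).choose (2 * M) : ℝ) ≤ C * Real.exp T := by
    have h1 := choose_lower (2 * M) t (by omega)
    have e1 : 2 * (2 * M) = 4 * M := by ring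
    rw [e1, ← hC] at h1
    push_cast at h1
    rw [← hq2', ht, ← hT] at h1
    have h2 := mul_le_mul_of_nonneg_right h1 (Real.exp_pos T).le
    rw [mul_assoc, ← Real.exp_add] at h2
    simpa using h2
  -- terms
  have hterm : ∀ s : ℕ, t + s ≤ M → (A M (2 * M - t) (M + s) : ℝ) ≤
      2 / q * (C * Real.exp (T - (K * q + s) ^ 2 / (q ^ 2 + (K * q + s)))) := by
    intro s hts
    have h2 := choose_upper M s (by omega)
    have h3 := choose_upper M (t + s) hts
    have hb0 : (0 : ℝ) ≤ ((2 * M).choose M : ℝ) := Nat.cast_nonneg _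
    have h4 : ((2 * M).choose (M - s) : ℝ) ≤ ((2 * M).choose M : ℝ) := by
      refine h2.trans ?_
      have : Real.exp (-((s : ℝ) ^ 2 / (M + s))) ≤ 1 := by
        rw [Real.exp_le_one_iff, neg_nonpos]
        positivity
      nlinarith
    rw [A_eq M t s hts]
    push_cast at h3 ⊢
    rw [← hq2', ht] at h3
    obtain ⟨u, hu⟩ : ∃ u : ℝ, u = (K * q + s) ^ 2 / (q ^ 2 + (K * q + s)) := ⟨_, rfl⟩
    rw [← hu] at h3 ⊢
    calc ((2 * M).choose (M - s) : ℝ) * ((2 * M).choose (M - (t + s)) : ℝ)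
        ≤ ((2 * M).choose M : ℝ) * (((2 * M).choose M : ℝ) * Real.exp (-u)) :=
          mul_le_mul h4 h3 (Nat.cast_nonneg _) hb0
      _ = (q * ((2 * M).choose M : ℝ) ^ 2) * Real.exp (-u) / q := by field_simp
      _ ≤ (2 * (C * Real.exp T)) * Real.exp (-u) / q := by
          have h5 : q * ((2 * M).choose M : ℝ) ^ 2 ≤ 2 * (C * Real.exp T) := by linarith
          gcongr
      _ = 2 / q * (C * Real.exp (T - u)) := by
          rw [sub_eq_add_neg, Real.exp_add]; ring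
  rw [B_cast]
  have hbound : ∀ x ∈ range (2 * M - t + 1), (w2 M x : ℝ) * (A M (2 * M - t) x : ℝ) ≤
      C * ((if x ∈ Icc M (M + F) then 4 / q * Real.exp (1 - K ^ 2 / 2) else 0) +
        2 * Real.exp (1 - R ^ 2)) := by
    intro x hx
    rw [mem_range] at hx
    by_cases hxM : x < M
    · rw [w2_of_lt M hxM]
      push_cast
      rw [zero_mul]
      split_ifs <;> positivity
    · obtain ⟨s, rfl⟩ : ∃ s, x = M + s := ⟨x - M, by omega⟩
      have hts : t + s ≤ M := by omega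
      have h1 := hterm s hts
      have hs0 : (0 : ℝ) ≤ s := Nat.cast_nonneg s
      have hw := w2_le_two M (M + s)
      have hA0 : (0 : ℝ) ≤ (A M (2 * M - t) (M + s) : ℝ) := Nat.cast_nonneg _
      have h2 : (w2 M (M + s) : ℝ) * (A M (2 * M - t) (M + s) : ℝ) ≤
          2 * (2 / q * (C * Real.exp (T - (K * q + s) ^ 2 / (q ^ 2 + (K * q + s))))) :=
        mul_le_mul hw h1 hA0 (by norm_num)
      refine h2.trans ?_
      by_cases hsF : s ≤ F
      · rw [if_pos (mem_Icc.2 ⟨by omega, by omega⟩)]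
        have hs1 : (s : ℝ) ≤ R * q := by
          have : (s : ℝ) ≤ F := by exact_mod_cast hsF
          linarith
        have hE := E_upper hK hR hq (s : ℝ) hs0 hs1
        rw [← hT] at hE
        have h3 : Real.exp (T - (K * q + s) ^ 2 / (q ^ 2 + (K * q + s))) ≤
            Real.exp (1 - K ^ 2 / 2) := Real.exp_le_exp.2 (by linarith)
        have h4 : 2 * (2 / q * (C * Real.exp (T - (K * q + s) ^ 2 / (q ^ 2 + (K * q + s))))) ≤
            2 * (2 / q * (C * Real.exp (1 - K ^ 2 / 2))) := by gcongr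
        refine h4.trans ?_
        have h5 : 0 ≤ C * (2 * Real.exp (1 - R ^ 2)) := by positivity
        calc 2 * (2 / q * (C * Real.exp (1 - K ^ 2 / 2)))
            = C * (4 / q * Real.exp (1 - K ^ 2 / 2)) := by ring
          _ ≤ C * (4 / q * Real.exp (1 - K ^ 2 / 2)) + C * (2 * Real.exp (1 - R ^ 2)) := by
              linarith
          _ = _ := by ring
      · rw [if_neg (fun h => hsF (by have := (mem_Icc.1 h).2; omega)), zero_add]
        have hs1 : R * q ≤ (s : ℝ) := by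
          have : (F : ℝ) + 1 ≤ s := by exact_mod_cast (not_le.1 hsF)
          linarith
        have hE := E_far hK hR hq (s : ℝ) hs1
        rw [← hT] at hE
        have h3 : Real.exp (T - (K * q + s) ^ 2 / (q ^ 2 + (K * q + s))) ≤
            Real.exp (1 - R ^ 2) := Real.exp_le_exp.2 (by linarith)
        have h6 : 2 / q ≤ 1 := by rw [div_le_one hq0]; linarith
        have h4 : 2 / q * (C * Real.exp (T - (K * q + s) ^ 2 / (q ^ 2 + (K * q + s)))) ≤
            1 * (C * Real.exp (1 - R ^ 2)) := by gcongr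
        linarith
  refine (Finset.sum_le_sum hbound).trans ?_
  rw [← Finset.mul_sum, Finset.sum_add_distrib, Finset.sum_const, card_range, nsmul_eq_mul,
    ← Finset.sum_filter, Finset.sum_const, nsmul_eq_mul]
  refine mul_le_mul_of_nonneg_left ?_ hC0
  have hcard : (#(filter (fun x => x ∈ Icc M (M + F)) (range (2 * M - t + 1))) : ℝ) ≤ F + 1 := by
    have h1 : filter (fun x => x ∈ Icc M (M + F)) (range (2 * M - t + 1)) ⊆ Icc M (M + F) :=
      fun x hx => (mem_filter.1 hx).2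
    have h2 := card_le_card h1
    rw [Nat.card_Icc] at h2
    have h3 : M + F + 1 - M = F + 1 := by omega
    rw [h3] at h2
    exact_mod_cast h2
  have he := Real.exp_one_lt_d9
  have hcount : ((2 * M - t + 1 : ℕ) : ℝ) ≤ 2 * M := by
    have : 2 * M - t + 1 ≤ 2 * M := by omega
    exact_mod_cast this
  have e1 : Real.exp (1 - K ^ 2 / 2) = Real.exp 1 * Real.exp (-(K ^ 2 / 2)) := by
    rw [← Real.exp_add]; congr 1
  have e2 : Real.exp (1 - R ^ 2) = Real.exp 1 * Real.exp (-R ^ 2) := by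
    rw [← Real.exp_add]; congr 1
  have hRq : 1 ≤ R * q := by nlinarith
  refine add_le_add ?_ ?_
  · rw [e1]
    calc (#(filter (fun x => x ∈ Icc M (M + F)) (range (2 * M - t + 1))) : ℝ) *
          (4 / q * (Real.exp 1 * Real.exp (-(K ^ 2 / 2))))
        ≤ (2 * (R * q)) * (4 / q * (Real.exp 1 * Real.exp (-(K ^ 2 / 2)))) := by
          refine mul_le_mul_of_nonneg_right ?_ (by positivity)
          linarith
      _ = 8 * Real.exp 1 * (R * Real.exp (-(K ^ 2 / 2))) := by field_simp; ring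
      _ ≤ 22 * (R * Real.exp (-(K ^ 2 / 2))) := by
          refine mul_le_mul_of_nonneg_right ?_ (by positivity)
          linarith
      _ = 22 * R * Real.exp (-(K ^ 2 / 2)) := by ring
  · rw [e2]
    calc ((2 * M - t + 1 : ℕ) : ℝ) * (2 * (Real.exp 1 * Real.exp (-R ^ 2)))
        ≤ (2 * M) * (2 * (Real.exp 1 * Real.exp (-R ^ 2))) :=
          mul_le_mul_of_nonneg_right hcount (by positivity)
      _ = 4 * Real.exp 1 * (M * Real.exp (-R ^ 2)) := by ring
      _ ≤ 11 * (M * Real.exp (-R ^ 2)) := by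
          refine mul_le_mul_of_nonneg_right ?_ (by positivity)
          linarith
      _ = 11 * M * Real.exp (-R ^ 2) := by ring

/-- lower bound for the second moment of the lower tail -/
theorem tail_moment (M t : ℕ) (hM : 1 ≤ M) (K : ℝ) (hK : 0 ≤ K)
    (ht : (t : ℝ) = K * √(M : ℝ)) (hq : 8 * (K + 1) ^ 3 ≤ √(M : ℝ)) :
    2 ^ (4 * M) * (M * Real.exp (-(K ^ 2 / 2 + 5))) ≤ 12 * (K + 1) ^ 3 *
      ∑ l ∈ range (2 * M - t), ((4 * M).choose l : ℝ) * (((2 * M - t : ℕ) : ℝ) - l) ^ 2 := by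
  have hM0 : (0 : ℝ) < M := by exact_mod_cast hM
  have hq2' : √(M : ℝ) ^ 2 = M := Real.sq_sqrt hM0.le
  have hcb : (2 : ℝ) ^ (4 * M) ≤ 3 * √(M : ℝ) * ((4 * M).choose (2 * M) : ℝ) := by
    have h2 := cb_lower_real (2 * M) (by omega)
    have e1 : 2 * (2 * M) = 4 * M := by ring
    have e3 : (2 : ℝ) ^ (4 * M) = 4 ^ (2 * M) := by
      rw [show 4 * M = 2 * (2 * M) by ring, pow_mul]; norm_num
    have e2 : √(((2 * M : ℕ) : ℝ)) ≤ 1.5 * √(M : ℝ) := by
      rw [← Real.sqrt_sq (show (0 : ℝ) ≤ 1.5 by norm_num), ← Real.sqrt_mul (by norm_num)]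
      apply Real.sqrt_le_sqrt
      push_cast
      nlinarith
    rw [e1] at h2
    rw [e3]
    refine h2.trans ?_
    have h0 : (0 : ℝ) ≤ ((4 * M).choose (2 * M) : ℝ) := Nat.cast_nonneg _
    nlinarith
  obtain ⟨q, hqd⟩ : ∃ q : ℝ, q = √(M : ℝ) := ⟨_, rfl⟩
  rw [← hqd] at hq2' ht hq hcb
  have ha1 : 1 ≤ K + 1 := by linarith
  have ha3 := cube_ge (K + 1) ha1
  have hq8 : 8 ≤ q := by linarith
  have hq0 : 0 < q := by linarith
  have hKq : 8 * (K + 1) ≤ q := by linarith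
  obtain ⟨S, hS⟩ : ∃ S : ℕ, S = ⌊q / (K + 1)⌋₊ := ⟨_, rfl⟩
  have hS1 : (S : ℝ) * (K + 1) ≤ q := by
    have h1 : (S : ℝ) ≤ q / (K + 1) := by rw [hS]; exact Nat.floor_le (by positivity)
    rwa [le_div_iff₀ (by linarith)] at h1
  have hS2 : q ≤ ((S : ℝ) + 1) * (K + 1) := by
    have h1 : q / (K + 1) < (S : ℝ) + 1 := by rw [hS]; exact Nat.lt_floor_add_one _
    rw [div_lt_iff₀ (by linarith)] at h1
    exact h1.le
  have hSpos : 1 ≤ S := by
    have h1 : (7 : ℝ) ≤ S := by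
      by_contra hcon
      push Not at hcon
      nlinarith
    have h2 : (1 : ℝ) ≤ S := by linarith
    exact_mod_cast h2
  have hS3 : q ≤ 2 * (S : ℝ) * (K + 1) := by
    have : (1 : ℝ) ≤ S := by exact_mod_cast hSpos
    nlinarith
  obtain ⟨P, hP⟩ : ∃ P : ℝ, P = Real.exp (-(K ^ 2 / 2 + 5)) := ⟨_, rfl⟩
  have hP0 : 0 < P := by rw [hP]; exact Real.exp_pos _
  rw [← hP]
  -- terms
  have hterm : ∀ r : ℕ, r ≤ 2 * S → t + r ≤ 2 * M ∧
      2 ^ (4 * M) * P ≤ 3 * q * ((4 * M).choose (2 * M - (t + r)) : ℝ) := by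
    intro r hr
    have hr0 : (0 : ℝ) ≤ r := Nat.cast_nonneg r
    have hr1 : (r : ℝ) * (K + 1) ≤ 2 * q := by
      have : (r : ℝ) ≤ 2 * S := by exact_mod_cast hr
      nlinarith
    have hrq : (r : ℝ) ≤ 2 * q := by nlinarith
    have htr : t + r ≤ 2 * M := by
      have : (t : ℝ) + r ≤ 2 * M := by rw [ht, ← hq2']; nlinarith
      exact_mod_cast this
    refine ⟨htr, ?_⟩
    have h1 := choose_lower (2 * M) (t + r) htr
    have e1 : 2 * (2 * M) = 4 * M := by ring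
    rw [e1] at h1
    push_cast at h1
    rw [← hq2', ht] at h1
    have hE := E_gap hK hq (r : ℝ) hr0 hr1
    have h2 : P ≤ Real.exp (-((K * q + r) ^ 2 / (2 * q ^ 2 - (K * q + r) + 1))) := by
      rw [hP]; exact Real.exp_le_exp.2 (by linarith)
    calc 2 ^ (4 * M) * P ≤ (3 * q * ((4 * M).choose (2 * M) : ℝ)) *
          Real.exp (-((K * q + r) ^ 2 / (2 * q ^ 2 - (K * q + r) + 1))) :=
          mul_le_mul hcb h2 hP0.le (by positivity)
      _ = 3 * q * (((4 * M).choose (2 * M) : ℝ) *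
          Real.exp (-((K * q + r) ^ 2 / (2 * q ^ 2 - (K * q + r) + 1)))) := by ring
      _ ≤ _ := mul_le_mul_of_nonneg_left h1 (by positivity)
  have hi : 2 * S ≤ 2 * M - t := by
    have := (hterm (2 * S) le_rfl).1
    omega
  have hsum : ((S : ℝ) + 1) * ((S : ℝ) ^ 2 * (2 ^ (4 * M) * P)) ≤ 3 * q *
      ∑ l ∈ range (2 * M - t), ((4 * M).choose l : ℝ) * (((2 * M - t : ℕ) : ℝ) - l) ^ 2 := by
    rw [Finset.mul_sum]
    have hsub : (range (S + 1)).image (fun s => 2 * M - (t + (S + s))) ⊆ range (2 * M - t) := by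
      intro x hx
      rw [mem_image] at hx
      obtain ⟨s, hs, rfl⟩ := hx
      rw [mem_range] at hs ⊢
      omega
    refine le_trans ?_ (Finset.sum_le_sum_of_subset_of_nonneg hsub fun x _ _ => by positivity)
    rw [Finset.sum_image (fun x hx y hy h => by
      rw [mem_coe, mem_range] at hx hy
      omega)]
    have h1 : ((S : ℝ) + 1) * ((S : ℝ) ^ 2 * (2 ^ (4 * M) * P)) =
        ∑ _s ∈ range (S + 1), (S : ℝ) ^ 2 * (2 ^ (4 * M) * P) := by
      rw [Finset.sum_const, card_range, nsmul_eq_mul]; push_cast; rfl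
    rw [h1]
    refine Finset.sum_le_sum fun s hs => ?_
    rw [mem_range] at hs
    have h2 := (hterm (S + s) (by omega)).2
    have h3 : (((2 * M - t : ℕ) : ℝ) - ((2 * M - (t + (S + s)) : ℕ) : ℝ)) = (S : ℝ) + s := by
      have : 2 * M - t = (2 * M - (t + (S + s))) + (S + s) := by omega
      rw [this]; push_cast; ring
    rw [h3]
    have h4 : (S : ℝ) ^ 2 ≤ ((S : ℝ) + s) ^ 2 := by
      have : (0 : ℝ) ≤ s := Nat.cast_nonneg s
      have h5 : (0 : ℝ) ≤ S := Nat.cast_nonneg S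
      exact pow_le_pow_left₀ h5 (by linarith) 2
    calc (S : ℝ) ^ 2 * (2 ^ (4 * M) * P)
        ≤ ((S : ℝ) + s) ^ 2 * (3 * q * ((4 * M).choose (2 * M - (t + (S + s))) : ℝ)) :=
          mul_le_mul h4 h2 (by positivity) (sq_nonneg _)
      _ = _ := by ring
  have h5 : q ^ 3 * (2 ^ (4 * M) * P) ≤
      (4 * (K + 1) ^ 3) * (((S : ℝ) + 1) * ((S : ℝ) ^ 2 * (2 ^ (4 * M) * P))) := by
    have h6 : q ^ 2 ≤ (2 * (S : ℝ) * (K + 1)) ^ 2 := pow_le_pow_left₀ hq0.le hS3 2
    have h7 : q ^ 3 ≤ (((S : ℝ) + 1) * (K + 1)) * (2 * (S : ℝ) * (K + 1)) ^ 2 := by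
      calc q ^ 3 = q * q ^ 2 := by ring
        _ ≤ _ := mul_le_mul hS2 h6 (sq_nonneg _) (by positivity)
    calc q ^ 3 * (2 ^ (4 * M) * P)
        ≤ ((((S : ℝ) + 1) * (K + 1)) * (2 * (S : ℝ) * (K + 1)) ^ 2) * (2 ^ (4 * M) * P) :=
          mul_le_mul_of_nonneg_right h7 (by positivity)
      _ = _ := by ring
  have h8 : q * (2 ^ (4 * M) * ((M : ℝ) * P)) ≤ q * (12 * (K + 1) ^ 3 *
      ∑ l ∈ range (2 * M - t), ((4 * M).choose l : ℝ) * (((2 * M - t : ℕ) : ℝ) - l) ^ 2) := by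
    calc q * (2 ^ (4 * M) * ((M : ℝ) * P)) = q ^ 3 * (2 ^ (4 * M) * P) := by rw [← hq2']; ring
      _ ≤ (4 * (K + 1) ^ 3) * (((S : ℝ) + 1) * ((S : ℝ) ^ 2 * (2 ^ (4 * M) * P))) := h5
      _ ≤ (4 * (K + 1) ^ 3) * (3 * q *
          ∑ l ∈ range (2 * M - t), ((4 * M).choose l : ℝ) *
            (((2 * M - t : ℕ) : ℝ) - l) ^ 2) :=
          mul_le_mul_of_nonneg_left hsum (by positivity)
      _ = _ := by ring
  exact le_of_mul_le_mul_left h8 hq0

end Pool.Agent.RMC53
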