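import Pool.Agent.RMC53.LamC

/-!
# A sharper upper bound for the weighted hypergeometric tail
-/

set_option autoImplicit false

open Finset

namespace Pool.Agent.RMC53

lemma E_upper2 {q K R : ℝ} (hK : 0 ≤ K) (hR : 1 ≤ R) (hq : 8 * (K + R) ^ 3 ≤ q) (s : ℝ)
    (hs : 0 ≤ s) (hs1 : s ≤ R * q) :
    (K * q) ^ 2 / (2 * q ^ 2 - K * q + 1) + K ^ 2 / 2 + (2 * K + 1) * (s / q) ≤
      (K * q + s) ^ 2 / (q ^ 2 + (K * q + s)) + 1 / 2 := by
  have ha1 : 1 ≤ K + R := by linarith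
  have ha3 := cube_ge (K + R) ha1
  have hq8 : 8 ≤ q := by linarith
  have hq0 : 0 < q := by linarith
  obtain ⟨σ, hσ⟩ : ∃ σ : ℝ, s = σ * q := ⟨s / q, by field_simp⟩
  have hσ0 : 0 ≤ σ := by
    by_contra h
    push Not at h
    have : s < 0 := by rw [hσ]; nlinarith
    linarith
  have hσR : σ ≤ R := by
    rw [hσ] at hs1
    exact le_of_mul_le_mul_right hs1 hq0
  have hsσ : s / q = σ := by rw [hσ]; field_simp
  obtain ⟨κ, hκ⟩ : ∃ κ : ℝ, κ = K + σ := ⟨_, rfl⟩
  have hκ0 : 0 ≤ κ := by rw [hκ]; linarith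
  have hκa : κ ≤ K + R := by rw [hκ]; linarith
  have hκ3 : κ ^ 3 ≤ (K + R) ^ 3 := pow_le_pow_left₀ hκ0 hκa 3
  have hK3 : K ^ 3 ≤ (K + R) ^ 3 := pow_le_pow_left₀ hK (by linarith) 3
  have hKq : K ≤ q := by linarith
  have e1 : (K * q) ^ 2 / (2 * q ^ 2 - K * q + 1) ≤ K ^ 2 / 2 + 1 / 8 := by
    rw [div_le_iff₀ (by nlinarith)]
    have h1 : K ^ 3 / 2 + K / 8 ≤ q / 4 := by
      have : K ≤ K + R := by linarith
      nlinarith
    have h2 : (K ^ 3 / 2 + K / 8) * q ≤ q / 4 * q := mul_le_mul_of_nonneg_right h1 hq0.le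
    nlinarith [sq_nonneg K]
  have e2 : κ ^ 2 - 1 / 8 ≤ (K * q + s) ^ 2 / (q ^ 2 + (K * q + s)) := by
    have h1 : K * q + s = κ * q := by rw [hκ, hσ]; ring
    rw [h1, le_div_iff₀ (by positivity)]
    have h2 : κ ^ 3 ≤ q / 8 := by linarith
    have h3 : κ ^ 3 * q ≤ q / 8 * q := mul_le_mul_of_nonneg_right h2 hq0.le
    nlinarith [mul_nonneg hκ0 hq0.le]
  have e4 : K ^ 2 + (2 * K + 1) * σ - 1 / 4 ≤ κ ^ 2 := by
    rw [hκ]
    nlinarith [mul_nonneg hK hσ0, sq_nonneg (σ - 1 / 2)]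
  rw [hsσ]
  linarith

lemma geom_bound (q : ℝ) (hq : 4 ≤ q) (n : ℕ) :
    ∑ s ∈ range n, Real.exp (-((s : ℝ) / q)) ≤ 5 / 4 * q := by
  have hq0 : 0 < q := by linarith
  obtain ⟨r, hr⟩ : ∃ r : ℝ, r = Real.exp (-(1 / q)) := ⟨_, rfl⟩
  have hr0 : 0 < r := by rw [hr]; exact Real.exp_pos _
  have h1 : ∀ s : ℕ, Real.exp (-((s : ℝ) / q)) = r ^ s := by
    intro s
    rw [hr, ← Real.exp_nat_mul]; congr 1; ring
  simp_rw [h1]
  have hr1 : 1 / (1 + q) ≤ 1 - r := by
    have h2 := Real.add_one_le_exp (1 / q)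
    have h3 : r ≤ q / (1 + q) := by
      rw [hr, Real.exp_neg, inv_le_comm₀ (Real.exp_pos _) (by positivity), inv_div]
      have : (1 + q) / q = 1 / q + 1 := by field_simp
      rw [this]; exact h2
    have h4 : q / (1 + q) = 1 - 1 / (1 + q) := by field_simp; ring
    linarith
  have hr2 : 0 < 1 - r := lt_of_lt_of_le (by positivity) hr1
  have h2 : (∑ s ∈ range n, r ^ s) * (1 - r) ≤ 1 := by
    have h3 := geom_sum_mul_neg r n
    rw [h3]
    have : 0 < r ^ n := by positivity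
    linarith
  have h3 : (∑ s ∈ range n, r ^ s) * (1 / (1 + q)) ≤ 1 := by
    refine le_trans (mul_le_mul_of_nonneg_left hr1 ?_) h2
    exact Finset.sum_nonneg fun s _ => by positivity
  rw [mul_one_div, div_le_one (by linarith)] at h3
  linarith

theorem B_upper2 (M t : ℕ) (hM : 1 ≤ M) (ht1 : 1 ≤ t) (K R : ℝ) (hK : 0 ≤ K) (hR : 1 ≤ R)
    (ht : (t : ℝ) = K * √(M : ℝ)) (hq : 8 * (K + R) ^ 3 ≤ √(M : ℝ)) :
    (B M (2 * M - t) : ℝ) ≤ ((4 * M).choose (2 * M - t) : ℝ) *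
      (10 * (Real.exp (-(K ^ 2 / 2)) / (K + 1)) + 11 * M * Real.exp (-R ^ 2)) := by
  have hM0 : (0 : ℝ) < M := by exact_mod_cast hM
  have hq2' : √(M : ℝ) ^ 2 = M := Real.sq_sqrt hM0.le
  have hratio := cb_ratio_upper M hM
  obtain ⟨q, hqd⟩ : ∃ q : ℝ, q = √(M : ℝ) := ⟨_, rfl⟩
  rw [← hqd] at hq2' ht hq hratio
  have ha1 : 1 ≤ K + R := by linarith
  have ha3 := cube_ge (K + R) ha1
  have hq8 : 8 ≤ q := by linarith
  have hq0 : 0 < q := by linarith
  have htM : t ≤ M := by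
    have : (t : ℝ) ≤ M := by rw [ht, ← hq2']; nlinarith
    exact_mod_cast this
  obtain ⟨C, hC⟩ : ∃ C : ℝ, C = ((4 * M).choose (2 * M - t) : ℝ) := ⟨_, rfl⟩
  have hC0 : 0 ≤ C := by rw [hC]; exact Nat.cast_nonneg _
  rw [← hC]
  obtain ⟨T, hT⟩ : ∃ T : ℝ, T = (K * q) ^ 2 / (2 * q ^ 2 - K * q + 1) := ⟨_, rfl⟩
  have hCC : ((4 * M).choose (2 * M) : ℝ) ≤ C * Real.exp T := by
    have h1 := choose_lower (2 * M) t (by omega)
    have e1 : 2 * (2 * M) = 4 * M := by ring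
    rw [e1, ← hC] at h1
    push_cast at h1
    rw [← hq2', ht, ← hT] at h1
    have h2 := mul_le_mul_of_nonneg_right h1 (Real.exp_pos T).le
    rw [mul_assoc, ← Real.exp_add] at h2
    simpa using h2
  have hterm : ∀ s : ℕ, t + s ≤ M → (A M (2 * M - t) (M + s) : ℝ) ≤
      2 / q * (C * Real.exp (T - (K * q + s) ^ 2 / (q ^ 2 + (K * q + s)))) := by
    intro s hts
    have h2 := choose_upper M s (by omega)
    have h3 := choose_upper M (t + s) hts
    have hb0 : (0 : ℝ) ≤ ((2 * M).choose M : ℝ) := Nat.cast_nonneg _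
    have h4 : ((2 * M).choose (M - s) : ℝ) ≤ ((2 * M).choose M : ℝ) := by
      refine h2.trans ?_
      have : Real.exp (-((s : ℝ) ^ 2 / (M + s))) ≤ 1 := by
        rw [Real.exp_le_one_iff, neg_nonpos]
        positivity
      nlinarith
    rw [A_eq M t s hts]
    push_cast at h3 ⊢
    rw [← hq2', ht] at h3
    obtain ⟨u, hu⟩ : ∃ u : ℝ, u = (K * q + s) ^ 2 / (q ^ 2 + (K * q + s)) := ⟨_, rfl⟩
    rw [← hu] at h3 ⊢
    calc ((2 * M).choose (M - s) : ℝ) * ((2 * M).choose (M - (t + s)) : ℝ)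
        ≤ ((2 * M).choose M : ℝ) * (((2 * M).choose M : ℝ) * Real.exp (-u)) :=
          mul_le_mul h4 h3 (Nat.cast_nonneg _) hb0
      _ = (q * ((2 * M).choose M : ℝ) ^ 2) * Real.exp (-u) / q := by field_simp
      _ ≤ (2 * (C * Real.exp T)) * Real.exp (-u) / q := by
          have h5 : q * ((2 * M).choose M : ℝ) ^ 2 ≤ 2 * (C * Real.exp T) := by linarith
          gcongr
      _ = 2 / q * (C * Real.exp (T - u)) := by
          rw [sub_eq_add_neg, Real.exp_add]; ring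
  obtain ⟨Q, hQ⟩ : ∃ Q : ℝ, Q = Real.exp (1 / 2 - K ^ 2 / 2) := ⟨_, rfl⟩
  have hQ0 : 0 < Q := by rw [hQ]; exact Real.exp_pos _
  have hbound : ∀ s ∈ range (M - t + 1),
      (w2 M (M + s) : ℝ) * (A M (2 * M - t) (M + s) : ℝ) ≤
      C * (4 / q * Q * Real.exp (-((s : ℝ) / (q / (2 * K + 1)))) +
        2 * Real.exp (1 - R ^ 2)) := by
    intro s hs
    rw [mem_range] at hs
    have hts : t + s ≤ M := by omega
    have h1 := hterm s hts
    have hs0 : (0 : ℝ) ≤ s := Nat.cast_nonneg s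
    have hsa : (s : ℝ) / (q / (2 * K + 1)) = (2 * K + 1) * (s / q) := by field_simp
    rw [hsa]
    have hw := w2_le_two M (M + s)
    have hA0 : (0 : ℝ) ≤ (A M (2 * M - t) (M + s) : ℝ) := Nat.cast_nonneg _
    have h2 : (w2 M (M + s) : ℝ) * (A M (2 * M - t) (M + s) : ℝ) ≤
        2 * (2 / q * (C * Real.exp (T - (K * q + s) ^ 2 / (q ^ 2 + (K * q + s))))) :=
      mul_le_mul hw h1 hA0 (by norm_num)
    refine h2.trans ?_
    by_cases hs1 : (s : ℝ) ≤ R * q
    · have hE := E_upper2 hK hR hq (s : ℝ) hs0 hs1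
      rw [← hT] at hE
      have h3 : Real.exp (T - (K * q + s) ^ 2 / (q ^ 2 + (K * q + s))) ≤
          Q * Real.exp (-((2 * K + 1) * (s / q))) := by
        rw [hQ, ← Real.exp_add]
        exact Real.exp_le_exp.2 (by linarith)
      have h4 : 2 * (2 / q * (C * Real.exp (T - (K * q + s) ^ 2 / (q ^ 2 + (K * q + s))))) ≤
          2 * (2 / q * (C * (Q * Real.exp (-((2 * K + 1) * (s / q)))))) := by gcongr
      refine h4.trans ?_
      have h5 : 0 ≤ C * (2 * Real.exp (1 - R ^ 2)) := by positivity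
      calc 2 * (2 / q * (C * (Q * Real.exp (-((2 * K + 1) * (s / q))))))
          = C * (4 / q * Q * Real.exp (-((2 * K + 1) * (s / q)))) := by ring
        _ ≤ C * (4 / q * Q * Real.exp (-((2 * K + 1) * (s / q)))) +
            C * (2 * Real.exp (1 - R ^ 2)) := by
            linarith
        _ = _ := by ring
    · push Not at hs1
      have hE := E_far hK hR hq (s : ℝ) hs1.le
      rw [← hT] at hE
      have h3 : Real.exp (T - (K * q + s) ^ 2 / (q ^ 2 + (K * q + s))) ≤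
          Real.exp (1 - R ^ 2) := Real.exp_le_exp.2 (by linarith)
      have h6 : 2 / q ≤ 1 := by rw [div_le_one hq0]; linarith
      have h4 : 2 / q * (C * Real.exp (T - (K * q + s) ^ 2 / (q ^ 2 + (K * q + s)))) ≤
          1 * (C * Real.exp (1 - R ^ 2)) := by gcongr
      have h5 : 0 ≤ C * (4 / q * Q * Real.exp (-((2 * K + 1) * (s / q)))) := by positivity
      nlinarith
  have hBs : (B M (2 * M - t) : ℝ) = ∑ s ∈ range (M - t + 1),
      (w2 M (M + s) : ℝ) * (A M (2 * M - t) (M + s) : ℝ) := by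
    rw [B_cast, show 2 * M - t + 1 = M + (M - t + 1) by omega, Finset.sum_range_add]
    have h0 : ∑ x ∈ range M, (w2 M x : ℝ) * (A M (2 * M - t) x : ℝ) = 0 := by
      refine Finset.sum_eq_zero fun x hx => ?_
      rw [w2_of_lt M (mem_range.1 hx)]; simp
    rw [h0, zero_add]
  rw [hBs]
  refine (Finset.sum_le_sum hbound).trans ?_
  rw [← Finset.mul_sum, Finset.sum_add_distrib, Finset.sum_const, card_range, nsmul_eq_mul,
    ← Finset.mul_sum]
  refine mul_le_mul_of_nonneg_left ?_ hC0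
  have hcount : ((M - t + 1 : ℕ) : ℝ) ≤ 2 * M := by
    have : M - t + 1 ≤ 2 * M := by omega
    exact_mod_cast this
  have he := Real.exp_one_lt_d9
  have e2 : Real.exp (1 - R ^ 2) = Real.exp 1 * Real.exp (-R ^ 2) := by
    rw [← Real.exp_add]; congr 1
  have hsq2 : Real.exp (1 / 2) ≤ 1.7 := by
    have h1 : Real.exp (1 / 2) * Real.exp (1 / 2) = Real.exp 1 := by
      rw [← Real.exp_add]; norm_num
    have h2 := Real.exp_pos (1 / 2)
    by_contra hcon
    push Not at hcon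
    nlinarith
  have e1 : Q = Real.exp (1 / 2) * Real.exp (-(K ^ 2 / 2)) := by
    rw [hQ, ← Real.exp_add]; congr 1
  refine add_le_add ?_ ?_
  · have hK13 := cube_ge (K + 1) (by linarith)
    have hKR3 : (K + 1) ^ 3 ≤ (K + R) ^ 3 := pow_le_pow_left₀ (by linarith) (by linarith) 3
    have hqa : 4 ≤ q / (2 * K + 1) := by
      rw [le_div_iff₀ (by linarith)]
      linarith
    have hg := geom_bound (q / (2 * K + 1)) hqa (M - t + 1)
    calc 4 / q * Q * ∑ s ∈ range (M - t + 1), Real.exp (-((s : ℝ) / (q / (2 * K + 1))))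
        ≤ 4 / q * Q * (5 / 4 * (q / (2 * K + 1))) := mul_le_mul_of_nonneg_left hg (by positivity)
      _ = 5 * Q / (2 * K + 1) := by field_simp
      _ ≤ 5 * Q / (K + 1) := by
          refine div_le_div_of_nonneg_left (by positivity) (by linarith) (by linarith)
      _ = 5 * Real.exp (1 / 2) * (Real.exp (-(K ^ 2 / 2)) / (K + 1)) := by rw [e1]; ring
      _ ≤ 10 * (Real.exp (-(K ^ 2 / 2)) / (K + 1)) := by
          refine mul_le_mul_of_nonneg_right ?_ (by positivity)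
          linarith
  · rw [e2]
    calc ((M - t + 1 : ℕ) : ℝ) * (2 * (Real.exp 1 * Real.exp (-R ^ 2)))
        ≤ (2 * M) * (2 * (Real.exp 1 * Real.exp (-R ^ 2))) :=
          mul_le_mul_of_nonneg_right hcount (by positivity)
      _ = 4 * Real.exp 1 * (M * Real.exp (-R ^ 2)) := by ring
      _ ≤ 11 * (M * Real.exp (-R ^ 2)) := by
          refine mul_le_mul_of_nonneg_right ?_ (by positivity)
          linarith
      _ = 11 * M * Real.exp (-R ^ 2) := by ring

end Pool.Agent.RMC53
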