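import Pool.Agent.RMC53.Tal
import Pool.Agent.RMC53.Coset

/-!
# An exponential upper bound for the number of cosets of large weight
-/

set_option autoImplicit false

open Finset

namespace Pool.Agent.RMC53

open Pool.Agent.RMC Pool.Agent.RMC68

variable {m : ℕ}

/-- Parseval for real functions -/
lemma parseval_real (z : Vec m → ℝ) :
    ∑ a : Vec m, (∑ x, (chi a x : ℝ) * z x) ^ 2 = 2 ^ m * ∑ x, z x ^ 2 := by
  have h1 : ∀ x y : Vec m, ∑ a : Vec m, (chi a x : ℝ) * (chi a y : ℝ) =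
      if x = y then 2 ^ m else 0 := by
    intro x y
    have h2 := sum_sg_dot (x + y)
    have h3 : ∀ a : Vec m, chi a x * chi a y = sg (a ⬝ᵥ (x + y)) := by
      intro a; rw [chi, chi, ← sg_add, dotProduct_add]
    have h4 : ∑ a : Vec m, chi a x * chi a y = if x = y then 2 ^ m else 0 := by
      simp_rw [h3]
      rw [h2]
      by_cases hxy : x = y
      · subst hxy; rw [if_pos (vec_add_self x), if_pos rfl]
      · rw [if_neg hxy, if_neg]
        intro h
        apply hxy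
        have := congrArg (fun v => v + y) h
        simp only [add_assoc, vec_add_self, add_zero, zero_add] at this
        exact this
    have h5 := congrArg (Int.cast : ℤ → ℝ) h4
    push_cast at h5
    exact h5
  calc ∑ a : Vec m, (∑ x, (chi a x : ℝ) * z x) ^ 2
      = ∑ a : Vec m, ∑ x, ∑ y, ((chi a x : ℝ) * (chi a y : ℝ)) * (z x * z y) := by
        refine Finset.sum_congr rfl fun a _ => ?_
        rw [sq, Finset.sum_mul_sum]
        refine Finset.sum_congr rfl fun x _ => Finset.sum_congr rfl fun y _ => ?_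
        ring
    _ = ∑ x, ∑ y, ∑ a : Vec m, ((chi a x : ℝ) * (chi a y : ℝ)) * (z x * z y) := by
        rw [Finset.sum_comm]
        refine Finset.sum_congr rfl fun x _ => ?_
        rw [Finset.sum_comm]
    _ = ∑ x, ∑ y, (if x = y then 2 ^ m else 0) * (z x * z y) := by
        refine Finset.sum_congr rfl fun x _ => Finset.sum_congr rfl fun y _ => ?_
        rw [← Finset.sum_mul, h1]
    _ = 2 ^ m * ∑ x, z x ^ 2 := by
        rw [Finset.mul_sum]
        refine Finset.sum_congr rfl fun x _ => ?_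
        simp only [ite_mul, zero_mul]
        rw [Finset.sum_ite_eq, if_pos (mem_univ _)]
        ring

/-- the vertex of the cube corresponding to a Boolean function -/
noncomputable def fv (e : Vec m ≃ Fin (2 ^ m)) : (Vec m → ZMod 2) ≃ (Fin (2 ^ m) → Bool) where
  toFun f j := decide (f (e.symm j) = 0)
  invFun v x := if v (e x) = true then 0 else 1
  left_inv f := by
    funext x
    rcases zmod2_cases (f x) with h | h <;> simp [h]
  right_inv v := by
    funext j
    cases h : v j <;> simp [h]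

lemma vtx_fv (e : Vec m ≃ Fin (2 ^ m)) (f : Vec m → ZMod 2) (j : Fin (2 ^ m)) :
    vtx (fv e f) j = (sg (f (e.symm j)) : ℝ) := by
  rcases zmod2_cases (f (e.symm j)) with h | h
  · simp [vtx, fv, sb, h, sg_zero]
  · simp [vtx, fv, sb, h, sg_one]

/-- the convex set -/
def PT (e : Vec m ≃ Fin (2 ^ m)) (T : ℝ) : Set (Fin (2 ^ m) → ℝ) :=
  {y | ∀ a : Vec m, |∑ x, (chi a x : ℝ) * y (e x)| ≤ T}

lemma PT_convex (e : Vec m ≃ Fin (2 ^ m)) (T : ℝ) : Convex ℝ (PT e T) := by
  intro y hy z hz s t hs ht hst a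
  have h1 : ∑ x, (chi a x : ℝ) * (s • y + t • z) (e x) =
      s * ∑ x, (chi a x : ℝ) * y (e x) + t * ∑ x, (chi a x : ℝ) * z (e x) := by
    rw [Finset.mul_sum, Finset.mul_sum, ← Finset.sum_add_distrib]
    refine Finset.sum_congr rfl fun x _ => ?_
    simp only [Pi.add_apply, Pi.smul_apply, smul_eq_mul]
    ring
  rw [h1]
  calc |s * ∑ x, (chi a x : ℝ) * y (e x) + t * ∑ x, (chi a x : ℝ) * z (e x)|
      ≤ |s * ∑ x, (chi a x : ℝ) * y (e x)| + |t * ∑ x, (chi a x : ℝ) * z (e x)| := abs_add_le _ _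
    _ = s * |∑ x, (chi a x : ℝ) * y (e x)| + t * |∑ x, (chi a x : ℝ) * z (e x)| := by
        rw [abs_mul, abs_mul, abs_of_nonneg hs, abs_of_nonneg ht]
    _ ≤ s * T + t * T := add_le_add (mul_le_mul_of_nonneg_left (hy a) hs)
        (mul_le_mul_of_nonneg_left (hz a) ht)
    _ = T := by rw [← add_mul, hst, one_mul]

lemma walsh_eq (e : Vec m ≃ Fin (2 ^ m)) (f : Vec m → ZMod 2) (a : Vec m) :
    ∑ x, (chi a x : ℝ) * vtx (fv e f) (e x) = walsh f a := by
  rw [walsh]
  push_cast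
  refine Finset.sum_congr rfl fun x _ => ?_
  rw [vtx_fv, e.symm_apply_apply, chi, sg_add]
  push_cast
  ring

/-- the excess -/
noncomputable def exc (T : ℝ) (w : ℤ) : ℝ := (max (|(w : ℝ)| - T) 0) ^ 2

lemma exc_nonneg (T : ℝ) (w : ℤ) : 0 ≤ exc T w := sq_nonneg _

lemma dist_ge (e : Vec m ≃ Fin (2 ^ m)) (T : ℝ) (f : Vec m → ZMod 2)
    (y : Fin (2 ^ m) → ℝ) (hy : y ∈ PT e T) :
    (∑ a : Vec m, exc T (walsh f a)) / 2 ^ m ≤ ∑ j, (vtx (fv e f) j - y j) ^ 2 := by
  rw [div_le_iff₀ (by positivity)]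
  have h1 : ∑ j, (vtx (fv e f) j - y j) ^ 2 = ∑ x, (vtx (fv e f) (e x) - y (e x)) ^ 2 :=
    (e.sum_comp fun j => (vtx (fv e f) j - y j) ^ 2).symm
  rw [h1, mul_comm, ← parseval_real]
  refine Finset.sum_le_sum fun a _ => ?_
  have h2 : ∑ x, (chi a x : ℝ) * (vtx (fv e f) (e x) - y (e x)) =
      walsh f a - ∑ x, (chi a x : ℝ) * y (e x) := by
    rw [← walsh_eq e f a, ← Finset.sum_sub_distrib]
    refine Finset.sum_congr rfl fun x _ => ?_
    ring
  rw [h2, exc, ← sq_abs ((walsh f a : ℝ) - _)]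
  have h3 := abs_sub_abs_le_abs_sub (walsh f a : ℝ) (∑ x, (chi a x : ℝ) * y (e x))
  have h4 := hy a
  refine pow_le_pow_left₀ (le_max_right _ _) (max_le ?_ (abs_nonneg _)) 2
  linarith

open Classical in
/-- Talagrand's inequality for the Walsh transform -/
lemma tal_walsh (T : ℝ) (hT : 0 ≤ T) :
    (#{f : Vec m → ZMod 2 | ∀ a, |(walsh f a : ℝ)| ≤ T} : ℝ) *
      ∑ f : Vec m → ZMod 2, Real.exp ((∑ a : Vec m, exc T (walsh f a)) / 2 ^ m / 8) ≤
      4 ^ (2 ^ m) := by
  have e : Vec m ≃ Fin (2 ^ m) := Fintype.equivFinOfCardEq card_vec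
  have h1 := talagrand (2 ^ m) (PT e T) (PT_convex e T)
  have h2 : cc (PT e T) = (#{f : Vec m → ZMod 2 | ∀ a, |(walsh f a : ℝ)| ≤ T} : ℝ) := by
    rw [cc, ← (fv e).sum_comp, Finset.sum_boole]
    congr 2
    ext f
    rw [mem_filter, mem_filter]
    simp only [mem_univ, true_and]
    unfold PT
    simp only [Set.mem_setOf_eq, walsh_eq]
  have hne : (PT e T).Nonempty := ⟨0, fun a => by simpa using hT⟩
  have h3 : ∑ f : Vec m → ZMod 2, Real.exp ((∑ a : Vec m, exc T (walsh f a)) / 2 ^ m / 8) ≤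
      EE (PT e T) := by
    rw [EE, ← (fv e).sum_comp]
    refine Finset.sum_le_sum fun f _ => Real.exp_le_exp.2 ?_
    have i1 : Nonempty (PT e T) := hne.to_subtype
    have : (∑ a : Vec m, exc T (walsh f a)) / 2 ^ m ≤ q (PT e T) (vtx (fv e f)) :=
      le_ciInf fun y => dist_ge e T f y.1 y.2
    linarith
  rw [← h2]
  exact (mul_le_mul_of_nonneg_left h3 (cc_nonneg _)).trans h1

/-- adding a linear function moves the Walsh transform -/
lemma walsh_shift (f : Vec m → ZMod 2) (a : Vec m) :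
    walsh (f + fun x => a ⬝ᵥ x) 0 = walsh f a := by
  rw [walsh, walsh]
  refine Finset.sum_congr rfl fun x _ => ?_
  rw [Pi.add_apply, zero_dotProduct, add_zero]

lemma sum_exc (T : ℝ) :
    ∑ f : Vec m → ZMod 2, (∑ a : Vec m, exc T (walsh f a)) / 2 ^ m =
      ∑ l ∈ range (2 ^ m + 1), ((2 ^ m).choose l : ℝ) * exc T ((2 : ℤ) ^ m - 2 * l) := by
  rw [← Finset.sum_div, Finset.sum_comm]
  have h1 : ∀ a : Vec m, ∑ f : Vec m → ZMod 2, exc T (walsh f a) =
      ∑ f : Vec m → ZMod 2, exc T (walsh f 0) := by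
    intro a
    rw [← Equiv.sum_comp (Equiv.addRight (fun x : Vec m => a ⬝ᵥ x))
      (fun f : Vec m → ZMod 2 => exc T (walsh f 0))]
    refine Finset.sum_congr rfl fun f _ => ?_
    rw [Equiv.coe_addRight, walsh_shift]
  simp_rw [h1]
  rw [Finset.sum_const, card_univ, card_vec, nsmul_eq_mul]
  push_cast
  rw [mul_div_cancel_left₀ _ (by positivity : (2 : ℝ) ^ m ≠ 0), ← (indE m).sum_comp]
  have h2 : ∀ A : Finset (Vec m), exc T (walsh (indE m A) 0) =
      exc T ((2 : ℤ) ^ m - 2 * (#A : ℕ)) := by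
    intro A
    have : indE m A = ind A := rfl
    rw [this, walsh_ind_zero]
  simp_rw [h2]
  rw [← Finset.powerset_univ, Finset.sum_powerset_apply_card
    (fun l : ℕ => exc T ((2 : ℤ) ^ m - 2 * l)), card_univ, card_vec]
  refine Finset.sum_congr rfl fun l _ => ?_
  rw [nsmul_eq_mul]

/-- `E_i`, the mean of `((i - B)_+)^2` for `B` binomial with parameters `2^m`, `1/2` -/
noncomputable def gap (m i : ℕ) : ℝ :=
  (∑ l ∈ range i, ((2 ^ m).choose l : ℝ) * ((i : ℝ) - l) ^ 2) / 2 ^ (2 ^ m)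

lemma exc_ge (i l : ℕ) (hi : 2 * i ≤ 2 ^ m) (hl : l ≤ 2 ^ m) :
    4 * ((((i - l : ℕ) : ℝ)) ^ 2 + (((i - (2 ^ m - l) : ℕ) : ℝ)) ^ 2) ≤
      exc ((2 : ℝ) ^ m - 2 * i) ((2 : ℤ) ^ m - 2 * l) := by
  have hlr : (l : ℝ) ≤ 2 ^ m := by exact_mod_cast hl
  have hir : 2 * (i : ℝ) ≤ 2 ^ m := by exact_mod_cast hi
  rw [exc]
  push_cast
  rcases lt_or_ge l i with h | h
  · have e2 : i - (2 ^ m - l) = 0 := by omega
    have hli : (l : ℝ) < i := by exact_mod_cast h
    rw [e2, Nat.cast_sub h.le, abs_of_nonneg (by linarith), max_eq_left (by linarith)]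
    push_cast
    nlinarith
  · have e1 : i - l = 0 := by omega
    rcases lt_or_ge (2 ^ m - l) i with h2 | h2
    · have h2r : (2 : ℝ) ^ m - l < i := by
        have := (Nat.cast_lt (α := ℝ)).2 h2
        rw [Nat.cast_sub hl] at this
        push_cast at this
        exact this
      rw [e1, Nat.cast_sub h2.le, Nat.cast_sub hl, abs_of_nonpos (by linarith),
        max_eq_left (by linarith)]
      push_cast
      nlinarith
    · have e2 : i - (2 ^ m - l) = 0 := by omega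
      rw [e1, e2]
      have := sq_nonneg (max (|(2 : ℝ) ^ m - 2 * l| - (2 ^ m - 2 * i)) 0)
      simp only [Nat.cast_zero]
      linarith

lemma gap_le (i : ℕ) (hi : 2 * i ≤ 2 ^ m) :
    8 * gap m i * 2 ^ (2 ^ m) ≤
      ∑ l ∈ range (2 ^ m + 1), ((2 ^ m).choose l : ℝ) *
        exc ((2 : ℝ) ^ m - 2 * i) ((2 : ℤ) ^ m - 2 * l) := by
  have h1 : ∑ l ∈ range (2 ^ m + 1), ((2 ^ m).choose l : ℝ) * (((i - l : ℕ) : ℝ)) ^ 2 =
      gap m i * 2 ^ (2 ^ m) := by
    rw [gap, div_mul_cancel₀ _ (by positivity)]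
    have hsub : range i ⊆ range (2 ^ m + 1) := range_subset_range.2 (by omega)
    rw [← Finset.sum_subset hsub]
    · refine Finset.sum_congr rfl fun l hl => ?_
      rw [Nat.cast_sub (mem_range.1 hl).le]
    · intro l _ hl
      rw [mem_range, not_lt] at hl
      rw [Nat.sub_eq_zero_of_le hl]
      simp
  have h2 : ∑ l ∈ range (2 ^ m + 1), ((2 ^ m).choose l : ℝ) * (((i - (2 ^ m - l) : ℕ) : ℝ)) ^ 2 =
      gap m i * 2 ^ (2 ^ m) := by
    rw [← h1, ← Finset.sum_range_reflect]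
    refine Finset.sum_congr rfl fun l hl => ?_
    have hl' : l ≤ 2 ^ m := by have := mem_range.1 hl; omega
    have e : 2 ^ m + 1 - 1 - l = 2 ^ m - l := by omega
    rw [e, Nat.choose_symm hl', Nat.sub_sub_self hl']
  have h3 : 8 * gap m i * 2 ^ (2 ^ m) = ∑ l ∈ range (2 ^ m + 1), ((2 ^ m).choose l : ℝ) *
      (4 * ((((i - l : ℕ) : ℝ)) ^ 2 + (((i - (2 ^ m - l) : ℕ) : ℝ)) ^ 2)) := by
    have h4 : 8 * gap m i * 2 ^ (2 ^ m) = 4 * (gap m i * 2 ^ (2 ^ m) + gap m i * 2 ^ (2 ^ m)) := by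
      ring
    rw [h4]
    nth_rw 1 [← h1]
    rw [← h2, ← Finset.sum_add_distrib, Finset.mul_sum]
    refine Finset.sum_congr rfl fun l _ => ?_
    ring
  rw [h3]
  refine Finset.sum_le_sum fun l hl => ?_
  exact mul_le_mul_of_nonneg_left
    (exc_ge i l hi (by have := mem_range.1 hl; omega)) (by positivity)

/-- `∑_{j ≥ i} α_j`: the number of cosets of weight at least `i` -/
noncomputable def heavyCount (m i : ℕ) : ℕ :=
  Nat.card {q : (Vec m → ZMod 2) ⧸ reedMuller m // i ≤ leaderWeight q}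

/-- the exponential upper bound -/
theorem tail_bound (i : ℕ) :
    (heavyCount m i : ℝ) ≤ 2 ^ (2 ^ m - m - 1) * Real.exp (-gap m i) := by
  classical
  have hcount := card_fun_eq m (fun q => i ≤ leaderWeight q)
  have hle : ∀ f : Vec m → ZMod 2, i ≤ leaderWeight ((reedMuller m).mkQ f) →
      ∀ a, |(walsh f a : ℝ)| ≤ (2 : ℝ) ^ m - 2 * i := by
    intro f hf a
    have h1 := (leaderWeight_spec f).2
    have h2 : ∀ b, sg b * walsh f a ≤ 2 ^ m - 2 * (i : ℤ) := by
      intro b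
      have h3 := norm_add_aff f a b
      have h4 := h1 a b
      have h5 : (i : ℤ) ≤ hammingNorm (f + aff a b) := by exact_mod_cast hf.trans h4
      linarith
    have h6 : |walsh f a| ≤ 2 ^ m - 2 * (i : ℤ) := by
      have g0 := h2 0
      have g1 := h2 1
      rw [sg_zero, one_mul] at g0
      rw [sg_one, neg_one_mul] at g1
      exact abs_le.2 ⟨by linarith, g0⟩
    have h7 := (Int.cast_le (R := ℝ)).2 h6
    push_cast at h7
    exact h7
  have hcard : Nat.card {f : Vec m → ZMod 2 // i ≤ leaderWeight ((reedMuller m).mkQ f)} ≤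
      #{f : Vec m → ZMod 2 | ∀ a, |(walsh f a : ℝ)| ≤ (2 : ℝ) ^ m - 2 * i} := by
    rw [Nat.card_eq_fintype_card, Fintype.card_subtype]
    refine card_le_card fun f hf => ?_
    rw [mem_filter] at hf ⊢
    exact ⟨mem_univ _, hle f hf.2⟩
  rw [hcount] at hcard
  have hmm : m + 1 ≤ 2 ^ m := Nat.lt_two_pow_self
  have hpow : (2 : ℝ) ^ (2 ^ m) = 2 ^ (2 ^ m - m - 1) * 2 ^ (m + 1) := by
    rw [← pow_add]; congr 1; omega
  by_cases hi : 2 * i ≤ 2 ^ m
  · have hT : (0 : ℝ) ≤ (2 : ℝ) ^ m - 2 * i := by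
      have : 2 * (i : ℝ) ≤ 2 ^ m := by exact_mod_cast hi
      linarith
    have ht := tal_walsh (m := m) _ hT
    set A := #{f : Vec m → ZMod 2 | ∀ a, |(walsh f a : ℝ)| ≤ (2 : ℝ) ^ m - 2 * i} with hA
    set F : (Vec m → ZMod 2) → ℝ := fun f =>
      (∑ a : Vec m, exc ((2 : ℝ) ^ m - 2 * i) (walsh f a)) / 2 ^ m with hF
    have hsum : 8 * gap m i * 2 ^ (2 ^ m) ≤ ∑ f, F f := by
      rw [hF, sum_exc]; exact gap_le i hi
    have hcardf : ∑ _f : Vec m → ZMod 2, (1 : ℝ) = 2 ^ (2 ^ m) := by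
      rw [Finset.sum_const, card_univ, Fintype.card_fun, ZMod.card, card_vec, nsmul_eq_mul,
        mul_one]
      push_cast; rfl
    have hjensen : 2 ^ (2 ^ m) * Real.exp (gap m i) ≤ ∑ f, Real.exp (F f / 8) := by
      have h1 : ∀ f, Real.exp (gap m i) * (1 - gap m i + F f / 8) ≤ Real.exp (F f / 8) := by
        intro f
        have h2 := Real.add_one_le_exp (F f / 8 - gap m i)
        have h3 : Real.exp (F f / 8) = Real.exp (gap m i) * Real.exp (F f / 8 - gap m i) := by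
          rw [← Real.exp_add]; congr 1; ring
        rw [h3]
        exact mul_le_mul_of_nonneg_left (by linarith) (Real.exp_pos _).le
      refine le_trans ?_ (Finset.sum_le_sum fun f _ => h1 f)
      rw [← Finset.mul_sum, Finset.sum_add_distrib, ← Finset.sum_div, Finset.sum_const,
        nsmul_eq_mul, card_univ, Fintype.card_fun, ZMod.card, card_vec, mul_comm]
      refine mul_le_mul_of_nonneg_left ?_ (Real.exp_pos _).le
      push_cast
      have hp : (0 : ℝ) < 2 ^ (2 ^ m) := by positivity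
      nlinarith
    have h4 : (4 : ℝ) ^ (2 ^ m) = 2 ^ (2 ^ m) * 2 ^ (2 ^ m) := by
      rw [← mul_pow]; norm_num
    have h5 : (A : ℝ) * (2 ^ (2 ^ m) * Real.exp (gap m i)) ≤ 2 ^ (2 ^ m) * 2 ^ (2 ^ m) := by
      rw [← h4]
      exact (mul_le_mul_of_nonneg_left hjensen (by positivity)).trans ht
    have h6 : (A : ℝ) * Real.exp (gap m i) ≤ 2 ^ (2 ^ m) := by
      have hp : (0 : ℝ) < 2 ^ (2 ^ m) := by positivity
      refine le_of_mul_le_mul_left ?_ hp
      linarith
    have h7 : (heavyCount m i : ℝ) * 2 ^ (m + 1) ≤ A := by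
      have := (Nat.cast_le (α := ℝ)).2 hcard
      push_cast at this
      exact this
    have h8 : (A : ℝ) ≤ 2 ^ (2 ^ m) * Real.exp (-gap m i) := by
      rw [Real.exp_neg, ← div_eq_mul_inv, le_div_iff₀ (Real.exp_pos _)]
      exact h6
    have hp : (0 : ℝ) < 2 ^ (m + 1) := by positivity
    refine le_of_mul_le_mul_right ?_ hp
    calc (heavyCount m i : ℝ) * 2 ^ (m + 1) ≤ 2 ^ (2 ^ m) * Real.exp (-gap m i) := h7.trans h8
      _ = _ := by rw [hpow]; ring
  · have hA0 : #{f : Vec m → ZMod 2 | ∀ a, |(walsh f a : ℝ)| ≤ (2 : ℝ) ^ m - 2 * i} = 0 := by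
      rw [card_eq_zero, filter_eq_empty_iff]
      intro f _ h
      have h1 := h 0
      have h2 := abs_nonneg (walsh f 0 : ℝ)
      have h3 : (2 : ℝ) ^ m < 2 * i := by exact_mod_cast not_le.1 hi
      linarith
    rw [hA0] at hcard
    have h0 : heavyCount m i = 0 := by
      have h1 : Nat.card {q : (Vec m → ZMod 2) ⧸ reedMuller m // i ≤ leaderWeight q} *
        2 ^ (m + 1) = 0 := Nat.le_zero.1 hcard
      rcases Nat.mul_eq_zero.1 h1 with h2 | h2
      · exact h2
      · exact absurd h2 (by positivity)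
    rw [h0]
    push_cast
    positivity

end Pool.Agent.RMC53
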