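import Pool.Agent.RMC53.Recur
import Pool.Agent.RMC53.Tail

/-!
# The lower bound for the number of cosets of large weight
-/

set_option autoImplicit false

open Finset

namespace Pool.Agent.RMC53

open Pool.Agent.RMC Pool.Agent.RMC68

variable {m : ℕ}

lemma W_fv (e : Vec m ≃ Fin (2 ^ m)) (f : Vec m → ZMod 2) (a : Vec m) :
    W (fun (a : Vec m) (j : Fin (2 ^ m)) => (chi a (e.symm j) : ℝ)) univ (fv e f) a =
      walsh f a := by
  rw [W, ← walsh_eq e f a, ← Equiv.sum_comp e]
  refine Finset.sum_congr rfl fun x _ => ?_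
  rw [e.symm_apply_apply]
  rfl

/-- The lower bound: many cosets have large weight. -/
theorem heavy_lower (i : ℕ) (K : ℝ) (hK : 10 ≤ K)
    (hi : 2 * (i : ℝ) ≤ 2 ^ m - K * √((2 : ℝ) ^ m)) :
    (2 : ℝ) ^ (2 ^ m - m - 1) *
      Real.exp (-(180 * 2 ^ m * K ^ 6 * Real.exp (-(K ^ 2 / 2)))) ≤ heavyCount m i := by
  classical
  have e : Vec m ≃ Fin (2 ^ m) := Fintype.equivFinOfCardEq card_vec
  have hχ : ∀ (a : Vec m) (j : Fin (2 ^ m)), |(chi a (e.symm j) : ℝ)| ≤ 1 := by
    intro a j
    rcases chi_cases a (e.symm j) with h | h <;> rw [h] <;> simp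
  have hNle : (Fintype.card (Vec m) : ℝ) * Real.exp (-(K ^ 2 / 8)) ≤ ((2 ^ m : ℕ) : ℝ) := by
    rw [card_vec]
    have h1 : Real.exp (-(K ^ 2 / 8)) ≤ 1 := Real.exp_le_one_iff.2 (by nlinarith)
    have h2 : (0 : ℝ) ≤ ((2 ^ m : ℕ) : ℝ) := Nat.cast_nonneg _
    nlinarith
  have hrec := recur hχ (2 ^ m) univ (by rw [card_univ, Fintype.card_fin]) (by positivity) K hK
    hNle
  rw [card_vec] at hrec
  push_cast at hrec
  -- transfer
  have hcount := card_fun_eq m (fun q => i ≤ leaderWeight q)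
  have hle : #(goodV (fun (a : Vec m) (j : Fin (2 ^ m)) => (chi a (e.symm j) : ℝ)) univ
      (K * √((2 : ℝ) ^ m))) ≤
      Nat.card {f : Vec m → ZMod 2 // i ≤ leaderWeight ((reedMuller m).mkQ f)} := by
    rw [Nat.card_eq_fintype_card, Fintype.card_subtype]
    refine Finset.card_le_card_of_injOn (fv e).symm ?_ ((fv e).symm.injective.injOn)
    intro v hv
    rw [mem_coe, mem_goodV] at hv
    rw [mem_coe, mem_filter]
    refine ⟨mem_univ _, ?_⟩
    obtain ⟨f, rfl⟩ := (fv e).surjective v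
    rw [Equiv.symm_apply_apply]
    obtain ⟨a, b, hab⟩ := (leaderWeight_spec f).1
    rw [← hab]
    have h1 := norm_add_aff f a b
    have h2 := hv a
    rw [W_fv] at h2
    have h3 : (sg b * walsh f a : ℤ) ≤ |walsh f a| := by
      rcases sg_cases b with h | h <;> rw [h]
      · rw [one_mul]; exact le_abs_self _
      · rw [neg_one_mul]; exact neg_le_abs _
    have h4 : ((sg b * walsh f a : ℤ) : ℝ) ≤ |(walsh f a : ℝ)| := by
      have := (Int.cast_le (R := ℝ)).2 h3
      push_cast at this ⊢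
      exact this
    have h5 : 2 * ((hammingNorm (f + aff a b) : ℕ) : ℝ) = 2 ^ m - ((sg b * walsh f a : ℤ) : ℝ) := by
      have := congrArg (Int.cast (R := ℝ)) h1
      push_cast at this ⊢
      exact this
    have h6 : (i : ℝ) ≤ ((hammingNorm (f + aff a b) : ℕ) : ℝ) := by linarith
    exact_mod_cast h6
  rw [hcount] at hle
  have hle2 : (#(goodV (fun (a : Vec m) (j : Fin (2 ^ m)) => (chi a (e.symm j) : ℝ)) univ
      (K * √((2 : ℝ) ^ m))) : ℝ) ≤ heavyCount m i * 2 ^ (m + 1) := by
    have := (Nat.cast_le (α := ℝ)).2 hle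
    push_cast at this
    exact this
  have hmm : m + 1 ≤ 2 ^ m := Nat.lt_two_pow_self
  have hpow : (2 : ℝ) ^ (2 ^ m) = 2 ^ (2 ^ m - m - 1) * 2 ^ (m + 1) := by
    rw [← pow_add]; congr 1; omega
  rw [hpow] at hrec
  have hp : (0 : ℝ) < 2 ^ (m + 1) := by positivity
  refine le_of_mul_le_mul_right ?_ hp
  refine le_trans (le_of_eq ?_) (hrec.trans hle2)
  ring

/-- the point mass -/
def del (x : Vec m) : Vec m → ZMod 2 := Pi.single x 1

lemma del_add_del (x : Vec m) : del x + del x = 0 := by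
  funext y
  rw [Pi.add_apply, Pi.zero_apply]
  exact CharTwo.add_self_eq_zero _

lemma norm_add_del_of_mem (f : Vec m → ZMod 2) (x : Vec m) (hx : f x ≠ 0) :
    hammingNorm (f + del x) + 1 = hammingNorm f := by
  classical
  rw [hammingNorm, hammingNorm]
  have h1 : (univ.filter fun y => (f + del x) y ≠ 0) = (univ.filter fun y => f y ≠ 0).erase x := by
    ext y
    simp only [mem_filter, mem_univ, true_and, mem_erase, Pi.add_apply, del]
    by_cases h : y = x
    · subst h
      have h2 : f y = 1 := by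
        rcases zmod2_cases (f y) with h | h
        · exact absurd h hx
        · exact h
      rw [Pi.single_eq_same, h2]
      simp
      decide
    · rw [Pi.single_eq_of_ne h]
      simp [h]
  rw [h1]
  exact card_erase_add_one (mem_filter.2 ⟨mem_univ _, hx⟩)

lemma norm_add_del_le (f : Vec m → ZMod 2) (x : Vec m) :
    hammingNorm (f + del x) ≤ hammingNorm f + 1 := by
  classical
  by_cases hx : f x ≠ 0
  · have := norm_add_del_of_mem f x hx
    omega
  · push Not at hx
    have h1 : (f + del x) x ≠ 0 := by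
      rw [Pi.add_apply, hx, del, Pi.single_eq_same, zero_add]
      exact one_ne_zero
    have h2 := norm_add_del_of_mem (f + del x) x h1
    rw [add_assoc, del_add_del, add_zero] at h2
    omega

lemma leaderWeight_le (f : Vec m → ZMod 2) :
    leaderWeight ((reedMuller m).mkQ f) ≤ hammingNorm f :=
  Nat.sInf_le ⟨f, rfl, rfl⟩

lemma exists_leader (q : (Vec m → ZMod 2) ⧸ reedMuller m) :
    ∃ f : Vec m → ZMod 2, (reedMuller m).mkQ f = q ∧ hammingNorm f = leaderWeight q := by
  have hne : {w | ∃ g : Vec m → ZMod 2, (reedMuller m).mkQ g = q ∧ hammingNorm g = w}.Nonempty := by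
    obtain ⟨g, hg⟩ := (reedMuller m).mkQ_surjective q
    exact ⟨_, g, hg, rfl⟩
  exact Nat.sInf_mem hne

/-- the shift of a coset by a point mass -/
noncomputable def sh (x : Vec m) (q : (Vec m → ZMod 2) ⧸ reedMuller m) :
    (Vec m → ZMod 2) ⧸ reedMuller m := q + (reedMuller m).mkQ (del x)

lemma sh_sh (x : Vec m) (q : (Vec m → ZMod 2) ⧸ reedMuller m) : sh x (sh x q) = q := by
  rw [sh, sh, add_assoc, ← map_add, del_add_del, map_zero, add_zero]

lemma lw_sh_le (x : Vec m) (q : (Vec m → ZMod 2) ⧸ reedMuller m) :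
    leaderWeight (sh x q) ≤ leaderWeight q + 1 := by
  obtain ⟨f, rfl, hf⟩ := exists_leader q
  rw [sh, ← map_add, ← hf]
  exact (leaderWeight_le _).trans (norm_add_del_le f x)

/-- double counting: `α_j / C(N,j)` does not increase -/
theorem local_lym (j : ℕ) :
    (j + 1) * leaderCount m (j + 1) ≤ (2 ^ m - j) * leaderCount m j := by
  classical
  have : Fintype ((Vec m → ZMod 2) ⧸ reedMuller m) := Fintype.ofFinite _
  set Q : ℕ → Finset ((Vec m → ZMod 2) ⧸ reedMuller m) := fun j => univ.filter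
    (fun q => leaderWeight q = j) with hQ
  have hc : ∀ j, leaderCount m j = #(Q j) := by
    intro j
    rw [leaderCount, Nat.card_eq_fintype_card, Fintype.card_subtype]
  -- few shifts of a coset of weight `j` have weight `j + 1`
  have h1 : ∀ q ∈ Q j, #(univ.filter fun x : Vec m => sh x q ∈ Q (j + 1)) ≤ 2 ^ m - j := by
    intro q hq
    obtain ⟨f, hfq, hf⟩ := exists_leader q
    rw [hQ, mem_filter] at hq
    have h2 : (univ.filter fun x : Vec m => sh x q ∈ Q (j + 1)) ⊆
        (univ.filter fun x : Vec m => f x ≠ 0)ᶜ := by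
      intro x hx
      rw [mem_compl]
      intro hfx
      rw [mem_filter] at hx hfx
      have h3 := norm_add_del_of_mem f x hfx.2
      have h4 := leaderWeight_le (f + del x)
      have h5 : (reedMuller m).mkQ (f + del x) = sh x q := by rw [sh, map_add, hfq]
      rw [h5] at h4
      have h6 := (mem_filter.1 hx.2).2
      omega
    refine (card_le_card h2).trans ?_
    rw [card_compl, card_vec]
    have h3 : #(univ.filter fun x : Vec m => f x ≠ 0) = j := by
      have : #(univ.filter fun x : Vec m => f x ≠ 0) = hammingNorm f := rfl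
      rw [this, hf, hq.2]
    rw [h3]
  -- many shifts of a coset of weight `j + 1` have weight `j`
  have h2 : ∀ q ∈ Q (j + 1), j + 1 ≤ #(univ.filter fun x : Vec m => sh x q ∈ Q j) := by
    intro q hq
    obtain ⟨f, hfq, hf⟩ := exists_leader q
    rw [hQ, mem_filter] at hq
    have h3 : #(univ.filter fun x : Vec m => f x ≠ 0) = j + 1 := by
      have : #(univ.filter fun x : Vec m => f x ≠ 0) = hammingNorm f := rfl
      rw [this, hf, hq.2]
    rw [← h3]
    refine card_le_card fun x hx => ?_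
    rw [mem_filter] at hx ⊢
    refine ⟨mem_univ _, ?_⟩
    rw [hQ, mem_filter]
    refine ⟨mem_univ _, ?_⟩
    have h4 := norm_add_del_of_mem f x hx.2
    have h5 := leaderWeight_le (f + del x)
    have h6 : (reedMuller m).mkQ (f + del x) = sh x q := by rw [sh, map_add, hfq]
    rw [h6] at h5
    have h7 := lw_sh_le x (sh x q)
    rw [sh_sh] at h7
    have h8 := hq.2
    omega
  have h3 : ∑ q ∈ Q (j + 1), #(univ.filter fun x : Vec m => sh x q ∈ Q j) =
      ∑ q ∈ Q j, #(univ.filter fun x : Vec m => sh x q ∈ Q (j + 1)) := by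
    simp_rw [Finset.card_filter]
    rw [Finset.sum_comm, Finset.sum_comm (s := Q j)]
    refine Finset.sum_congr rfl fun x _ => ?_
    rw [← Finset.card_filter, ← Finset.card_filter]
    refine Finset.card_bij' (fun q _ => sh x q) (fun q _ => sh x q) ?_ ?_ ?_ ?_
    · intro q hq
      rw [mem_filter] at hq ⊢
      exact ⟨hq.2, by rw [sh_sh]; exact hq.1⟩
    · intro q hq
      rw [mem_filter] at hq ⊢
      exact ⟨hq.2, by rw [sh_sh]; exact hq.1⟩
    · intro q _; exact sh_sh x q
    · intro q _; exact sh_sh x q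
  rw [hc, hc]
  calc (j + 1) * #(Q (j + 1)) = ∑ _q ∈ Q (j + 1), (j + 1) := by
        rw [Finset.sum_const, smul_eq_mul, mul_comm]
    _ ≤ ∑ q ∈ Q (j + 1), #(univ.filter fun x : Vec m => sh x q ∈ Q j) :=
        Finset.sum_le_sum h2
    _ = _ := h3
    _ ≤ ∑ _q ∈ Q j, (2 ^ m - j) := Finset.sum_le_sum h1
    _ = (2 ^ m - j) * #(Q j) := by rw [Finset.sum_const, smul_eq_mul, mul_comm]

/-- `α_j / C(N,j)` is nonincreasing -/
theorem ratio_anti {i j : ℕ} (hij : i ≤ j) (hj : j ≤ 2 ^ m) :
    leaderCount m j * (2 ^ m).choose i ≤ leaderCount m i * (2 ^ m).choose j := by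
  induction j, hij using Nat.le_induction with
  | base => exact le_rfl
  | succ j hij ih =>
    have ih' := ih (by omega)
    have h1 := local_lym (m := m) j
    have h2 := Nat.choose_succ_right_eq (2 ^ m) j
    have hpos : 0 < (j + 1) * (2 ^ m).choose j := by
      have := Nat.choose_pos (show j ≤ 2 ^ m by omega)
      positivity
    refine Nat.le_of_mul_le_mul_left ?_ hpos
    calc (j + 1) * (2 ^ m).choose j * (leaderCount m (j + 1) * (2 ^ m).choose i)
        = ((j + 1) * leaderCount m (j + 1)) * ((2 ^ m).choose j * (2 ^ m).choose i) := by ring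
      _ ≤ ((2 ^ m - j) * leaderCount m j) * ((2 ^ m).choose j * (2 ^ m).choose i) :=
          Nat.mul_le_mul_right _ h1
      _ = ((2 ^ m).choose j * (2 ^ m - j)) * (leaderCount m j * (2 ^ m).choose i) := by ring
      _ ≤ ((2 ^ m).choose j * (2 ^ m - j)) * (leaderCount m i * (2 ^ m).choose j) :=
          Nat.mul_le_mul_left _ ih'
      _ = (j + 1) * (2 ^ m).choose j * (leaderCount m i * (2 ^ m).choose (j + 1)) := by
          rw [← h2]; ring

lemma lw_le (q : (Vec m → ZMod 2) ⧸ reedMuller m) : leaderWeight q ≤ 2 ^ m := by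
  obtain ⟨f, _, hf⟩ := exists_leader q
  rw [← hf, ← card_vec (m := m)]
  exact hammingNorm_le_card_fintype

lemma heavy_eq_sum (i : ℕ) :
    heavyCount m i = ∑ j ∈ Icc i (2 ^ m), leaderCount m j := by
  classical
  have : Fintype ((Vec m → ZMod 2) ⧸ reedMuller m) := Fintype.ofFinite _
  rw [heavyCount, Nat.card_eq_fintype_card, Fintype.card_subtype,
    Finset.card_eq_sum_card_fiberwise (f := fun q => leaderWeight q) (t := Icc i (2 ^ m))]
  · refine Finset.sum_congr rfl fun j hj => ?_
    rw [leaderCount, Nat.card_eq_fintype_card, Fintype.card_subtype, Finset.filter_filter]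
    congr 1
    ext q
    simp only [mem_filter, mem_univ, true_and]
    rw [mem_Icc] at hj
    constructor
    · rintro ⟨_, h⟩; exact h
    · intro h; exact ⟨by omega, h⟩
  · intro q hq
    rw [mem_coe, mem_filter] at hq
    rw [mem_coe, mem_Icc]
    exact ⟨hq.2, lw_le q⟩

/-- `α_i ≥ C(N,i) T_i / 2^N` -/
theorem count_ge_heavy (i : ℕ) :
    heavyCount m i * (2 ^ m).choose i ≤ leaderCount m i * 2 ^ (2 ^ m) := by
  rw [heavy_eq_sum, Finset.sum_mul]
  calc ∑ j ∈ Icc i (2 ^ m), leaderCount m j * (2 ^ m).choose i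
      ≤ ∑ j ∈ Icc i (2 ^ m), leaderCount m i * (2 ^ m).choose j := by
        refine Finset.sum_le_sum fun j hj => ?_
        rw [mem_Icc] at hj
        exact ratio_anti hj.1 hj.2
    _ = leaderCount m i * ∑ j ∈ Icc i (2 ^ m), (2 ^ m).choose j := by rw [Finset.mul_sum]
    _ ≤ leaderCount m i * 2 ^ (2 ^ m) := by
        refine Nat.mul_le_mul_left _ ?_
        have hsub : Icc i (2 ^ m) ⊆ range (2 ^ m + 1) := by
          intro j hj
          rw [mem_Icc] at hj
          rw [mem_range]
          omega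
        exact (Finset.sum_le_sum_of_subset (f := fun j => (2 ^ m).choose j) hsub).trans
          (le_of_eq (Nat.sum_range_choose (2 ^ m)))

lemma count_le_heavy (i : ℕ) : leaderCount m i ≤ heavyCount m i := by
  classical
  have : Fintype ((Vec m → ZMod 2) ⧸ reedMuller m) := Fintype.ofFinite _
  rw [heavyCount, leaderCount, Nat.card_eq_fintype_card, Fintype.card_subtype,
    Nat.card_eq_fintype_card, Fintype.card_subtype]
  refine card_le_card fun q hq => ?_
  rw [mem_filter] at hq ⊢
  exact ⟨mem_univ _, hq.2.ge⟩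

/-- the lower bound for `α_i` -/
theorem count_lower (i : ℕ) (K : ℝ) (hK : 10 ≤ K)
    (hi : 2 * (i : ℝ) ≤ 2 ^ m - K * √((2 : ℝ) ^ m)) :
    ((2 ^ m).choose i : ℝ) *
      Real.exp (-(180 * 2 ^ m * K ^ 6 * Real.exp (-(K ^ 2 / 2)))) ≤
        leaderCount m i * 2 ^ (m + 1) := by
  have h1 := heavy_lower i K hK hi
  have h2 : (heavyCount m i : ℝ) * ((2 ^ m).choose i : ℝ) ≤ leaderCount m i * 2 ^ (2 ^ m) := by
    exact_mod_cast count_ge_heavy (m := m) i
  have hmm : m + 1 ≤ 2 ^ m := Nat.lt_two_pow_self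
  have hpow : (2 : ℝ) ^ (2 ^ m) = 2 ^ (2 ^ m - m - 1) * 2 ^ (m + 1) := by
    rw [← pow_add]; congr 1; omega
  have hp : (0 : ℝ) < 2 ^ (2 ^ m - m - 1) := by positivity
  refine le_of_mul_le_mul_left ?_ hp
  calc (2 : ℝ) ^ (2 ^ m - m - 1) * (((2 ^ m).choose i : ℝ) *
        Real.exp (-(180 * 2 ^ m * K ^ 6 * Real.exp (-(K ^ 2 / 2)))))
      = (2 : ℝ) ^ (2 ^ m - m - 1) *
        Real.exp (-(180 * 2 ^ m * K ^ 6 * Real.exp (-(K ^ 2 / 2)))) *
        ((2 ^ m).choose i : ℝ) := by ring
    _ ≤ heavyCount m i * ((2 ^ m).choose i : ℝ) :=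
        mul_le_mul_of_nonneg_right h1 (Nat.cast_nonneg _)
    _ ≤ leaderCount m i * 2 ^ (2 ^ m) := h2
    _ = 2 ^ (2 ^ m - m - 1) * (leaderCount m i * 2 ^ (m + 1)) := by rw [hpow]; ring

end Pool.Agent.RMC53
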