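import Pool.Agent.RMC53.Uniform
import Pool.Agent.RMC53.LamD

/-!
# Uniform bounds for the coset leader weight distribution, the main theorem
-/

set_option autoImplicit false

open Finset

namespace Pool.Agent.RMC53

open Pool.Agent.RMC Pool.Agent.RMC68

variable {m : ℕ}

/-- `K = (N - 2 i) / √N`, in terms of `M = N / 4` -/
noncomputable def KM (M i : ℕ) : ℝ := ((2 * M - i : ℕ) : ℝ) / √(M : ℝ)

lemma KM_nonneg (M i : ℕ) : 0 ≤ KM M i := by unfold KM; positivity

lemma KM_mul {M : ℕ} (hM1 : 1 ≤ M) (i : ℕ) : ((2 * M - i : ℕ) : ℝ) = KM M i * √(M : ℝ) := by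
  have hM0 : (0 : ℝ) < M := by exact_mod_cast hM1
  have hq0 : 0 < √(M : ℝ) := Real.sqrt_pos.2 hM0
  unfold KM
  field_simp

/-- If the parameter is larger than `1/2`, the distance from the middle is not large. -/
lemma K_small {M i : ℕ} (hM : 2 ^ m = 4 * M) (hm : 40 ≤ m) (hL : 1 / 2 < Lm m M i)
    (hi : i < 2 * M) :
    KM M i < 2 * √(m : ℝ) ∧ 8 * (KM M i + 2 * √(m : ℝ)) ^ 3 ≤ √(M : ℝ) ∧
      8 * (KM M i + 1) ^ 3 ≤ √(M : ℝ) := by
  have hm0 : (40 : ℝ) ≤ m := by exact_mod_cast hm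
  have hM1 : 1 ≤ M := by omega
  have hM0 : (0 : ℝ) < M := by exact_mod_cast hM1
  have hq0 : 0 < √(M : ℝ) := Real.sqrt_pos.2 hM0
  have hr1 : 1 ≤ √(m : ℝ) := Real.one_le_sqrt.2 (by linarith)
  have h1 : ¬ (i ≤ 2 * M - t0 m M) := fun h => absurd (Lm_far hM hm h) (not_le.2 hL)
  have h2 : 2 * M - i < t0 m M := by
    have := (t0_facts hM hm).2.1
    omega
  have h3 : ((2 * M - i : ℕ) : ℝ) < 2 * √(m : ℝ) * √(M : ℝ) := Nat.lt_ceil.1 h2
  have h4 : KM M i < 2 * √(m : ℝ) := by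
    unfold KM
    rw [div_lt_iff₀ hq0]; exact h3
  have h5 := KM_nonneg M i
  have hcq := cond_q hM hm
  refine ⟨h4, ?_, ?_⟩
  · refine le_trans ?_ hcq
    have : (KM M i + 2 * √(m : ℝ)) ^ 3 ≤ (4 * √(m : ℝ) + 2) ^ 3 :=
      pow_le_pow_left₀ (by positivity) (by linarith) 3
    linarith
  · refine le_trans ?_ hcq
    have : (KM M i + 1) ^ 3 ≤ (4 * √(m : ℝ) + 2) ^ 3 :=
      pow_le_pow_left₀ (by positivity) (by linarith) 3
    linarith

/-- a numerical fact -/
lemma m_le {K l : ℝ} (hm : 40 ≤ m) (hK : 10 ≤ K) (hl : 1 / 2 ≤ l)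
    (hkey : (2 : ℝ) ^ m * Real.exp (-(K ^ 2 / 2 + 5)) ≤ 4 * (K + 1) * l) :
    (m : ℝ) ≤ 2000000 * ((K + 1) ^ 7 * l) := by
  have hm0 : (40 : ℝ) ≤ m := by exact_mod_cast hm
  have hy1 : K ^ 2 ≤ (K + 1) ^ 7 := by
    calc K ^ 2 ≤ (K + 1) ^ 2 := pow_le_pow_left₀ (by linarith) (by linarith) 2
      _ ≤ (K + 1) ^ 7 := pow_le_pow_right₀ (by linarith) (by norm_num)
  have hy2 : K + 1 ≤ (K + 1) ^ 7 := by
    calc K + 1 = (K + 1) ^ 1 := (pow_one _).symm
      _ ≤ (K + 1) ^ 7 := pow_le_pow_right₀ (by linarith) (by norm_num)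
  obtain ⟨y, hy⟩ : ∃ y : ℝ, y = (K + 1) ^ 7 := ⟨_, rfl⟩
  rw [← hy] at hy1 hy2 ⊢
  have hy0 : 1 ≤ y := by linarith
  by_contra hcon
  push Not at hcon
  have h1 : 1000000 * y < m := by nlinarith
  have hK2 : K ^ 2 ≤ m / 1000000 := by linarith
  have hK1 : K + 1 ≤ m / 1000000 := by linarith
  have hlm : l ≤ m / 2000000 := by nlinarith
  have h2 : Real.exp (0.69 * m) ≤ 2 ^ m := by
    have h := Real.log_two_gt_d9
    have h1 : (2 : ℝ) ^ m = Real.exp (m * Real.log 2) := by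
      rw [Real.exp_nat_mul, Real.exp_log (by norm_num)]
    rw [h1]
    exact Real.exp_le_exp.2 (by nlinarith)
  have h3 : Real.exp (0.689 * m - 5) ≤ (2 : ℝ) ^ m * Real.exp (-(K ^ 2 / 2 + 5)) := by
    calc Real.exp (0.689 * m - 5) ≤ Real.exp (0.69 * m + -(K ^ 2 / 2 + 5)) :=
          Real.exp_le_exp.2 (by linarith)
      _ = Real.exp (0.69 * m) * Real.exp (-(K ^ 2 / 2 + 5)) := by rw [Real.exp_add]
      _ ≤ _ := mul_le_mul_of_nonneg_right h2 (Real.exp_pos _).le
  have h4 : 4 * (K + 1) * l ≤ 4 * (m / 1000000) * (m / 2000000) :=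
    mul_le_mul (by linarith) hlm (by linarith) (by linarith)
  have h5 := Real.pow_div_factorial_le_exp (0.689 * (m : ℝ) - 5) (by linarith) 3
  have h6 : ((Nat.factorial 3 : ℕ) : ℝ) = 6 := by norm_num [Nat.factorial]
  rw [h6] at h5
  have h7 : (0.56 * (m : ℝ)) ^ 3 ≤ (0.689 * (m : ℝ) - 5) ^ 3 :=
    pow_le_pow_left₀ (by positivity) (by linarith) 3
  have h8 : (0.56 * (m : ℝ)) ^ 3 / 6 ≤ 4 * (m / 1000000) * (m / 2000000) := by linarith
  have h9 : (0 : ℝ) < (m : ℝ) ^ 2 := by positivity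
  have h10 : (40 : ℝ) * (m : ℝ) ^ 2 ≤ (m : ℝ) ^ 3 := by nlinarith
  norm_num at h8
  nlinarith

/-- the deviation from above -/
theorem dev_lower {M i : ℕ} (hM : 2 ^ m = 4 * M) (hM1 : 1 ≤ M) (hi : i < 2 * M)
    (hα : leaderCount m i ≠ 0) :
    ((2 ^ m).choose i : ℝ) * Real.exp (-(10 ^ 26 * (1 + KM M i) ^ 7 * Lm m M i)) ≤
      leaderCount m i := by
  have hb := bounds hM hM1 hi _ _ rfl rfl
  rw [← Lm] at hb
  obtain ⟨c, hc⟩ : ∃ c : ℝ, c = ((2 ^ m).choose i : ℝ) := ⟨_, rfl⟩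
  have hc1 : (0 : ℝ) < c := by rw [hc]; exact_mod_cast Nat.choose_pos (by omega)
  have hL0 := Lm_nonneg m M i
  have hK0 := KM_nonneg M i
  have ht := KM_mul hM1 i
  obtain ⟨l, hl⟩ : ∃ l : ℝ, l = Lm m M i := ⟨_, rfl⟩
  have hα1 : (1 : ℝ) ≤ leaderCount m i := by exact_mod_cast Nat.one_le_iff_ne_zero.2 hα
  rw [← hl] at hL0
  rw [← hc, ← hl] at hb ⊢
  have hm1 : 1 ≤ m := by
    rcases Nat.eq_zero_or_pos m with h | h
    · rw [h] at hM; simp at hM; omega
    · exact h
  obtain ⟨y, hy⟩ : ∃ y : ℝ, y = (1 + KM M i) ^ 7 := ⟨_, rfl⟩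
  have hy1 : 1 ≤ y := by rw [hy]; exact one_le_pow₀ (by linarith)
  rw [← hy]
  by_cases hcase : l ≤ 1 / 2
  · refine le_trans ?_ hb.1
    refine mul_le_mul_of_nonneg_left ?_ hc1.le
    refine le_trans (Real.exp_le_exp.2 ?_) (exp_neg_two_le l hL0 hcase)
    have h1 : 1 * l ≤ y * l := mul_le_mul_of_nonneg_right hy1 hL0
    linarith
  · push Not at hcase
    by_cases hbig : (2 : ℝ) ^ m ≤ 10 ^ 26 * y * l
    · refine le_trans ?_ hα1
      have h1 : c ≤ 2 ^ (2 ^ m) := by
        rw [hc]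
        exact_mod_cast Nat.choose_le_two_pow (2 ^ m) i
      have h2 : (2 : ℝ) ^ (2 ^ m) ≤ Real.exp (2 ^ m) := by
        have h3 := two_pow_le_exp (2 ^ m)
        refine h3.trans (Real.exp_le_exp.2 ?_)
        push_cast
        have : (0 : ℝ) < 2 ^ m := by positivity
        linarith
      calc c * Real.exp (-(10 ^ 26 * y * l))
          ≤ Real.exp (2 ^ m) * Real.exp (-(10 ^ 26 * y * l)) :=
            mul_le_mul_of_nonneg_right (h1.trans h2) (Real.exp_pos _).le
        _ = Real.exp (2 ^ m + -(10 ^ 26 * y * l)) := by rw [Real.exp_add]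
        _ ≤ 1 := by rw [Real.exp_le_one_iff]; linarith
    · have hm40 : 40 ≤ m := by
        by_contra hcon
        apply hbig
        have h1 : (2 : ℝ) ^ m ≤ 2 ^ 39 := pow_le_pow_right₀ (by norm_num) (by omega)
        have h2 : (2 : ℝ) ^ 39 ≤ 10 ^ 26 * 1 * (1 / 2) := by norm_num
        refine h1.trans (h2.trans ?_)
        exact mul_le_mul (mul_le_mul_of_nonneg_left hy1 (by norm_num)) hcase.le (by norm_num)
          (by positivity)
      have hm0 : (40 : ℝ) ≤ m := by exact_mod_cast hm40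
      have hcase2 := hcase
      rw [hl] at hcase2
      obtain ⟨k1, k2, k3⟩ := K_small hM hm40 hcase2 hi
      obtain ⟨K, hK⟩ : ∃ K : ℝ, K = KM M i := ⟨_, rfl⟩
      rw [← hK] at k1 k2 k3 hK0 ht hy
      have hM0 : (0 : ℝ) < M := by exact_mod_cast hM1
      have hBl := B_lower M (2 * M - i) hM1 K hK0 ht k3
      have e1 : 2 * M - (2 * M - i) = i := by omega
      rw [e1] at hBl
      have h4M : (2 : ℝ) ^ m = 4 * M := by exact_mod_cast hM
      have hcM : ((4 * M).choose i : ℝ) = c := by rw [hc, hM]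
      rw [hcM] at hBl
      have hlB : l * c = (2 ^ m - 1) * (B M i : ℝ) := by
        rw [hl, Lm, ← hc]; field_simp
      have hkey : (2 : ℝ) ^ m * Real.exp (-(K ^ 2 / 2 + 5)) ≤ 4 * (K + 1) * l := by
        have hN2 : (2 : ℝ) ^ m ≤ 2 * (2 ^ m - 1) := by
          have : (2 : ℝ) ≤ 2 ^ m := by
            calc (2 : ℝ) = 2 ^ 1 := by norm_num
              _ ≤ 2 ^ m := pow_le_pow_right₀ (by norm_num) hm1
          linarith
        have h1 : (2 : ℝ) ^ m * (c * Real.exp (-(K ^ 2 / 2 + 5))) ≤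
            2 * (2 ^ m - 1) * (2 * (K + 1) * (B M i : ℝ)) :=
          mul_le_mul hN2 hBl (by positivity) (by
            have : (0 : ℝ) < 2 ^ m := by positivity
            linarith)
        have h2 : c * ((2 : ℝ) ^ m * Real.exp (-(K ^ 2 / 2 + 5))) ≤ c * (4 * (K + 1) * l) := by
          calc c * ((2 : ℝ) ^ m * Real.exp (-(K ^ 2 / 2 + 5)))
              = (2 : ℝ) ^ m * (c * Real.exp (-(K ^ 2 / 2 + 5))) := by ring
            _ ≤ 2 * (2 ^ m - 1) * (2 * (K + 1) * (B M i : ℝ)) := h1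
            _ = 4 * (K + 1) * ((2 ^ m - 1) * (B M i : ℝ)) := by ring
            _ = c * (4 * (K + 1) * l) := by rw [← hlB]; ring
        exact le_of_mul_le_mul_left h2 hc1
      by_cases hK10 : K < 10
      · exfalso
        apply hbig
        have hK100 : K ^ 2 ≤ 10 ^ 2 := pow_le_pow_left₀ hK0 hK10.le 2
        have h1 : Real.exp (-55) ≤ Real.exp (-(K ^ 2 / 2 + 5)) :=
          Real.exp_le_exp.2 (by linarith)
        have h2 : (2 : ℝ) ^ m * Real.exp (-55) ≤ 44 * l := by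
          calc (2 : ℝ) ^ m * Real.exp (-55) ≤ (2 : ℝ) ^ m * Real.exp (-(K ^ 2 / 2 + 5)) :=
                mul_le_mul_of_nonneg_left h1 (by positivity)
            _ ≤ 4 * (K + 1) * l := hkey
            _ ≤ 44 * l := by
                refine mul_le_mul_of_nonneg_right ?_ hL0
                linarith
        rw [Real.exp_neg, ← div_eq_mul_inv, div_le_iff₀ (Real.exp_pos _)] at h2
        refine h2.trans ?_
        calc 44 * l * Real.exp 55 ≤ 44 * l * 10 ^ 24 :=
              mul_le_mul_of_nonneg_left exp_55 (by positivity)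
          _ = (44 * 10 ^ 24) * l := by ring
          _ ≤ (10 ^ 26 * 1) * l := mul_le_mul_of_nonneg_right (by norm_num) hL0
          _ ≤ 10 ^ 26 * y * l := by gcongr
      · push Not at hK10
        have hlow := count_lower (m := m) i K hK10 (by
          have h1 : √((2 : ℝ) ^ m) = 2 * √(M : ℝ) := by
            rw [h4M, show (4 : ℝ) * M = 2 ^ 2 * M by ring, Real.sqrt_mul (by norm_num),
              Real.sqrt_sq (by norm_num)]
          rw [h1, h4M]
          have h2 : ((2 * M - i : ℕ) : ℝ) = 2 * M - i := by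
            rw [Nat.cast_sub hi.le]; push_cast; ring
          rw [h2] at ht
          linarith)
        rw [← hc] at hlow
        have hyK : y = (K + 1) ^ 7 := by rw [hy, add_comm]
        have hexp : 180 * 2 ^ m * K ^ 6 * Real.exp (-(K ^ 2 / 2)) ≤ 108000 * (y * l) := by
          have e2 : Real.exp (-(K ^ 2 / 2)) = Real.exp 5 * Real.exp (-(K ^ 2 / 2 + 5)) := by
            rw [← Real.exp_add]; congr 1; ring
          have h2 : K ^ 6 * (K + 1) ≤ y := by
            rw [hyK]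
            have h3 : K ^ 6 ≤ (K + 1) ^ 6 := pow_le_pow_left₀ hK0 (by linarith) 6
            calc K ^ 6 * (K + 1) ≤ (K + 1) ^ 6 * (K + 1) :=
                  mul_le_mul_of_nonneg_right h3 (by linarith)
              _ = (K + 1) ^ 7 := by ring
          calc 180 * 2 ^ m * K ^ 6 * Real.exp (-(K ^ 2 / 2))
              = 180 * K ^ 6 * Real.exp 5 * (2 ^ m * Real.exp (-(K ^ 2 / 2 + 5))) := by
                rw [e2]; ring
            _ ≤ 180 * K ^ 6 * 150 * (4 * (K + 1) * l) := by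
                refine mul_le_mul (mul_le_mul_of_nonneg_left exp_5 (by positivity)) hkey
                  (by positivity) (by positivity)
            _ = 108000 * ((K ^ 6 * (K + 1)) * l) := by ring
            _ ≤ 108000 * (y * l) := by
                have := mul_le_mul_of_nonneg_right h2 hL0
                linarith
        have hmle := m_le hm40 hK10 hcase.le hkey
        rw [← hyK] at hmle
        have hyl : 0 ≤ y * l := by positivity
        have h2m1 : (2 : ℝ) ^ (m + 1) ≤ Real.exp (2000000 * (y * l)) := by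
          refine (two_pow_le_exp (m + 1)).trans (Real.exp_le_exp.2 ?_)
          push_cast
          linarith
        have h3 : c * Real.exp (-(108000 * (y * l))) ≤
            leaderCount m i * Real.exp (2000000 * (y * l)) := by
          calc c * Real.exp (-(108000 * (y * l)))
              ≤ c * Real.exp (-(180 * 2 ^ m * K ^ 6 * Real.exp (-(K ^ 2 / 2)))) := by
                refine mul_le_mul_of_nonneg_left (Real.exp_le_exp.2 ?_) hc1.le
                linarith
            _ ≤ leaderCount m i * 2 ^ (m + 1) := hlow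
            _ ≤ _ := mul_le_mul_of_nonneg_left h2m1 (Nat.cast_nonneg _)
        have h4 : c * Real.exp (-(2108000 * (y * l))) ≤ leaderCount m i := by
          have e3 : Real.exp (-(2108000 * (y * l))) =
              Real.exp (-(108000 * (y * l))) * Real.exp (-(2000000 * (y * l))) := by
            rw [← Real.exp_add]; congr 1; ring
          rw [e3, ← mul_assoc]
          calc c * Real.exp (-(108000 * (y * l))) * Real.exp (-(2000000 * (y * l)))
              ≤ (leaderCount m i * Real.exp (2000000 * (y * l))) *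
                Real.exp (-(2000000 * (y * l))) :=
                mul_le_mul_of_nonneg_right h3 (Real.exp_pos _).le
            _ = leaderCount m i := by rw [mul_assoc, ← Real.exp_add]; simp
        refine le_trans (mul_le_mul_of_nonneg_left (Real.exp_le_exp.2 ?_) hc1.le) h4
        rw [neg_le_neg_iff]
        calc 2108000 * (y * l) ≤ 10 ^ 26 * (y * l) :=
              mul_le_mul_of_nonneg_right (by norm_num) hyl
          _ = 10 ^ 26 * y * l := by ring

/-- the middle binomial coefficients are large -/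
lemma choose_mid {M i : ℕ} (hM1 : 1 ≤ M) (hi : i < 2 * M) (K : ℝ) (hK0 : 0 ≤ K)
    (ht : ((2 * M - i : ℕ) : ℝ) = K * √(M : ℝ)) (hq : 8 * (K + 1) ^ 3 ≤ √(M : ℝ)) :
    2 ^ (4 * M) ≤ 3 * √(M : ℝ) * ((4 * M).choose i : ℝ) * Real.exp (K ^ 2 / 2 + 5) := by
  have hM0 : (0 : ℝ) < M := by exact_mod_cast hM1
  have hq2' : √(M : ℝ) ^ 2 = M := Real.sq_sqrt hM0.le
  have hcb : (2 : ℝ) ^ (4 * M) ≤ 3 * √(M : ℝ) * ((4 * M).choose (2 * M) : ℝ) := by
    have h2 := cb_lower_real (2 * M) (by omega)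
    have e1 : 2 * (2 * M) = 4 * M := by ring
    have e3 : (2 : ℝ) ^ (4 * M) = 4 ^ (2 * M) := by
      rw [show 4 * M = 2 * (2 * M) by ring, pow_mul]; norm_num
    have e2 : √(((2 * M : ℕ) : ℝ)) ≤ 1.5 * √(M : ℝ) := by
      rw [← Real.sqrt_sq (show (0 : ℝ) ≤ 1.5 by norm_num), ← Real.sqrt_mul (by norm_num)]
      apply Real.sqrt_le_sqrt
      push_cast
      nlinarith
    rw [e1] at h2
    rw [e3]
    refine h2.trans ?_
    have h0 : (0 : ℝ) ≤ ((4 * M).choose (2 * M) : ℝ) := Nat.cast_nonneg _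
    nlinarith
  have h1 := choose_lower (2 * M) (2 * M - i) (by omega)
  have e1 : 2 * (2 * M) = 4 * M := by ring
  have e2 : 2 * M - (2 * M - i) = i := by omega
  rw [e1, e2] at h1
  rw [ht] at h1
  push_cast at h1
  obtain ⟨q, hqd⟩ : ∃ q : ℝ, q = √(M : ℝ) := ⟨_, rfl⟩
  rw [← hqd] at hq2' hq hcb h1 ⊢
  have hq0 : 0 ≤ q := by rw [hqd]; exact Real.sqrt_nonneg _
  rw [← hq2'] at h1
  have hE := E_gap hK0 hq 0 le_rfl (by
    have : 0 ≤ 2 * q := by linarith
    linarith)
  rw [add_zero] at hE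
  have h3 : ((4 * M).choose (2 * M) : ℝ) ≤ ((4 * M).choose i : ℝ) * Real.exp (K ^ 2 / 2 + 5) := by
    have h4 := mul_le_mul_of_nonneg_right h1
      (Real.exp_pos ((K * q) ^ 2 / (2 * q ^ 2 - K * q + 1))).le
    rw [mul_assoc, ← Real.exp_add] at h4
    simp only [neg_add_cancel, Real.exp_zero, mul_one] at h4
    exact h4.trans (mul_le_mul_of_nonneg_left (Real.exp_le_exp.2 hE) (Nat.cast_nonneg _))
  calc (2 : ℝ) ^ (4 * M) ≤ 3 * q * ((4 * M).choose (2 * M) : ℝ) := hcb
    _ ≤ 3 * q * (((4 * M).choose i : ℝ) * Real.exp (K ^ 2 / 2 + 5)) :=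
        mul_le_mul_of_nonneg_left h3 (by positivity)
    _ = _ := by ring

/-- the deviation from below -/
theorem dev_upper {M i : ℕ} (hM : 2 ^ m = 4 * M) (hM1 : 1 ≤ M) (hi : i < 2 * M) :
    (leaderCount m i : ℝ) ≤
      ((2 ^ m).choose i : ℝ) * Real.exp (-(Lm m M i / (10 ^ 26 * (1 + KM M i) ^ 4))) := by
  have hb := bounds hM hM1 hi _ _ rfl rfl
  rw [← Lm] at hb
  obtain ⟨c, hc⟩ : ∃ c : ℝ, c = ((2 ^ m).choose i : ℝ) := ⟨_, rfl⟩
  have hc1 : (0 : ℝ) < c := by rw [hc]; exact_mod_cast Nat.choose_pos (by omega)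
  have hL0 := Lm_nonneg m M i
  have hK0 := KM_nonneg M i
  have ht := KM_mul hM1 i
  obtain ⟨l, hl⟩ : ∃ l : ℝ, l = Lm m M i := ⟨_, rfl⟩
  rw [← hl] at hL0
  rw [← hc, ← hl] at hb ⊢
  have hm1 : 1 ≤ m := by
    rcases Nat.eq_zero_or_pos m with h | h
    · rw [h] at hM; simp at hM; omega
    · exact h
  have hz1 : 1 ≤ (1 + KM M i) ^ 4 := one_le_pow₀ (by linarith)
  have hD0 : (0 : ℝ) < 10 ^ 26 * (1 + KM M i) ^ 4 := by positivity
  by_cases hcase : 1 + l ≤ 10 ^ 26 * (1 + KM M i) ^ 4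
  · refine hb.2.1.trans ?_
    rw [div_eq_mul_inv]
    refine mul_le_mul_of_nonneg_left ?_ hc1.le
    have h1 : l / (10 ^ 26 * (1 + KM M i) ^ 4) ≤ l / (1 + l) :=
      div_le_div_of_nonneg_left hL0 (by linarith) hcase
    have h2 := Real.add_one_le_exp (-(l / (1 + l)))
    have h3 : (1 + l)⁻¹ = -(l / (1 + l)) + 1 := by
      have : (1 + l) ≠ 0 := by linarith
      field_simp
      ring
    rw [h3]
    exact h2.trans (Real.exp_le_exp.2 (by linarith))
  · push Not at hcase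
    have h4M : (2 : ℝ) ^ m = 4 * M := by exact_mod_cast hM
    have hcM : ((4 * M).choose i : ℝ) = c := by rw [hc, hM]
    have hlB : l * c = (2 ^ m - 1) * (B M i : ℝ) := by
      rw [hl, Lm, ← hc]; field_simp
    have h2m0 : (1 : ℝ) ≤ 2 ^ m := one_le_pow₀ (by norm_num)
    have hm40 : 40 ≤ m := by
      by_contra hcon
      have h1 : (2 : ℝ) ^ m ≤ 2 ^ 39 := pow_le_pow_right₀ (by norm_num) (by omega)
      have h2 : l ≤ 2 * 2 ^ m := by
        have h3 := B_le M i
        rw [hcM] at h3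
        have h4 : l * c ≤ (2 * 2 ^ m) * c := by
          rw [hlB]
          calc ((2 : ℝ) ^ m - 1) * (B M i : ℝ) ≤ ((2 : ℝ) ^ m - 1) * (2 * c) :=
                mul_le_mul_of_nonneg_left h3 (by linarith)
            _ = 2 * 2 ^ m * c - 2 * c := by ring
            _ ≤ (2 * 2 ^ m) * c := by linarith
        exact le_of_mul_le_mul_right h4 hc1
      have h5 : (10 : ℝ) ^ 26 * 1 ≤ 10 ^ 26 * (1 + KM M i) ^ 4 :=
        mul_le_mul_of_nonneg_left hz1 (by norm_num)
      have h6 : (1 : ℝ) + 2 * 2 ^ 39 < 10 ^ 26 * 1 := by norm_num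
      linarith
    have hm0 : (40 : ℝ) ≤ m := by exact_mod_cast hm40
    have hlbig : 10 ^ 25 * (1 + KM M i) ^ 4 ≤ l := by
      have : (1 : ℝ) ≤ 10 ^ 25 * (1 + KM M i) ^ 4 := by linarith
      have h2 : (10 : ℝ) ^ 26 * (1 + KM M i) ^ 4 = 10 * (10 ^ 25 * (1 + KM M i) ^ 4) := by ring
      linarith
    have hl10 : (10 : ℝ) ^ 25 ≤ l := by linarith
    have hcase2 : 1 / 2 < Lm m M i := by rw [← hl]; linarith
    obtain ⟨k1, k2, k3⟩ := K_small hM hm40 hcase2 hi
    obtain ⟨K, hK⟩ : ∃ K : ℝ, K = KM M i := ⟨_, rfl⟩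
    rw [← hK] at k1 k2 k3 hK0 ht hz1 hD0 hcase hlbig ⊢
    have hM0 : (0 : ℝ) < M := by exact_mod_cast hM1
    have hq0 : 0 < √(M : ℝ) := Real.sqrt_pos.2 hM0
    have e1 : 2 * M - (2 * M - i) = i := by omega
    have hr1 : 1 ≤ √(m : ℝ) := Real.one_le_sqrt.2 (by linarith)
    have hBu := B_upper2 M (2 * M - i) hM1 (by omega) K (2 * √(m : ℝ)) hK0 (by linarith) ht k2
    rw [e1, hcM] at hBu
    obtain ⟨P, hP⟩ : ∃ P : ℝ, P = Real.exp (-(K ^ 2 / 2)) := ⟨_, rfl⟩
    have hP0 : 0 < P := by rw [hP]; exact Real.exp_pos _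
    rw [← hP] at hBu
    have hfar := far_small_term hM hm40
    have hK1 : 0 < K + 1 := by linarith
    -- `(K + 1) l ≤ 11 N P`
    have hl1 : (K + 1) * l ≤ 11 * (2 ^ m * P) := by
      have h1 : l * c ≤ (2 ^ m * (10 * (P / (K + 1)) +
          11 * M * Real.exp (-(2 * √(m : ℝ)) ^ 2))) * c := by
        rw [hlB]
        calc ((2 : ℝ) ^ m - 1) * (B M i : ℝ)
            ≤ ((2 : ℝ) ^ m - 1) * (c * (10 * (P / (K + 1)) +
              11 * M * Real.exp (-(2 * √(m : ℝ)) ^ 2))) :=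
              mul_le_mul_of_nonneg_left hBu (by linarith)
          _ ≤ (2 : ℝ) ^ m * (c * (10 * (P / (K + 1)) +
              11 * M * Real.exp (-(2 * √(m : ℝ)) ^ 2))) :=
              mul_le_mul_of_nonneg_right (by linarith) (by positivity)
          _ = _ := by ring
      have h2 := le_of_mul_le_mul_right h1 hc1
      have h3 : l ≤ 10 * (2 ^ m * P) / (K + 1) + 1 / 8 := by
        calc l ≤ 2 ^ m * (10 * (P / (K + 1)) +
            11 * M * Real.exp (-(2 * √(m : ℝ)) ^ 2)) := h2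
          _ = 10 * (2 ^ m * P) / (K + 1) +
            2 ^ m * (11 * M * Real.exp (-(2 * √(m : ℝ)) ^ 2)) := by ring
          _ ≤ _ := by linarith
      have h4 : 10 * l ≤ 11 * (10 * (2 ^ m * P) / (K + 1)) := by linarith
      have h5 : 11 * (10 * (2 ^ m * P) / (K + 1)) = 10 * (11 * (2 ^ m * P)) / (K + 1) := by ring
      rw [h5, le_div_iff₀ hK1] at h4
      linarith
    -- the gap
    have hgap : l ≤ 79200 * (K + 1) ^ 2 * gap m i := by
      have h1 := tail_moment M (2 * M - i) hM1 K hK0 ht k3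
      rw [e1] at h1
      have h2 : gap m i * 2 ^ (4 * M) =
          ∑ l ∈ range i, ((4 * M).choose l : ℝ) * ((i : ℝ) - l) ^ 2 := by
        rw [gap, hM, div_mul_cancel₀ _ (by positivity)]
      rw [← h2] at h1
      have e2 : Real.exp (-(K ^ 2 / 2 + 5)) = P / Real.exp 5 := by
        rw [hP, ← Real.exp_sub]; congr 1; ring
      have h3 : (M : ℝ) * (P / Real.exp 5) ≤ 12 * (K + 1) ^ 3 * gap m i := by
        have hp : (0 : ℝ) < 2 ^ (4 * M) := by positivity
        refine le_of_mul_le_mul_left ?_ hp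
        rw [← e2]
        linarith
      have h4 : (M : ℝ) * P ≤ 1800 * (K + 1) ^ 3 * gap m i := by
        have h5 : (M : ℝ) * P = (M : ℝ) * (P / Real.exp 5) * Real.exp 5 := by field_simp
        have hg0 : 0 ≤ 12 * (K + 1) ^ 3 * gap m i := by
          refine le_trans ?_ h3
          positivity
        rw [h5]
        calc (M : ℝ) * (P / Real.exp 5) * Real.exp 5
            ≤ (12 * (K + 1) ^ 3 * gap m i) * 150 :=
              mul_le_mul h3 exp_5 (Real.exp_pos _).le hg0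
          _ = _ := by ring
      have h6 : (K + 1) * l ≤ (K + 1) * (79200 * (K + 1) ^ 2 * gap m i) := by
        calc (K + 1) * l ≤ 11 * (2 ^ m * P) := hl1
          _ = 44 * ((M : ℝ) * P) := by rw [h4M]; ring
          _ ≤ 44 * (1800 * (K + 1) ^ 3 * gap m i) := by linarith
          _ = _ := by ring
      exact le_of_mul_le_mul_left h6 hK1
    -- the number of cosets
    have htail := tail_bound (m := m) i
    have hcnt : (leaderCount m i : ℝ) ≤ heavyCount m i := by exact_mod_cast count_le_heavy i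
    have hmid := choose_mid hM1 hi K hK0 ht k3
    rw [hcM] at hmid
    have hmm : m + 1 ≤ 2 ^ m := Nat.lt_two_pow_self
    have hq2 : √(M : ℝ) ^ 2 = M := Real.sq_sqrt hM0.le
    have hq8 : 8 ≤ √(M : ℝ) := by
      have := cube_ge (K + 1) (by linarith)
      linarith
    have hpow : (2 : ℝ) ^ (2 ^ m - m - 1) ≤ c * Real.exp (K ^ 2 / 2 + 5) := by
      have h1 : (2 : ℝ) ^ (2 ^ m - m - 1) * (8 * M) = 2 ^ (4 * M) := by
        have h2 : (2 : ℝ) ^ (m + 1) = 8 * M := by rw [pow_succ, h4M]; ring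
        rw [← h2, ← pow_add]; congr 1; omega
      have h3 : (2 : ℝ) ^ (2 ^ m - m - 1) * (8 * M) ≤ (c * Real.exp (K ^ 2 / 2 + 5)) * (8 * M) := by
        rw [h1]
        refine hmid.trans ?_
        have h4 : 3 * √(M : ℝ) ≤ 8 * √(M : ℝ) ^ 2 := by
          have h6 := mul_le_mul_of_nonneg_right hq8 hq0.le
          rw [← sq] at h6
          linarith
        rw [hq2] at h4
        have h5 : 0 ≤ c * Real.exp (K ^ 2 / 2 + 5) := by positivity
        calc 3 * √(M : ℝ) * c * Real.exp (K ^ 2 / 2 + 5)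
            = (3 * √(M : ℝ)) * (c * Real.exp (K ^ 2 / 2 + 5)) := by ring
          _ ≤ (8 * M) * (c * Real.exp (K ^ 2 / 2 + 5)) := mul_le_mul_of_nonneg_right h4 h5
          _ = _ := by ring
      exact le_of_mul_le_mul_right h3 (by positivity)
    have hg3 : 12 * (K + 1) ^ 2 ≤ gap m i := by
      have h1 : (79200 * (K + 1) ^ 2) * (12 * (K + 1) ^ 2) ≤ (79200 * (K + 1) ^ 2) * gap m i := by
        calc (79200 * (K + 1) ^ 2) * (12 * (K + 1) ^ 2) = 950400 * (1 + K) ^ 4 := by ring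
          _ ≤ 10 ^ 25 * (1 + K) ^ 4 := by
              refine mul_le_mul_of_nonneg_right (by norm_num) (by positivity)
          _ ≤ l := hlbig
          _ ≤ _ := hgap
      exact le_of_mul_le_mul_left h1 (by positivity)
    have hKm : K ^ 2 / 2 + 5 ≤ gap m i / 2 := by
      have h1 : (K + 1) ^ 2 = K ^ 2 + 2 * K + 1 := by ring
      linarith [sq_nonneg K]
    have hgl : l / (10 ^ 26 * (1 + K) ^ 4) ≤ gap m i / 2 := by
      rw [div_le_iff₀ hD0]
      have hg0 : 0 ≤ gap m i := by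
        have : 0 ≤ 12 * (K + 1) ^ 2 := by positivity
        linarith
      have h2 : (K + 1) ^ 2 ≤ (1 + K) ^ 4 := by
        rw [add_comm]
        exact pow_le_pow_right₀ (by linarith) (by norm_num)
      calc l ≤ 79200 * (K + 1) ^ 2 * gap m i := hgap
        _ ≤ 79200 * (1 + K) ^ 4 * gap m i := by gcongr
        _ ≤ gap m i / 2 * (10 ^ 26 * (1 + K) ^ 4) := by
            have h3 : 0 ≤ (1 + K) ^ 4 * gap m i := by positivity
            have h4 := mul_le_mul_of_nonneg_right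
              (show (79200 : ℝ) ≤ 10 ^ 26 / 2 by norm_num) h3
            calc 79200 * (1 + K) ^ 4 * gap m i = 79200 * ((1 + K) ^ 4 * gap m i) := by ring
              _ ≤ 10 ^ 26 / 2 * ((1 + K) ^ 4 * gap m i) := h4
              _ = _ := by ring
    calc (leaderCount m i : ℝ) ≤ heavyCount m i := hcnt
      _ ≤ 2 ^ (2 ^ m - m - 1) * Real.exp (-gap m i) := htail
      _ ≤ (c * Real.exp (K ^ 2 / 2 + 5)) * Real.exp (-gap m i) :=
          mul_le_mul_of_nonneg_right hpow (Real.exp_pos _).le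
      _ = c * Real.exp (K ^ 2 / 2 + 5 + -gap m i) := by rw [mul_assoc, ← Real.exp_add]
      _ ≤ c * Real.exp (-(l / (10 ^ 26 * (1 + K) ^ 4))) :=
          mul_le_mul_of_nonneg_left (Real.exp_le_exp.2 (by linarith)) hc1.le

end Pool.Agent.RMC53
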