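import Pool.Agent.RMC53.Class

/-!
# A reverse hypercontractive inequality for sets
-/

set_option autoImplicit false

open Finset

namespace Pool.Agent.RMC53

/-- the section at first coordinate `b` -/
def secA {n : ℕ} (A : Finset (Fin (n + 1) → Bool)) (b : Bool) : Finset (Fin n → Bool) :=
  {f | (Fin.cons b f : Fin (n + 1) → Bool) ∈ A}

lemma mem_secA {n : ℕ} (A : Finset (Fin (n + 1) → Bool)) (b : Bool) (f : Fin n → Bool) :
    f ∈ secA A b ↔ (Fin.cons b f : Fin (n + 1) → Bool) ∈ A := by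
  simp [secA]

/-- second order Bernoulli inequality -/
lemma bernoulli_two (k : ℕ) (w : ℝ) (hw : 0 ≤ w) :
    1 + k * w + k * (k - 1) / 2 * w ^ 2 ≤ (1 + w) ^ k := by
  induction k with
  | zero => simp
  | succ k ih =>
    rw [pow_succ]
    have h1 : (1 + k * w + k * (k - 1) / 2 * w ^ 2) * (1 + w) ≤ (1 + w) ^ k * (1 + w) :=
      mul_le_mul_of_nonneg_right ih (by linarith)
    refine le_trans ?_ h1
    push_cast
    have h2 : 0 ≤ (k : ℝ) * (k - 1) / 2 * w ^ 3 := by
      rcases Nat.eq_zero_or_pos k with h | h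
      · rw [h]; simp
      · have : (1 : ℝ) ≤ k := by exact_mod_cast h
        have h3 : (0 : ℝ) ≤ (k : ℝ) * (k - 1) := mul_nonneg (by linarith) (by linarith)
        positivity
    nlinarith

/-- the normalised two-point inequality -/
lemma two_point_aux (k : ℕ) (hk : 2 ≤ k) (s t : ℝ) (hs : |s| ≤ 1) (ht : |t| ≤ 1) :
    2 * (k : ℝ) ≤ (k - 1) * (((1 + s) * (1 + t)) ^ k + ((1 - s) * (1 - t)) ^ k) +
      (((1 + s) * (1 - t)) ^ k + ((1 - s) * (1 + t)) ^ k) := by
  have hk2 : (2 : ℝ) ≤ k := by exact_mod_cast hk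
  obtain ⟨hs1, hs2⟩ := abs_le.1 hs
  obtain ⟨ht1, ht2⟩ := abs_le.1 ht
  have bern : ∀ z : ℝ, 0 ≤ z → 1 + (k : ℝ) * (z - 1) ≤ z ^ k := by
    intro z hz
    have := one_add_mul_le_pow (show (-2 : ℝ) ≤ z - 1 by linarith) k
    have e : 1 + (z - 1) = z := by ring
    rw [e] at this
    exact this
  have b1 := bern ((1 + s) * (1 + t)) (mul_nonneg (by linarith) (by linarith))
  have b2 := bern ((1 - s) * (1 - t)) (mul_nonneg (by linarith) (by linarith))
  have b3 := bern ((1 + s) * (1 - t)) (mul_nonneg (by linarith) (by linarith))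
  have b4 := bern ((1 - s) * (1 + t)) (mul_nonneg (by linarith) (by linarith))
  have hfirst : (k - 1 : ℝ) * (2 + 2 * k * (s * t)) ≤
      (k - 1) * (((1 + s) * (1 + t)) ^ k + ((1 - s) * (1 - t)) ^ k) := by
    refine mul_le_mul_of_nonneg_left ?_ (by linarith)
    nlinarith
  have hkk : (0 : ℝ) ≤ k * (k - 1) := mul_nonneg (by linarith) (by linarith)
  rcases le_or_gt 0 (s * t) with h | h
  · have hsecond : 2 - 2 * k * (s * t) ≤
        ((1 + s) * (1 - t)) ^ k + ((1 - s) * (1 + t)) ^ k := by nlinarith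
    have : 0 ≤ (k - 2 : ℝ) * k * (s * t) :=
      mul_nonneg (mul_nonneg (by linarith) (by linarith)) h
    nlinarith
  · have hbern2 : ∀ a b : ℝ, 0 ≤ a → 0 ≤ b →
        1 + (k : ℝ) * (a + b + a * b) + 2 * (k * (k - 1)) * (a * b) ≤ ((1 + a) * (1 + b)) ^ k := by
      intro a b ha hb
      have hab : 0 ≤ a * b := mul_nonneg ha hb
      have h1 := bernoulli_two k (a + b + a * b) (by linarith)
      have e : (1 + a) * (1 + b) = 1 + (a + b + a * b) := by ring
      rw [e]
      have h2 : 4 * (a * b) ≤ (a + b + a * b) ^ 2 := by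
        nlinarith [sq_nonneg (a - b), mul_nonneg hab ha, mul_nonneg hab hb,
          mul_nonneg hab hab]
      have h3 : (k : ℝ) * (k - 1) / 2 * (4 * (a * b)) ≤
          k * (k - 1) / 2 * (a + b + a * b) ^ 2 := mul_le_mul_of_nonneg_left h2 (by linarith)
      linarith
    have hkst : 0 ≤ (k : ℝ) * (-(s * t)) := mul_nonneg (by linarith) (by linarith)
    rcases le_total 0 s with hs0 | hs0
    · have ht0 : t ≤ 0 := by
        by_contra hcon
        push Not at hcon
        nlinarith
      have h5 := hbern2 s (-t) hs0 (by linarith)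
      have e : (1 + s) * (1 + -t) = (1 + s) * (1 - t) := by ring
      rw [e] at h5
      nlinarith
    · have ht0 : 0 ≤ t := by
        by_contra hcon
        push Not at hcon
        nlinarith
      have h5 := hbern2 (-s) t (by linarith) ht0
      have e : (1 + -s) * (1 + t) = (1 - s) * (1 + t) := by ring
      rw [e] at h5
      nlinarith

/-- the two-point inequality -/
lemma two_point (k : ℕ) (hk : 2 ≤ k) (u u' v v' : ℝ) (hu : 0 ≤ u) (hu' : 0 ≤ u') (hv : 0 ≤ v)
    (hv' : 0 ≤ v') :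
    2 * (k : ℝ) * (((u + u') * (v + v')) / 4) ^ k ≤
      (k - 1) * ((u * v) ^ k + (u' * v') ^ k) + ((u * v') ^ k + (u' * v) ^ k) := by
  have hk2 : (2 : ℝ) ≤ k := by exact_mod_cast hk
  have hk0 : k ≠ 0 := by omega
  have hnn : 0 ≤ (k - 1 : ℝ) * ((u * v) ^ k + (u' * v') ^ k) + ((u * v') ^ k + (u' * v) ^ k) := by
    have : (0 : ℝ) ≤ k - 1 := by linarith
    positivity
  by_cases h0 : (u + u') * (v + v') = 0
  · rw [h0, zero_div, zero_pow hk0, mul_zero]
    exact hnn
  · have hne : u + u' ≠ 0 ∧ v + v' ≠ 0 := by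
      constructor
      · intro h; apply h0; rw [h, zero_mul]
      · intro h; apply h0; rw [h, mul_zero]
    have hpu : 0 < u + u' := lt_of_le_of_ne (by linarith) (Ne.symm hne.1)
    have hpv : 0 < v + v' := lt_of_le_of_ne (by linarith) (Ne.symm hne.2)
    obtain ⟨s, hs⟩ : ∃ s : ℝ, s = (u - u') / (u + u') := ⟨_, rfl⟩
    obtain ⟨t, ht⟩ : ∃ t : ℝ, t = (v - v') / (v + v') := ⟨_, rfl⟩
    have hs1 : |s| ≤ 1 := by
      rw [hs, abs_div, abs_of_pos hpu, div_le_one hpu, abs_le]
      constructor <;> linarith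
    have ht1 : |t| ≤ 1 := by
      rw [ht, abs_div, abs_of_pos hpv, div_le_one hpv, abs_le]
      constructor <;> linarith
    have key := two_point_aux k hk s t hs1 ht1
    have e1 : u = (u + u') / 2 * (1 + s) := by rw [hs]; field_simp; ring
    have e2 : u' = (u + u') / 2 * (1 - s) := by rw [hs]; field_simp; ring
    have e3 : v = (v + v') / 2 * (1 + t) := by rw [ht]; field_simp; ring
    have e4 : v' = (v + v') / 2 * (1 - t) := by rw [ht]; field_simp; ring
    obtain ⟨q, hq⟩ : ∃ q : ℝ, q = ((u + u') * (v + v')) / 4 := ⟨_, rfl⟩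
    have hq0 : 0 ≤ q ^ k := by rw [hq]; positivity
    have f1 : (u * v) ^ k = q ^ k * ((1 + s) * (1 + t)) ^ k := by
      rw [← mul_pow]; congr 1
      calc u * v = ((u + u') / 2 * (1 + s)) * ((v + v') / 2 * (1 + t)) := by rw [← e1, ← e3]
        _ = _ := by rw [hq]; ring
    have f2 : (u' * v') ^ k = q ^ k * ((1 - s) * (1 - t)) ^ k := by
      rw [← mul_pow]; congr 1
      calc u' * v' = ((u + u') / 2 * (1 - s)) * ((v + v') / 2 * (1 - t)) := by rw [← e2, ← e4]
        _ = _ := by rw [hq]; ring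
    have f3 : (u * v') ^ k = q ^ k * ((1 + s) * (1 - t)) ^ k := by
      rw [← mul_pow]; congr 1
      calc u * v' = ((u + u') / 2 * (1 + s)) * ((v + v') / 2 * (1 - t)) := by rw [← e1, ← e4]
        _ = _ := by rw [hq]; ring
    have f4 : (u' * v) ^ k = q ^ k * ((1 - s) * (1 + t)) ^ k := by
      rw [← mul_pow]; congr 1
      calc u' * v = ((u + u') / 2 * (1 - s)) * ((v + v') / 2 * (1 + t)) := by rw [← e2, ← e3]
        _ = _ := by rw [hq]; ring
    rw [f1, f2, f3, f4, ← hq]
    calc 2 * (k : ℝ) * q ^ k = q ^ k * (2 * (k : ℝ)) := by ring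
      _ ≤ q ^ k * ((k - 1) * (((1 + s) * (1 + t)) ^ k + ((1 - s) * (1 - t)) ^ k) +
          (((1 + s) * (1 - t)) ^ k + ((1 - s) * (1 + t)) ^ k)) :=
          mul_le_mul_of_nonneg_left key hq0
      _ = _ := by ring

/-- the weight of a pair -/
def wt {α : Type*} [Fintype α] (k : ℕ) (f g : α → Bool) : ℝ :=
  ∏ x, if f x = g x then ((k : ℝ) - 1) else 1

lemma wt_cons {n : ℕ} (k : ℕ) (b c : Bool) (f g : Fin n → Bool) :
    wt k (Fin.cons b f : Fin (n + 1) → Bool) (Fin.cons c g) =
      (if b = c then ((k : ℝ) - 1) else 1) * wt k f g := by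
  rw [wt, Fin.prod_univ_succ]
  simp only [Fin.cons_zero, Fin.cons_succ]
  rfl

/-- the weighted number of pairs -/
noncomputable def RS {n : ℕ} (k : ℕ) (A B : Finset (Fin n → Bool)) : ℝ :=
  ∑ f ∈ A, ∑ g ∈ B, wt k f g

lemma sum_secA {n : ℕ} (A : Finset (Fin (n + 1) → Bool)) (F : (Fin (n + 1) → Bool) → ℝ) :
    ∑ f ∈ A, F f = ∑ f ∈ secA A true, F (Fin.cons true f) +
      ∑ f ∈ secA A false, F (Fin.cons false f) := by
  classical
  have h1 := sum_cons (n := n) (fun f => if f ∈ A then F f else 0)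
  have h2 : ∑ f : Fin (n + 1) → Bool, (if f ∈ A then F f else 0) = ∑ f ∈ A, F f := by
    rw [Finset.sum_ite_mem, univ_inter]
  have h3 : ∀ b : Bool, ∑ f : Fin n → Bool,
      (if (Fin.cons b f : Fin (n + 1) → Bool) ∈ A then F (Fin.cons b f) else 0) =
      ∑ f ∈ secA A b, F (Fin.cons b f) := by
    intro b
    rw [secA, Finset.sum_filter]
  rw [h2, h3, h3] at h1
  exact h1

/-- Reverse hypercontractivity for sets. -/
theorem reverse_hyper (k : ℕ) (hk : 2 ≤ k) : ∀ (n : ℕ) (A B : Finset (Fin n → Bool)),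
    (2 * (k : ℝ)) ^ n * (((#A : ℝ) * #B) / 4 ^ n) ^ k ≤ RS k A B := by
  intro n
  have hk2 : (2 : ℝ) ≤ k := by exact_mod_cast hk
  induction n with
  | zero =>
    intro A B
    rcases A.eq_empty_or_nonempty with h | h
    · rw [h, RS]
      simp only [card_empty, Nat.cast_zero, zero_mul, zero_div, sum_empty]
      rw [zero_pow (by omega), mul_zero]
    rcases B.eq_empty_or_nonempty with h' | h'
    · rw [h', RS]
      simp only [card_empty, Nat.cast_zero, mul_zero, zero_div, sum_empty, sum_const_zero]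
      rw [zero_pow (by omega), mul_zero]
    have hA : A = univ := by
      apply Finset.eq_univ_of_card
      have h1 : #A ≤ Fintype.card (Fin 0 → Bool) := card_le_univ A
      have h2 : Fintype.card (Fin 0 → Bool) = 1 := by simp
      have h3 := Finset.card_pos.2 h
      omega
    have hB : B = univ := by
      apply Finset.eq_univ_of_card
      have h1 : #B ≤ Fintype.card (Fin 0 → Bool) := card_le_univ B
      have h2 : Fintype.card (Fin 0 → Bool) = 1 := by simp
      have h3 := Finset.card_pos.2 h'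
      omega
    rw [hA, hB, RS]
    simp [wt]
  | succ n ih =>
    intro A B
    have hcard : ∀ A : Finset (Fin (n + 1) → Bool),
        (#A : ℝ) = #(secA A true) + #(secA A false) := by
      intro A
      have := sum_secA A (fun _ => 1)
      simpa using this
    have hRS : RS k A B = (k - 1) * (RS k (secA A true) (secA B true) +
        RS k (secA A false) (secA B false)) + (RS k (secA A true) (secA B false) +
        RS k (secA A false) (secA B true)) := by
      rw [RS, sum_secA]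
      simp_rw [sum_secA B, wt_cons]
      simp only [if_true, Bool.true_eq_false, Bool.false_eq_true, if_false, one_mul]
      simp_rw [← Finset.mul_sum]
      rw [Finset.sum_add_distrib, Finset.sum_add_distrib, ← Finset.mul_sum, ← Finset.mul_sum]
      simp only [RS]
      ring
    rw [hRS, hcard A, hcard B]
    have i1 := ih (secA A true) (secA B true)
    have i2 := ih (secA A false) (secA B false)
    have i3 := ih (secA A true) (secA B false)
    have i4 := ih (secA A false) (secA B true)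
    obtain ⟨u, hu⟩ : ∃ u : ℝ, u = #(secA A true) := ⟨_, rfl⟩
    obtain ⟨u', hu'⟩ : ∃ u : ℝ, u = #(secA A false) := ⟨_, rfl⟩
    obtain ⟨v, hv⟩ : ∃ u : ℝ, u = #(secA B true) := ⟨_, rfl⟩
    obtain ⟨v', hv'⟩ : ∃ u : ℝ, u = #(secA B false) := ⟨_, rfl⟩
    rw [← hu, ← hu', ← hv, ← hv']
    rw [← hu, ← hv] at i1
    rw [← hu', ← hv'] at i2
    rw [← hu, ← hv'] at i3
    rw [← hu', ← hv] at i4
    have hu0 : 0 ≤ u := by rw [hu]; positivity
    have hu0' : 0 ≤ u' := by rw [hu']; positivity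
    have hv0 : 0 ≤ v := by rw [hv]; positivity
    have hv0' : 0 ≤ v' := by rw [hv']; positivity
    have key := two_point k hk u u' v v' hu0 hu0' hv0 hv0'
    have h4 : (0 : ℝ) < (4 ^ n) ^ k := by positivity
    have h2k : (0 : ℝ) < (2 * (k : ℝ)) ^ n := by positivity
    obtain ⟨c, hc⟩ : ∃ c : ℝ, c = (2 * (k : ℝ)) ^ n / (4 ^ n) ^ k := ⟨_, rfl⟩
    have hc0 : 0 ≤ c := by rw [hc]; positivity
    have conv : ∀ z : ℝ, (2 * (k : ℝ)) ^ n * (z / 4 ^ n) ^ k = c * z ^ k := by
      intro z; rw [hc, div_pow]; field_simp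
    rw [conv] at i1 i2 i3 i4
    have hL : (2 * (k : ℝ)) ^ (n + 1) * ((u + u') * (v + v') / 4 ^ (n + 1)) ^ k =
        c * (2 * (k : ℝ) * (((u + u') * (v + v')) / 4) ^ k) := by
      have e : (u + u') * (v + v') / 4 ^ (n + 1) = ((u + u') * (v + v') / 4) / 4 ^ n := by
        rw [pow_succ]; field_simp
      rw [e, pow_succ]
      calc (2 * (k : ℝ)) ^ n * (2 * (k : ℝ)) * ((u + u') * (v + v') / 4 / 4 ^ n) ^ k
          = 2 * (k : ℝ) * ((2 * (k : ℝ)) ^ n * ((u + u') * (v + v') / 4 / 4 ^ n) ^ k) := by ring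
        _ = _ := by rw [conv]; ring
    rw [hL]
    calc c * (2 * (k : ℝ) * (((u + u') * (v + v')) / 4) ^ k)
        ≤ c * ((k - 1) * ((u * v) ^ k + (u' * v') ^ k) + ((u * v') ^ k + (u' * v) ^ k)) :=
          mul_le_mul_of_nonneg_left key hc0
      _ = (k - 1) * (c * (u * v) ^ k + c * (u' * v') ^ k) +
          (c * (u * v') ^ k + c * (u' * v) ^ k) := by ring
      _ ≤ _ := by
          have hk1 : (0 : ℝ) ≤ k - 1 := by linarith
          exact add_le_add (mul_le_mul_of_nonneg_left (add_le_add i1 i2) hk1) (add_le_add i3 i4)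

end Pool.Agent.RMC53
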