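import Pool.Agent.RMC53.Cone

/-!
# The monotonicity of the conditional weight and a Chebyshev inequality
-/

set_option autoImplicit false

open Polynomial Finset

namespace Pool.Agent.RMC53

/-- twice the weight of an intersection number `s` -/
def w2 (M s : ℕ) : ℤ := if M < s then 2 else if s = M then 1 else 0

lemma w2_nonneg (M s : ℕ) : 0 ≤ w2 M s := by unfold w2; split_ifs <;> norm_num

lemma w2_mono (M : ℕ) {s t : ℕ} (h : s ≤ t) : w2 M s ≤ w2 M t := by
  unfold w2; split_ifs <;> first | omega | norm_num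

lemma w2_of_lt (M : ℕ) {s : ℕ} (h : s < M) : w2 M s = 0 := by
  unfold w2; split_ifs <;> first | omega | rfl

/-- the functional `p ↦ ∑ w2 s * [z^s] p` -/
noncomputable def L (M : ℕ) : ℤ[X] →ₗ[ℤ] ℤ := Polynomial.lsum fun s => (w2 M s) • LinearMap.id

lemma L_monomial (M k : ℕ) (a : ℤ) : L M (monomial k a) = w2 M k * a := by
  have : L M (monomial k a) = (monomial k a).sum fun s b => ((w2 M s) • LinearMap.id) b := rfl
  rw [this, sum_monomial_index]
  · simp
  · simp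

lemma L_int (M : ℕ) (k : ℤ) (p : ℤ[X]) : L M ((k : ℤ[X]) * p) = k * L M p := by
  rw [← zsmul_eq_mul, map_zsmul, smul_eq_mul]

lemma L_key (M : ℕ) (Q : ℤ[X]) :
    L M ((1 - X) ^ 2 * Q) = cz Q ((M : ℤ) - 2) - cz Q M := by
  induction Q using Polynomial.induction_on' with
  | add p q hp hq => rw [mul_add, map_add, hp, hq, cz_add, cz_add]; ring
  | monomial k a =>
    have h1 : (1 - X) ^ 2 * (monomial k a : ℤ[X]) =
        monomial k a + (monomial (k + 1) (-2 * a) + monomial (k + 2) a) := by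
      have e1 : (monomial (k + 1) (-2 * a) : ℤ[X]) = -2 * (X * monomial k a) := by
        rw [X_mul_monomial, ← C_mul_X_pow_eq_monomial, ← C_mul_X_pow_eq_monomial]
        simp only [C_mul]
        have : (C (-2) : ℤ[X]) = -2 := by simp
        rw [this]; ring
      have e2 : (monomial (k + 2) a : ℤ[X]) = X * (X * monomial k a) := by
        rw [X_mul_monomial, X_mul_monomial]
      rw [e1, e2]; ring
    rw [h1, map_add, map_add, L_monomial, L_monomial, L_monomial]
    have h2 : ∀ s : ℤ, cz (monomial k a : ℤ[X]) s = if (k : ℤ) = s then a else 0 := by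
      intro s
      unfold cz
      by_cases hs : 0 ≤ s
      · rw [if_pos hs, coeff_monomial]
        obtain ⟨t, rfl⟩ := Int.eq_ofNat_of_zero_le hs
        simp
      · rw [if_neg hs, if_neg (by omega)]
    rw [h2, h2]
    unfold w2
    split_ifs <;> first | omega | ring

lemma H_two (n : ℕ) (y : ℤ) :
    (2 * ((n : ℤ[X]) + 1) - (y : ℤ[X])) * H (n + 1) y =
      ((n : ℤ[X]) + 1) * (2 * H n y + (1 + X) * H n (y - 1)) := by
  have h1 := H_deriv n y
  have h2 := H_succ n y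
  linear_combination (2 * ((n : ℤ[X]) + 1)) * h2 - h1

lemma H_one (n : ℕ) (x : ℤ) :
    ((x : ℤ[X]) + 1) * H (n + 1) (x + 1) =
      ((n : ℤ[X]) + 1) * ((1 + X) * H n x + 2 * X * H n (x - 1)) := by
  have h1 := H_deriv n (x + 1)
  have e1 : x + 1 - 1 = x := by ring
  have e2 : x + 1 - 2 = x - 1 := by ring
  rw [e1, e2] at h1
  push_cast at h1
  exact h1

/-- The difference identity. -/
lemma ident (n : ℕ) (x y : ℤ) :
    ((x : ℤ[X]) + 1) * (2 * ((n : ℤ[X]) + 1) - (y : ℤ[X])) * (H (n + 1) (x + 1) * H (n + 1) y) -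
      (2 * ((n : ℤ[X]) + 1) - (x : ℤ[X])) * ((y : ℤ[X]) + 1) * (H (n + 1) x * H (n + 1) (y + 1)) =
      ((n : ℤ[X]) + 1) ^ 2 *
        ((1 - X) ^ 2 * (H n x * H n (y - 1) - H n (x - 1) * H n y)) := by
  have a1 := H_one n x
  have a2 := H_two n y
  have a3 := H_two n x
  have a4 := H_one n y
  have b1 : ((x : ℤ[X]) + 1) * (2 * ((n : ℤ[X]) + 1) - (y : ℤ[X])) *
      (H (n + 1) (x + 1) * H (n + 1) y) =
      (((x : ℤ[X]) + 1) * H (n + 1) (x + 1)) *
        ((2 * ((n : ℤ[X]) + 1) - (y : ℤ[X])) * H (n + 1) y) := by ring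
  have b2 : (2 * ((n : ℤ[X]) + 1) - (x : ℤ[X])) * ((y : ℤ[X]) + 1) *
      (H (n + 1) x * H (n + 1) (y + 1)) =
      ((2 * ((n : ℤ[X]) + 1) - (x : ℤ[X])) * H (n + 1) x) *
        (((y : ℤ[X]) + 1) * H (n + 1) (y + 1)) := by ring
  rw [b1, b2, a1, a2, a3, a4]
  ring

/-- The integer inequality behind the monotonicity. -/
lemma L_step (M : ℕ) (hM : 1 ≤ M) (x y : ℕ) (hxy : x ≤ y) (h : x + y + 1 ≤ 2 * M) :
    ((2 * M : ℤ) - x) * (y + 1) * L M (H M x * H M ((y : ℤ) + 1)) ≤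
      ((x : ℤ) + 1) * (2 * M - y) * L M (H M ((x : ℤ) + 1) * H M y) := by
  obtain ⟨n, rfl⟩ : ∃ n, M = n + 1 := ⟨M - 1, by omega⟩
  have h1 := congrArg (L (n + 1)) (ident n x y)
  have c1 : ((x : ℤ) : ℤ[X]) + 1 = (((x : ℤ) + 1 : ℤ) : ℤ[X]) := by push_cast; ring
  have c2 : (2 * ((n : ℤ[X]) + 1) - ((y : ℤ) : ℤ[X])) = ((2 * (n + 1) - y : ℤ) : ℤ[X]) := by
    push_cast; ring
  have c3 : (2 * ((n : ℤ[X]) + 1) - ((x : ℤ) : ℤ[X])) = ((2 * (n + 1) - x : ℤ) : ℤ[X]) := by
    push_cast; ring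
  have c4 : ((y : ℤ) : ℤ[X]) + 1 = (((y : ℤ) + 1 : ℤ) : ℤ[X]) := by push_cast; ring
  have c5 : ((n : ℤ[X]) + 1) ^ 2 = ((((n : ℤ) + 1) ^ 2 : ℤ) : ℤ[X]) := by push_cast; ring
  rw [map_sub, c1, c2, c3, c4, c5, mul_assoc, mul_assoc, L_int, L_int, L_int, L_int, L_int,
    L_key] at h1
  have h2 := (minor n x ((y : ℤ) - 1) ((x : ℤ) - 1) y (by ring) (by omega) (by omega)).two_steps
    (M := ((n + 1 : ℕ) : ℤ)) (by push_cast; omega)
  have h3 : 0 ≤ ((n : ℤ) + 1) ^ 2 * (cz (H n ↑x * H n (↑y - 1) - H n (↑x - 1) * H n ↑y)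
      (((n + 1 : ℕ) : ℤ) - 2) - cz (H n ↑x * H n (↑y - 1) - H n (↑x - 1) * H n ↑y)
      ((n + 1 : ℕ) : ℤ)) := mul_nonneg (by positivity) (sub_nonneg.2 h2)
  rw [← h1] at h3
  push_cast
  linarith

/-- number of sets with `x` points in one half and `i - x` in the other -/
def A (M i x : ℕ) : ℕ := (2 * M).choose x * (2 * M).choose (i - x)

/-- twice the weighted number of these sets, weighted by the second intersection number -/
noncomputable def Psi (M i x : ℕ) : ℤ := L M (H M x * H M ((i : ℤ) - x))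

lemma A_symm (M i x : ℕ) (h : x ≤ i) : A M i (i - x) = A M i x := by
  rw [A, A, Nat.sub_sub_self h, mul_comm]

lemma Psi_symm (M i x : ℕ) (h : x ≤ i) : Psi M i (i - x) = Psi M i x := by
  rw [Psi, Psi, Nat.cast_sub h, mul_comm]
  congr 3
  ring

lemma A_pos (M i x : ℕ) (h : x ≤ i) (hi : i ≤ 2 * M) : 0 < A M i x :=
  Nat.mul_pos (Nat.choose_pos (by omega)) (Nat.choose_pos (by omega))

lemma step (M i x : ℕ) (hM : 1 ≤ M) (hx : 2 * x + 1 ≤ i) (hi : i ≤ 2 * M) :
    Psi M i x * A M i (x + 1) ≤ Psi M i (x + 1) * A M i x := by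
  obtain ⟨y, rfl⟩ : ∃ y, i = x + y + 1 := ⟨i - x - 1, by omega⟩
  have h1 := L_step M hM x y (by omega) hi
  have e1 : Psi M (x + y + 1) x = L M (H M x * H M ((y : ℤ) + 1)) := by
    rw [Psi]; congr 3; push_cast; ring
  have e2 : Psi M (x + y + 1) (x + 1) = L M (H M ((x : ℤ) + 1) * H M y) := by
    have e0 : ((x + y + 1 : ℕ) : ℤ) - ((x + 1 : ℕ) : ℤ) = y := by push_cast; ring
    rw [Psi, e0, Nat.cast_add, Nat.cast_one]
  have e3 : A M (x + y + 1) x = (2 * M).choose x * (2 * M).choose (y + 1) := by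
    rw [A]; congr 2; omega
  have e4 : A M (x + y + 1) (x + 1) = (2 * M).choose (x + 1) * (2 * M).choose y := by
    rw [A]; congr 2; omega
  have c1 := Nat.choose_succ_right_eq (2 * M) x
  have c2 := Nat.choose_succ_right_eq (2 * M) y
  have c1' : ((2 * M).choose (x + 1) : ℤ) * (x + 1) = (2 * M).choose x * (2 * M - x) := by
    have := congrArg (Nat.cast : ℕ → ℤ) c1
    push_cast [Nat.cast_sub (show x ≤ 2 * M by omega)] at this
    exact this
  have c2' : ((2 * M).choose (y + 1) : ℤ) * (y + 1) = (2 * M).choose y * (2 * M - y) := by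
    have := congrArg (Nat.cast : ℕ → ℤ) c2
    push_cast [Nat.cast_sub (show y ≤ 2 * M by omega)] at this
    exact this
  have hA : ((x : ℤ) + 1) * (2 * M - y) * A M (x + y + 1) (x + 1) =
      ((2 * M : ℤ) - x) * (y + 1) * A M (x + y + 1) x := by
    rw [e3, e4]; push_cast
    linear_combination (2 * (M : ℤ) - y) * ((2 * M).choose y : ℤ) * c1' -
      ((2 * M : ℤ) - x) * ((2 * M).choose x : ℤ) * c2'
  have hpos : (0 : ℤ) < ((x : ℤ) + 1) * (2 * M - y) := by
    apply mul_pos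
    · positivity
    · have : (y : ℤ) < 2 * M := by exact_mod_cast (show y < 2 * M by omega)
      linarith
  have hAx : (0 : ℤ) ≤ A M (x + y + 1) x := by positivity
  refine le_of_mul_le_mul_left ?_ hpos
  calc ((x : ℤ) + 1) * (2 * M - y) * (Psi M (x + y + 1) x * A M (x + y + 1) (x + 1))
      = Psi M (x + y + 1) x * (((x : ℤ) + 1) * (2 * M - y) * A M (x + y + 1) (x + 1)) := by ring
    _ = (((2 * M : ℤ) - x) * (y + 1) * Psi M (x + y + 1) x) * A M (x + y + 1) x := by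
        rw [hA]; ring
    _ ≤ (((x : ℤ) + 1) * (2 * M - y) * Psi M (x + y + 1) (x + 1)) * A M (x + y + 1) x := by
        refine mul_le_mul_of_nonneg_right ?_ hAx
        rw [e1, e2]; exact h1
    _ = _ := by ring

/-- the conditional weight -/
noncomputable def ra (M i x : ℕ) : ℝ := (Psi M i x : ℝ) / A M i x

lemma ra_step (M i x : ℕ) (hM : 1 ≤ M) (hx : 2 * x + 1 ≤ i) (hi : i ≤ 2 * M) :
    ra M i x ≤ ra M i (x + 1) := by
  have h := step M i x hM hx hi
  have p1 : (0 : ℝ) < A M i x := by exact_mod_cast A_pos M i x (by omega) hi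
  have p2 : (0 : ℝ) < A M i (x + 1) := by exact_mod_cast A_pos M i (x + 1) (by omega) hi
  rw [ra, ra, div_le_div_iff₀ p1 p2]
  exact_mod_cast h

lemma ra_mono (M i : ℕ) (hM : 1 ≤ M) (hi : i ≤ 2 * M) (x y : ℕ) (hxy : x ≤ y)
    (hy : 2 * y ≤ i) : ra M i x ≤ ra M i y := by
  induction y, hxy using Nat.le_induction with
  | base => exact le_rfl
  | succ y hxy ih => exact (ih (by omega)).trans (ra_step M i y hM (by omega) hi)

lemma ra_symm (M i x : ℕ) (h : x ≤ i) : ra M i (i - x) = ra M i x := by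
  rw [ra, ra, A_symm M i x h, Psi_symm M i x h]

lemma ra_min (M i x : ℕ) (h : x ≤ i) : ra M i x = ra M i (min x (i - x)) := by
  rcases le_total x (i - x) with h1 | h1
  · rw [min_eq_left h1]
  · rw [min_eq_right h1, ra_symm M i x h]

/-- the symmetrised weight -/
def wh (M i x : ℕ) : ℤ := w2 M x + w2 M (i - x)

lemma wh_min (M i x : ℕ) (h : x ≤ i) (hi : i < 2 * M) :
    wh M i x = w2 M (i - min x (i - x)) := by
  unfold wh
  rcases le_total x (i - x) with h1 | h1
  · rw [min_eq_left h1, w2_of_lt M (show x < M by omega), zero_add]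
  · rw [min_eq_right h1, w2_of_lt M (show i - x < M by omega), add_zero, Nat.sub_sub_self h]

lemma anti (M i x y : ℕ) (hM : 1 ≤ M) (hi : i < 2 * M) (hx : x ≤ i) (hy : y ≤ i) :
    ((wh M i x : ℝ) - wh M i y) * (ra M i x - ra M i y) ≤ 0 := by
  rw [ra_min M i x hx, ra_min M i y hy, wh_min M i x hx hi, wh_min M i y hy hi]
  rcases le_total (min x (i - x)) (min y (i - y)) with h | h
  · have h1 := ra_mono M i hM hi.le _ _ h (by omega)
    have h2 : w2 M (i - min y (i - y)) ≤ w2 M (i - min x (i - x)) := w2_mono M (by omega)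
    have h3 : ((w2 M (i - min y (i - y)) : ℤ) : ℝ) ≤ (w2 M (i - min x (i - x)) : ℤ) := by
      exact_mod_cast h2
    exact mul_nonpos_of_nonneg_of_nonpos (by linarith) (by linarith)
  · have h1 := ra_mono M i hM hi.le _ _ h (by omega)
    have h2 : w2 M (i - min x (i - x)) ≤ w2 M (i - min y (i - y)) := w2_mono M (by omega)
    have h3 : ((w2 M (i - min x (i - x)) : ℤ) : ℝ) ≤ (w2 M (i - min y (i - y)) : ℤ) := by
      exact_mod_cast h2
    exact mul_nonpos_of_nonpos_of_nonneg (by linarith) (by linarith)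

/-- weighted Chebyshev sum inequality -/
lemma chebyshev {ι : Type*} (s : Finset ι) (a f g : ι → ℝ) (ha : ∀ x ∈ s, 0 ≤ a x)
    (h : ∀ x ∈ s, ∀ y ∈ s, (f x - f y) * (g x - g y) ≤ 0) :
    (∑ x ∈ s, a x) * (∑ x ∈ s, f x * (a x * g x)) ≤
      (∑ x ∈ s, f x * a x) * (∑ x ∈ s, a x * g x) := by
  have h1 : ∑ x ∈ s, ∑ y ∈ s, a x * a y * ((f x - f y) * (g x - g y)) ≤ 0 :=
    Finset.sum_nonpos fun x hx => Finset.sum_nonpos fun y hy =>
      mul_nonpos_of_nonneg_of_nonpos (mul_nonneg (ha x hx) (ha y hy)) (h x hx y hy)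
  have h2 : ∑ x ∈ s, ∑ y ∈ s, a x * a y * ((f x - f y) * (g x - g y)) =
      ∑ x ∈ s, ∑ y ∈ s, a y * (f x * (a x * g x)) - ∑ x ∈ s, ∑ y ∈ s, (f x * a x) * (a y * g y)
      - ∑ x ∈ s, ∑ y ∈ s, (f y * a y) * (a x * g x) + ∑ x ∈ s, ∑ y ∈ s, a x * (f y * (a y * g y))
      := by
    rw [← Finset.sum_sub_distrib, ← Finset.sum_sub_distrib, ← Finset.sum_add_distrib]
    refine Finset.sum_congr rfl fun x _ => ?_
    rw [← Finset.sum_sub_distrib, ← Finset.sum_sub_distrib, ← Finset.sum_add_distrib]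
    refine Finset.sum_congr rfl fun y _ => ?_
    ring
  have h3 : ∑ x ∈ s, ∑ y ∈ s, a y * (f x * (a x * g x)) =
      (∑ x ∈ s, a x) * (∑ x ∈ s, f x * (a x * g x)) := by
    rw [Finset.sum_comm, Finset.sum_mul_sum]
  have h4 : ∑ x ∈ s, ∑ y ∈ s, (f y * a y) * (a x * g x) =
      (∑ x ∈ s, f x * a x) * (∑ x ∈ s, a x * g x) := by
    rw [Finset.sum_comm, Finset.sum_mul_sum]
  rw [h2, h3, h4, ← Finset.sum_mul_sum, ← Finset.sum_mul_sum] at h1
  linarith

/-- The negative correlation at the level of coefficients. -/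
theorem neg_corr (M i : ℕ) (hM : 1 ≤ M) (hi : i < 2 * M) :
    (∑ x ∈ range (i + 1), (A M i x : ℝ)) * (∑ x ∈ range (i + 1), (w2 M x : ℝ) * Psi M i x) ≤
      (∑ x ∈ range (i + 1), (w2 M x : ℝ) * A M i x) * (∑ x ∈ range (i + 1), (Psi M i x : ℝ)) := by
  have hra : ∀ x ∈ range (i + 1), (A M i x : ℝ) * ra M i x = Psi M i x := by
    intro x hx
    have p1 : (A M i x : ℝ) ≠ 0 := by
      exact_mod_cast (A_pos M i x (by have := mem_range.1 hx; omega) hi.le).ne'
    rw [ra, mul_div_cancel₀ _ p1]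
  have hc := chebyshev (range (i + 1)) (fun x => (A M i x : ℝ)) (fun x => (wh M i x : ℝ))
    (fun x => ra M i x) (fun x _ => by positivity) (fun x hx y hy =>
      anti M i x y hM hi (by have := mem_range.1 hx; omega) (by have := mem_range.1 hy; omega))
  have hrefl : ∀ F : ℕ → ℝ, (∀ x ≤ i, F (i - x) = F x) →
      ∑ x ∈ range (i + 1), (wh M i x : ℝ) * F x = 2 * ∑ x ∈ range (i + 1), (w2 M x : ℝ) * F x := by
    intro F hF
    have h1 : ∑ x ∈ range (i + 1), (w2 M (i - x) : ℝ) * F x =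
        ∑ x ∈ range (i + 1), (w2 M x : ℝ) * F x := by
      rw [← Finset.sum_range_reflect (fun x => (w2 M x : ℝ) * F x) (i + 1)]
      refine Finset.sum_congr rfl fun x hx => ?_
      have hx' : x ≤ i := by have := mem_range.1 hx; omega
      have e : i + 1 - 1 - x = i - x := by omega
      simp only [e, hF x hx']
    have h2 : ∀ x, (wh M i x : ℝ) * F x = (w2 M x : ℝ) * F x + (w2 M (i - x) : ℝ) * F x := by
      intro x; rw [wh]; push_cast; ring
    simp_rw [h2]
    rw [Finset.sum_add_distrib, h1]; ring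
  rw [hrefl (fun x => (A M i x : ℝ)) (fun x hx => by rw [A_symm M i x hx])] at hc
  have h5 : ∑ x ∈ range (i + 1), (wh M i x : ℝ) * ((A M i x : ℝ) * ra M i x) =
      2 * ∑ x ∈ range (i + 1), (w2 M x : ℝ) * Psi M i x := by
    rw [← hrefl (fun x => (Psi M i x : ℝ)) (fun x hx => by rw [Psi_symm M i x hx])]
    exact Finset.sum_congr rfl fun x hx => by rw [hra x hx]
  rw [h5, Finset.sum_congr rfl hra] at hc
  linarith

end Pool.Agent.RMC53
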