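import Pool.Agent.RMC53.Step

/-!
# The recursion
-/

set_option autoImplicit false

open Finset

namespace Pool.Agent.RMC53

variable {d : ℕ} {ι : Type*} [Fintype ι] [DecidableEq ι]

/-- union bound on `V` -/
theorem union_boundV {χ : ι → Fin d → ℝ} (hχ : ∀ a x, |χ a x| ≤ 1) (V : Finset (Fin d))
    (hV : 0 < #V) (T : ℝ) (hT : 0 ≤ T) :
    (2 : ℝ) ^ d * (1 - 2 * Fintype.card ι * Real.exp (-(T ^ 2 / (2 * #V)))) ≤
      #(goodV χ V T) := by
  classical
  obtain ⟨n, hn⟩ : ∃ n : ℝ, n = #V := ⟨_, rfl⟩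
  have hn0 : (0 : ℝ) < n := by rw [hn]; exact_mod_cast hV
  rw [← hn]
  have h1 : ∀ a : ι, (#{f : Fin d → Bool | T < |W χ V f a|} : ℝ) ≤
      2 ^ d * (2 * Real.exp (-(T ^ 2 / (2 * n)))) := by
    intro a
    have e1 := sum_exp_W hχ V a (T / n)
    have e2 := sum_exp_W hχ V a (-(T / n))
    rw [Fintype.card_fin, ← hn] at e1 e2
    have e3 : n * ((T / n) ^ 2 / 2) = T ^ 2 / (2 * n) := by field_simp
    have e4 : n * ((-(T / n)) ^ 2 / 2) = T ^ 2 / (2 * n) := by field_simp
    rw [e3] at e1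
    rw [e4] at e2
    have h2 : (#{f : Fin d → Bool | T < |W χ V f a|} : ℝ) * Real.exp (T ^ 2 / n) ≤
        ∑ f : Fin d → Bool, (Real.exp (T / n * W χ V f a) +
          Real.exp (-(T / n) * W χ V f a)) := by
      rw [← nsmul_eq_mul]
      refine (Finset.card_nsmul_le_sum _ (fun f => Real.exp (T / n * W χ V f a) +
          Real.exp (-(T / n) * W χ V f a)) _ ?_).trans ?_
      · intro f hf
        rw [mem_filter] at hf
        have h3 : T ^ 2 / n ≤ T / n * |W χ V f a| := by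
          have : T ^ 2 / n = T / n * T := by ring
          rw [this]
          exact mul_le_mul_of_nonneg_left hf.2.le (by positivity)
        rcases abs_cases (W χ V f a) with ⟨h, _⟩ | ⟨h, _⟩
        · rw [h] at h3
          have := Real.exp_le_exp.2 h3
          linarith [Real.exp_pos (-(T / n) * W χ V f a)]
        · rw [h] at h3
          have e : T / n * -W χ V f a = -(T / n) * W χ V f a := by ring
          rw [e] at h3
          have := Real.exp_le_exp.2 h3
          linarith [Real.exp_pos (T / n * W χ V f a)]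
      · exact Finset.sum_le_sum_of_subset_of_nonneg (filter_subset _ _) fun f _ _ => by
          positivity
    rw [Finset.sum_add_distrib] at h2
    have h4 : (#{f : Fin d → Bool | T < |W χ V f a|} : ℝ) * Real.exp (T ^ 2 / n) ≤
        2 ^ d * (2 * Real.exp (-(T ^ 2 / (2 * n)))) * Real.exp (T ^ 2 / n) := by
      refine h2.trans ((add_le_add e1 e2).trans (le_of_eq ?_))
      rw [mul_assoc (2 ^ d), mul_assoc 2, ← Real.exp_add]
      have : -(T ^ 2 / (2 * n)) + T ^ 2 / n = T ^ 2 / (2 * n) := by field_simp; ring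
      rw [this]; ring
    exact le_of_mul_le_mul_right h4 (Real.exp_pos _)
  have h2 : (univ : Finset (Fin d → Bool)) ⊆ goodV χ V T ∪
      (univ : Finset ι).biUnion (fun a => univ.filter (fun f : Fin d → Bool =>
        T < |W χ V f a|)) := by
    intro f _
    rw [mem_union, mem_goodV, mem_biUnion]
    by_cases h : ∀ a, |W χ V f a| ≤ T
    · exact Or.inl h
    · push Not at h
      obtain ⟨a, ha⟩ := h
      exact Or.inr ⟨a, mem_univ _, mem_filter.2 ⟨mem_univ _, ha⟩⟩
  have h3 := (card_le_card h2).trans ((card_union_le _ _).trans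
    (Nat.add_le_add_left card_biUnion_le _))
  have h4 : (2 : ℝ) ^ d ≤ #(goodV χ V T) + ∑ a : ι, (#(univ.filter (fun f : Fin d → Bool =>
      T < |W χ V f a|)) : ℝ) := by
    have h5 : ((#(univ : Finset (Fin d → Bool)) : ℕ) : ℝ) = 2 ^ d := by
      rw [card_univ, card_bool, Fintype.card_fin]
    rw [← h5]
    exact_mod_cast h3
  have h5 : ∑ a : ι, (#(univ.filter (fun f : Fin d → Bool => T < |W χ V f a|)) : ℝ) ≤
      Fintype.card ι * (2 ^ d * (2 * Real.exp (-(T ^ 2 / (2 * n))))) := by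
    refine (Finset.sum_le_card_nsmul _ _ _ fun a _ => h1 a).trans (le_of_eq ?_)
    rw [nsmul_eq_mul, card_univ]
  nlinarith

lemma exp_K10 (K : ℝ) (hK : 10 ≤ K) : 1500 * K ^ 10 ≤ Real.exp (3 * K ^ 2 / 8) := by
  have hv : 1 ≤ K ^ 2 / 100 := by nlinarith
  obtain ⟨v, hvd⟩ : ∃ v : ℝ, v = K ^ 2 / 100 := ⟨_, rfl⟩
  rw [← hvd] at hv
  have e1 : K ^ 10 = 10 ^ 10 * v ^ 5 := by rw [hvd]; ring
  have e2 : Real.exp (3 * K ^ 2 / 8) = Real.exp (7.5 * v) ^ 5 := by
    rw [← Real.exp_nat_mul, hvd]; congr 1; push_cast; ring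
  have h0 := Real.exp_one_gt_d9
  have h1 : (1700 : ℝ) ≤ Real.exp 7.5 := by
    have h2 : Real.exp 7.5 = Real.exp 0.5 * Real.exp 1 ^ 7 := by
      rw [← Real.exp_nat_mul, ← Real.exp_add]; norm_num
    have h3 := Real.add_one_le_exp (0.5 : ℝ)
    have h4 : (2.718 : ℝ) ^ 7 ≤ Real.exp 1 ^ 7 :=
      pow_le_pow_left₀ (by norm_num) (by linarith) 7
    rw [h2]
    calc (1700 : ℝ) ≤ 1.6 * 2.718 ^ 7 := by norm_num
      _ ≤ Real.exp 0.5 * Real.exp 1 ^ 7 := by
        refine mul_le_mul ?_ h4 (by norm_num) (Real.exp_pos _).le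
        have h5 := Real.quadratic_le_exp_of_nonneg (show (0 : ℝ) ≤ 0.5 by norm_num)
        norm_num at h5 ⊢
        linarith
  have h2 : 1700 * v ≤ Real.exp (7.5 * v) := by
    have h3 : Real.exp (7.5 * v) = Real.exp 7.5 * Real.exp (7.5 * (v - 1)) := by
      rw [← Real.exp_add]; congr 1; ring
    have h4 := Real.add_one_le_exp (7.5 * (v - 1))
    have h5 : v ≤ Real.exp (7.5 * (v - 1)) := by linarith
    rw [h3]
    exact mul_le_mul h1 h5 (by linarith) (Real.exp_pos _).le
  rw [e1, e2]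
  calc 1500 * (10 ^ 10 * v ^ 5) ≤ (1700 * v) ^ 5 := by
        rw [mul_pow]
        have : (0 : ℝ) ≤ v ^ 5 := by positivity
        nlinarith
    _ ≤ Real.exp (7.5 * v) ^ 5 := pow_le_pow_left₀ (by positivity) h2 5

lemma exp_y3 (y : ℝ) (hy : 400 ≤ y) : y ^ 3 ≤ Real.exp (3 * y / 32) := by
  have h0 := Real.exp_one_gt_d9
  have h1 : (400 : ℝ) ≤ Real.exp 12.5 := by
    have h2 : Real.exp 12.5 = Real.exp 0.5 * Real.exp 1 ^ 12 := by
      rw [← Real.exp_nat_mul, ← Real.exp_add]; norm_num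
    have h3 := Real.add_one_le_exp (0.5 : ℝ)
    have h4 : (2 : ℝ) ^ 12 ≤ Real.exp 1 ^ 12 :=
      pow_le_pow_left₀ (by norm_num) (by linarith) 12
    rw [h2]
    calc (400 : ℝ) ≤ 1 * 2 ^ 12 := by norm_num
      _ ≤ Real.exp 0.5 * Real.exp 1 ^ 12 := by
        refine mul_le_mul ?_ h4 (by norm_num) (Real.exp_pos _).le
        linarith
  have h2 : y ≤ Real.exp (y / 32) := by
    have h3 : Real.exp (y / 32) = Real.exp 12.5 * Real.exp ((y - 400) / 32) := by
      rw [← Real.exp_add]; congr 1; ring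
    have h4 := Real.add_one_le_exp ((y - 400) / 32)
    have h5 : 400 * ((y - 400) / 32 + 1) ≤ Real.exp 12.5 * Real.exp ((y - 400) / 32) :=
      mul_le_mul h1 h4 (by linarith) (Real.exp_pos _).le
    rw [h3]
    linarith
  have e2 : Real.exp (3 * y / 32) = Real.exp (y / 32) ^ 3 := by
    rw [← Real.exp_nat_mul]; congr 1; push_cast; ring
  rw [e2]
  exact pow_le_pow_left₀ (by linarith) h2 3

lemma goodV_empty (χ : ι → Fin d → ℝ) (t : ℝ) (ht : 0 ≤ t) :
    (#(goodV χ ∅ t) : ℝ) = 2 ^ d := by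
  have : goodV χ ∅ t = univ := by
    ext f
    rw [mem_goodV]
    simp [W, ht]
  rw [this, card_univ, card_bool, Fintype.card_fin]

theorem recur {χ : ι → Fin d → ℝ} (hχ : ∀ a x, |χ a x| ≤ 1) :
    ∀ (n : ℕ) (V : Finset (Fin d)), #V = n → 0 < n → ∀ K : ℝ, 10 ≤ K →
      (Fintype.card ι : ℝ) * Real.exp (-(K ^ 2 / 8)) ≤ n →
      (2 : ℝ) ^ d * Real.exp (-(180 * Fintype.card ι * K ^ 6 * Real.exp (-(K ^ 2 / 2)))) ≤
        #(goodV χ V (K * √n)) := by
  intro n
  induction n using Nat.strong_induction_on with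
  | _ n ih =>
  intro V hVn hn K hK hNn
  obtain ⟨N, hN⟩ : ∃ N : ℝ, N = Fintype.card ι := ⟨_, rfl⟩
  have hN0 : 0 ≤ N := by rw [hN]; exact Nat.cast_nonneg _
  rw [← hN] at hNn ⊢
  have hn0 : (0 : ℝ) < n := by exact_mod_cast hn
  have hV0 : 0 < #V := by rw [hVn]; exact hn
  have hsn : 0 < √(n : ℝ) := Real.sqrt_pos.2 hn0
  have hsq : √(n : ℝ) ^ 2 = n := Real.sq_sqrt hn0.le
  have h2d : (0 : ℝ) < 2 ^ d := by positivity
  have hK0 : 0 < K := by linarith
  have hK2 : 100 ≤ K ^ 2 := by nlinarith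
  have hK4 : 10000 ≤ K ^ 4 := by nlinarith [sq_nonneg (K ^ 2)]
  have hK6 : 1000000 ≤ K ^ 6 := by
    calc (1000000 : ℝ) = 10 ^ 6 := by norm_num
      _ ≤ K ^ 6 := pow_le_pow_left₀ (by norm_num) hK 6
  obtain ⟨u, hu⟩ : ∃ u : ℝ, u = N * Real.exp (-(K ^ 2 / 2)) := ⟨_, rfl⟩
  have hu0 : 0 ≤ u := by rw [hu]; positivity
  have eu : 180 * N * K ^ 6 * Real.exp (-(K ^ 2 / 2)) = 180 * (K ^ 6 * u) := by rw [hu]; ring
  rw [eu]
  by_cases hcase : u ≤ 1 / 4
  · -- union bound
    have hub := union_boundV hχ V hV0 (K * √(n : ℝ)) (by positivity)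
    have e1 : (K * √(n : ℝ)) ^ 2 / (2 * #V) = K ^ 2 / 2 := by
      rw [mul_pow, hsq, hVn]; field_simp
    rw [e1, ← hN] at hub
    refine le_trans (mul_le_mul_of_nonneg_left ?_ h2d.le) hub
    have e2 : 1 - 2 * N * Real.exp (-(K ^ 2 / 2)) = 1 - 2 * u := by rw [hu]; ring
    rw [e2]
    have h1 : Real.exp (-(4 * u)) ≤ 1 - 2 * u := by
      rw [Real.exp_neg, inv_le_comm₀ (Real.exp_pos _) (by linarith)]
      have h2 := Real.add_one_le_exp (4 * u)
      have h3 : (1 - 2 * u)⁻¹ ≤ 1 + 4 * u := by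
        rw [inv_le_comm₀ (by linarith) (by linarith), inv_le_iff_one_le_mul₀ (by linarith)]
        nlinarith
      linarith
    refine le_trans (Real.exp_le_exp.2 ?_) h1
    have h5 : 1 * u ≤ K ^ 6 * u := mul_le_mul_of_nonneg_right (by linarith) hu0
    linarith
  · push Not at hcase
    have hKi : 0 < 1 / K := by positivity
    have hKi1 : 1 / K ≤ 1 / 10 := by
      apply one_div_le_one_div_of_le <;> linarith
    have hKK : K * (1 / K) = 1 := by field_simp
    obtain ⟨c, hc⟩ : ∃ c : ℝ, c = 1 / K := ⟨_, rfl⟩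
    rw [← hc] at hKi hKi1 hKK
    have hcsq : (K - c) ^ 2 = K ^ 2 - 2 + c ^ 2 := by
      have : (K - c) ^ 2 = K ^ 2 - 2 * (K * c) + c ^ 2 := by ring
      rw [this, hKK]; ring
    have hT0 : 0 < (K - c) * √(n : ℝ) := mul_pos (by linarith) hsn
    have hTsq : ((K - c) * √(n : ℝ)) ^ 2 = (K - c) ^ 2 * n := by rw [mul_pow, hsq]
    have hL3 : 3 ≤ Real.exp (K ^ 2 / 2) := by
      have := Real.add_one_le_exp (K ^ 2 / 2)
      linarith
    obtain ⟨S, hS1, hS2⟩ := big_class (L := K ^ 2 / 2) hχ V hT0 hV0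
      (by
        rw [hVn, hTsq, hcsq]
        exact mul_le_mul_of_nonneg_right (by linarith [sq_nonneg c]) hn0.le) hL3
    rw [hVn, hTsq, Fintype.card_fin, ← hN] at hS2
    have e1 : (K - c) ^ 2 * (n : ℝ) / (2 * n) = (K - c) ^ 2 / 2 := by field_simp
    rw [e1] at hS2
    -- the entropy
    have hξ : 4 * (K ^ 2 / 2) * N * Real.exp (-((K - c) ^ 2 / 2)) +
        3 * Real.exp (-(K ^ 2 / 2)) * N ≤ 5.48 * K ^ 2 * u := by
      have h1 : Real.exp (-((K - c) ^ 2 / 2)) ≤ Real.exp 1 * Real.exp (-(K ^ 2 / 2)) := by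
        rw [← Real.exp_add]
        apply Real.exp_le_exp.2
        rw [hcsq]
        linarith [sq_nonneg c]
      have h2 := Real.exp_one_lt_d9
      have h3 : Real.exp (-((K - c) ^ 2 / 2)) ≤ 2.72 * Real.exp (-(K ^ 2 / 2)) :=
        h1.trans (mul_le_mul_of_nonneg_right (by linarith) (Real.exp_pos _).le)
      calc 4 * (K ^ 2 / 2) * N * Real.exp (-((K - c) ^ 2 / 2)) +
            3 * Real.exp (-(K ^ 2 / 2)) * N
          ≤ 4 * (K ^ 2 / 2) * N * (2.72 * Real.exp (-(K ^ 2 / 2))) +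
            3 * Real.exp (-(K ^ 2 / 2)) * N := by gcongr
        _ = (5.44 * K ^ 2 + 3) * u := by rw [hu]; ring
        _ ≤ 5.48 * K ^ 2 * u := by
            refine mul_le_mul_of_nonneg_right ?_ hu0
            linarith
    have hs1 : Real.exp (-(5.52 * K ^ 2 * u)) ≤ (#S : ℝ) / 2 ^ d := by
      rw [le_div_iff₀ h2d]
      have h1 : (2 : ℝ) ^ d ≤ 2 * #S * Real.exp (5.48 * K ^ 2 * u) :=
        hS2.trans (mul_le_mul_of_nonneg_left (Real.exp_le_exp.2 hξ) (by positivity))
      have h2 : 2 * Real.exp (5.48 * K ^ 2 * u) ≤ Real.exp (5.52 * K ^ 2 * u) := by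
        have h3 : Real.exp (5.52 * K ^ 2 * u) =
            Real.exp (0.04 * K ^ 2 * u) * Real.exp (5.48 * K ^ 2 * u) := by
          rw [← Real.exp_add]; congr 1; ring
        have h4 := Real.add_one_le_exp (0.04 * K ^ 2 * u)
        rw [h3]
        refine mul_le_mul_of_nonneg_right ?_ (Real.exp_pos _).le
        have h5 : 100 * (1 / 4) ≤ K ^ 2 * u :=
          mul_le_mul hK2 hcase.le (by norm_num) (by positivity)
        linarith
      calc Real.exp (-(5.52 * K ^ 2 * u)) * 2 ^ d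
          ≤ Real.exp (-(5.52 * K ^ 2 * u)) * (2 * #S * Real.exp (5.48 * K ^ 2 * u)) :=
            mul_le_mul_of_nonneg_left h1 (Real.exp_pos _).le
        _ = #S * (Real.exp (-(5.52 * K ^ 2 * u)) * (2 * Real.exp (5.48 * K ^ 2 * u))) := by ring
        _ ≤ #S * (Real.exp (-(5.52 * K ^ 2 * u)) * Real.exp (5.52 * K ^ 2 * u)) := by gcongr
        _ = #S := by rw [← Real.exp_add]; simp
    -- the number k
    obtain ⟨k, hk⟩ : ∃ k : ℕ, k = ⌈16 * K ^ 4⌉₊ := ⟨_, rfl⟩
    have hk1 : 16 * K ^ 4 ≤ k := by rw [hk]; exact Nat.le_ceil _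
    have hk2 : (k : ℝ) ≤ 16.01 * K ^ 4 := by
      have h1 : (k : ℝ) < 16 * K ^ 4 + 1 := by
        rw [hk]; exact Nat.ceil_lt_add_one (by positivity)
      linarith
    have hk0 : (0 : ℝ) < k := by linarith
    have hk3 : 2 ≤ k := by
      have : (2 : ℝ) ≤ k := by linarith
      exact_mod_cast this
    obtain ⟨w, hw⟩ : ∃ w : ℝ, w = K ^ 6 * u := ⟨_, rfl⟩
    have hw1 : 1 ≤ w := by
      have h1 : 1000000 * (1 / 4) ≤ K ^ 6 * u :=
        mul_le_mul hK6 hcase.le (by norm_num) (by positivity)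
      rw [hw]
      linarith
    rw [← hw]
    have hs2 : Real.exp (-(177 * w)) ≤ ((#S : ℝ) / 2 ^ d) ^ (2 * k) := by
      refine le_trans ?_ (pow_le_pow_left₀ (Real.exp_pos _).le hs1 (2 * k))
      rw [← Real.exp_nat_mul]
      apply Real.exp_le_exp.2
      push_cast
      have h1 : 2 * (k : ℝ) * (5.52 * K ^ 2 * u) ≤ 2 * (16.01 * K ^ 4) * (5.52 * K ^ 2 * u) := by
        gcongr
      have h2 : 2 * (16.01 * K ^ 4) * (5.52 * K ^ 2 * u) = 176.7504 * (K ^ 6 * u) := by ring
      rw [h2, ← hw] at h1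
      linarith
    have hτ : Real.exp (-(4 * n / k) + (Real.exp 1 - 1) * #V / k) ≤ Real.exp (-(178 * w)) := by
      apply Real.exp_le_exp.2
      rw [hVn]
      have h2 := Real.exp_one_lt_d9
      have h3 : -(4 * (n : ℝ) / k) + (Real.exp 1 - 1) * n / k = -((5 - Real.exp 1) * n / k) := by
        ring
      rw [h3, neg_le_neg_iff, le_div_iff₀ hk0]
      have h4 : u * (1500 * K ^ 10) ≤ n := by
        have h5 := exp_K10 K hK
        have h6 : N * Real.exp (-(K ^ 2 / 8)) = u * Real.exp (3 * K ^ 2 / 8) := by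
          rw [hu, mul_assoc, ← Real.exp_add]; congr 2; ring
        rw [h6] at hNn
        exact (mul_le_mul_of_nonneg_left h5 hu0).trans hNn
      calc 178 * w * k ≤ 178 * w * (16.01 * K ^ 4) := by gcongr
        _ = 2849.78 * (u * K ^ 10) := by rw [hw]; ring
        _ ≤ 2.28 * (u * (1500 * K ^ 10)) := by
            have : 0 ≤ u * K ^ 10 := by positivity
            linarith
        _ ≤ 2.28 * n := by linarith
        _ ≤ (5 - Real.exp 1) * n := by
            refine mul_le_mul_of_nonneg_right ?_ hn0.le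
            linarith
    -- the small sets
    have hZ : ∀ Z ⊆ V, (#Z : ℝ) ≤ 4 * n / k →
        Real.exp (-w) * 2 ^ d ≤ #(goodV χ Z (c * √(n : ℝ))) := by
      intro Z _ hZ
      rcases Z.eq_empty_or_nonempty with h | h
      · rw [h, goodV_empty χ _ (by positivity)]
        have h1 : Real.exp (-w) ≤ 1 := Real.exp_le_one_iff.2 (by linarith)
        have h2 := mul_le_mul_of_nonneg_right h1 h2d.le
        linarith
      · have hz0 : 0 < #Z := card_pos.2 h
        have hz0r : (0 : ℝ) < #Z := by exact_mod_cast hz0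
        have hzn : (#Z : ℝ) * (4 * K ^ 4) ≤ n := by
          rw [le_div_iff₀ hk0] at hZ
          have : (#Z : ℝ) * (16 * K ^ 4) ≤ #Z * k := by gcongr
          linarith
        have hsz : 0 < √(#Z : ℝ) := Real.sqrt_pos.2 hz0r
        have hszq : √(#Z : ℝ) ^ 2 = #Z := Real.sq_sqrt hz0r.le
        obtain ⟨Kz, hKz⟩ : ∃ Kz : ℝ, Kz = c * √(n : ℝ) / √(#Z : ℝ) := ⟨_, rfl⟩
        have hKz0 : 0 < Kz := by rw [hKz]; positivity
        have hKzt : Kz * √(#Z : ℝ) = c * √(n : ℝ) := by rw [hKz]; field_simp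
        have hKzsq : Kz ^ 2 * #Z * K ^ 2 = n := by
          calc Kz ^ 2 * #Z * K ^ 2 = (Kz * √(#Z : ℝ)) ^ 2 * K ^ 2 := by rw [mul_pow, hszq]
            _ = (K * c) ^ 2 * √(n : ℝ) ^ 2 := by rw [hKzt]; ring
            _ = n := by rw [hKK, hsq]; ring
        have hKz4 : 4 * K ^ 2 ≤ Kz ^ 2 := by
          have h1 : (#Z : ℝ) * K ^ 2 * (4 * K ^ 2) ≤ #Z * K ^ 2 * Kz ^ 2 := by
            calc (#Z : ℝ) * K ^ 2 * (4 * K ^ 2) = #Z * (4 * K ^ 4) := by ring
              _ ≤ (n : ℝ) := hzn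
              _ = #Z * K ^ 2 * Kz ^ 2 := by rw [← hKzsq]; ring
          exact le_of_mul_le_mul_left h1 (by positivity)
        obtain ⟨y, hy⟩ : ∃ y : ℝ, y = Kz ^ 2 := ⟨_, rfl⟩
        have hy400 : 400 ≤ y := by rw [hy]; linarith
        have hyK : 4 * K ^ 2 ≤ y := by rw [hy]; exact hKz4
        have hexpy := exp_y3 y hy400
        have hKz10 : 10 ≤ Kz := le_of_sq_le_sq (by linarith : (10 : ℝ) ^ 2 ≤ Kz ^ 2) hKz0.le
        have hlt : #Z < n := by
          have h1 : (#Z : ℝ) < n := by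
            have h2 := mul_le_mul_of_nonneg_left (show (40000 : ℝ) ≤ 4 * K ^ 4 by linarith) hz0r.le
            linarith
          exact_mod_cast h1
        have hcond : (Fintype.card ι : ℝ) * Real.exp (-(Kz ^ 2 / 8)) ≤ #Z := by
          rw [← hN, ← hy]
          have h1 : N * Real.exp (-(y / 8)) * (y * K ^ 2) ≤ #Z * (y * K ^ 2) := by
            have h2 : (#Z : ℝ) * (y * K ^ 2) = n := by rw [hy, ← hKzsq]; ring
            rw [h2]
            refine le_trans ?_ hNn
            rw [mul_assoc]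
            refine mul_le_mul_of_nonneg_left ?_ hN0
            have h3 : Real.exp (-(y / 32)) ≤ Real.exp (-(K ^ 2 / 8)) :=
              Real.exp_le_exp.2 (by linarith)
            refine le_trans ?_ h3
            have h4 : y * K ^ 2 ≤ Real.exp (3 * y / 32) := by
              refine le_trans ?_ hexpy
              have h5 : y * K ^ 2 ≤ y * y := by
                refine mul_le_mul_of_nonneg_left ?_ (by linarith)
                linarith [sq_nonneg K]
              have h6 : y * y ≤ y ^ 3 := by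
                rw [← sq]
                exact pow_le_pow_right₀ (by linarith) (by norm_num)
              linarith
            calc Real.exp (-(y / 8)) * (y * K ^ 2)
                ≤ Real.exp (-(y / 8)) * Real.exp (3 * y / 32) :=
                  mul_le_mul_of_nonneg_left h4 (Real.exp_pos _).le
              _ = Real.exp (-(y / 32)) := by rw [← Real.exp_add]; congr 1; ring
          exact le_of_mul_le_mul_right h1 (by positivity)
        have hrec := ih #Z hlt Z rfl hz0 Kz hKz10 hcond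
        rw [hKzt] at hrec
        refine le_trans ?_ hrec
        rw [mul_comm]
        refine mul_le_mul_of_nonneg_left ?_ h2d.le
        apply Real.exp_le_exp.2
        rw [neg_le_neg_iff, ← hN]
        have h1 : Kz ^ 6 * Real.exp (-(Kz ^ 2 / 2)) ≤ Real.exp (-(K ^ 2 / 2)) := by
          have h2 : Kz ^ 6 = y ^ 3 := by rw [hy]; ring
          rw [h2, ← hy]
          calc y ^ 3 * Real.exp (-(y / 2)) ≤ Real.exp (3 * y / 32) * Real.exp (-(y / 2)) :=
                mul_le_mul_of_nonneg_right hexpy (Real.exp_pos _).le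
            _ = Real.exp (3 * y / 32 + -(y / 2)) := by rw [Real.exp_add]
            _ ≤ Real.exp (-(K ^ 2 / 2)) := Real.exp_le_exp.2 (by linarith)
        calc 180 * N * Kz ^ 6 * Real.exp (-(Kz ^ 2 / 2))
            = 180 * N * (Kz ^ 6 * Real.exp (-(Kz ^ 2 / 2))) := by ring
          _ ≤ 180 * N * Real.exp (-(K ^ 2 / 2)) := by gcongr
          _ = 180 * u := by rw [hu]; ring
          _ ≤ w := by rw [hw]; exact mul_le_mul_of_nonneg_right (by linarith) hu0
    have hfin := merge_step k hk3 V ((K - c) * √(n : ℝ)) (c * √(n : ℝ)) (Real.exp (-w))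
      (4 * n / k) (Real.exp_pos _).le S hS1 hZ
    have e2 : (K - c) * √(n : ℝ) + c * √(n : ℝ) = K * √(n : ℝ) := by ring
    rw [e2] at hfin
    refine le_trans ?_ hfin
    have h1 : Real.exp (-(178 * w)) ≤ ((#S : ℝ) / 2 ^ d) ^ (2 * k) -
        Real.exp (-(4 * n / k) + (Real.exp 1 - 1) * #V / k) := by
      have h2 : 2 * Real.exp (-(178 * w)) ≤ Real.exp (-(177 * w)) := by
        have h3 : Real.exp (-(177 * w)) = Real.exp w * Real.exp (-(178 * w)) := by
          rw [← Real.exp_add]; congr 1; ring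
        have h4 := Real.add_one_le_exp w
        rw [h3]
        exact mul_le_mul_of_nonneg_right (by linarith) (Real.exp_pos _).le
      linarith
    calc 2 ^ d * Real.exp (-(180 * w)) ≤ 2 ^ d * Real.exp (-(179 * w)) := by
          refine mul_le_mul_of_nonneg_left (Real.exp_le_exp.2 ?_) h2d.le
          linarith
      _ = Real.exp (-w) * 2 ^ d * Real.exp (-(178 * w)) := by
          rw [mul_comm (Real.exp (-w)), mul_assoc, ← Real.exp_add]; congr 2; ring
      _ ≤ _ := mul_le_mul_of_nonneg_left h1 (by positivity)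

end Pool.Agent.RMC53
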