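import Pool.Agent.RMC53.RH

/-!
# From a large class to many small colourings
-/

set_option autoImplicit false

open Finset

namespace Pool.Agent.RMC53

/-- merging two colourings on the set where they agree -/
lemma W_merge {α ι : Type*} [Fintype α] [DecidableEq α] (χ : ι → α → ℝ) (V : Finset α)
    (f g e : α → Bool) (a : ι) :
    W χ V (fun x => if x ∈ V.filter (fun x => f x = g x) then e x else f x) a =
      W χ (V.filter (fun x => f x = g x)) e a + (W χ V f a - W χ V g a) / 2 := by
  classical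
  set Z := V.filter (fun x => f x = g x) with hZdef
  have hZV : Z ⊆ V := filter_subset _ _
  have h1 : W χ V (fun x => if x ∈ Z then e x else f x) a =
      W χ Z e a + ∑ x ∈ V \ Z, χ a x * sb (f x) := by
    rw [W, ← Finset.sum_sdiff hZV, add_comm]
    congr 1
    · rw [W]
      exact Finset.sum_congr rfl fun x hx => by rw [if_pos hx]
    · refine Finset.sum_congr rfl fun x hx => ?_
      rw [if_neg (mem_sdiff.1 hx).2]
  have h2 : W χ V f a - W χ V g a = 2 * ∑ x ∈ V \ Z, χ a x * sb (f x) := by
    rw [W, W, ← Finset.sum_sub_distrib, ← Finset.sum_sdiff hZV, Finset.mul_sum]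
    have h3 : ∑ x ∈ Z, (χ a x * sb (f x) - χ a x * sb (g x)) = 0 := by
      refine Finset.sum_eq_zero fun x hx => ?_
      rw [hZdef, mem_filter] at hx
      rw [hx.2, sub_self]
    rw [h3, add_zero]
    refine Finset.sum_congr rfl fun x hx => ?_
    rw [mem_sdiff, hZdef, mem_filter] at hx
    have h4 : f x ≠ g x := fun h5 => hx.2 ⟨hx.1, h5⟩
    have h5 : sb (g x) = - sb (f x) := by
      cases h6 : f x <;> cases h7 : g x <;> simp_all [sb]
    rw [h5]; ring
  rw [h1, h2]; ring

variable {d : ℕ} {ι : Type*} [Fintype ι] [DecidableEq ι]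

open Classical in
/-- the colourings with all sums over `V` at most `T` -/
noncomputable def goodV (χ : ι → Fin d → ℝ) (V : Finset (Fin d)) (T : ℝ) :
    Finset (Fin d → Bool) := {f | ∀ a, |W χ V f a| ≤ T}

lemma mem_goodV (χ : ι → Fin d → ℝ) (V : Finset (Fin d)) (T : ℝ) (f : Fin d → Bool) :
    f ∈ goodV χ V T ↔ ∀ a, |W χ V f a| ≤ T := by
  simp [goodV]

/-- take `X` where `X = Y` and `e` elsewhere -/
def merge (X Y e : Fin d → Bool) : Fin d → Bool := fun x => if X x = Y x then X x else e x

lemma wt_nonneg {k : ℕ} (hk : 1 ≤ k) (X Y : Fin d → Bool) : 0 ≤ wt k X Y := by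
  have : (1 : ℝ) ≤ k := by exact_mod_cast hk
  refine Finset.prod_nonneg fun x _ => ?_
  split_ifs <;> linarith

lemma triple_prod (φ : Fin d → Bool → Bool → Bool → ℝ) :
    ∑ X : Fin d → Bool, ∑ Y : Fin d → Bool, ∑ e : Fin d → Bool,
      ∏ x, φ x (X x) (Y x) (e x) = ∏ x, ∑ a, ∑ b, ∑ c, φ x a b c := by
  have h1 : ∀ X Y : Fin d → Bool, ∑ e : Fin d → Bool, ∏ x, φ x (X x) (Y x) (e x) =
      ∏ x, ∑ c, φ x (X x) (Y x) c := by
    intro X Y
    rw [sum_prod (fun x c => φ x (X x) (Y x) c)]
    exact Finset.prod_congr rfl fun x _ => by rw [Fintype.sum_bool]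
  have h2 : ∀ X : Fin d → Bool, ∑ Y : Fin d → Bool, ∏ x, ∑ c, φ x (X x) (Y x) c =
      ∏ x, ∑ b, ∑ c, φ x (X x) b c := by
    intro X
    rw [sum_prod (fun x b => ∑ c, φ x (X x) b c)]
    exact Finset.prod_congr rfl fun x _ => by simp only [Fintype.sum_bool]
  simp_rw [h1, h2]
  rw [sum_prod (fun x a => ∑ b, ∑ c, φ x a b c)]
  exact Finset.prod_congr rfl fun x _ => by simp only [Fintype.sum_bool]

lemma double_prod (φ : Fin d → Bool → Bool → ℝ) :
    ∑ X : Fin d → Bool, ∑ Y : Fin d → Bool, ∏ x, φ x (X x) (Y x) =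
      ∏ x, ∑ a, ∑ b, φ x a b := by
  have h2 : ∀ X : Fin d → Bool, ∑ Y : Fin d → Bool, ∏ x, φ x (X x) (Y x) =
      ∏ x, ∑ b, φ x (X x) b := by
    intro X
    rw [sum_prod (fun x b => φ x (X x) b)]
    exact Finset.prod_congr rfl fun x _ => by rw [Fintype.sum_bool]
  simp_rw [h2]
  rw [sum_prod (fun x a => ∑ b, φ x a b)]
  exact Finset.prod_congr rfl fun x _ => by simp only [Fintype.sum_bool]

/-- the merged colouring is uniform -/
lemma sum_merge (k : ℕ) (G : (Fin d → Bool) → ℝ) :
    ∑ X : Fin d → Bool, ∑ Y : Fin d → Bool, ∑ e : Fin d → Bool, wt k X Y * G (merge X Y e) =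
      (2 * (k : ℝ)) ^ d * ∑ f, G f := by
  classical
  have h1 : ∀ X Y e : Fin d → Bool, wt k X Y * G (merge X Y e) =
      ∑ f : Fin d → Bool, G f * ∏ x, ((if X x = Y x then ((k : ℝ) - 1) else 1) *
        (if (if X x = Y x then X x else e x) = f x then 1 else 0)) := by
    intro X Y e
    rw [Finset.sum_eq_single (merge X Y e)]
    · rw [Finset.prod_mul_distrib]
      have : ∏ x, (if (if X x = Y x then X x else e x) = merge X Y e x then (1 : ℝ) else 0) = 1 := by
        apply Finset.prod_eq_one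
        intro x _
        exact if_pos (show (if X x = Y x then X x else e x) = merge X Y e x from rfl)
      rw [this, mul_one, wt, mul_comm]
    · intro f _ hf
      have hx : ∃ x, merge X Y e x ≠ f x := by
        by_contra hcon
        push Not at hcon
        exact hf (funext fun x => (hcon x).symm)
      obtain ⟨x, hx⟩ := hx
      rw [Finset.prod_eq_zero (mem_univ x), mul_zero]
      have : ¬ ((if X x = Y x then X x else e x) = f x) := hx
      rw [if_neg this, mul_zero]
    · intro h; exact absurd (mem_univ _) h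
  simp_rw [h1]
  have h2 : ∑ X : Fin d → Bool, ∑ Y : Fin d → Bool, ∑ e : Fin d → Bool,
      ∑ f : Fin d → Bool, G f * ∏ x, ((if X x = Y x then ((k : ℝ) - 1) else 1) *
        (if (if X x = Y x then X x else e x) = f x then 1 else 0)) =
      ∑ f : Fin d → Bool, G f * ∑ X : Fin d → Bool, ∑ Y : Fin d → Bool, ∑ e : Fin d → Bool,
        ∏ x, ((if X x = Y x then ((k : ℝ) - 1) else 1) *
        (if (if X x = Y x then X x else e x) = f x then 1 else 0)) := by
    simp_rw [Finset.mul_sum]
    have e1 : ∀ X : Fin d → Bool, (∑ Y : Fin d → Bool, ∑ e : Fin d → Bool,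
        ∑ f : Fin d → Bool, G f * ∏ x, ((if X x = Y x then ((k : ℝ) - 1) else 1) *
        (if (if X x = Y x then X x else e x) = f x then 1 else 0))) =
        ∑ f : Fin d → Bool, ∑ Y : Fin d → Bool, ∑ e : Fin d → Bool,
        G f * ∏ x, ((if X x = Y x then ((k : ℝ) - 1) else 1) *
        (if (if X x = Y x then X x else e x) = f x then 1 else 0)) := by
      intro X
      have e2 : ∀ Y : Fin d → Bool, (∑ e : Fin d → Bool,
        ∑ f : Fin d → Bool, G f * ∏ x, ((if X x = Y x then ((k : ℝ) - 1) else 1) *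
        (if (if X x = Y x then X x else e x) = f x then 1 else 0))) =
        ∑ f : Fin d → Bool, ∑ e : Fin d → Bool,
        G f * ∏ x, ((if X x = Y x then ((k : ℝ) - 1) else 1) *
        (if (if X x = Y x then X x else e x) = f x then 1 else 0)) := fun Y => Finset.sum_comm
      simp_rw [e2]
      rw [Finset.sum_comm]
    simp_rw [e1]
    rw [Finset.sum_comm]
  rw [h2, Finset.mul_sum]
  refine Finset.sum_congr rfl fun f _ => ?_
  rw [triple_prod (fun x a b c => (if a = b then ((k : ℝ) - 1) else 1) *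
    (if (if a = b then a else c) = f x then 1 else 0))]
  have h3 : ∀ x : Fin d, (∑ a, ∑ b, ∑ c, (if a = b then ((k : ℝ) - 1) else 1) *
      (if (if a = b then a else c) = f x then (1 : ℝ) else 0)) = 2 * k := by
    intro x
    simp only [Fintype.sum_bool]
    cases f x
    · simp; ring
    · simp; ring
  rw [Finset.prod_congr rfl fun x _ => h3 x, Finset.prod_const, card_univ, Fintype.card_fin,
    mul_comm]

/-- few pairs differ in many points of `V` -/
lemma chernoff_pairs (k : ℕ) (hk : 2 ≤ k) (V : Finset (Fin d)) (z : ℝ) :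
    ∑ X : Fin d → Bool, ∑ Y : Fin d → Bool,
      (if z < #{x ∈ V | X x ≠ Y x} then wt k X Y else 0) ≤
      (2 * (k : ℝ)) ^ d * Real.exp (-z + (Real.exp 1 - 1) * #V / k) := by
  classical
  have hk2 : (2 : ℝ) ≤ k := by exact_mod_cast hk
  have h1 : ∀ X Y : Fin d → Bool, (if z < #{x ∈ V | X x ≠ Y x} then wt k X Y else 0) ≤
      Real.exp (-z) * ∏ x, ((if X x = Y x then ((k : ℝ) - 1) else 1) *
        (if x ∈ V then (if X x = Y x then 1 else Real.exp 1) else 1)) := by
    intro X Y
    rw [Finset.prod_mul_distrib]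
    have e : ∏ x, (if x ∈ V then (if X x = Y x then 1 else Real.exp 1) else 1) =
        Real.exp #{x ∈ V | X x ≠ Y x} := by
      rw [Finset.prod_ite_mem, univ_inter, Finset.prod_ite, Finset.prod_const_one, one_mul,
        Finset.prod_const, ← Real.exp_nat_mul, mul_one]
    rw [e]
    have hw : wt k X Y = ∏ x, (if X x = Y x then ((k : ℝ) - 1) else 1) := rfl
    rw [← hw]
    have hwn := wt_nonneg (show 1 ≤ k by omega) X Y
    split_ifs with h
    · have h2 : 1 ≤ Real.exp (-z) * Real.exp #{x ∈ V | X x ≠ Y x} := by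
        rw [← Real.exp_add, Real.one_le_exp_iff]; linarith
      calc wt k X Y = wt k X Y * 1 := (mul_one _).symm
        _ ≤ wt k X Y * (Real.exp (-z) * Real.exp #{x ∈ V | X x ≠ Y x}) :=
            mul_le_mul_of_nonneg_left h2 hwn
        _ = _ := by ring
    · positivity
  refine (Finset.sum_le_sum fun X _ => Finset.sum_le_sum fun Y _ => h1 X Y).trans ?_
  simp_rw [← Finset.mul_sum]
  rw [double_prod (fun x a b => (if a = b then ((k : ℝ) - 1) else 1) *
        (if x ∈ V then (if a = b then 1 else Real.exp 1) else 1))]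
  have h3 : ∀ x : Fin d, (∑ a : Bool, ∑ b : Bool, (if a = b then ((k : ℝ) - 1) else 1) *
      (if x ∈ V then (if a = b then 1 else Real.exp 1) else 1)) ≤
      2 * k * (if x ∈ V then Real.exp ((Real.exp 1 - 1) / k) else 1) := by
    intro x
    simp only [Fintype.sum_bool]
    by_cases hx : x ∈ V
    · simp only [hx, if_true]
      simp
      have h4 := Real.add_one_le_exp ((Real.exp 1 - 1) / k)
      have h5 : 2 * (k : ℝ) * ((Real.exp 1 - 1) / k + 1) = 2 * (k - 1) + 2 * Real.exp 1 := by
        field_simp; ring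
      have h6 : 2 * (k : ℝ) * ((Real.exp 1 - 1) / k + 1) ≤
          2 * k * Real.exp ((Real.exp 1 - 1) / k) := mul_le_mul_of_nonneg_left h4 (by linarith)
      linarith
    · simp only [hx, if_false]
      simp
      linarith
  have h6 : ∏ x : Fin d, (∑ a : Bool, ∑ b : Bool, (if a = b then ((k : ℝ) - 1) else 1) *
      (if x ∈ V then (if a = b then 1 else Real.exp 1) else 1)) ≤
      ∏ x : Fin d, (2 * k * (if x ∈ V then Real.exp ((Real.exp 1 - 1) / k) else 1)) := by
    refine Finset.prod_le_prod (fun x _ => ?_) (fun x _ => h3 x)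
    refine Finset.sum_nonneg fun a _ => Finset.sum_nonneg fun b _ => ?_
    have : (0 : ℝ) ≤ k - 1 := by linarith
    split_ifs <;> positivity
  refine (mul_le_mul_of_nonneg_left h6 (Real.exp_pos _).le).trans (le_of_eq ?_)
  rw [Finset.prod_mul_distrib, Finset.prod_const, card_univ, Fintype.card_fin,
    Finset.prod_ite_mem, univ_inter, Finset.prod_const, ← Real.exp_nat_mul, Real.exp_add]
  have : (#V : ℝ) * ((Real.exp 1 - 1) / k) = (Real.exp 1 - 1) * #V / k := by ring
  rw [this]; ring

/-- The step: a large class and good colourings of small sets give good colourings. -/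
theorem merge_step (k : ℕ) (hk : 2 ≤ k) {χ : ι → Fin d → ℝ} (V : Finset (Fin d)) (T t η z : ℝ)
    (hη : 0 ≤ η) (S : Finset (Fin d → Bool))
    (hS : ∀ f ∈ S, ∀ g ∈ S, ∀ a, |W χ V f a - W χ V g a| ≤ 2 * T)
    (hZ : ∀ Z ⊆ V, (#Z : ℝ) ≤ z → η * 2 ^ d ≤ #(goodV χ Z t)) :
    η * 2 ^ d * (((#S : ℝ) / 2 ^ d) ^ (2 * k) -
      Real.exp (-z + (Real.exp 1 - 1) * #V / k)) ≤ #(goodV χ V (T + t)) := by
  classical
  have hk1 : 1 ≤ k := by omega
  have hkr : (2 : ℝ) ≤ k := by exact_mod_cast hk
  set S' : Finset (Fin d → Bool) := S.image (fun g j => !(g j)) with hS'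
  have hcardS : #S' = #S := by
    rw [hS']
    apply card_image_of_injective
    intro g h hgh
    funext j
    have := congrFun hgh j
    simpa using this
  -- lower bound for the weighted number of pairs
  have hRH := reverse_hyper k hk d S S'
  rw [hcardS] at hRH
  have hRH2 : (2 * (k : ℝ)) ^ d * ((#S : ℝ) / 2 ^ d) ^ (2 * k) ≤ RS k S S' := by
    refine le_trans (le_of_eq ?_) hRH
    congr 1
    rw [pow_mul]
    congr 1
    rw [div_pow, sq, ← pow_mul, mul_comm d 2, pow_mul]
    norm_num
  -- pairs with few differences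
  set P : (Fin d → Bool) → (Fin d → Bool) → Prop := fun X Y => (#{x ∈ V | X x ≠ Y x} : ℝ) ≤ z
    with hP
  have hsplit : RS k S S' ≤ ∑ X ∈ S, ∑ Y ∈ S', (if P X Y then wt k X Y else 0) +
      (2 * (k : ℝ)) ^ d * Real.exp (-z + (Real.exp 1 - 1) * #V / k) := by
    have h1 : RS k S S' = ∑ X ∈ S, ∑ Y ∈ S', (if P X Y then wt k X Y else 0) +
        ∑ X ∈ S, ∑ Y ∈ S', (if z < #{x ∈ V | X x ≠ Y x} then wt k X Y else 0) := by
      rw [RS, ← Finset.sum_add_distrib]
      refine Finset.sum_congr rfl fun X _ => ?_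
      rw [← Finset.sum_add_distrib]
      refine Finset.sum_congr rfl fun Y _ => ?_
      by_cases h : P X Y
      · rw [if_pos h, if_neg (not_lt.2 h), add_zero]
      · rw [if_neg h, if_pos (not_le.1 h), zero_add]
    rw [h1]
    refine add_le_add le_rfl (le_trans ?_ (chernoff_pairs k hk V z))
    have hnn : ∀ X Y : Fin d → Bool,
        0 ≤ (if z < #{x ∈ V | X x ≠ Y x} then wt k X Y else 0) := by
      intro X Y
      split_ifs
      · exact wt_nonneg hk1 X Y
      · exact le_rfl
    refine (Finset.sum_le_sum_of_subset_of_nonneg (subset_univ S) fun X _ _ =>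
      Finset.sum_nonneg fun Y _ => hnn X Y).trans ?_
    exact Finset.sum_le_sum fun X _ => Finset.sum_le_sum_of_subset_of_nonneg (subset_univ S')
      fun Y _ _ => hnn X Y
  -- merging
  have hmerge : ∀ X ∈ S, ∀ Y ∈ S', P X Y → ∀ e ∈ goodV χ (V.filter fun x => X x ≠ Y x) t,
      merge X Y e ∈ goodV χ V (T + t) := by
    intro X hX Y hY hPXY e he
    rw [hS', mem_image] at hY
    obtain ⟨g, hg, rfl⟩ := hY
    have hZeq : (V.filter fun x => X x ≠ (fun j => !(g j)) x) = V.filter (fun x => X x = g x) := by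
      ext x
      simp only [mem_filter]
      cases X x <;> cases g x <;> simp
    rw [hZeq] at he
    rw [mem_goodV] at he ⊢
    intro a
    have h1 := W_merge χ V X g e a
    have h2 : W χ V (merge X (fun j => !(g j)) e) a =
        W χ V (fun x => if x ∈ V.filter (fun x => X x = g x) then e x else X x) a := by
      rw [W, W]
      refine Finset.sum_congr rfl fun x hx => ?_
      have h7 : merge X (fun j => !(g j)) e x =
          (if x ∈ V.filter (fun x => X x = g x) then e x else X x) := by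
        show (if X x = !(g x) then X x else e x) = _
        by_cases h : X x = g x
        · have h8 : x ∈ V.filter (fun x => X x = g x) := mem_filter.2 ⟨hx, h⟩
          have h9 : ¬ (X x = !(g x)) := by rw [h]; cases g x <;> simp
          simp only [h8, h9, if_true, if_false]
        · have h8 : ¬ (x ∈ V.filter (fun x => X x = g x)) := fun h' => h (mem_filter.1 h').2
          have h9 : X x = !(g x) := by
            cases h3 : X x <;> cases h4 : g x <;> simp_all
          simp only [h8, ← h9, if_true, if_false]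
      rw [h7]
    rw [h2, h1]
    have h3 := he a
    have h4 := hS X hX g hg a
    calc |W χ (V.filter (fun x => X x = g x)) e a + (W χ V X a - W χ V g a) / 2|
        ≤ |W χ (V.filter (fun x => X x = g x)) e a| + |(W χ V X a - W χ V g a) / 2| :=
          abs_add_le _ _
      _ = |W χ (V.filter (fun x => X x = g x)) e a| + |W χ V X a - W χ V g a| / 2 := by
          rw [abs_div, abs_of_pos (by norm_num : (0 : ℝ) < 2)]
      _ ≤ T + t := by linarith
  have hsum := sum_merge k (fun f : Fin d → Bool => if f ∈ goodV χ V (T + t) then (1 : ℝ) else 0)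
  have hG : ∑ f : Fin d → Bool, (if f ∈ goodV χ V (T + t) then (1 : ℝ) else 0) =
      #(goodV χ V (T + t)) := by
    rw [Finset.sum_boole]; congr 2; ext f; simp
  rw [hG] at hsum
  have hlow : (∑ X ∈ S, ∑ Y ∈ S', (if P X Y then wt k X Y else 0)) * (η * 2 ^ d) ≤
      (2 * (k : ℝ)) ^ d * #(goodV χ V (T + t)) := by
    rw [← hsum, Finset.sum_mul]
    have hnn3 : ∀ X Y e : Fin d → Bool,
        0 ≤ wt k X Y * (if merge X Y e ∈ goodV χ V (T + t) then (1 : ℝ) else 0) := by
      intro X Y e
      have := wt_nonneg hk1 X Y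
      split_ifs <;> simp [this]
    refine le_trans ?_ (Finset.sum_le_sum_of_subset_of_nonneg (subset_univ S) fun X _ _ =>
      Finset.sum_nonneg fun Y _ => Finset.sum_nonneg fun e _ => hnn3 X Y e)
    refine Finset.sum_le_sum fun X hX => ?_
    rw [Finset.sum_mul]
    refine le_trans ?_ (Finset.sum_le_sum_of_subset_of_nonneg (subset_univ S') fun Y _ _ =>
      Finset.sum_nonneg fun e _ => hnn3 X Y e)
    refine Finset.sum_le_sum fun Y hY => ?_
    rw [← Finset.mul_sum]
    by_cases h : P X Y
    · rw [if_pos h]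
      refine mul_le_mul_of_nonneg_left ?_ (wt_nonneg hk1 X Y)
      refine (hZ (V.filter fun x => X x ≠ Y x) (filter_subset _ _) h).trans ?_
      rw [Finset.sum_boole]
      have : goodV χ (V.filter fun x => X x ≠ Y x) t ⊆
          univ.filter (fun e => merge X Y e ∈ goodV χ V (T + t)) := by
        intro e he
        exact mem_filter.2 ⟨mem_univ _, hmerge X hX Y hY h e he⟩
      exact_mod_cast card_le_card this
    · rw [if_neg h, zero_mul]
      have := wt_nonneg hk1 X Y
      positivity
  have h2k : (0 : ℝ) < (2 * (k : ℝ)) ^ d := by positivity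
  refine le_of_mul_le_mul_left ?_ h2k
  refine le_trans ?_ hlow
  have h5 : (2 * (k : ℝ)) ^ d * (((#S : ℝ) / 2 ^ d) ^ (2 * k) -
      Real.exp (-z + (Real.exp 1 - 1) * #V / k)) ≤
      ∑ X ∈ S, ∑ Y ∈ S', (if P X Y then wt k X Y else 0) := by
    rw [mul_sub]; linarith
  have h6 : (0 : ℝ) ≤ η * 2 ^ d := by positivity
  calc (2 * (k : ℝ)) ^ d * (η * 2 ^ d * (((#S : ℝ) / 2 ^ d) ^ (2 * k) -
      Real.exp (-z + (Real.exp 1 - 1) * #V / k)))
      = ((2 * (k : ℝ)) ^ d * (((#S : ℝ) / 2 ^ d) ^ (2 * k) -
      Real.exp (-z + (Real.exp 1 - 1) * #V / k))) * (η * 2 ^ d) := by ring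
    _ ≤ _ := mul_le_mul_of_nonneg_right h5 h6

end Pool.Agent.RMC53
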