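import Mathlib

/-!
# Talagrand's inequality for the distance of a point of the cube to a convex set
-/

set_option autoImplicit false

open Finset

namespace Pool.Agent.RMC53

/-- the sign of a Boolean -/
def sb (b : Bool) : ℝ := if b then 1 else -1

/-- squared distance to `P` -/
noncomputable def q {n : ℕ} (P : Set (Fin n → ℝ)) (x : Fin n → ℝ) : ℝ :=
  ⨅ y : P, ∑ j, (x j - y.1 j) ^ 2

lemma q_le {n : ℕ} {P : Set (Fin n → ℝ)} (x y : Fin n → ℝ) (hy : y ∈ P) :
    q P x ≤ ∑ j, (x j - y j) ^ 2 := by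
  refine ciInf_le (f := fun y : P => ∑ j, (x j - y.1 j) ^ 2) ⟨0, ?_⟩ ⟨y, hy⟩
  rintro _ ⟨y, rfl⟩
  exact Finset.sum_nonneg fun j _ => sq_nonneg _

/-- the section of `P` at first coordinate `a` -/
def sec {n : ℕ} (P : Set (Fin (n + 1) → ℝ)) (a : ℝ) : Set (Fin n → ℝ) :=
  {z | (Fin.cons a z : Fin (n + 1) → ℝ) ∈ P}

lemma cons_combo {n : ℕ} (a b s t : ℝ) (z z' : Fin n → ℝ) :
    s • (Fin.cons a z : Fin (n + 1) → ℝ) + t • (Fin.cons b z' : Fin (n + 1) → ℝ) =
      Fin.cons (s * a + t * b) (s • z + t • z') := by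
  funext j
  refine Fin.cases ?_ (fun k => ?_) j
  · simp
  · simp

lemma sec_convex {n : ℕ} {P : Set (Fin (n + 1) → ℝ)} (hP : Convex ℝ P) (a : ℝ) :
    Convex ℝ (sec P a) := by
  intro z hz z' hz' s t hs ht hst
  have h := hP hz hz' hs ht hst
  rw [cons_combo] at h
  have e : s * a + t * a = a := by rw [← add_mul, hst, one_mul]
  rw [e] at h
  exact h

lemma q_combo {n : ℕ} {P : Set (Fin (n + 1) → ℝ)} (hP : Convex ℝ P) (a b t : ℝ)
    (ht0 : 0 ≤ t) (ht1 : t ≤ 1) (x z z' : Fin n → ℝ) (hz : z ∈ sec P a) (hz' : z' ∈ sec P b) :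
    q P (Fin.cons a x) ≤ (1 - t) ^ 2 * (a - b) ^ 2 + t * ∑ j, (x j - z j) ^ 2 +
      (1 - t) * ∑ j, (x j - z' j) ^ 2 := by
  have h := hP hz hz' ht0 (sub_nonneg.2 ht1) (by ring)
  rw [cons_combo] at h
  refine (q_le _ _ h).trans ?_
  rw [Fin.sum_univ_succ]
  simp only [Fin.cons_zero, Fin.cons_succ, Pi.add_apply, Pi.smul_apply, smul_eq_mul]
  rw [Finset.mul_sum, Finset.mul_sum, add_assoc, ← Finset.sum_add_distrib]
  refine add_le_add (le_of_eq (by ring)) (Finset.sum_le_sum fun j _ => ?_)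
  nlinarith [mul_nonneg (mul_nonneg ht0 (sub_nonneg.2 ht1)) (sq_nonneg (z j - z' j))]

lemma q_cons_le {n : ℕ} {P : Set (Fin (n + 1) → ℝ)} (hP : Convex ℝ P) (a b t : ℝ)
    (ht0 : 0 ≤ t) (ht1 : t ≤ 1) (x : Fin n → ℝ) (hne : (sec P a).Nonempty)
    (hne' : (sec P b).Nonempty) :
    q P (Fin.cons a x) ≤ (1 - t) ^ 2 * (a - b) ^ 2 + t * q (sec P a) x +
      (1 - t) * q (sec P b) x := by
  have i1 : Nonempty (sec P a) := hne.to_subtype
  have i2 : Nonempty (sec P b) := hne'.to_subtype
  have h1 : ∀ z' ∈ sec P b, q P (Fin.cons a x) - (1 - t) ^ 2 * (a - b) ^ 2 -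
      (1 - t) * ∑ j, (x j - z' j) ^ 2 ≤ t * q (sec P a) x := by
    intro z' hz'
    have e : t * q (sec P a) x = ⨅ z : sec P a, t * ∑ j, (x j - z.1 j) ^ 2 := by
      rw [q, Real.mul_iInf_of_nonneg ht0]
    rw [e]
    refine le_ciInf fun z => ?_
    have := q_combo hP a b t ht0 ht1 x z.1 z' z.2 hz'
    linarith
  have h2 : q P (Fin.cons a x) - (1 - t) ^ 2 * (a - b) ^ 2 - t * q (sec P a) x ≤
      (1 - t) * q (sec P b) x := by
    have e : (1 - t) * q (sec P b) x = ⨅ z : sec P b, (1 - t) * ∑ j, (x j - z.1 j) ^ 2 := by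
      rw [q, Real.mul_iInf_of_nonneg (sub_nonneg.2 ht1)]
    rw [e]
    refine le_ciInf fun z => ?_
    have := h1 z.1 z.2
    linarith
  linarith

lemma q_cons_self {n : ℕ} {P : Set (Fin (n + 1) → ℝ)} (a : ℝ) (x : Fin n → ℝ)
    (hne : (sec P a).Nonempty) : q P (Fin.cons a x) ≤ q (sec P a) x := by
  have i1 : Nonempty (sec P a) := hne.to_subtype
  refine le_ciInf fun z => ?_
  refine (q_le _ _ (show (Fin.cons a z.1 : Fin (n + 1) → ℝ) ∈ P from z.2)).trans (le_of_eq ?_)
  rw [Fin.sum_univ_succ]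
  simp

lemma q_cons_other {n : ℕ} {P : Set (Fin (n + 1) → ℝ)} (a b : ℝ) (x : Fin n → ℝ)
    (hne : (sec P a).Nonempty) : q P (Fin.cons b x) ≤ (a - b) ^ 2 + q (sec P a) x := by
  have i1 : Nonempty (sec P a) := hne.to_subtype
  have : q P (Fin.cons b x) - (a - b) ^ 2 ≤ q (sec P a) x := by
    refine le_ciInf fun z => ?_
    have h := q_le (Fin.cons b x : Fin (n + 1) → ℝ) _
      (show (Fin.cons a z.1 : Fin (n + 1) → ℝ) ∈ P from z.2)
    rw [Fin.sum_univ_succ] at h
    simp only [Fin.cons_zero, Fin.cons_succ] at h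
    linarith [sq_abs (a - b), show (b - a) ^ 2 = (a - b) ^ 2 by ring]
  linarith

/-- a vertex of the cube -/
def vtx {n : ℕ} (x : Fin n → Bool) : Fin n → ℝ := fun j => sb (x j)

lemma vtx_cons {n : ℕ} (b : Bool) (x : Fin n → Bool) :
    vtx (Fin.cons b x : Fin (n + 1) → Bool) = Fin.cons (sb b) (vtx x) := by
  funext j
  refine Fin.cases ?_ (fun k => ?_) j
  · simp [vtx]
  · simp [vtx]

lemma sum_cons {n : ℕ} (F : (Fin (n + 1) → Bool) → ℝ) :
    ∑ x, F x = ∑ x : Fin n → Bool, F (Fin.cons true x) +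
      ∑ x : Fin n → Bool, F (Fin.cons false x) := by
  rw [← (Fin.consEquiv (fun _ : Fin (n + 1) => Bool)).sum_comp, Fintype.sum_prod_type,
    Fintype.sum_bool]
  rfl

/-- the exponential sum -/
noncomputable def EE {n : ℕ} (P : Set (Fin n → ℝ)) : ℝ :=
  ∑ x : Fin n → Bool, Real.exp (q P (vtx x) / 8)

open Classical in
/-- the number of vertices in `P` -/
noncomputable def cc {n : ℕ} (P : Set (Fin n → ℝ)) : ℝ :=
  ∑ x : Fin n → Bool, if vtx x ∈ P then 1 else 0

lemma cc_nonneg {n : ℕ} (P : Set (Fin n → ℝ)) : 0 ≤ cc P :=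
  Finset.sum_nonneg fun x _ => by split_ifs <;> norm_num

lemma cc_pos_nonempty {n : ℕ} {P : Set (Fin n → ℝ)} (h : 0 < cc P) : P.Nonempty := by
  classical
  by_contra hP
  rw [Set.not_nonempty_iff_eq_empty] at hP
  rw [cc, hP] at h
  simp at h

lemma exp_half : Real.exp (1 / 2) ≤ 1.65 := by
  have h1 : Real.exp (1 / 2) ^ 2 = Real.exp 1 := by
    rw [← Real.exp_nat_mul]; norm_num
  have h2 := Real.exp_one_lt_d9
  have h3 : 0 < Real.exp (1 / 2) := Real.exp_pos _
  nlinarith

lemma exp_neg_one : Real.exp (-1) ≤ 0.37 := by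
  rw [Real.exp_neg]
  have h2 := Real.exp_one_gt_d9
  rw [inv_le_comm₀ (Real.exp_pos _) (by norm_num)]
  linarith

lemma exp_ineq (r l : ℝ) (hl : 0 ≤ l) (hr : r = Real.exp (-l)) :
    Real.exp (l - l ^ 2 / 2) ≤ (3 - r) / (1 + r) := by
  have hr0 : 0 < r := by rw [hr]; exact Real.exp_pos _
  have hr1 : r ≤ 1 := by rw [hr]; exact Real.exp_le_one_iff.2 (by linarith)
  have h1 : l - l ^ 2 / 2 ≤ 1 - r := by
    have h2 := Real.quadratic_le_exp_of_nonneg hl
    have h3 : r * Real.exp l = 1 := by rw [hr, ← Real.exp_add]; simp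
    have h4 : 0 < 1 + l + l ^ 2 / 2 := by positivity
    have h5 : r * (1 + l + l ^ 2 / 2) ≤ 1 := by
      calc r * (1 + l + l ^ 2 / 2) ≤ r * Real.exp l := mul_le_mul_of_nonneg_left h2 hr0.le
        _ = 1 := h3
    have h6 : (1 - l + l ^ 2 / 2) * (1 + l + l ^ 2 / 2) = 1 + l ^ 4 / 4 := by ring
    have h7 : r * (1 + l + l ^ 2 / 2) ≤ (1 - l + l ^ 2 / 2) * (1 + l + l ^ 2 / 2) := by
      rw [h6]; have : 0 ≤ l ^ 4 / 4 := by positivity
      linarith
    have h8 := le_of_mul_le_mul_right h7 h4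
    linarith
  set t := (1 - r) / 2 with ht
  have ht0 : 0 ≤ t := by rw [ht]; linarith
  have ht1 : t < 1 := by rw [ht]; linarith
  have h9 : 2 * t ≤ Real.log (1 + t) - Real.log (1 - t) := by
    have hs := Real.hasSum_log_sub_log_of_abs_lt_one (x := t) (by rw [abs_of_nonneg ht0]; exact ht1)
    have := hs.summable.le_tsum 0 (fun k _ => by positivity)
    rw [hs.tsum_eq] at this
    simpa using this
  have h10 : (3 - r) / (1 + r) = Real.exp (Real.log (1 + t) - Real.log (1 - t)) := by
    rw [Real.exp_sub, Real.exp_log (by linarith), Real.exp_log (by linarith), ht,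
      div_eq_div_iff (by linarith) (by linarith)]
    ring
  rw [h10]
  refine Real.exp_le_exp.2 ?_
  have : 2 * t = 1 - r := by rw [ht]; ring
  linarith

lemma half_step {n : ℕ} {P : Set (Fin (n + 1) → ℝ)} (hP : Convex ℝ P) (a b : ℝ)
    (hab : (a - b) ^ 2 = 4) (hU : 0 < cc (sec P a)) (hVU : cc (sec P b) ≤ cc (sec P a))
    (h1 : cc (sec P a) * EE (sec P a) ≤ 4 ^ n) (h2 : cc (sec P b) * EE (sec P b) ≤ 4 ^ n) :
    (cc (sec P a) + cc (sec P b)) *
      (∑ x : Fin n → Bool, Real.exp (q P (Fin.cons a (vtx x)) / 8) +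
        ∑ x : Fin n → Bool, Real.exp (q P (Fin.cons b (vtx x)) / 8)) ≤ 4 ^ (n + 1) := by
  set U := cc (sec P a) with hUdef
  set V := cc (sec P b) with hVdef
  have hV0 : 0 ≤ V := cc_nonneg _
  have hne : (sec P a).Nonempty := cc_pos_nonempty hU
  have hE1 : EE (sec P a) ≤ 4 ^ n / U := by rw [le_div_iff₀ hU]; linarith
  have hfirst : ∑ x : Fin n → Bool, Real.exp (q P (Fin.cons a (vtx x)) / 8) ≤ 4 ^ n / U := by
    refine le_trans (Finset.sum_le_sum fun x _ => ?_) hE1
    exact Real.exp_le_exp.2 (by linarith [q_cons_self (P := P) a (vtx x) hne])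
  have h4 : (0 : ℝ) < 4 ^ n := by positivity
  set r := V / U with hr
  have hr0 : 0 ≤ r := div_nonneg hV0 hU.le
  have hr1 : r ≤ 1 := by rw [hr, div_le_one hU]; exact hVU
  have key : ∀ μ : ℝ, ∑ x : Fin n → Bool, Real.exp (q P (Fin.cons b (vtx x)) / 8) ≤
      4 ^ n / U * μ → (1 + r) * (1 + μ) ≤ 4 →
      (U + V) * (∑ x : Fin n → Bool, Real.exp (q P (Fin.cons a (vtx x)) / 8) +
        ∑ x : Fin n → Bool, Real.exp (q P (Fin.cons b (vtx x)) / 8)) ≤ 4 ^ (n + 1) := by
    intro μ hμ hμ4
    calc _ ≤ (U + V) * (4 ^ n / U + 4 ^ n / U * μ) :=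
          mul_le_mul_of_nonneg_left (add_le_add hfirst hμ) (by linarith)
      _ = 4 ^ n * ((1 + r) * (1 + μ)) := by rw [hr]; field_simp
      _ ≤ 4 ^ n * 4 := mul_le_mul_of_nonneg_left hμ4 h4.le
      _ = 4 ^ (n + 1) := by ring
  by_cases hcase : r ≤ Real.exp (-1)
  · refine key (Real.exp (1 / 2)) ?_ ?_
    · have : ∀ x : Fin n → Bool, Real.exp (q P (Fin.cons b (vtx x)) / 8) ≤
          Real.exp (q (sec P a) (vtx x) / 8) * Real.exp (1 / 2) := by
        intro x
        rw [← Real.exp_add]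
        refine Real.exp_le_exp.2 ?_
        have := q_cons_other (P := P) a b (vtx x) hne
        rw [hab] at this
        linarith
      refine (Finset.sum_le_sum fun x _ => this x).trans ?_
      rw [← Finset.sum_mul]
      exact mul_le_mul_of_nonneg_right hE1 (Real.exp_pos _).le
    · have := exp_half
      have := exp_neg_one
      have := Real.exp_pos (1 / 2)
      nlinarith
  · push Not at hcase
    have hrpos : 0 < r := lt_trans (Real.exp_pos _) hcase
    have hV : 0 < V := by
      rcases hV0.eq_or_lt with h | h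
      · rw [hr, ← h, zero_div] at hrpos; exact absurd hrpos (lt_irrefl _)
      · exact h
    have hne' : (sec P b).Nonempty := cc_pos_nonempty hV
    have hE2 : EE (sec P b) ≤ 4 ^ n / V := by rw [le_div_iff₀ hV]; linarith
    set l := -Real.log r with hl
    have hl0 : 0 ≤ l := by
      rw [hl]; have := Real.log_nonpos hr0 hr1; linarith
    have hl1 : l ≤ 1 := by
      have := (Real.lt_log_iff_exp_lt hrpos).2 hcase
      rw [hl]; linarith
    have hrl : r = Real.exp (-l) := by rw [hl, neg_neg, Real.exp_log hrpos]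
    have hei := exp_ineq r l hl0 hrl
    refine key (Real.exp (l - l ^ 2 / 2)) ?_ ?_
    · -- Hoelder
      have hpA : 0 < 4 ^ n / V := by positivity
      have hpB : 0 < 4 ^ n / U := by positivity
      have hpt : ∀ x : Fin n → Bool, Real.exp (q P (Fin.cons b (vtx x)) / 8) ≤
          (4 ^ n / U * Real.exp (l - l ^ 2 / 2)) *
            ((1 - l) * (Real.exp (q (sec P b) (vtx x) / 8) / (4 ^ n / V)) +
              l * (Real.exp (q (sec P a) (vtx x) / 8) / (4 ^ n / U))) := by
        intro x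
        have hq := q_cons_le hP b a (1 - l) (by linarith) (by linarith) (vtx x) hne' hne
        have e1 : (b - a) ^ 2 = 4 := by rw [← hab]; ring
        rw [e1] at hq
        set α := q (sec P b) (vtx x) / 8 with hα
        set β := q (sec P a) (vtx x) / 8 with hβ
        have hamgm := convexOn_exp.2 (Set.mem_univ (α - Real.log (4 ^ n / V)))
          (Set.mem_univ (β - Real.log (4 ^ n / U))) (show (0 : ℝ) ≤ 1 - l by linarith) hl0
          (by ring)
        simp only [smul_eq_mul] at hamgm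
        rw [Real.exp_sub, Real.exp_sub, Real.exp_log hpA, Real.exp_log hpB] at hamgm
        have hlogA : Real.log (4 ^ n / V) = Real.log (4 ^ n / U) + l := by
          rw [Real.log_div h4.ne' hV.ne', Real.log_div h4.ne' hU.ne', hl, hr,
            Real.log_div hV.ne' hU.ne']
          ring
        have e2 : q P (Fin.cons b (vtx x)) / 8 ≤ (Real.log (4 ^ n / U) + (l - l ^ 2 / 2)) +
            ((1 - l) * (α - Real.log (4 ^ n / V)) + l * (β - Real.log (4 ^ n / U))) := by
          rw [hlogA, hα, hβ]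
          have e3 : 1 - (1 - l) = l := by ring
          rw [e3] at hq
          nlinarith
        calc Real.exp (q P (Fin.cons b (vtx x)) / 8)
            ≤ Real.exp ((Real.log (4 ^ n / U) + (l - l ^ 2 / 2)) +
              ((1 - l) * (α - Real.log (4 ^ n / V)) + l * (β - Real.log (4 ^ n / U)))) :=
              Real.exp_le_exp.2 e2
          _ = (4 ^ n / U * Real.exp (l - l ^ 2 / 2)) *
              Real.exp ((1 - l) * (α - Real.log (4 ^ n / V)) +
                l * (β - Real.log (4 ^ n / U))) := by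
              rw [Real.exp_add, Real.exp_add, Real.exp_log hpB]
          _ ≤ _ := mul_le_mul_of_nonneg_left hamgm (by positivity)
      refine (Finset.sum_le_sum fun x _ => hpt x).trans ?_
      rw [← Finset.mul_sum, Finset.sum_add_distrib, ← Finset.mul_sum, ← Finset.mul_sum,
        ← Finset.sum_div, ← Finset.sum_div]
      have g1 : EE (sec P b) / (4 ^ n / V) ≤ 1 := by rw [div_le_one hpA]; exact hE2
      have g2 : EE (sec P a) / (4 ^ n / U) ≤ 1 := by rw [div_le_one hpB]; exact hE1
      have g3 : (1 - l) * (EE (sec P b) / (4 ^ n / V)) + l * (EE (sec P a) / (4 ^ n / U)) ≤ 1 := by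
        nlinarith
      calc _ ≤ (4 ^ n / U * Real.exp (l - l ^ 2 / 2)) * 1 :=
            mul_le_mul_of_nonneg_left g3 (by positivity)
        _ = _ := by ring
    · have hpos : 0 < 1 + r := by linarith
      calc (1 + r) * (1 + Real.exp (l - l ^ 2 / 2)) ≤ (1 + r) * (1 + (3 - r) / (1 + r)) :=
            mul_le_mul_of_nonneg_left (by linarith) hpos.le
        _ = 4 := by field_simp; ring

/-- Talagrand's inequality on the cube. -/
theorem talagrand : ∀ (n : ℕ) (P : Set (Fin n → ℝ)), Convex ℝ P → cc P * EE P ≤ 4 ^ n := by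
  intro n
  induction n with
  | zero =>
    intro P _
    by_cases h : 0 < cc P
    · have hne := cc_pos_nonempty h
      have h1 : cc P ≤ 1 := by
        classical
        rw [cc]
        simp only [univ_unique, sum_singleton]
        split_ifs <;> norm_num
      have h2 : EE P ≤ 1 := by
        obtain ⟨y, hy⟩ := hne
        refine (Finset.sum_le_card_nsmul _ _ 1 fun x _ => ?_).trans (by simp)
        rw [Real.exp_le_one_iff]
        have := q_le (P := P) (vtx x) y hy
        simp only [univ_eq_empty, sum_empty] at this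
        linarith
      have h3 : 0 ≤ EE P := Finset.sum_nonneg fun x _ => (Real.exp_pos _).le
      rw [pow_zero]
      nlinarith
    · have : cc P = 0 := le_antisymm (not_lt.1 h) (cc_nonneg P)
      rw [this, zero_mul]; positivity
  | succ n ih =>
    intro P hP
    have hc : cc P = cc (sec P (sb true)) + cc (sec P (sb false)) := by
      classical
      rw [cc, sum_cons]
      simp only [vtx_cons]
      rfl
    have hE : EE P = ∑ x : Fin n → Bool, Real.exp (q P (Fin.cons (sb true) (vtx x)) / 8) +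
        ∑ x : Fin n → Bool, Real.exp (q P (Fin.cons (sb false) (vtx x)) / 8) := by
      rw [EE, sum_cons]
      simp only [vtx_cons]
    rw [hc, hE]
    have i1 := ih _ (sec_convex hP (sb true))
    have i2 := ih _ (sec_convex hP (sb false))
    have hab : (sb true - sb false) ^ 2 = 4 := by norm_num [sb]
    have hba : (sb false - sb true) ^ 2 = 4 := by norm_num [sb]
    rcases le_total (cc (sec P (sb false))) (cc (sec P (sb true))) with h | h
    · rcases (cc_nonneg (sec P (sb true))).eq_or_lt with h0 | h0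
      · have h0' : cc (sec P (sb false)) = 0 := le_antisymm (by rw [h0]; exact h) (cc_nonneg _)
        rw [← h0, h0', add_zero, zero_mul]; positivity
      · exact half_step hP _ _ hab h0 h i1 i2
    · rcases (cc_nonneg (sec P (sb false))).eq_or_lt with h0 | h0
      · have h0' : cc (sec P (sb true)) = 0 := le_antisymm (by rw [h0]; exact h) (cc_nonneg _)
        rw [← h0, h0', add_zero, zero_mul]; positivity
      · have := half_step hP _ _ hba h0 h i2 i1
        rw [add_comm (cc (sec P (sb true))), add_comm (∑ x : Fin n → Bool,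
          Real.exp (q P (Fin.cons (sb true) (vtx x)) / 8))]
        exact this

end Pool.Agent.RMC53
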