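import Pool.Agent.RMC53.Glue
import Pool.Agent.RMC53.Bin

/-!
# The number of cosets of weight a little below the covering radius
-/

set_option autoImplicit false

open Finset

namespace Pool.Agent.RMC53

open Pool.Agent.RMC Pool.Agent.RMC68

variable {r n m : ℕ}

/-- the extension by `x·y` -/
def ext (r : ℕ) (h : Vec n → ZMod 2) (z : Vec (r + (r + n))) : ZMod 2 :=
  h (rc r n (rc r (r + n) z)) + lc r n (rc r (r + n) z) ⬝ᵥ lc r (r + n) z

lemma walsh_ext (h : Vec n → ZMod 2) (a : Vec (r + (r + n))) :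
    |walsh (ext r h) a| ≤ 2 ^ r * |walsh h (rc r n (rc r (r + n) a))| := by
  classical
  obtain ⟨A, hA⟩ : ∃ A, A = rc r (r + n) a := ⟨_, rfl⟩
  obtain ⟨b, hb⟩ : ∃ b, b = lc r (r + n) a := ⟨_, rfl⟩
  rw [← hA]
  have h0 : walsh (ext r h) a = ∑ y : Vec r,
      sg (b ⬝ᵥ y) * (if y + lc r n A = 0 then 2 ^ r else 0) * walsh h (rc r n A) := by
    rw [walsh, sum_append]
    refine Finset.sum_congr rfl fun y _ => ?_
    rw [← inner_sum]
    refine Finset.sum_congr rfl fun u _ => ?_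
    rw [ext, lc_append, rc_append, dot_split, ← hA, ← hb]
  have hz : ∀ y : Vec r, y + lc r n A = 0 ↔ y = lc r n A := by
    intro y
    constructor
    · intro h1
      have h2 : y + lc r n A + lc r n A = lc r n A := by rw [h1, zero_add]
      rwa [add_assoc, vec_add_self, add_zero] at h2
    · rintro rfl; exact vec_add_self _
  rw [h0, Finset.sum_eq_single (lc r n A)]
  · rw [if_pos ((hz _).2 rfl), abs_mul, abs_mul]
    rcases sg_cases (b ⬝ᵥ lc r n A) with h | h <;> rw [h] <;> simp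
  · intro y _ hy
    rw [if_neg (fun h => hy ((hz y).1 h))]; ring
  · intro h
    exact absurd (mem_univ _) h

/-- the least maximum of the Walsh coefficients -/
noncomputable def mx (m : ℕ) : ℕ :=
  sInf {T : ℕ | ∃ f : Vec m → ZMod 2, ∀ a, |walsh f a| ≤ (T : ℤ)}

lemma abs_walsh_le (f : Vec m → ZMod 2) (a : Vec m) : |walsh f a| ≤ ((2 ^ m : ℕ) : ℤ) := by
  rw [walsh]
  refine (Finset.abs_sum_le_sum_abs _ _).trans ?_
  have : ∀ x ∈ (univ : Finset (Vec m)), |sg (f x + a ⬝ᵥ x)| ≤ 1 := by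
    intro x _
    rcases sg_cases (f x + a ⬝ᵥ x) with h | h <;> rw [h] <;> simp
  refine (Finset.sum_le_sum this).trans ?_
  rw [Finset.sum_const, Finset.card_univ, card_vec]
  simp

lemma mx_spec (m : ℕ) : ∃ f : Vec m → ZMod 2, ∀ a, |walsh f a| ≤ (mx m : ℤ) := by
  have hne : {T : ℕ | ∃ f : Vec m → ZMod 2, ∀ a, |walsh f a| ≤ (T : ℤ)}.Nonempty :=
    ⟨2 ^ m, 0, fun a => abs_walsh_le 0 a⟩
  exact Nat.sInf_mem hne

lemma mx_le {T : ℕ} (f : Vec m → ZMod 2) (h : ∀ a, |walsh f a| ≤ (T : ℤ)) : mx m ≤ T :=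
  Nat.sInf_le ⟨f, h⟩

lemma mx_ext (r n : ℕ) : mx (r + (r + n)) ≤ 2 ^ r * mx n := by
  obtain ⟨h, hh⟩ := mx_spec n
  refine mx_le (ext r h) fun a => ?_
  have h1 := walsh_ext (r := r) h a
  have h2 := hh (rc r n (rc r (r + n) a))
  push_cast
  exact h1.trans (mul_le_mul_of_nonneg_left h2 (by positivity))

/-- the normalised least maximum -/
noncomputable def kap (m : ℕ) : ℝ := (mx m : ℝ) / √((2 : ℝ) ^ m)

lemma sqrt_pos (m : ℕ) : 0 < √((2 : ℝ) ^ m) := Real.sqrt_pos.2 (by positivity)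

lemma kap_nonneg (m : ℕ) : 0 ≤ kap m := div_nonneg (Nat.cast_nonneg _) (sqrt_pos m).le

lemma kap_mul (m : ℕ) : kap m * √((2 : ℝ) ^ m) = mx m := by
  rw [kap, div_mul_cancel₀ _ (sqrt_pos m).ne']

lemma sqrt_split (r n : ℕ) : √((2 : ℝ) ^ (r + (r + n))) = 2 ^ r * √((2 : ℝ) ^ n) := by
  rw [show (2 : ℝ) ^ (r + (r + n)) = (2 ^ r) ^ 2 * 2 ^ n by rw [← pow_mul, ← pow_add]; congr 1; ring,
    Real.sqrt_mul (by positivity), Real.sqrt_sq (by positivity)]

lemma kap_ext (r n : ℕ) : kap (r + (r + n)) ≤ kap n := by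
  have h1 : (mx (r + (r + n)) : ℝ) ≤ 2 ^ r * mx n := by exact_mod_cast mx_ext r n
  rw [← kap_mul, ← kap_mul n, sqrt_split] at h1
  have h2 : 0 < (2 : ℝ) ^ r * √((2 : ℝ) ^ n) := mul_pos (by positivity) (sqrt_pos n)
  have h3 : kap (r + (r + n)) * (2 ^ r * √((2 : ℝ) ^ n)) ≤ kap n * (2 ^ r * √((2 : ℝ) ^ n)) := by
    linarith
  exact le_of_mul_le_mul_right h3 h2

lemma kap_le (m : ℕ) {j : ℕ} (hj : leaderCount m j ≠ 0) :
    kap m * √((2 : ℝ) ^ m) ≤ 2 ^ m - 2 * (j : ℝ) := by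
  have h1 : Nonempty {q : (Vec m → ZMod 2) ⧸ reedMuller m // leaderWeight q = j} := by
    by_contra h
    rw [not_nonempty_iff] at h
    exact hj (by rw [leaderCount]; exact Nat.card_of_isEmpty)
  obtain ⟨q, hq⟩ := h1
  obtain ⟨f, rfl⟩ := Submodule.mkQ_surjective _ q
  obtain ⟨h2, a0, h3⟩ := (leaderWeight_eq_iff f j).1 hq
  have h4 : (0 : ℤ) ≤ 2 ^ m - 2 * (j : ℤ) := h3 ▸ abs_nonneg _
  have h5 : mx m ≤ ((2 : ℤ) ^ m - 2 * (j : ℤ)).toNat :=
    mx_le f fun a => by rw [Int.toNat_of_nonneg h4]; exact h2 a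
  have h6 : (mx m : ℤ) ≤ 2 ^ m - 2 * (j : ℤ) := by
    rw [← Int.toNat_of_nonneg h4]; exact_mod_cast h5
  rw [kap_mul]
  have := (Int.cast_le (R := ℝ)).2 h6
  push_cast at this
  exact this

/-- along each parity class `kap` becomes almost constant -/
lemma kap_near (d : ℝ) (hd : 0 < d) : ∃ n₀, ∀ n, n₀ ≤ n → ∀ r, kap n ≤ kap (r + (r + n)) + d := by
  have key : ∀ p : ℕ, ∃ k₀, ∀ k, k₀ ≤ k → ∀ r, kap (2 * k + p) ≤ kap (r + (r + (2 * k + p))) + d := by
    intro p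
    have hb : BddBelow (Set.range fun k => kap (2 * k + p)) :=
      ⟨0, by rintro _ ⟨k, rfl⟩; exact kap_nonneg _⟩
    obtain ⟨k₀, hk₀⟩ := exists_lt_of_ciInf_lt (f := fun k => kap (2 * k + p))
      (show (⨅ k, kap (2 * k + p)) < (⨅ k, kap (2 * k + p)) + d by linarith)
    refine ⟨k₀, fun k hk r => ?_⟩
    have h1 : kap (2 * k + p) ≤ kap (2 * k₀ + p) := by
      have := kap_ext (k - k₀) (2 * k₀ + p)
      rwa [show k - k₀ + (k - k₀ + (2 * k₀ + p)) = 2 * k + p by omega] at this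
    have h2 : (⨅ k, kap (2 * k + p)) ≤ kap (r + (r + (2 * k + p))) := by
      have := ciInf_le hb (k + r)
      rwa [show 2 * (k + r) + p = r + (r + (2 * k + p)) by ring] at this
    linarith
  obtain ⟨a, ha⟩ := key 0
  obtain ⟨b, hb⟩ := key 1
  refine ⟨2 * a + 2 * b + 2, fun n hn r => ?_⟩
  rcases Nat.even_or_odd n with ⟨k, hk⟩ | ⟨k, hk⟩
  · have := ha k (by omega) r
    rwa [show 2 * k + 0 = n by omega] at this
  · have := hb k (by omega) r
    rwa [show 2 * k + 1 = n by omega] at this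

lemma eps_le : 180 * (10 : ℝ) ^ 6 * Real.exp (-((10 : ℝ) ^ 2 / 2)) ≤ 1 / 10 ^ 6 := by
  have h1 : (2 : ℝ) ^ 50 ≤ Real.exp 50 := by
    have h2 : (2 : ℝ) ≤ Real.exp 1 := by
      have := Real.add_one_le_exp (1 : ℝ)
      linarith
    calc (2 : ℝ) ^ 50 ≤ Real.exp 1 ^ 50 := pow_le_pow_left₀ (by norm_num) h2 50
      _ = Real.exp 50 := by rw [← Real.exp_nat_mul]; norm_num
  have h3 : Real.exp (-((10 : ℝ) ^ 2 / 2)) ≤ 1 / 2 ^ 50 := by
    rw [show -((10 : ℝ) ^ 2 / 2) = -50 by norm_num, Real.exp_neg, ← one_div]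
    exact one_div_le_one_div_of_le (by positivity) h1
  calc 180 * (10 : ℝ) ^ 6 * Real.exp (-((10 : ℝ) ^ 2 / 2)) ≤ 180 * (10 : ℝ) ^ 6 * (1 / 2 ^ 50) :=
        mul_le_mul_of_nonneg_left h3 (by positivity)
    _ ≤ 1 / 10 ^ 6 := by norm_num

lemma two_pow_exp (k : ℕ) : (2 : ℝ) ^ k = Real.exp (k * Real.log 2) := by
  rw [mul_comm, Real.exp_mul, Real.exp_log two_pos, Real.rpow_natCast]

lemma exists_big (c : ℝ) (hc : 0 < c) : ∃ m₂ : ℕ, ∀ m : ℕ, m₂ ≤ m →
    2 * (m : ℝ) + 65 ≤ c * 2 ^ m := by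
  have h1 := tendsto_pow_const_div_const_pow_of_one_lt 1 (show (1 : ℝ) < 2 by norm_num)
  have h2 := (tendsto_order.1 h1).2 (c / 67) (by positivity)
  obtain ⟨a, ha⟩ := Filter.eventually_atTop.1 h2
  refine ⟨max a 1, fun m hm => ?_⟩
  have h3 := ha m (le_of_max_le_left hm)
  have h4 : (1 : ℝ) ≤ m := by exact_mod_cast le_of_max_le_right hm
  rw [pow_one, div_lt_iff₀ (by positivity)] at h3
  nlinarith

/-- the binomial coefficient -/
lemma choose_big {m i s nn : ℕ} (hm : 2 ^ m = 2 * nn) (hnn : 1 ≤ nn) (hs : i + s = nn) :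
    Real.exp ((2 : ℝ) ^ m * Real.log 2 - (s : ℝ) ^ 2 / (nn - s + 1)) ≤
      Real.exp (m + 1) * ((2 ^ m).choose i : ℝ) := by
  have h1 := cb_lower_real nn hnn
  have h2 := choose_lower nn s (by omega)
  rw [show nn - s = i by omega, ← hm] at h2
  rw [← hm] at h1
  have h3 : (4 : ℝ) ^ nn = Real.exp ((2 : ℝ) ^ m * Real.log 2) := by
    have h4 := two_pow_exp (2 ^ m)
    push_cast at h4
    rw [← h4, hm, pow_mul]
    norm_num
  have hm' : (2 : ℝ) ^ m = 2 * nn := by exact_mod_cast hm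
  have h5 : 2 * √(nn : ℝ) ≤ Real.exp (m + 1) := by
    have h6 : (1 : ℝ) ≤ nn := by exact_mod_cast hnn
    have h7 : √(nn : ℝ) ≤ nn := by
      rw [Real.sqrt_le_left (by linarith)]
      nlinarith
    have h8 : (2 : ℝ) ^ (m + 1) ≤ Real.exp (m + 1) := by
      have h9 : (2 : ℝ) ≤ Real.exp 1 := by
        have := Real.add_one_le_exp (1 : ℝ)
        linarith
      calc (2 : ℝ) ^ (m + 1) ≤ Real.exp 1 ^ (m + 1) := pow_le_pow_left₀ (by norm_num) h9 _
        _ = Real.exp (m + 1) := by rw [← Real.exp_nat_mul]; push_cast; rw [mul_one]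
    rw [pow_succ, hm'] at h8
    linarith
  have hpos : 0 < Real.exp (-((s : ℝ) ^ 2 / (nn - s + 1))) := Real.exp_pos _
  have hsq : 0 ≤ √(nn : ℝ) := Real.sqrt_nonneg _
  have h9 : Real.exp ((2 : ℝ) ^ m * Real.log 2 - (s : ℝ) ^ 2 / (nn - s + 1)) =
      (4 : ℝ) ^ nn * Real.exp (-((s : ℝ) ^ 2 / (nn - s + 1))) := by
    rw [h3, ← Real.exp_add]
    congr 1
  rw [h9]
  have h10 : (4 : ℝ) ^ nn * Real.exp (-((s : ℝ) ^ 2 / (nn - s + 1))) ≤
      (2 * √(nn : ℝ) * ((2 ^ m).choose nn : ℝ)) * Real.exp (-((s : ℝ) ^ 2 / (nn - s + 1))) :=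
    mul_le_mul_of_nonneg_right h1 hpos.le
  have h11 : (2 * √(nn : ℝ)) * (((2 ^ m).choose nn : ℝ) *
      Real.exp (-((s : ℝ) ^ 2 / (nn - s + 1)))) ≤ (2 * √(nn : ℝ)) * ((2 ^ m).choose i : ℝ) :=
    mul_le_mul_of_nonneg_left h2 (by positivity)
  rw [← mul_assoc] at h11
  exact h10.trans (h11.trans (mul_le_mul_of_nonneg_right h5 (Nat.cast_nonneg _)))

/-- Many cosets of each weight up to `δ √N` below the covering radius. -/
theorem near_top (δ : ℝ) (h0 : 0 < δ) (h1 : δ ≤ 1) :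
    ∃ m₁ : ℕ, ∀ m : ℕ, m₁ ≤ m → ∀ i j : ℕ, leaderCount m j ≠ 0 → 2 ^ m ≤ 4 * i →
      (i : ℝ) + δ * √((2 : ℝ) ^ m) ≤ j →
        (2 : ℝ) ^ (δ ^ 2 * 2 ^ m / 60) ≤ leaderCount m i := by
  have hδ2 : 0 < δ ^ 2 := by positivity
  obtain ⟨r, hr1, hr2⟩ : ∃ r : ℕ, 100 ≤ (2 : ℝ) ^ r * (361 / 100 * δ ^ 2) ∧
      (2 : ℝ) ^ r * (361 / 100 * δ ^ 2) ≤ 200 := by
    have hex : ∃ r : ℕ, 100 ≤ (2 : ℝ) ^ r * (361 / 100 * δ ^ 2) := by
      obtain ⟨r, hr⟩ := pow_unbounded_of_one_lt (100 / (361 / 100 * δ ^ 2))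
        (show (1 : ℝ) < 2 by norm_num)
      refine ⟨r, ?_⟩
      rw [div_lt_iff₀ (by positivity)] at hr
      exact hr.le
    classical
    refine ⟨Nat.find hex, Nat.find_spec hex, ?_⟩
    have h2 : Nat.find hex ≠ 0 := by
      intro h
      have := Nat.find_spec hex
      rw [h, pow_zero] at this
      nlinarith
    obtain ⟨k, hk⟩ := Nat.exists_eq_succ_of_ne_zero h2
    have h3 := Nat.find_min hex (m := k) (by omega)
    rw [hk, pow_succ]
    push Not at h3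
    nlinarith
  obtain ⟨n₀, hn₀⟩ := kap_near (δ / 10) (by positivity)
  obtain ⟨m₂, hm₂⟩ := exists_big (9 / 10000 * δ ^ 2) (by positivity)
  refine ⟨n₀ + 2 * r + m₂ + 12, fun m hm i j hj hi4 hij => ?_⟩
  have hbig := hm₂ m (by omega)
  obtain ⟨n, hn⟩ : ∃ n, m = r + (r + n) := ⟨m - 2 * r, by omega⟩
  have hkap := hn₀ n (by omega) r
  rw [← hn] at hkap
  have hkj := kap_le m hj
  obtain ⟨N, hN⟩ : ∃ N, N = (2 : ℝ) ^ m := ⟨_, rfl⟩
  obtain ⟨q, hq⟩ : ∃ q, q = √((2 : ℝ) ^ m) := ⟨_, rfl⟩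
  obtain ⟨P, hP⟩ : ∃ P, P = (2 : ℝ) ^ (r + n) := ⟨_, rfl⟩
  have hP0 : 0 < P := by rw [hP]; positivity
  have hNP : N = 2 ^ r * P := by rw [hN, hP, ← pow_add, hn]
  have hN12 : (4096 : ℝ) ≤ N := by
    rw [hN]
    calc (4096 : ℝ) = 2 ^ 12 := by norm_num
      _ ≤ 2 ^ m := pow_le_pow_right₀ (by norm_num) (by omega)
  have hN0 : 0 < N := by linarith
  have hq2 : q ^ 2 = N := by rw [hq, hN]; exact Real.sq_sqrt (by positivity)
  have hq0 : 0 < q := by rw [hq]; exact sqrt_pos m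
  have hq50 : 50 ≤ q :=
    (pow_le_pow_iff_left₀ (by norm_num) hq0.le two_ne_zero).1 (by rw [hq2]; linarith)
  have hqN : 50 * q ≤ N := by
    rw [← hq2, sq]
    exact mul_le_mul_of_nonneg_right hq50 hq0.le
  rw [← hq] at hij hkj
  rw [← hN] at hkj hbig
  rw [← hN]
  -- the number of cosets of weight at least `i`
  obtain ⟨h, hh⟩ := mx_spec n
  have hT : ∀ a, |(walsh h a : ℝ)| ≤ (mx n : ℝ) := by
    intro a
    have := (Int.cast_le (R := ℝ)).2 (hh a)
    push_cast at this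
    exact this
  have hmx : (2 : ℝ) ^ r * (mx n : ℝ) = kap n * q := by
    rw [← kap_mul n, hq, hn, sqrt_split]; ring
  have hPs : 10 * √P ≤ 19 / 10 * δ * q := by
    have h3 : (10 * √P) ^ 2 ≤ (19 / 10 * δ * q) ^ 2 := by
      have e1 : (10 * √P) ^ 2 = 100 * P := by
        rw [mul_pow, Real.sq_sqrt hP0.le]; norm_num
      have e2 : (19 / 10 * δ * q) ^ 2 = 2 ^ r * (361 / 100 * δ ^ 2) * P := by
        rw [mul_pow, mul_pow, hq2, hNP]; ring
      rw [e1, e2]
      exact mul_le_mul_of_nonneg_right hr1 hP0.le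
    exact (pow_le_pow_iff_left₀ (by positivity) (by positivity) two_ne_zero).1 h3
  have hi2 : 2 * (i : ℝ) ≤ N - kap n * q - 10 * √P := by
    have h3 : kap n * q ≤ (kap m + δ / 10) * q := mul_le_mul_of_nonneg_right hkap hq0.le
    rw [add_mul] at h3
    linarith
  have hiN : 2 * (i : ℝ) ≤ N := by
    have h3 : 0 ≤ kap n * q := mul_nonneg (kap_nonneg n) hq0.le
    have h4 : 0 ≤ √P := Real.sqrt_nonneg _
    linarith
  have hheavy := heavy_glue (r := r) h (mx n) hT 10 le_rfl i (by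
    rw [← hn, ← hN, hmx, ← hP]; exact hi2)
  rw [← hn, ← hP] at hheavy
  have heps : 180 * P * 10 ^ 6 * Real.exp (-((10 : ℝ) ^ 2 / 2)) ≤ P / 10 ^ 6 := by
    have := mul_le_mul_of_nonneg_left eps_le hP0.le
    calc _ = P * (180 * 10 ^ 6 * Real.exp (-((10 : ℝ) ^ 2 / 2))) := by ring
      _ ≤ P * (1 / 10 ^ 6) := this
      _ = P / 10 ^ 6 := by ring
  have hepsN : 180 * N * 10 ^ 6 * Real.exp (-((10 : ℝ) ^ 2 / 2)) ≤ N / 10 ^ 6 := by
    have := mul_le_mul_of_nonneg_left eps_le hN0.le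
    calc _ = N * (180 * 10 ^ 6 * Real.exp (-((10 : ℝ) ^ 2 / 2))) := by ring
      _ ≤ N * (1 / 10 ^ 6) := this
      _ = N / 10 ^ 6 := by ring
  -- the binomial coefficient
  obtain ⟨nn, hnn⟩ : ∃ nn, 2 ^ m = 2 * nn := by
    refine ⟨2 ^ (m - 1), ?_⟩
    rw [← pow_succ']
    congr 1
    omega
  have hnnR : N = 2 * (nn : ℝ) := by rw [hN]; exact_mod_cast hnn
  have hile : i ≤ nn := by
    have : (i : ℝ) ≤ nn := by linarith
    exact_mod_cast this
  obtain ⟨s, hs⟩ := Nat.exists_eq_add_of_le hile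
  have hnn1 : 1 ≤ nn := by
    have : (1 : ℝ) ≤ nn := by linarith
    exact_mod_cast this
  have hsR : (i : ℝ) + s = nn := by exact_mod_cast hs.symm
  have hch := choose_big hnn hnn1 hs.symm
  rw [← hN] at hch
  have hs4 : (s : ℝ) ≤ nn / 2 := by
    have h3 : (2 * nn : ℝ) ≤ 4 * i := by
      rw [hnn] at hi4
      exact_mod_cast hi4
    linarith
  have hs0 : (0 : ℝ) ≤ s := Nat.cast_nonneg s
  have hl1 := Real.log_two_gt_d9
  have hl2 := Real.log_two_lt_d9
  have h2m1 : (2 : ℝ) ^ (m + 1) ≤ Real.exp (m + 1) := by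
    have h9 : (2 : ℝ) ≤ Real.exp 1 := by
      have := Real.add_one_le_exp (1 : ℝ)
      linarith
    calc (2 : ℝ) ^ (m + 1) ≤ Real.exp 1 ^ (m + 1) := pow_le_pow_left₀ (by norm_num) h9 _
      _ = Real.exp (m + 1) := by rw [← Real.exp_nat_mul]; push_cast; rw [mul_one]
  obtain ⟨X, hX⟩ : ∃ X : ℝ, X = leaderCount m i := ⟨_, rfl⟩
  have hX0 : 0 ≤ X := by rw [hX]; exact Nat.cast_nonneg _
  rw [← hX]
  -- both cases
  have hgoal : ∀ L : ℝ, Real.exp L ≤ X * (Real.exp (m + 1) * Real.exp (m + 1)) →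
      Real.log 2 * (δ ^ 2 * N / 60) ≤ L - 2 * m - 2 → (2 : ℝ) ^ (δ ^ 2 * N / 60) ≤ X := by
    intro L hL hL2
    rw [Real.rpow_def_of_pos two_pos]
    rw [← Real.exp_add] at hL
    have h3 : Real.exp (L - (m + 1 + (m + 1))) ≤ X := by
      rw [Real.exp_sub, div_le_iff₀ (Real.exp_pos _)]
      exact hL
    refine le_trans (Real.exp_le_exp.2 ?_) h3
    linarith
  by_cases hcase : N - 2 * (i : ℝ) ≤ 10 * q
  · -- near the middle
    have hE : (s : ℝ) ^ 2 / (nn - s + 1) ≤ 63 := by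
      have h3 : (s : ℝ) ≤ 5 * q := by linarith
      have hs2 : (s : ℝ) ^ 2 ≤ 25 * N := by
        calc (s : ℝ) ^ 2 ≤ (5 * q) ^ 2 := pow_le_pow_left₀ hs0 h3 2
          _ = 25 * N := by rw [mul_pow, hq2]; norm_num
      rw [div_le_iff₀ (by linarith)]
      linarith
    have h4 : (heavyCount m i : ℝ) * ((2 ^ m).choose i : ℝ) ≤ X * 2 ^ (2 ^ m) := by
      rw [hX]
      exact_mod_cast count_ge_heavy (m := m) i
    have h5 : (2 : ℝ) ^ (2 ^ m) = Real.exp (N * Real.log 2) := by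
      rw [two_pow_exp, hN]; push_cast; rfl
    have h6 : (2 : ℝ) ^ (2 ^ (r + n)) = Real.exp (P * Real.log 2) := by
      rw [two_pow_exp, hP]; push_cast; rfl
    rw [h6, ← Real.exp_add] at hheavy
    rw [h5] at h4
    refine hgoal (P * Real.log 2 - P / 10 ^ 6 - 63) ?_ ?_
    · have h7 : Real.exp (P * Real.log 2 - P / 10 ^ 6) ≤ heavyCount m i * Real.exp (m + 1) := by
        refine le_trans (Real.exp_le_exp.2 ?_) (hheavy.trans ?_)
        · linarith
        · exact mul_le_mul_of_nonneg_left h2m1 (Nat.cast_nonneg _)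
      have h8 : Real.exp (N * Real.log 2 - 63) ≤ Real.exp (m + 1) * ((2 ^ m).choose i : ℝ) :=
        le_trans (Real.exp_le_exp.2 (by linarith)) hch
      have h9 := mul_le_mul h7 h8 (Real.exp_pos _).le
        (mul_nonneg (Nat.cast_nonneg _) (Real.exp_pos _).le)
      rw [← Real.exp_add] at h9
      have h10 : Real.exp (P * Real.log 2 - P / 10 ^ 6 + (N * Real.log 2 - 63)) =
          Real.exp (P * Real.log 2 - P / 10 ^ 6 - 63) * Real.exp (N * Real.log 2) := by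
        rw [← Real.exp_add]; congr 1; ring
      rw [h10] at h9
      refine le_of_mul_le_mul_right (h9.trans ?_) (Real.exp_pos (N * Real.log 2))
      calc (heavyCount m i : ℝ) * Real.exp (m + 1) *
            (Real.exp (m + 1) * ((2 ^ m).choose i : ℝ))
          = ((heavyCount m i : ℝ) * ((2 ^ m).choose i : ℝ)) *
            (Real.exp (m + 1) * Real.exp (m + 1)) := by ring
        _ ≤ (X * Real.exp (N * Real.log 2)) * (Real.exp (m + 1) * Real.exp (m + 1)) :=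
            mul_le_mul_of_nonneg_right h4 (by positivity)
        _ = X * (Real.exp (m + 1) * Real.exp (m + 1)) * Real.exp (N * Real.log 2) := by ring
    · have hPN : 361 / 20000 * (δ ^ 2 * N) ≤ P := by
        have h3 := mul_le_mul_of_nonneg_right hr2 hP0.le
        have e : 2 ^ r * (361 / 100 * δ ^ 2) * P = 361 / 100 * (δ ^ 2 * N) := by
          rw [hNP]; ring
        rw [e] at h3
        linarith
      have h3 : 0 < δ ^ 2 * N := by positivity
      have h5 : 0.69314 * P ≤ P * Real.log 2 := by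
        rw [mul_comm]
        exact mul_le_mul_of_nonneg_left (by linarith) hP0.le
      have h6 : Real.log 2 * (δ ^ 2 * N / 60) ≤ 0.69315 * (δ ^ 2 * N / 60) :=
        mul_le_mul_of_nonneg_right (by linarith) (by positivity)
      linarith
  · -- farther from the middle
    push Not at hcase
    have hE : (s : ℝ) ^ 2 / (nn - s + 1) ≤ N / 4 := by
      rw [div_le_iff₀ (by linarith)]
      have h3 : (s : ℝ) * s ≤ nn / 2 * (nn / 2) := mul_self_le_mul_self hs0 hs4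
      have h4 : (nn / 2 : ℝ) * (nn / 2) ≤ nn / 2 * (nn - s + 1) :=
        mul_le_mul_of_nonneg_left (by linarith) (by positivity)
      rw [sq, show N / 4 = (nn : ℝ) / 2 by rw [hnnR]; ring]
      exact h3.trans h4
    have h4 := count_lower (m := m) i 10 le_rfl (by rw [← hq, ← hN]; linarith)
    rw [← hN, ← hX] at h4
    refine hgoal (N * Real.log 2 - N / 4 - N / 10 ^ 6) ?_ ?_
    · have h7 : ((2 ^ m).choose i : ℝ) * Real.exp (-(N / 10 ^ 6)) ≤ X * Real.exp (m + 1) := by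
        refine le_trans (mul_le_mul_of_nonneg_left (Real.exp_le_exp.2 ?_) (Nat.cast_nonneg _))
          (h4.trans ?_)
        · linarith
        · exact mul_le_mul_of_nonneg_left h2m1 hX0
      have h8 : Real.exp (N * Real.log 2 - N / 4) ≤ Real.exp (m + 1) * ((2 ^ m).choose i : ℝ) :=
        le_trans (Real.exp_le_exp.2 (by linarith)) hch
      calc Real.exp (N * Real.log 2 - N / 4 - N / 10 ^ 6)
          = Real.exp (N * Real.log 2 - N / 4) * Real.exp (-(N / 10 ^ 6)) := by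
            rw [← Real.exp_add]; congr 1
        _ ≤ Real.exp (m + 1) * ((2 ^ m).choose i : ℝ) * Real.exp (-(N / 10 ^ 6)) :=
            mul_le_mul_of_nonneg_right h8 (Real.exp_pos _).le
        _ = Real.exp (m + 1) * (((2 ^ m).choose i : ℝ) * Real.exp (-(N / 10 ^ 6))) := by ring
        _ ≤ Real.exp (m + 1) * (X * Real.exp (m + 1)) :=
            mul_le_mul_of_nonneg_left h7 (Real.exp_pos _).le
        _ = X * (Real.exp (m + 1) * Real.exp (m + 1)) := by ring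
    · have h3 : 0 < δ ^ 2 * N := by positivity
      have h1' : δ ^ 2 ≤ 1 := pow_le_one₀ h0.le h1
      have h5 : δ ^ 2 * N ≤ N := mul_le_of_le_one_left hN0.le h1'
      have h6 : Real.log 2 * (δ ^ 2 * N / 60) ≤ 0.7 * (N / 60) := by
        refine mul_le_mul (by linarith) ?_ (by positivity) (by norm_num)
        linarith
      have h7 : 0.69 * N ≤ N * Real.log 2 := by
        rw [mul_comm]
        exact mul_le_mul_of_nonneg_left (by linarith) hN0.le
      have h8 : 9 / 10000 * δ ^ 2 * N ≤ 9 / 10000 * N := by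
        rw [mul_assoc]
        exact mul_le_mul_of_nonneg_left h5 (by norm_num)
      linarith

end Pool.Agent.RMC53
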