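import Pool.Agent.RMC53.Lower
import Pool.Agent.RMC53.LamC
import Pool.Agent.RMC53.Final

/-!
# Uniform bounds for the coset leader weight distribution
-/

set_option autoImplicit false

open Finset

namespace Pool.Agent.RMC53

open Pool.Agent.RMC Pool.Agent.RMC68

variable {m : ℕ}

lemma two_pow_le_exp (m : ℕ) : (2 : ℝ) ^ m ≤ Real.exp (0.7 * m) := by
  have h := Real.log_two_lt_d9
  have h1 : (2 : ℝ) ^ m = Real.exp (m * Real.log 2) := by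
    rw [Real.exp_nat_mul, Real.exp_log (by norm_num)]
  rw [h1]
  have h2 : (0 : ℝ) ≤ m := Nat.cast_nonneg m
  exact Real.exp_le_exp.2 (by nlinarith)

lemma lt_half {i : ℕ} (h : leaderCount m i ≠ 0) : 2 * i < 2 ^ m := by
  have hne : Nonempty {q : (Vec m → ZMod 2) ⧸ reedMuller m // leaderWeight q = i} := by
    rw [leaderCount] at h
    exact (Nat.card_ne_zero.1 h).1
  obtain ⟨q, hq⟩ := hne
  obtain ⟨f, rfl⟩ := (reedMuller m).mkQ_surjective q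
  by_contra hcon
  push Not at hcon
  have h1 := (leaderWeight_spec f).2
  have h2 : ∀ a, walsh f a = 0 := by
    intro a
    have g : ∀ b, sg b * walsh f a ≤ 0 := by
      intro b
      have h3 := norm_add_aff f a b
      have h4 := h1 a b
      rw [hq] at h4
      have h5 : (i : ℤ) ≤ hammingNorm (f + aff a b) := by exact_mod_cast h4
      have h6 : (2 : ℤ) ^ m ≤ 2 * i := by exact_mod_cast hcon
      linarith
    have g0 := g 0
    have g1 := g 1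
    rw [sg_zero, one_mul] at g0
    rw [sg_one, neg_one_mul] at g1
    linarith
  have h3 := parseval f
  have h4 : ∑ a : Vec m, walsh f a ^ 2 = 0 :=
    Finset.sum_eq_zero fun a _ => by rw [h2 a]; norm_num
  rw [h4] at h3
  have h5 : (0 : ℤ) < (2 ^ m) ^ 2 := by positivity
  omega

lemma B_le (M i : ℕ) : (B M i : ℝ) ≤ 2 * ((4 * M).choose i : ℝ) := by
  have h1 : ((4 * M).choose i : ℝ) = ∑ x ∈ range (i + 1), (A M i x : ℝ) := by
    have h2 := Nat.add_choose_eq (2 * M) (2 * M) i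
    rw [Finset.Nat.sum_antidiagonal_eq_sum_range_succ_mk] at h2
    have h3 : 2 * M + 2 * M = 4 * M := by ring
    rw [h3] at h2
    rw [h2]
    push_cast
    refine Finset.sum_congr rfl fun x _ => ?_
    rw [A]; push_cast; rfl
  rw [B_cast, h1, Finset.mul_sum]
  refine Finset.sum_le_sum fun x _ => ?_
  exact mul_le_mul_of_nonneg_right (w2_le_two M x) (Nat.cast_nonneg _)

lemma cube_pow (m : ℕ) (hm : 40 ≤ m) : 2000000 * m ^ 3 ≤ 2 ^ m := by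
  induction m, hm using Nat.le_induction with
  | base => norm_num
  | succ m hm ih =>
    have h1 : (m + 1) ^ 3 ≤ 2 * m ^ 3 := by nlinarith [sq_nonneg m]
    calc 2000000 * (m + 1) ^ 3 ≤ 2000000 * (2 * m ^ 3) := Nat.mul_le_mul_left _ h1
      _ = 2 * (2000000 * m ^ 3) := by ring
      _ ≤ 2 * 2 ^ m := Nat.mul_le_mul_left _ ih
      _ = 2 ^ (m + 1) := by ring

lemma cond_q {M : ℕ} (hM : 2 ^ m = 4 * M) (hm : 40 ≤ m) :
    8 * (4 * √(m : ℝ) + 2) ^ 3 ≤ √(M : ℝ) := by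
  have hm0 : (40 : ℝ) ≤ m := by exact_mod_cast hm
  have hr2 : √(m : ℝ) ^ 2 = m := Real.sq_sqrt (by linarith)
  obtain ⟨r, hr⟩ : ∃ r : ℝ, r = √(m : ℝ) := ⟨_, rfl⟩
  rw [← hr] at hr2 ⊢
  have hr0 : 0 ≤ r := by rw [hr]; exact Real.sqrt_nonneg _
  have hr6 : 6 ≤ r := by
    by_contra hcon
    push Not at hcon
    nlinarith
  have h1 : 2000000 * (m : ℝ) ^ 3 ≤ 2 ^ m := by exact_mod_cast cube_pow m hm
  have h2 : (2 : ℝ) ^ m = 4 * M := by exact_mod_cast hM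
  apply Real.le_sqrt_of_sq_le
  have h3 : 4 * r + 2 ≤ 4.4 * r := by linarith
  have h4 : (4 * r + 2) ^ 3 ≤ (4.4 * r) ^ 3 := pow_le_pow_left₀ (by positivity) h3 3
  have h5 : (8 * (4 * r + 2) ^ 3) ^ 2 ≤ (8 * (4.4 * r) ^ 3) ^ 2 :=
    pow_le_pow_left₀ (by positivity) (by linarith) 2
  refine h5.trans ?_
  have h6 : (8 * (4.4 * r) ^ 3) ^ 2 = 64 * 4.4 ^ 6 * (r ^ 2) ^ 3 := by ring
  rw [h6, hr2]
  have h7 : (0 : ℝ) ≤ (m : ℝ) ^ 3 := by positivity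
  norm_num
  nlinarith

/-- the parameter -/
noncomputable def Lm (m M i : ℕ) : ℝ := (2 ^ m - 1) * (B M i : ℝ) / ((2 ^ m).choose i : ℝ)

lemma Lm_nonneg (m M i : ℕ) : 0 ≤ Lm m M i := by
  have h1 : (1 : ℝ) ≤ 2 ^ m := one_le_pow₀ (by norm_num)
  have h2 : (0 : ℝ) ≤ B M i := by exact_mod_cast B_nonneg M i
  rw [Lm]
  have h3 : (0 : ℝ) ≤ 2 ^ m - 1 := by linarith
  positivity

lemma far_small_term {M : ℕ} (hM : 2 ^ m = 4 * M) (hm : 40 ≤ m) :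
    (2 : ℝ) ^ m * (11 * M * Real.exp (-(2 * √(m : ℝ)) ^ 2)) ≤ 1 / 8 := by
  have hm0 : (40 : ℝ) ≤ m := by exact_mod_cast hm
  have h2 : (2 : ℝ) ^ m = 4 * M := by exact_mod_cast hM
  have h3 : (M : ℝ) = 2 ^ m / 4 := by linarith
  have h4 : (2 * √(m : ℝ)) ^ 2 = 4 * m := by rw [mul_pow, Real.sq_sqrt (by linarith)]; norm_num
  rw [h4, h3]
  have h5 := two_pow_le_exp m
  have h6 : (2 : ℝ) ^ m * (11 * (2 ^ m / 4) * Real.exp (-(4 * m))) ≤
      Real.exp (0.7 * m) * (11 * (Real.exp (0.7 * m) / 4) * Real.exp (-(4 * m))) := by gcongr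
  refine h6.trans ?_
  have h7 : Real.exp (0.7 * m) * (11 * (Real.exp (0.7 * m) / 4) * Real.exp (-(4 * (m : ℝ)))) =
      11 / 4 * Real.exp (-(2.6 * m)) := by
    have : Real.exp (-(2.6 * (m : ℝ))) =
        Real.exp (0.7 * m) * Real.exp (0.7 * m) * Real.exp (-(4 * m)) := by
      rw [← Real.exp_add, ← Real.exp_add]; congr 1; ring
    rw [this]; ring
  rw [h7, Real.exp_neg, ← div_eq_mul_inv, div_le_iff₀ (Real.exp_pos _)]
  have h8 := Real.add_one_le_exp (2.6 * (m : ℝ))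
  linarith

lemma near_small_term (hm : 40 ≤ m) (K : ℝ) (hK : 2 * √(m : ℝ) ≤ K) :
    (2 : ℝ) ^ m * (22 * (2 * √(m : ℝ)) * Real.exp (-(K ^ 2 / 2))) ≤ 1 / 8 := by
  have hm0 : (40 : ℝ) ≤ m := by exact_mod_cast hm
  have hr2 : √(m : ℝ) ^ 2 = m := Real.sq_sqrt (by linarith)
  have hr0 : 0 ≤ √(m : ℝ) := Real.sqrt_nonneg _
  have hrm : √(m : ℝ) ≤ m := by nlinarith [Real.one_le_sqrt.2 (show (1 : ℝ) ≤ m by linarith)]
  have h5 := two_pow_le_exp m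
  have hK2 : 4 * (m : ℝ) ≤ K ^ 2 := by nlinarith
  have h1 : Real.exp (-(K ^ 2 / 2)) ≤ Real.exp (-(2 * m)) := Real.exp_le_exp.2 (by linarith)
  have h6 : (2 : ℝ) ^ m * (22 * (2 * √(m : ℝ)) * Real.exp (-(K ^ 2 / 2))) ≤
      Real.exp (0.7 * m) * (22 * (2 * m) * Real.exp (-(2 * m))) := by gcongr
  refine h6.trans ?_
  have h7 : Real.exp (0.7 * m) * (22 * (2 * m) * Real.exp (-(2 * (m : ℝ)))) =
      44 * m * Real.exp (-(1.3 * m)) := by
    have : Real.exp (-(1.3 * (m : ℝ))) = Real.exp (0.7 * m) * Real.exp (-(2 * m)) := by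
      rw [← Real.exp_add]; congr 1; ring
    rw [this]; ring
  rw [h7, Real.exp_neg, ← div_eq_mul_inv, div_le_iff₀ (Real.exp_pos _)]
  have h8 := Real.pow_div_factorial_le_exp (1.3 * (m : ℝ)) (by positivity) 3
  have h9 : (1.3 * (m : ℝ)) ^ 3 / ((Nat.factorial 3 : ℕ) : ℝ) = 2.197 / 6 * m ^ 3 := by
    norm_num [Nat.factorial]; ring
  rw [h9] at h8
  have h10 : (1600 : ℝ) ≤ (m : ℝ) ^ 2 := by nlinarith
  have h11 : 1600 * (m : ℝ) ≤ (m : ℝ) ^ 3 := by nlinarith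
  linarith

/-- the critical distance -/
noncomputable def t0 (m M : ℕ) : ℕ := ⌈2 * √(m : ℝ) * √(M : ℝ)⌉₊

lemma t0_facts {M : ℕ} (hM : 2 ^ m = 4 * M) (hm : 40 ≤ m) :
    1 ≤ t0 m M ∧ t0 m M ≤ M ∧ 2 * √(m : ℝ) ≤ (t0 m M : ℝ) / √(M : ℝ) ∧
      (t0 m M : ℝ) / √(M : ℝ) ≤ 2 * √(m : ℝ) + 1 := by
  have hm0 : (40 : ℝ) ≤ m := by exact_mod_cast hm
  have hcq := cond_q hM hm
  have hr0 : 0 ≤ √(m : ℝ) := Real.sqrt_nonneg _
  have hr1 : 1 ≤ √(m : ℝ) := Real.one_le_sqrt.2 (by linarith)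
  have ha3 := cube_ge (4 * √(m : ℝ) + 2) (by linarith)
  have hq1 : 8 * (4 * √(m : ℝ) + 2) ≤ √(M : ℝ) := by linarith
  have hM1 : 1 ≤ M := by
    rcases Nat.eq_zero_or_pos M with h | h
    · rw [h] at hM; have : 0 < 2 ^ m := by positivity
      omega
    · exact h
  have hM0 : (0 : ℝ) < M := by exact_mod_cast hM1
  have hq2 : √(M : ℝ) ^ 2 = M := Real.sq_sqrt hM0.le
  have hq0 : 0 < √(M : ℝ) := Real.sqrt_pos.2 hM0
  have hc1 : 2 * √(m : ℝ) * √(M : ℝ) ≤ t0 m M := Nat.le_ceil _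
  have hc2 : (t0 m M : ℝ) < 2 * √(m : ℝ) * √(M : ℝ) + 1 := Nat.ceil_lt_add_one (by positivity)
  refine ⟨?_, ?_, ?_, ?_⟩
  · have : (0 : ℝ) < t0 m M := lt_of_lt_of_le (by positivity) hc1
    exact_mod_cast this
  · have : (t0 m M : ℝ) ≤ M := by nlinarith
    exact_mod_cast this
  · rw [le_div_iff₀ hq0]; exact hc1
  · rw [div_le_iff₀ hq0]; nlinarith

/-- the parameter at the critical distance is small -/
lemma Lm_t0 {M : ℕ} (hM : 2 ^ m = 4 * M) (hm : 40 ≤ m) :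
    Lm m M (2 * M - t0 m M) ≤ 1 / 4 := by
  have hm0 : (40 : ℝ) ≤ m := by exact_mod_cast hm
  obtain ⟨h1, h2, h3, h4⟩ := t0_facts hM hm
  have hM1 : 1 ≤ M := by omega
  have hM0 : (0 : ℝ) < M := by exact_mod_cast hM1
  have hq0 : 0 < √(M : ℝ) := Real.sqrt_pos.2 hM0
  have hr1 : 1 ≤ √(m : ℝ) := Real.one_le_sqrt.2 (by linarith)
  have hcq := cond_q hM hm
  have hcond : 8 * ((t0 m M : ℝ) / √(M : ℝ) + 2 * √(m : ℝ)) ^ 3 ≤ √(M : ℝ) := by
    refine le_trans ?_ hcq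
    have : ((t0 m M : ℝ) / √(M : ℝ) + 2 * √(m : ℝ)) ^ 3 ≤ (4 * √(m : ℝ) + 2) ^ 3 :=
      pow_le_pow_left₀ (by positivity) (by linarith) 3
    linarith
  have hB := B_upper M (t0 m M) hM1 h1 ((t0 m M : ℝ) / √(M : ℝ)) (2 * √(m : ℝ)) (by positivity)
    (by linarith) (by field_simp) hcond
  have hC0 : (0 : ℝ) < ((4 * M).choose (2 * M - t0 m M) : ℝ) := by
    exact_mod_cast Nat.choose_pos (by omega)
  have h2m : (1 : ℝ) ≤ 2 ^ m := one_le_pow₀ (by norm_num)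
  rw [Lm, hM, div_le_iff₀ hC0]
  have hn1 := near_small_term hm _ h3
  have hn2 := far_small_term hM hm
  obtain ⟨C, hC⟩ : ∃ C : ℝ, C = ((4 * M).choose (2 * M - t0 m M) : ℝ) := ⟨_, rfl⟩
  rw [← hC] at hB hC0 ⊢
  obtain ⟨X, hX⟩ : ∃ X : ℝ, X = 22 * (2 * √(m : ℝ)) *
    Real.exp (-(((t0 m M : ℝ) / √(M : ℝ)) ^ 2 / 2)) := ⟨_, rfl⟩
  obtain ⟨Y, hY⟩ : ∃ Y : ℝ, Y = 11 * M * Real.exp (-(2 * √(m : ℝ)) ^ 2) := ⟨_, rfl⟩
  rw [← hX] at hn1
  rw [← hY] at hn2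
  have hB2 : (B M (2 * M - t0 m M) : ℝ) ≤ C * (X + Y) := by
    rw [hX, hY]
    refine hB.trans (le_of_eq ?_)
    ring
  have hX0 : 0 ≤ X := by rw [hX]; positivity
  have hY0 : 0 ≤ Y := by rw [hY]; positivity
  calc ((2 : ℝ) ^ m - 1) * (B M (2 * M - t0 m M) : ℝ)
      ≤ ((2 : ℝ) ^ m - 1) * (C * (X + Y)) := mul_le_mul_of_nonneg_left hB2 (by linarith)
    _ ≤ (2 : ℝ) ^ m * (C * (X + Y)) := by
        refine mul_le_mul_of_nonneg_right (by linarith) (by positivity)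
    _ = C * ((2 : ℝ) ^ m * X + (2 : ℝ) ^ m * Y) := by ring
    _ ≤ C * (1 / 8 + 1 / 8) := mul_le_mul_of_nonneg_left (by linarith) hC0.le
    _ = 1 / 4 * C := by ring

/-- far from the middle the parameter is at most `1/2` -/
lemma Lm_far {M i : ℕ} (hM : 2 ^ m = 4 * M) (hm : 40 ≤ m) (hi : i ≤ 2 * M - t0 m M) :
    Lm m M i ≤ 1 / 2 := by
  obtain ⟨h1, h2, _, _⟩ := t0_facts hM hm
  have hM1 : 1 ≤ M := by omega
  have hsmall := Lm_t0 hM hm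
  have b1 := (bounds hM hM1 (show 2 * M - t0 m M < 2 * M by omega) _ _ rfl rfl).1
  have b2 := (bounds hM hM1 (show i < 2 * M by omega) _ _ rfl rfl).2.1
  have hr : (leaderCount m (2 * M - t0 m M) : ℝ) * ((2 ^ m).choose i : ℝ) ≤
      leaderCount m i * ((2 ^ m).choose (2 * M - t0 m M) : ℝ) := by
    exact_mod_cast ratio_anti (m := m) hi (by omega)
  have hc1 : (0 : ℝ) < ((2 ^ m).choose i : ℝ) := by exact_mod_cast Nat.choose_pos (by omega)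
  have hc2 : (0 : ℝ) < ((2 ^ m).choose (2 * M - t0 m M) : ℝ) := by
    exact_mod_cast Nat.choose_pos (by omega)
  have hL0 := Lm_nonneg m M i
  rw [← Lm] at b1 b2
  rw [le_div_iff₀ (by linarith)] at b2
  obtain ⟨c, hc⟩ : ∃ c : ℝ, c = ((2 ^ m).choose i : ℝ) := ⟨_, rfl⟩
  obtain ⟨c', hc'⟩ : ∃ c' : ℝ, c' = ((2 ^ m).choose (2 * M - t0 m M) : ℝ) := ⟨_, rfl⟩
  obtain ⟨a, ha⟩ : ∃ a : ℝ, a = (leaderCount m i : ℝ) := ⟨_, rfl⟩
  obtain ⟨a', ha'⟩ : ∃ a' : ℝ, a' = (leaderCount m (2 * M - t0 m M) : ℝ) := ⟨_, rfl⟩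
  rw [← hc, ← ha] at b2
  rw [← hc', ← ha'] at b1
  rw [← hc, ← hc', ← ha, ← ha'] at hr
  rw [← hc] at hc1
  rw [← hc'] at hc2
  -- c' (3/4) ≤ a', a' c ≤ a c', a (1 + l) ≤ c
  have e1 : 3 / 4 * c' ≤ a' := by nlinarith
  have e2 : 3 / 4 * c ≤ a := by
    have : 3 / 4 * c * c' ≤ a * c' := by nlinarith
    exact le_of_mul_le_mul_right this hc2
  have e3 : 3 / 4 * c * (1 + Lm m M i) ≤ c := by nlinarith
  have e4 : 3 / 4 * (1 + Lm m M i) ≤ 1 := by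
    have : c * (3 / 4 * (1 + Lm m M i)) ≤ c * 1 := by linarith
    exact le_of_mul_le_mul_left this hc1
  linarith

lemma exp_neg_two_le (l : ℝ) (h0 : 0 ≤ l) (h1 : l ≤ 1 / 2) : Real.exp (-(2 * l)) ≤ 1 - l := by
  rw [Real.exp_neg, inv_le_comm₀ (Real.exp_pos _) (by linarith)]
  have h2 := Real.add_one_le_exp (2 * l)
  have h3 : (1 - l)⁻¹ ≤ 1 + 2 * l := by
    rw [inv_le_comm₀ (by linarith) (by linarith), inv_le_iff_one_le_mul₀ (by linarith)]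
    nlinarith
  linarith

lemma exp_55 : Real.exp 55 ≤ 10 ^ 24 := by
  have h1 : Real.exp 55 = Real.exp 1 ^ 55 := by rw [← Real.exp_nat_mul]; norm_num
  have h2 := Real.exp_one_lt_d9
  rw [h1]
  calc Real.exp 1 ^ 55 ≤ (2.7183 : ℝ) ^ 55 :=
        pow_le_pow_left₀ (Real.exp_pos _).le (by linarith) 55
    _ ≤ 10 ^ 24 := by norm_num

lemma exp_5 : Real.exp 5 ≤ 150 := by
  have h1 : Real.exp 5 = Real.exp 1 ^ 5 := by rw [← Real.exp_nat_mul]; norm_num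
  have h2 := Real.exp_one_lt_d9
  rw [h1]
  calc Real.exp 1 ^ 5 ≤ (2.7183 : ℝ) ^ 5 :=
        pow_le_pow_left₀ (Real.exp_pos _).le (by linarith) 5
    _ ≤ 150 := by norm_num

end Pool.Agent.RMC53
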